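import Mathlib

/-!
# [H43 SI MVT] Mean value theorem for Dirichlet polynomials

`∫_{-T}^{T} |Σ_{n<=N} a_n n^(-it)|^2 dt <= C (T+N) Σ |a_n|^2` for `T >= 1`, `N >= 1`.

PROOF. `1 <= e exp(-t^2/T^2)` for `|t| <= T`, so the left side is at most
`e ∫_ℝ exp(-t^2/T^2) |Σ a_n n^(-it)|^2 dt = e Σ_{m,n} a_m conj(a_n) ∫ exp(-t^2/T^2) exp(-i t log(m/n)) dt`
`= e Σ_{m,n} a_m conj(a_n) sqrt(π) T exp(-T^2 log^2(m/n)/4)`
(`integral_cexp_quadratic`, `fourierIntegral_gaussian`), absolutely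
`<= e sqrt(π) T Σ_{m,n} (|a_m|^2+|a_n|^2)/2 * exp(-T^2 log^2(m/n)/4)
 = e sqrt(π) T Σ_m |a_m|^2 Σ_n exp(-T^2 log^2(m/n)/4)`.
Since `|log(m/n)| >= |m-n|/max(m,n) >= |m-n|/N`, the inner sum is
`<= 1 + 2 Σ_{h>=1} exp(-(Th/(2N))^2) <= 1 + 2 ∫_0^∞ exp(-(Tu/(2N))^2) du = 1 + 2 sqrt(π) N/T`
(or compare with `Σ_h 1/(1+x^2h^2)`, `exp(-x) <= 1/(1+x)`, `Σ_{h>=1} 1/(1+x^2h^2) <= ∫_0^∞ = π/(2x)`).
-/

namespace Pool.Agent.H43.SI

open Finset

private theorem tele (x : ℝ) (hx : 0 < x) (H : ℕ) :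
    ∑ i ∈ range H, 1 / (1 + (x * ((i + 1 : ℕ) : ℝ)) ^ 2) ≤ 2 / x * (1 - 1 / (1 + x * H)) := by
  induction H with
  | zero => simp
  | succ H ih =>
    rw [Finset.sum_range_succ]
    have hH : (0 : ℝ) ≤ H := Nat.cast_nonneg H
    have p1 : 0 < 1 + x * (H : ℝ) := by positivity
    have p2 : 0 < 1 + x * ((H : ℝ) + 1) := by positivity
    have h1 : 1 / (1 + (x * ((H + 1 : ℕ) : ℝ)) ^ 2) ≤
        2 / x * (1 / (1 + x * H) - 1 / (1 + x * ((H + 1 : ℕ) : ℝ))) := by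
      push_cast
      have h2 : 2 / x * (1 / (1 + x * (H : ℝ)) - 1 / (1 + x * ((H : ℝ) + 1))) =
          2 / ((1 + x * (H : ℝ)) * (1 + x * ((H : ℝ) + 1))) := by
        field_simp
        ring
      rw [h2, div_le_div_iff₀ (by positivity) (by positivity)]
      nlinarith [mul_nonneg hx.le hH, sq_nonneg (x * ((H : ℝ) + 1) - 1), hx.le]
    calc _ ≤ 2 / x * (1 - 1 / (1 + x * H)) +
          2 / x * (1 / (1 + x * H) - 1 / (1 + x * ((H + 1 : ℕ) : ℝ))) := add_le_add ih h1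
      _ = _ := by ring

private theorem tele' (x : ℝ) (hx : 0 < x) (H : ℕ) :
    ∑ i ∈ range (H + 1), 1 / (1 + (x * (i : ℝ)) ^ 2) ≤ 1 + 2 / x := by
  rw [Finset.sum_range_succ']
  have h1 := tele x hx H
  have h2 : 2 / x * (1 - 1 / (1 + x * H)) ≤ 2 / x := by
    have : 0 ≤ 1 / (1 + x * (H : ℝ)) := by positivity
    have h3 : 0 < 2 / x := by positivity
    nlinarith
  have h4 : 1 / (1 + (x * ((0 : ℕ) : ℝ)) ^ 2) = 1 := by simp
  rw [h4]
  linarith

/-- the row sum over distances -/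
private theorem row (x : ℝ) (hx : 0 < x) (N m : ℕ) (hm : m ∈ Icc 1 N) :
    ∑ n ∈ Icc 1 N, 1 / (1 + (x * ((n : ℝ) - m)) ^ 2) ≤ 2 * (1 + 2 / x) := by
  have h1 : ∀ n ∈ Icc 1 N, Nat.dist n m ∈ range (N + 1) := by
    intro n hn
    rw [Finset.mem_Icc] at hn hm
    rw [Finset.mem_range]
    unfold Nat.dist
    omega
  rw [← Finset.sum_fiberwise_of_maps_to h1]
  have h2 : ∀ h ∈ range (N + 1), ∑ n ∈ (Icc 1 N).filter (fun n => Nat.dist n m = h),
      1 / (1 + (x * ((n : ℝ) - m)) ^ 2) ≤ 2 * (1 / (1 + (x * (h : ℝ)) ^ 2)) := by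
    intro h _
    have h3 : ∀ n ∈ (Icc 1 N).filter (fun n => Nat.dist n m = h),
        1 / (1 + (x * ((n : ℝ) - m)) ^ 2) = 1 / (1 + (x * (h : ℝ)) ^ 2) := by
      intro n hn
      have h4 := (Finset.mem_filter.mp hn).2
      have h5 : (x * ((n : ℝ) - m)) ^ 2 = (x * (h : ℝ)) ^ 2 := by
        rw [← h4]
        unfold Nat.dist
        rcases le_total n m with hnm | hnm
        · have : n - m + (m - n) = m - n := by omega
          rw [this, Nat.cast_sub hnm]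
          ring
        · have : n - m + (m - n) = n - m := by omega
          rw [this, Nat.cast_sub hnm]
      rw [h5]
    rw [Finset.sum_congr rfl h3, Finset.sum_const, nsmul_eq_mul]
    apply mul_le_mul_of_nonneg_right _ (by positivity)
    have h6 : ((Icc 1 N).filter (fun n => Nat.dist n m = h)) ⊆ {m - h, m + h} := by
      intro n hn
      have h4 := (Finset.mem_filter.mp hn).2
      unfold Nat.dist at h4
      rw [Finset.mem_insert, Finset.mem_singleton]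
      omega
    have h7 := (Finset.card_le_card h6).trans (Finset.card_insert_le _ _)
    rw [Finset.card_singleton] at h7
    exact_mod_cast h7
  refine (Finset.sum_le_sum h2).trans ?_
  rw [← Finset.mul_sum]
  exact mul_le_mul_of_nonneg_left (tele' x hx N) (by norm_num)

private theorem log_dist {N m n : ℕ} (hm : m ∈ Icc 1 N) (hn : n ∈ Icc 1 N) :
    |(n : ℝ) - m| / N ≤ |Real.log m - Real.log n| := by
  rw [Finset.mem_Icc] at hm hn
  have key : ∀ a b : ℕ, 1 ≤ a → a ≤ b → b ≤ N → ((b : ℝ) - a) / N ≤ Real.log b - Real.log a := by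
    intro a b ha hab hb
    have ha0 : (0 : ℝ) < a := by exact_mod_cast ha
    have hb0 : (0 : ℝ) < b := by exact_mod_cast (lt_of_lt_of_le ha hab)
    have hab' : (a : ℝ) ≤ b := by exact_mod_cast hab
    have hbN : (b : ℝ) ≤ N := by exact_mod_cast hb
    have h1 := Real.one_sub_inv_le_log_of_pos (show 0 < (b : ℝ) / a by positivity)
    rw [Real.log_div hb0.ne' ha0.ne'] at h1
    refine le_trans ?_ h1
    rw [inv_div]
    calc ((b : ℝ) - a) / N ≤ ((b : ℝ) - a) / b :=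
          div_le_div_of_nonneg_left (by linarith) hb0 hbN
      _ = 1 - a / b := by rw [sub_div, div_self hb0.ne']
  have hN0 : (0 : ℝ) < N := by
    have : 1 ≤ N := hm.1.trans hm.2
    exact_mod_cast this
  rcases le_total m n with h | h
  · have h1 := key m n hm.1 h hn.2
    have h2 : (m : ℝ) ≤ n := by exact_mod_cast h
    rw [abs_of_nonneg (by linarith : (0 : ℝ) ≤ (n : ℝ) - m), abs_sub_comm]
    exact h1.trans (le_abs_self _)
  · have h1 := key n m hn.1 h hm.2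
    have h2 : (n : ℝ) ≤ m := by exact_mod_cast h
    rw [abs_sub_comm (n : ℝ) m, abs_of_nonneg (by linarith : (0 : ℝ) ≤ (m : ℝ) - n)]
    exact h1.trans (le_abs_self _)

open Complex in
/-- one frequency -/
private theorem gint (T L : ℝ) (hT : 1 ≤ T) :
    ‖∫ t : ℝ, cexp (-(1 / (T : ℂ) ^ 2) * (t : ℂ) ^ 2 + (-(I * L)) * t + 0)‖ =
      Real.sqrt Real.pi * T * Real.exp (-(T * L / 2) ^ 2) := by
  have hT0 : 0 < T := by linarith
  have hT' : (T : ℂ) ≠ 0 := by exact_mod_cast hT0.ne'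
  have hb : (-(1 / (T : ℂ) ^ 2)).re < 0 := by
    have : (-(1 / (T : ℂ) ^ 2)) = ((-(1 / T ^ 2) : ℝ) : ℂ) := by push_cast; ring
    rw [this, Complex.ofReal_re]
    have : 0 < 1 / T ^ 2 := by positivity
    linarith
  rw [integral_cexp_quadratic hb, norm_mul]
  congr 1
  · have h1 : ((Real.pi : ℂ) / -(-(1 / (T : ℂ) ^ 2))) = ((Real.pi * T ^ 2 : ℝ) : ℂ) := by
      push_cast
      field_simp
    rw [h1, Complex.norm_cpow_eq_rpow_re_of_pos (by positivity)]
    have h2 : (1 / 2 : ℂ).re = 1 / 2 := by norm_num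
    rw [h2, ← Real.sqrt_eq_rpow, Real.sqrt_mul (by positivity), Real.sqrt_sq hT0.le]
  · rw [Complex.norm_exp]
    congr 1
    have h3 : (0 - (-(I * (L : ℂ))) ^ 2 / (4 * -(1 / (T : ℂ) ^ 2))) =
        ((-(T * L / 2) ^ 2 : ℝ) : ℂ) := by
      push_cast
      have h4 : (-(I * (L : ℂ))) ^ 2 = -(L : ℂ) ^ 2 := by
        rw [neg_sq, mul_pow, I_sq]
        ring
      rw [h4]
      field_simp
      ring
    rw [h3, Complex.ofReal_re]

open Complex in
private theorem expand (N : ℕ) (T : ℝ) (a : ℕ → ℂ) (t : ℝ) :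
    ((Real.exp (-(t / T) ^ 2) * ‖∑ n ∈ Icc 1 N, a n * (n : ℂ) ^ (-((t : ℂ) * I))‖ ^ 2 : ℝ) : ℂ) =
    ∑ m ∈ Icc 1 N, ∑ n ∈ Icc 1 N, (a m * (starRingEnd ℂ) (a n)) *
      cexp (-(1 / (T : ℂ) ^ 2) * (t : ℂ) ^ 2 +
        (-(I * ((Real.log m - Real.log n : ℝ) : ℂ))) * t + 0) := by
  have h1 : ∀ n ∈ Icc 1 N, a n * (n : ℂ) ^ (-((t : ℂ) * I)) =
      a n * cexp (-(I * ((Real.log n : ℝ) : ℂ)) * t) := by
    intro n hn
    rw [Finset.mem_Icc] at hn
    have hn0 : (n : ℂ) ≠ 0 := by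
      have : n ≠ 0 := by omega
      exact_mod_cast this
    rw [Complex.cpow_def_of_ne_zero hn0]
    congr 2
    have h2 : Complex.log (n : ℂ) = ((Real.log n : ℝ) : ℂ) := by
      rw [← Complex.ofReal_natCast, ← Complex.ofReal_log (by positivity)]
    rw [h2]
    ring
  rw [Finset.sum_congr rfl h1]
  set S := ∑ n ∈ Icc 1 N, a n * cexp (-(I * ((Real.log n : ℝ) : ℂ)) * t) with hS
  have h3 : ((‖S‖ ^ 2 : ℝ) : ℂ) = S * (starRingEnd ℂ) S := by
    rw [Complex.mul_conj, Complex.normSq_eq_norm_sq]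
  have h4 : (starRingEnd ℂ) S = ∑ n ∈ Icc 1 N, (starRingEnd ℂ) (a n) *
      cexp ((I * ((Real.log n : ℝ) : ℂ)) * t) := by
    rw [hS, map_sum]
    refine Finset.sum_congr rfl fun n _ => ?_
    rw [map_mul, ← Complex.exp_conj]
    congr 2
    simp only [map_mul, map_neg, Complex.conj_I, Complex.conj_ofReal]
    ring
  rw [Complex.ofReal_mul, h3, h4, hS, Finset.sum_mul_sum, Finset.mul_sum]
  refine Finset.sum_congr rfl fun m _ => ?_
  rw [Finset.mul_sum]
  refine Finset.sum_congr rfl fun n _ => ?_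
  have h5 : ((Real.exp (-(t / T) ^ 2) : ℝ) : ℂ) = cexp (-(1 / (T : ℂ) ^ 2) * (t : ℂ) ^ 2) := by
    rw [Complex.ofReal_exp]
    congr 1
    push_cast
    ring
  rw [h5]
  have h6 : cexp (-(1 / (T : ℂ) ^ 2) * (t : ℂ) ^ 2 +
        (-(I * ((Real.log m - Real.log n : ℝ) : ℂ))) * t + 0) =
      cexp (-(1 / (T : ℂ) ^ 2) * (t : ℂ) ^ 2) * (cexp (-(I * ((Real.log m : ℝ) : ℂ)) * t) *
        cexp ((I * ((Real.log n : ℝ) : ℂ)) * t)) := by
    rw [← Complex.exp_add, ← Complex.exp_add]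
    congr 1
    push_cast
    ring
  rw [h6]
  ring

open MeasureTheory in
theorem mvt : ∃ C : ℝ, 0 < C ∧ ∀ (N : ℕ) (T : ℝ) (a : ℕ → ℂ), 1 ≤ N → 1 ≤ T →
    ∫ t in (-T)..T, ‖∑ n ∈ Icc 1 N, a n * (n : ℂ) ^ (-((t : ℂ) * Complex.I))‖ ^ 2 ≤
      C * (T + N) * ∑ n ∈ Icc 1 N, ‖a n‖ ^ 2 := by
  refine ⟨Real.exp 1 * Real.sqrt Real.pi * 8, by positivity, ?_⟩
  intro N T a hN hT
  have hT0 : 0 < T := by linarith
  have hN0 : (0 : ℝ) < N := by exact_mod_cast hN
  set S : ℝ → ℝ := fun t => ‖∑ n ∈ Icc 1 N, a n * (n : ℂ) ^ (-((t : ℂ) * Complex.I))‖ ^ 2 with hS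
  set G : ℝ → ℂ := fun t => ∑ m ∈ Icc 1 N, ∑ n ∈ Icc 1 N, (a m * (starRingEnd ℂ) (a n)) *
      Complex.exp (-(1 / (T : ℂ) ^ 2) * (t : ℂ) ^ 2 +
        (-(Complex.I * ((Real.log m - Real.log n : ℝ) : ℂ))) * t + 0) with hG
  have hb : (-(1 / (T : ℂ) ^ 2)).re < 0 := by
    have : (-(1 / (T : ℂ) ^ 2)) = ((-(1 / T ^ 2) : ℝ) : ℂ) := by push_cast; ring
    rw [this, Complex.ofReal_re]
    have : 0 < 1 / T ^ 2 := by positivity
    linarith
  have hterm : ∀ m n : ℕ, Integrable (fun t : ℝ => (a m * (starRingEnd ℂ) (a n)) *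
      Complex.exp (-(1 / (T : ℂ) ^ 2) * (t : ℂ) ^ 2 +
        (-(Complex.I * ((Real.log m - Real.log n : ℝ) : ℂ))) * t + 0)) := fun m n =>
    (integrable_cexp_quadratic' hb _ _).const_mul _
  have hGint : Integrable G := by
    rw [hG]
    exact integrable_finsetSum _ (fun m _ => integrable_finsetSum _ (fun n _ => hterm m n))
  have hKS : ∀ t, G t = ((Real.exp (-(t / T) ^ 2) * S t : ℝ) : ℂ) := fun t =>
    (expand N T a t).symm
  have hKint : Integrable (fun t => Real.exp (-(t / T) ^ 2) * S t) := by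
    have h1 := hGint.re
    refine h1.congr (Filter.Eventually.of_forall fun t => ?_)
    show RCLike.re (G t) = _
    rw [hKS t]
    exact Complex.ofReal_re _
  have hS0 : ∀ t, 0 ≤ S t := fun t => by positivity
  -- step A
  have hA : ∫ t in (-T)..T, S t ≤ Real.exp 1 * ∫ t : ℝ, Real.exp (-(t / T) ^ 2) * S t := by
    rw [intervalIntegral.integral_of_le (by linarith), ← integral_const_mul]
    have hint2 : Integrable (fun t => Real.exp 1 * (Real.exp (-(t / T) ^ 2) * S t)) :=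
      hKint.const_mul _
    have hle : ∀ t ∈ Set.Ioc (-T) T, S t ≤ Real.exp 1 * (Real.exp (-(t / T) ^ 2) * S t) := by
      intro t ht
      have h1 : (t / T) ^ 2 ≤ 1 := by
        rw [div_pow, div_le_one (by positivity)]
        exact sq_le_sq' (by linarith [ht.1]) ht.2
      have h2 : 1 ≤ Real.exp 1 * Real.exp (-(t / T) ^ 2) := by
        rw [← Real.exp_add]
        exact Real.one_le_exp (by linarith)
      calc S t = 1 * S t := (one_mul _).symm
        _ ≤ (Real.exp 1 * Real.exp (-(t / T) ^ 2)) * S t :=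
            mul_le_mul_of_nonneg_right h2 (hS0 t)
        _ = _ := by ring
    calc ∫ t in Set.Ioc (-T) T, S t ≤
        ∫ t in Set.Ioc (-T) T, Real.exp 1 * (Real.exp (-(t / T) ^ 2) * S t) := by
          apply integral_mono_of_nonneg
          · exact Filter.Eventually.of_forall fun t => hS0 t
          · exact hint2.integrableOn
          · rw [Filter.EventuallyLE, ae_restrict_iff' measurableSet_Ioc]
            exact Filter.Eventually.of_forall fun t ht => hle t ht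
      _ ≤ ∫ t : ℝ, Real.exp 1 * (Real.exp (-(t / T) ^ 2) * S t) := by
          apply setIntegral_le_integral hint2
          exact Filter.Eventually.of_forall fun t => by
            show 0 ≤ Real.exp 1 * (Real.exp (-(t / T) ^ 2) * S t)
            have := hS0 t
            positivity
  -- step B
  have hB : ∫ t : ℝ, Real.exp (-(t / T) ^ 2) * S t ≤
      ∑ m ∈ Icc 1 N, ∑ n ∈ Icc 1 N, (‖a m‖ * ‖a n‖) *
        (Real.sqrt Real.pi * T * Real.exp (-(T * (Real.log m - Real.log n) / 2) ^ 2)) := by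
    have h1 : ((∫ t : ℝ, Real.exp (-(t / T) ^ 2) * S t : ℝ) : ℂ) = ∫ t : ℝ, G t := by
      have h0 : ∫ t : ℝ, ((Real.exp (-(t / T) ^ 2) * S t : ℝ) : ℂ) =
          ((∫ t : ℝ, Real.exp (-(t / T) ^ 2) * S t : ℝ) : ℂ) := integral_complex_ofReal
      rw [← h0]
      exact integral_congr_ae (Filter.Eventually.of_forall fun t => (hKS t).symm)
    have h2 : ∫ t : ℝ, G t = ∑ m ∈ Icc 1 N, ∑ n ∈ Icc 1 N, (a m * (starRingEnd ℂ) (a n)) *
        ∫ t : ℝ, Complex.exp (-(1 / (T : ℂ) ^ 2) * (t : ℂ) ^ 2 +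
        (-(Complex.I * ((Real.log m - Real.log n : ℝ) : ℂ))) * t + 0) := by
      rw [hG, integral_finsetSum _ (fun m _ => integrable_finsetSum _ (fun n _ => hterm m n))]
      refine Finset.sum_congr rfl fun m _ => ?_
      rw [integral_finsetSum _ (fun n _ => hterm m n)]
      refine Finset.sum_congr rfl fun n _ => ?_
      rw [integral_const_mul]
    have h3 : ∫ t : ℝ, Real.exp (-(t / T) ^ 2) * S t ≤
        ‖((∫ t : ℝ, Real.exp (-(t / T) ^ 2) * S t : ℝ) : ℂ)‖ := by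
      rw [Complex.norm_real]
      exact le_abs_self _
    refine h3.trans ?_
    rw [h1, h2]
    refine (norm_sum_le _ _).trans (Finset.sum_le_sum fun m _ => ?_)
    refine (norm_sum_le _ _).trans (Finset.sum_le_sum fun n _ => ?_)
    rw [norm_mul, norm_mul, RCLike.norm_conj, gint T _ hT]
  -- step C
  set E : ℕ → ℕ → ℝ := fun m n => Real.exp (-(T * (Real.log m - Real.log n) / 2) ^ 2) with hE
  have hEsymm : ∀ m n, E m n = E n m := by
    intro m n
    rw [hE]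
    simp only
    congr 2
    ring
  have hErow : ∀ m ∈ Icc 1 N, ∑ n ∈ Icc 1 N, E m n ≤ 2 * (1 + 4 * N / T) := by
    intro m hm
    have h1 : ∀ n ∈ Icc 1 N, E m n ≤ 1 / (1 + (T / (2 * N) * ((n : ℝ) - m)) ^ 2) := by
      intro n hn
      have h2 := log_dist hm hn
      have h3 : (T / (2 * N) * ((n : ℝ) - m)) ^ 2 ≤ (T * (Real.log m - Real.log n) / 2) ^ 2 := by
        rw [← sq_abs (T / (2 * N) * ((n : ℝ) - m)), ← sq_abs (T * (Real.log m - Real.log n) / 2)]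
        apply pow_le_pow_left₀ (abs_nonneg _)
        rw [abs_mul (T / (2 * (N : ℝ))), abs_of_pos (by positivity : (0 : ℝ) < T / (2 * N)),
          abs_div, abs_mul, abs_of_pos hT0, abs_of_pos (by norm_num : (0 : ℝ) < 2)]
        calc T / (2 * N) * |(n : ℝ) - m| = T * (|(n : ℝ) - m| / N) / 2 := by
              field_simp
          _ ≤ T * |Real.log m - Real.log n| / 2 := by gcongr
      have h4 : Real.exp (-(T * (Real.log m - Real.log n) / 2) ^ 2) ≤
          1 / (1 + (T * (Real.log m - Real.log n) / 2) ^ 2) := by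
        rw [Real.exp_neg, ← one_div]
        apply one_div_le_one_div_of_le (by positivity)
        have := Real.add_one_le_exp ((T * (Real.log m - Real.log n) / 2) ^ 2)
        linarith
      refine h4.trans ?_
      apply one_div_le_one_div_of_le (by positivity)
      linarith
    refine (Finset.sum_le_sum h1).trans ((row (T / (2 * N)) (by positivity) N m hm).trans ?_)
    have : 2 / (T / (2 * (N : ℝ))) = 4 * N / T := by
      field_simp
      ring
    rw [this]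
  have hE0 : ∀ m n, 0 ≤ E m n := fun m n => (Real.exp_pos _).le
  have hC : ∑ m ∈ Icc 1 N, ∑ n ∈ Icc 1 N, (‖a m‖ * ‖a n‖) * E m n ≤
      2 * (1 + 4 * N / T) * ∑ m ∈ Icc 1 N, ‖a m‖ ^ 2 := by
    have h1 : ∀ m n, (‖a m‖ * ‖a n‖) * E m n ≤ ‖a m‖ ^ 2 / 2 * E m n + ‖a n‖ ^ 2 / 2 * E n m := by
      intro m n
      rw [hEsymm n m, ← add_mul]
      apply mul_le_mul_of_nonneg_right _ (hE0 m n)
      nlinarith [sq_nonneg (‖a m‖ - ‖a n‖)]
    have h2 : ∑ m ∈ Icc 1 N, ∑ n ∈ Icc 1 N, (‖a m‖ * ‖a n‖) * E m n ≤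
        ∑ m ∈ Icc 1 N, ∑ n ∈ Icc 1 N, (‖a m‖ ^ 2 / 2 * E m n) +
        ∑ m ∈ Icc 1 N, ∑ n ∈ Icc 1 N, (‖a n‖ ^ 2 / 2 * E n m) := by
      rw [← Finset.sum_add_distrib]
      refine Finset.sum_le_sum fun m _ => ?_
      rw [← Finset.sum_add_distrib]
      exact Finset.sum_le_sum fun n _ => h1 m n
    have h3 : ∑ m ∈ Icc 1 N, ∑ n ∈ Icc 1 N, (‖a n‖ ^ 2 / 2 * E n m) =
        ∑ m ∈ Icc 1 N, ∑ n ∈ Icc 1 N, (‖a m‖ ^ 2 / 2 * E m n) := Finset.sum_comm
    rw [h3] at h2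
    refine h2.trans ?_
    have h4 : ∑ m ∈ Icc 1 N, ∑ n ∈ Icc 1 N, (‖a m‖ ^ 2 / 2 * E m n) ≤
        ∑ m ∈ Icc 1 N, ‖a m‖ ^ 2 / 2 * (2 * (1 + 4 * N / T)) := by
      refine Finset.sum_le_sum fun m hm => ?_
      rw [← Finset.mul_sum]
      exact mul_le_mul_of_nonneg_left (hErow m hm) (by positivity)
    rw [← Finset.sum_mul, ← Finset.sum_div] at h4
    linarith
  have hfin : ∑ m ∈ Icc 1 N, ∑ n ∈ Icc 1 N, (‖a m‖ * ‖a n‖) *
        (Real.sqrt Real.pi * T * Real.exp (-(T * (Real.log m - Real.log n) / 2) ^ 2)) =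
      Real.sqrt Real.pi * T * ∑ m ∈ Icc 1 N, ∑ n ∈ Icc 1 N, (‖a m‖ * ‖a n‖) * E m n := by
    rw [Finset.mul_sum]
    refine Finset.sum_congr rfl fun m _ => ?_
    rw [Finset.mul_sum]
    refine Finset.sum_congr rfl fun n _ => ?_
    rw [hE]
    ring
  have hsum0 : 0 ≤ ∑ m ∈ Icc 1 N, ‖a m‖ ^ 2 := Finset.sum_nonneg fun m _ => by positivity
  calc ∫ t in (-T)..T, S t ≤ Real.exp 1 * ∫ t : ℝ, Real.exp (-(t / T) ^ 2) * S t := hA
    _ ≤ Real.exp 1 * (Real.sqrt Real.pi * T *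
        ∑ m ∈ Icc 1 N, ∑ n ∈ Icc 1 N, (‖a m‖ * ‖a n‖) * E m n) := by
        apply mul_le_mul_of_nonneg_left _ (Real.exp_pos 1).le
        rw [← hfin]
        exact hB
    _ ≤ Real.exp 1 * (Real.sqrt Real.pi * T * (2 * (1 + 4 * N / T) *
        ∑ m ∈ Icc 1 N, ‖a m‖ ^ 2)) := by
        apply mul_le_mul_of_nonneg_left _ (Real.exp_pos 1).le
        exact mul_le_mul_of_nonneg_left hC (by positivity)
    _ = Real.exp 1 * Real.sqrt Real.pi * (2 * T + 8 * N) * ∑ m ∈ Icc 1 N, ‖a m‖ ^ 2 := by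
        field_simp
        ring
    _ ≤ Real.exp 1 * Real.sqrt Real.pi * 8 * (T + N) * ∑ m ∈ Icc 1 N, ‖a m‖ ^ 2 := by
        apply mul_le_mul_of_nonneg_right _ hsum0
        have : 0 ≤ Real.exp 1 * Real.sqrt Real.pi := by positivity
        nlinarith

end Pool.Agent.H43.SI
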