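import Mathlib

/-!
# [H43 SI PL] Plancherel for functions in `L^1 ∩ L^2`

PROOF. Mathlib: Analysis/Fourier/LpSpace.lean has the Fourier transform on `L^2(ℝ)` as an isometry
(`MeasureTheory.Lp.norm_fourier_eq`) and `MeasureTheory.Lp.fourier_toTemperedDistribution_eq`. For
`g ∈ L^1 ∩ L^2` the tempered distribution of the function `𝓕 g` (an integral) equals the Fourier transform
of the tempered distribution of `g`: for every Schwartz function `φ`, `∫ 𝓕 g φ = ∫ g 𝓕 φ`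
(`VectorFourier.integral_fourierIntegral_smul_eq_flip`, `Real.integral_fourier...`). So for the `L^2`
function `G` representing the `L^2`-Fourier transform of `g` we have `∫ G φ = ∫ 𝓕 g φ` for all Schwartz
(in particular all smooth compactly supported) `φ`, hence `G = 𝓕 g` a.e.
(`ae_eq_of_integral_contDiff_smul_eq`, both are locally integrable). Therefore `𝓕 g ∈ L^2` and
`‖𝓕 g‖_2 = ‖G‖_2 = ‖g‖_2`. (Alternative without distributions: approximate `g` in `L^1` and `L^2`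
simultaneously by Schwartz functions, e.g. smooth compactly supported ones, and use Plancherel for
Schwartz functions; `𝓕 g_n -> 𝓕 g` uniformly and `𝓕 g_n` is Cauchy in `L^2`.)
-/

namespace Pool.Agent.H43.SI

open MeasureTheory FourierTransform

open scoped SchwartzMap in
theorem plancherel (g : ℝ → ℂ) (h1 : Integrable g) (h2 : MemLp g 2) :
    MemLp (𝓕 g) 2 ∧ ∫ ξ : ℝ, ‖𝓕 g ξ‖ ^ 2 = ∫ x : ℝ, ‖g x‖ ^ 2 := by
  set f : Lp ℂ 2 (volume : Measure ℝ) := h2.toLp g with hf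
  set F : Lp ℂ 2 (volume : Measure ℝ) := 𝓕 f with hF
  have hfg : f =ᵐ[volume] g := h2.coeFn_toLp
  have hcont : Continuous (𝓕 g) :=
    VectorFourier.fourierIntegral_continuous Real.continuous_fourierChar
      (by fun_prop) h1
  have hdist : ∀ φ : 𝓢(ℝ, ℂ), ∫ x, (𝓕 φ) x • g x = ∫ x, φ x • F x := by
    intro φ
    have h3 := congrArg (fun T : 𝓢'(ℝ, ℂ) => T φ) (Lp.fourier_toTemperedDistribution_eq f)
    simp only [TemperedDistribution.fourier_apply, Lp.toTemperedDistribution_apply] at h3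
    rw [← h3]
    apply integral_congr_ae
    filter_upwards [hfg] with x hx
    rw [hx]
  have hflip : ∀ φ : 𝓢(ℝ, ℂ), ∫ x, (𝓕 φ) x • g x = ∫ x, φ x • 𝓕 g x := by
    intro φ
    simpa using! VectorFourier.integral_fourierIntegral_smul_eq_flip (L := innerₗ ℝ)
      Real.continuous_fourierChar continuous_inner φ.integrable h1
  have hae : ∀ᵐ x, F x = 𝓕 g x := by
    apply ae_eq_of_integral_contDiff_smul_eq
    · exact (Lp.memLp F).locallyIntegrable one_le_two
    · exact hcont.locallyIntegrable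
    · intro u hu hc
      have hg₁ : HasCompactSupport (Complex.ofRealCLM ∘ u) := hc.comp_left rfl
      have hg₂ : ContDiff ℝ ((⊤ : ℕ∞) : WithTop ℕ∞) (Complex.ofRealCLM ∘ u) := by fun_prop
      have h4 := (hdist (hg₁.toSchwartzMap hg₂)).symm.trans (hflip (hg₁.toSchwartzMap hg₂))
      simpa using h4
  have hM : MemLp (𝓕 g) 2 := (memLp_congr_ae hae).mp (Lp.memLp F)
  refine ⟨hM, ?_⟩
  have hn : ∀ h : Lp ℂ 2 (volume : Measure ℝ), ‖h‖ ^ 2 = ∫ x, ‖h x‖ ^ 2 := by
    intro h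
    have h5 := L2.inner_def (𝕜 := ℂ) h h
    have h6 : inner ℂ h h = ((‖h‖ ^ 2 : ℝ) : ℂ) := by
      rw [inner_self_eq_norm_sq_to_K]
      push_cast
      rfl
    rw [h6] at h5
    have h7 : ∀ x, inner ℂ (h x) (h x) = ((‖h x‖ ^ 2 : ℝ) : ℂ) := by
      intro x
      rw [inner_self_eq_norm_sq_to_K]
      push_cast
      rfl
    simp only [h7] at h5
    have h8 : ∫ x, ((‖h x‖ ^ 2 : ℝ) : ℂ) = ((∫ x, ‖h x‖ ^ 2 : ℝ) : ℂ) := integral_complex_ofReal
    rw [h8] at h5
    exact_mod_cast h5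
  have e1 : ‖F‖ = ‖f‖ := Lp.norm_fourier_eq f
  have e2 : ∫ ξ : ℝ, ‖𝓕 g ξ‖ ^ 2 = ∫ ξ : ℝ, ‖F ξ‖ ^ 2 := by
    apply integral_congr_ae
    filter_upwards [hae] with x hx
    rw [hx]
  have e3 : ∫ ξ : ℝ, ‖g ξ‖ ^ 2 = ∫ ξ : ℝ, ‖f ξ‖ ^ 2 := by
    apply integral_congr_ae
    filter_upwards [hfg] with x hx
    rw [hx]
  rw [e2, e3, ← hn, ← hn, e1]

end Pool.Agent.H43.SI
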