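import Pool.Agent.H43.SI.Defs
import Pool.Agent.H43.SI.Pl

/-!
# [H43 SI PAR] From short sums to the Dirichlet polynomial on the line 1

For `f` (values at `1..Nm` matter), `X >= 1`, `0 < δ <= δ1 <= 1`:
`∫_{log X}^{log 2X} ‖Sd f Nm δ y/δ - Sd f Nm δ1 y/δ1‖^2 dy
  <= C X^2 ∫_ℝ ‖Σ_{n<=Nm} f(n) n^(-(1+it))‖^2 mul δ δ1 t dt`, and the right integrand is integrable.

PROOF. `D(y) = Sd δ/δ - Sd δ1/δ1` is a finite combination of indicator functions of the intervals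
`[log n - δ, log n)` and `[log n - δ1, log n)`. `g(y) = D(y) e^(-y)` is bounded with compact support, so
in `L^1 ∩ L^2`, and
`∫ g(y) e^(-ity) dy = Σ_n f(n) n^(-(1+it)) m(t)`,
`m(t) = (e^(δs)-1)/(δs) - (e^(δ1 s)-1)/(δ1 s)`, `s = 1+it`
(`∫_{log n-δ}^{log n} e^(-sy) dy = n^(-s)(e^(δs)-1)/s`). `|m(t)|^2 <= C mul δ δ1 t`: for `Re z ∈ (0,1]`
`|(e^z-1)/z| <= e`, `|(e^z-1)/z| <= 4/|z|`, and `|(e^z-1)/z - 1| <= e|z|` for `|z| <= 1`; `|s| <= 1+|t| <= 2|s|`;
if `δ1|s| <= 1` the difference is `<= 2e δ1|s|`, if `δ1|s| > 1` the bound `2e` is enough for the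
term `(δ1(1+|t|))^2` up to a constant; `1/(δ1|s|) <= 1/(δ|s|)`. Plancherel (`plancherel`, with
`𝓕 g(ξ) = ∫ g(y) e^(-2πiξy) dy`, substitute `t = 2πξ`):
`∫ |D|^2 e^(-2y) dy = (1/2π) ∫ |F(1+it)|^2 |m(t)|^2 dt`, and on `[log X, log 2X]` `e^(-2y) >= 1/(4X^2)`.
Integrability: `‖F‖` is bounded and `mul <= (1/(δ(1+|t|)))^2`.
-/

namespace Pool.Agent.H43.SI

open Finset MeasureTheory

/-- the multiplier `(e^z - 1)/z` -/
private noncomputable def ph (z : ℂ) : ℂ := (Complex.exp z - 1) / z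

private theorem exp_sub_le {z : ℂ} (hz : z.re ≤ 1) : ‖Complex.exp z - 1‖ ≤ 4 := by
  calc ‖Complex.exp z - 1‖ ≤ ‖Complex.exp z‖ + ‖(1 : ℂ)‖ := norm_sub_le _ _
    _ ≤ 3 + 1 := by
        apply add_le_add
        · rw [Complex.norm_exp]
          calc Real.exp z.re ≤ Real.exp 1 := Real.exp_le_exp.mpr hz
            _ ≤ 3 := Real.exp_one_lt_three.le
        · rw [norm_one]
    _ = 4 := by norm_num

private theorem ph_le {z : ℂ} (hz0 : z ≠ 0) (hz : z.re ≤ 1) : ‖ph z‖ ≤ 4 := by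
  have hpos : 0 < ‖z‖ := norm_pos_iff.mpr hz0
  unfold ph
  rw [norm_div, div_le_iff₀ hpos]
  by_cases h : ‖z‖ ≤ 1
  · have := Complex.norm_exp_sub_one_le h
    linarith
  · have := exp_sub_le hz
    push Not at h
    linarith

private theorem ph_le' {z : ℂ} (hz0 : z ≠ 0) (hz : z.re ≤ 1) : ‖ph z‖ ≤ 4 / ‖z‖ := by
  have hpos : 0 < ‖z‖ := norm_pos_iff.mpr hz0
  unfold ph
  rw [norm_div]
  exact div_le_div_of_nonneg_right (exp_sub_le hz) hpos.le

private theorem ph_sub {z : ℂ} (hz0 : z ≠ 0) (hz : ‖z‖ ≤ 1) : ‖ph z - 1‖ ≤ ‖z‖ := by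
  have hpos : 0 < ‖z‖ := norm_pos_iff.mpr hz0
  have h1 : ph z - 1 = (Complex.exp z - 1 - z) / z := by
    unfold ph
    field_simp
  rw [h1, norm_div, div_le_iff₀ hpos]
  have := Complex.norm_exp_sub_one_sub_id_le hz
  rw [pow_two] at this
  exact this

private noncomputable def mm (δ δ1 t : ℝ) : ℂ :=
  ph ((δ : ℂ) * (1 + (t : ℂ) * Complex.I)) - ph ((δ1 : ℂ) * (1 + (t : ℂ) * Complex.I))

private theorem mm_le {δ δ1 t : ℝ} (hδ : 0 < δ) (hδδ : δ ≤ δ1) (hδ1 : δ1 ≤ 1) :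
    ‖mm δ δ1 t‖ ^ 2 ≤ 256 * mul δ δ1 t := by
  set s : ℂ := 1 + (t : ℂ) * Complex.I with hs
  have hδ10 : 0 < δ1 := lt_of_lt_of_le hδ hδδ
  have hsre : s.re = 1 := by simp [hs]
  have hsim : s.im = t := by simp [hs]
  have hs0 : s ≠ 0 := by
    intro h
    rw [h] at hsre
    simp at hsre
  have hs1 : 1 ≤ ‖s‖ := by
    have := Complex.abs_re_le_norm s
    rw [hsre, abs_one] at this
    exact this
  have hst : |t| ≤ ‖s‖ := by
    have := Complex.abs_im_le_norm s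
    rwa [hsim] at this
  have hs2 : ‖s‖ ≤ 1 + |t| := by
    calc ‖s‖ ≤ ‖(1 : ℂ)‖ + ‖(t : ℂ) * Complex.I‖ := norm_add_le _ _
      _ = 1 + |t| := by rw [norm_one, norm_mul, Complex.norm_I, mul_one, Complex.norm_real,
          Real.norm_eq_abs]
  have z0 : ∀ d : ℝ, 0 < d → (d : ℂ) * s ≠ 0 := fun d hd =>
    mul_ne_zero (by exact_mod_cast hd.ne') hs0
  have zre : ∀ d : ℝ, d ≤ 1 → ((d : ℂ) * s).re ≤ 1 := by
    intro d hd
    rw [Complex.re_ofReal_mul, hsre, mul_one]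
    exact hd
  have zn : ∀ d : ℝ, 0 < d → ‖(d : ℂ) * s‖ = d * ‖s‖ := by
    intro d hd
    rw [norm_mul, Complex.norm_real, Real.norm_of_nonneg hd.le]
  have ht0 : 0 ≤ |t| := abs_nonneg t
  have b1 : ‖mm δ δ1 t‖ ≤ 8 := by
    unfold mm
    rw [← hs]
    have h1 := ph_le (z0 δ hδ) (zre δ (hδδ.trans hδ1))
    have h2 := ph_le (z0 δ1 hδ10) (zre δ1 hδ1)
    have h3 := norm_sub_le (ph ((δ : ℂ) * s)) (ph ((δ1 : ℂ) * s))
    linarith
  have b2 : ‖mm δ δ1 t‖ ≤ 16 * (1 / (δ * (1 + |t|))) := by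
    unfold mm
    rw [← hs]
    have h1 := ph_le' (z0 δ hδ) (zre δ (hδδ.trans hδ1))
    have h2 := ph_le' (z0 δ1 hδ10) (zre δ1 hδ1)
    rw [zn δ hδ] at h1
    rw [zn δ1 hδ10] at h2
    have h3 := norm_sub_le (ph ((δ : ℂ) * s)) (ph ((δ1 : ℂ) * s))
    have h4 : 4 / (δ1 * ‖s‖) ≤ 4 / (δ * ‖s‖) :=
      div_le_div_of_nonneg_left (by norm_num) (by positivity) (by gcongr)
    have h5 : 8 / (δ * ‖s‖) ≤ 16 * (1 / (δ * (1 + |t|))) := by
      rw [mul_one_div, div_le_div_iff₀ (by positivity) (by positivity)]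
      have : 1 + |t| ≤ 2 * ‖s‖ := by linarith
      nlinarith
    have h6 : 4 / (δ * ‖s‖) + 4 / (δ * ‖s‖) = 8 / (δ * ‖s‖) := by ring
    linarith
  have b3 : ‖mm δ δ1 t‖ ≤ 16 * (δ1 * (1 + |t|)) := by
    by_cases h : δ1 * ‖s‖ ≤ 1
    · unfold mm
      rw [← hs]
      have h1 := ph_sub (z0 δ hδ) (by
        rw [zn δ hδ]
        exact le_trans (by gcongr) h)
      have h2 := ph_sub (z0 δ1 hδ10) (by rwa [zn δ1 hδ10])
      rw [zn δ hδ] at h1
      rw [zn δ1 hδ10] at h2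
      have h3 : ‖ph ((δ : ℂ) * s) - ph ((δ1 : ℂ) * s)‖ ≤
          ‖ph ((δ : ℂ) * s) - 1‖ + ‖ph ((δ1 : ℂ) * s) - 1‖ := by
        calc _ = ‖(ph ((δ : ℂ) * s) - 1) - (ph ((δ1 : ℂ) * s) - 1)‖ := by ring_nf
          _ ≤ _ := norm_sub_le _ _
      have h4 : δ * ‖s‖ ≤ δ1 * ‖s‖ := by gcongr
      have h5 : δ1 * ‖s‖ ≤ δ1 * (1 + |t|) := by gcongr
      have h6 : 0 ≤ δ1 * (1 + |t|) := by positivity
      linarith
    · push Not at h
      have h5 : δ1 * ‖s‖ ≤ δ1 * (1 + |t|) := by gcongr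
      linarith
  have hm0 : 0 ≤ ‖mm δ δ1 t‖ := norm_nonneg _
  have c1 : ‖mm δ δ1 t‖ ^ 2 / 256 ≤ 1 := by
    rw [div_le_one (by norm_num)]
    nlinarith
  have c2 : ‖mm δ δ1 t‖ ^ 2 / 256 ≤ (1 / (δ * (1 + |t|))) ^ 2 := by
    rw [div_le_iff₀ (by norm_num)]
    have := pow_le_pow_left₀ hm0 b2 2
    rw [mul_pow] at this
    linarith
  have c3 : ‖mm δ δ1 t‖ ^ 2 / 256 ≤ (δ1 * (1 + |t|)) ^ 2 := by
    rw [div_le_iff₀ (by norm_num)]
    have := pow_le_pow_left₀ hm0 b3 2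
    rw [mul_pow] at this
    linarith
  have : ‖mm δ δ1 t‖ ^ 2 / 256 ≤ mul δ δ1 t := le_min c1 (le_min c3 c2)
  linarith

/-- the basic function -/
private noncomputable def hI (a b : ℝ) : ℝ → ℂ :=
  Set.indicator (Set.Ico a b) (fun y : ℝ => Complex.exp (-(y : ℂ)))

private theorem hI_meas (a b : ℝ) : AEStronglyMeasurable (hI a b) volume := by
  unfold hI
  apply AEStronglyMeasurable.indicator _ measurableSet_Ico
  exact (by fun_prop : Continuous fun y : ℝ => Complex.exp (-(y : ℂ))).aestronglyMeasurable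

private theorem hI_int (a b : ℝ) : Integrable (hI a b) := by
  unfold hI
  rw [integrable_indicator_iff measurableSet_Ico]
  have h1 : Continuous fun y : ℝ => Complex.exp (-(y : ℂ)) := by fun_prop
  exact (h1.continuousOn.integrableOn_compact isCompact_Icc).mono_set Set.Ico_subset_Icc_self

private theorem hI_L2 (a b : ℝ) : MemLp (hI a b) 2 := by
  have h1 : ∀ y, ‖hI a b y‖ ≤ Real.exp (-a) := by
    intro y
    unfold hI
    by_cases hy : y ∈ Set.Ico a b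
    · rw [Set.indicator_of_mem hy, Complex.norm_exp]
      apply Real.exp_le_exp.mpr
      rw [Complex.neg_re, Complex.ofReal_re]
      linarith [hy.1]
    · rw [Set.indicator_of_notMem hy, norm_zero]
      positivity
  have h2 : MemLp (hI a b) ⊤ := memLp_top_of_bound (hI_meas a b) _ (Filter.Eventually.of_forall h1)
  refine h2.mono_exponent_of_measure_support_ne_top (s := Set.Ico a b) ?_ ?_ le_top
  · intro y hy
    unfold hI
    exact Set.indicator_of_notMem hy _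
  · rw [Real.volume_Ico]
    exact ENNReal.ofReal_ne_top

private theorem hI_fourier (a b : ℝ) (hab : a ≤ b) (w : ℝ) :
    ∫ v : ℝ, Complex.exp (((-2 * Real.pi * v * w : ℝ) : ℂ) * Complex.I) • hI a b v =
      (Complex.exp (-(1 + ((2 * Real.pi * w : ℝ) : ℂ) * Complex.I) * a) -
        Complex.exp (-(1 + ((2 * Real.pi * w : ℝ) : ℂ) * Complex.I) * b)) /
        (1 + ((2 * Real.pi * w : ℝ) : ℂ) * Complex.I) := by
  set s : ℂ := 1 + ((2 * Real.pi * w : ℝ) : ℂ) * Complex.I with hs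
  have hsre : s.re = 1 := by simp [hs]
  have hs0 : s ≠ 0 := by
    intro h
    rw [h] at hsre
    simp at hsre
  have h1 : ∀ v : ℝ, Complex.exp (((-2 * Real.pi * v * w : ℝ) : ℂ) * Complex.I) • hI a b v =
      Set.indicator (Set.Ico a b) (fun v : ℝ => Complex.exp (-s * v)) v := by
    intro v
    unfold hI
    by_cases hy : v ∈ Set.Ico a b
    · rw [Set.indicator_of_mem hy, Set.indicator_of_mem hy, smul_eq_mul, ← Complex.exp_add]
      congr 1
      rw [hs]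
      push_cast
      ring
    · rw [Set.indicator_of_notMem hy, Set.indicator_of_notMem hy, smul_zero]
  rw [integral_congr_ae (Filter.Eventually.of_forall h1), integral_indicator measurableSet_Ico,
    integral_Ico_eq_integral_Ioo, ← integral_Ioc_eq_integral_Ioo,
    ← intervalIntegral.integral_of_le hab, integral_exp_mul_complex (neg_ne_zero.mpr hs0)]
  rw [div_neg, ← neg_div, neg_sub]

private theorem hI_fourier' (n : ℕ) (hn : 1 ≤ n) (δ : ℝ) (hδ : 0 < δ) (w : ℝ) :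
    (∫ v : ℝ, Complex.exp (((-2 * Real.pi * v * w : ℝ) : ℂ) * Complex.I) •
      hI (Real.log n - δ) (Real.log n) v) / δ =
      (n : ℂ) ^ (-(1 + ((2 * Real.pi * w : ℝ) : ℂ) * Complex.I)) *
        ph ((δ : ℂ) * (1 + ((2 * Real.pi * w : ℝ) : ℂ) * Complex.I)) := by
  rw [hI_fourier _ _ (by linarith) w]
  set s : ℂ := 1 + ((2 * Real.pi * w : ℝ) : ℂ) * Complex.I with hs
  have hsre : s.re = 1 := by simp [hs]
  have hs0 : s ≠ 0 := by
    intro h
    rw [h] at hsre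
    simp at hsre
  have hδ' : (δ : ℂ) ≠ 0 := by exact_mod_cast hδ.ne'
  have hn0 : (n : ℂ) ≠ 0 := by
    have : n ≠ 0 := by omega
    exact_mod_cast this
  have h2 : Complex.log (n : ℂ) = ((Real.log n : ℝ) : ℂ) := by
    rw [← Complex.ofReal_natCast, ← Complex.ofReal_log (by positivity)]
  rw [Complex.cpow_def_of_ne_zero hn0, h2]
  have h3 : Complex.exp (-s * ((Real.log n - δ : ℝ) : ℂ)) =
      Complex.exp (((Real.log n : ℝ) : ℂ) * -s) * Complex.exp ((δ : ℂ) * s) := by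
    rw [← Complex.exp_add]
    congr 1
    push_cast
    ring
  have h4 : Complex.exp (-s * ((Real.log n : ℝ) : ℂ)) = Complex.exp (((Real.log n : ℝ) : ℂ) * -s) := by
    congr 1
    ring
  rw [h3, h4]
  unfold ph
  field_simp

/-- the function to which Plancherel is applied -/
private noncomputable def gg (f : ℕ → ℂ) (Nm : ℕ) (δ δ1 : ℝ) (y : ℝ) : ℂ :=
  ∑ n ∈ Icc 1 Nm, f n * (hI (Real.log n - δ) (Real.log n) y / δ -
    hI (Real.log n - δ1) (Real.log n) y / δ1)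

private theorem gg_eq (f : ℕ → ℂ) (Nm : ℕ) (δ δ1 : ℝ) (y : ℝ) :
    gg f Nm δ δ1 y = (Sd f Nm δ y / δ - Sd f Nm δ1 y / δ1) * Complex.exp (-(y : ℂ)) := by
  have h1 : ∀ d : ℝ, Sd f Nm d y * Complex.exp (-(y : ℂ)) =
      ∑ n ∈ Icc 1 Nm, f n * hI (Real.log n - d) (Real.log n) y := by
    intro d
    unfold Sd
    rw [Finset.sum_filter, Finset.sum_mul]
    refine Finset.sum_congr rfl fun n _ => ?_
    unfold hI
    by_cases hy : y ∈ Set.Ico (Real.log n - d) (Real.log n)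
    · rw [Set.indicator_of_mem hy, if_pos]
      exact ⟨hy.2, by linarith [hy.1]⟩
    · rw [Set.indicator_of_notMem hy, if_neg]
      · simp
      · rintro ⟨h2, h3⟩
        exact hy ⟨by linarith, h2⟩
  unfold gg
  rw [sub_mul, div_mul_eq_mul_div, div_mul_eq_mul_div, h1 δ, h1 δ1, Finset.sum_div, Finset.sum_div,
    ← Finset.sum_sub_distrib]
  refine Finset.sum_congr rfl fun n _ => ?_
  ring

private theorem gg_int (f : ℕ → ℂ) (Nm : ℕ) (δ δ1 : ℝ) : Integrable (gg f Nm δ δ1) := by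
  unfold gg
  exact integrable_finsetSum _ fun n _ =>
    (((hI_int _ _).div_const _).sub ((hI_int _ _).div_const _)).const_mul _

private theorem gg_L2 (f : ℕ → ℂ) (Nm : ℕ) (δ δ1 : ℝ) : MemLp (gg f Nm δ δ1) 2 := by
  unfold gg
  refine memLp_finsetSum _ fun n _ => ?_
  have h1 : ∀ d a b : ℝ, MemLp (fun y => hI a b y / (d : ℂ)) 2 := by
    intro d a b
    have := (hI_L2 a b).const_mul ((d : ℂ)⁻¹)
    refine this.congr_norm ?_ ?_
    · exact ((hI_meas a b).const_mul ((d : ℂ)⁻¹)).congr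
        (Filter.Eventually.of_forall fun y => by
          show (d : ℂ)⁻¹ * hI a b y = hI a b y / d
          rw [div_eq_inv_mul])
    · refine Filter.Eventually.of_forall fun y => ?_
      show ‖(d : ℂ)⁻¹ * hI a b y‖ = ‖hI a b y / d‖
      rw [div_eq_inv_mul]
  exact ((h1 δ _ _).sub (h1 δ1 _ _)).const_mul _

open FourierTransform in
private theorem gg_fourier (f : ℕ → ℂ) (Nm : ℕ) {δ δ1 : ℝ} (hδ : 0 < δ) (hδ1 : 0 < δ1) (w : ℝ) :
    𝓕 (gg f Nm δ δ1) w =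
      (∑ n ∈ Icc 1 Nm, f n * (n : ℂ) ^ (-(1 + ((2 * Real.pi * w : ℝ) : ℂ) * Complex.I))) *
        mm δ δ1 (2 * Real.pi * w) := by
  rw [Real.fourier_real_eq_integral_exp_smul]
  have hint : ∀ a b : ℝ, Integrable (fun v : ℝ =>
      Complex.exp (((-2 * Real.pi * v * w : ℝ) : ℂ) * Complex.I) • hI a b v) := by
    intro a b
    refine (hI_int a b).mono ?_ ?_
    · have hc : Continuous fun v : ℝ =>
        Complex.exp (((-2 * Real.pi * v * w : ℝ) : ℂ) * Complex.I) := by fun_prop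
      exact hc.aestronglyMeasurable.smul (hI_meas a b)
    · refine Filter.Eventually.of_forall fun v => ?_
      rw [norm_smul, Complex.norm_exp_ofReal_mul_I, one_mul]
  have h1 : ∀ v : ℝ, Complex.exp (((-2 * Real.pi * v * w : ℝ) : ℂ) * Complex.I) • gg f Nm δ δ1 v =
      ∑ n ∈ Icc 1 Nm, f n * ((Complex.exp (((-2 * Real.pi * v * w : ℝ) : ℂ) * Complex.I) •
        hI (Real.log n - δ) (Real.log n) v) / δ -
        (Complex.exp (((-2 * Real.pi * v * w : ℝ) : ℂ) * Complex.I) •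
        hI (Real.log n - δ1) (Real.log n) v) / δ1) := by
    intro v
    unfold gg
    rw [Finset.smul_sum]
    refine Finset.sum_congr rfl fun n _ => ?_
    simp only [smul_eq_mul]
    ring
  rw [integral_congr_ae (Filter.Eventually.of_forall h1), integral_finsetSum]
  · rw [Finset.sum_mul]
    refine Finset.sum_congr rfl fun n hn => ?_
    have hn1 : 1 ≤ n := (Finset.mem_Icc.mp hn).1
    rw [integral_const_mul, integral_sub ((hint _ _).div_const _) ((hint _ _).div_const _),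
      integral_div, integral_div, hI_fourier' n hn1 δ hδ w, hI_fourier' n hn1 δ1 hδ1 w]
    unfold mm
    ring
  · intro n _
    exact (((hint _ _).div_const _).sub ((hint _ _).div_const _)).const_mul _

private theorem D_cont (f : ℕ → ℂ) (Nm : ℕ) : Continuous (fun t : ℝ =>
    ∑ n ∈ Icc 1 Nm, f n * (n : ℂ) ^ (-(1 + (t : ℂ) * Complex.I))) := by
  refine continuous_finsetSum _ fun n hn => ?_
  have hn1 : 1 ≤ n := (Finset.mem_Icc.mp hn).1
  have hn0 : (n : ℂ) ≠ 0 := by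
    have : n ≠ 0 := by omega
    exact_mod_cast this
  exact continuous_const.mul (Continuous.const_cpow (by fun_prop) (Or.inl hn0))

private theorem D_bound (f : ℕ → ℂ) (Nm : ℕ) (t : ℝ) :
    ‖∑ n ∈ Icc 1 Nm, f n * (n : ℂ) ^ (-(1 + (t : ℂ) * Complex.I))‖ ≤ ∑ n ∈ Icc 1 Nm, ‖f n‖ := by
  refine (norm_sum_le _ _).trans (Finset.sum_le_sum fun n hn => ?_)
  have hn1 : 1 ≤ n := (Finset.mem_Icc.mp hn).1
  rw [norm_mul]
  have h1 : ‖(n : ℂ) ^ (-(1 + (t : ℂ) * Complex.I))‖ ≤ 1 := by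
    rw [Complex.norm_natCast_cpow_of_pos (by omega)]
    have h2 : (-(1 + (t : ℂ) * Complex.I)).re = -1 := by simp
    rw [h2]
    exact Real.rpow_le_one_of_one_le_of_nonpos (by exact_mod_cast hn1) (by norm_num)
  calc ‖f n‖ * ‖(n : ℂ) ^ (-(1 + (t : ℂ) * Complex.I))‖ ≤ ‖f n‖ * 1 := by gcongr
    _ = ‖f n‖ := mul_one _

private theorem mul_cont (δ δ1 : ℝ) (hδ : 0 < δ) : Continuous (fun t : ℝ => mul δ δ1 t) := by
  unfold mul
  refine continuous_const.min ((by fun_prop : Continuous fun t : ℝ => (δ1 * (1 + |t|)) ^ 2).min ?_)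
  refine Continuous.pow (Continuous.div continuous_const (by fun_prop) ?_) 2
  intro t
  have : 0 ≤ |t| := abs_nonneg t
  positivity

private theorem mul_nonneg' (δ δ1 t : ℝ) : 0 ≤ mul δ δ1 t := by
  unfold mul
  exact le_min zero_le_one (le_min (sq_nonneg _) (sq_nonneg _))

private theorem Dmul_int (f : ℕ → ℂ) (Nm : ℕ) (δ δ1 : ℝ) (hδ : 0 < δ) :
    Integrable (fun t : ℝ => ‖∑ n ∈ Icc 1 Nm, f n * (n : ℂ) ^ (-(1 + (t : ℂ) * Complex.I))‖ ^ 2 *
      mul δ δ1 t) := by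
  have h1 : Integrable (fun t : ℝ => (1 + ‖t‖) ^ (-(2 : ℝ))) :=
    integrable_one_add_norm (by simp)
  have h2 := h1.const_mul ((∑ n ∈ Icc 1 Nm, ‖f n‖) ^ 2 * (1 / δ) ^ 2)
  refine h2.mono' ?_ (Filter.Eventually.of_forall fun t => ?_)
  · exact (((D_cont f Nm).norm.pow 2).mul (mul_cont δ δ1 hδ)).aestronglyMeasurable
  · have ht : 0 ≤ |t| := abs_nonneg t
    have h3 := mul_nonneg' δ δ1 t
    rw [Real.norm_of_nonneg (mul_nonneg (by positivity) h3)]
    have h4 : mul δ δ1 t ≤ (1 / δ) ^ 2 * (1 + ‖t‖) ^ (-(2 : ℝ)) := by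
      calc mul δ δ1 t ≤ (1 / (δ * (1 + |t|))) ^ 2 := (min_le_right _ _).trans (min_le_right _ _)
        _ = (1 / δ) ^ 2 * (1 + ‖t‖) ^ (-(2 : ℝ)) := by
          rw [Real.rpow_neg (by positivity), Real.norm_eq_abs]
          have : (1 + |t|) ^ (2 : ℝ) = (1 + |t|) ^ 2 := by
            exact_mod_cast Real.rpow_natCast (1 + |t|) 2
          rw [this]
          field_simp
    calc _ ≤ (∑ n ∈ Icc 1 Nm, ‖f n‖) ^ 2 * ((1 / δ) ^ 2 * (1 + ‖t‖) ^ (-(2 : ℝ))) := by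
          apply mul_le_mul (pow_le_pow_left₀ (norm_nonneg _) (D_bound f Nm t) 2) h4 h3
          positivity
      _ = _ := by ring

open FourierTransform in
theorem par : ∃ C : ℝ, 0 < C ∧ ∀ (f : ℕ → ℂ) (Nm : ℕ) (X δ δ1 : ℝ), 1 ≤ X → 0 < δ → δ ≤ δ1 →
    δ1 ≤ 1 →
    Integrable (fun t : ℝ => ‖∑ n ∈ Icc 1 Nm, f n * (n : ℂ) ^ (-(1 + (t : ℂ) * Complex.I))‖ ^ 2 *
      mul δ δ1 t) ∧
    ∫ y in (Real.log X)..(Real.log (2 * X)), ‖Sd f Nm δ y / δ - Sd f Nm δ1 y / δ1‖ ^ 2 ≤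
      C * X ^ 2 * ∫ t : ℝ, ‖∑ n ∈ Icc 1 Nm, f n * (n : ℂ) ^ (-(1 + (t : ℂ) * Complex.I))‖ ^ 2 *
        mul δ δ1 t := by
  refine ⟨1024, by norm_num, ?_⟩
  intro f Nm X δ δ1 hX hδ hδδ hδ1
  have hδ10 : 0 < δ1 := lt_of_lt_of_le hδ hδδ
  have hX0 : 0 < X := by linarith
  refine ⟨Dmul_int f Nm δ δ1 hδ, ?_⟩
  set Dt : ℝ → ℂ := fun t => ∑ n ∈ Icc 1 Nm, f n * (n : ℂ) ^ (-(1 + (t : ℂ) * Complex.I)) with hDt
  set W : ℝ → ℝ := fun t => ‖Dt t‖ ^ 2 * mul δ δ1 t with hW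
  have hWint : Integrable W := Dmul_int f Nm δ δ1 hδ
  have hW0 : ∀ t, 0 ≤ W t := fun t => mul_nonneg (by positivity) (mul_nonneg' δ δ1 t)
  -- Plancherel
  obtain ⟨hF, hPl⟩ := plancherel (gg f Nm δ δ1) (gg_int f Nm δ δ1) (gg_L2 f Nm δ δ1)
  have hpi : (0 : ℝ) < 2 * Real.pi := by positivity
  have h1 : ∫ ξ : ℝ, ‖𝓕 (gg f Nm δ δ1) ξ‖ ^ 2 ≤ 256 * ∫ t : ℝ, W t := by
    have hWc : Integrable (fun ξ : ℝ => W (2 * Real.pi * ξ)) :=
      hWint.comp_mul_left' hpi.ne'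
    calc ∫ ξ : ℝ, ‖𝓕 (gg f Nm δ δ1) ξ‖ ^ 2 ≤ ∫ ξ : ℝ, 256 * W (2 * Real.pi * ξ) := by
          apply integral_mono_of_nonneg
          · exact Filter.Eventually.of_forall fun ξ => by positivity
          · exact hWc.const_mul _
          · refine Filter.Eventually.of_forall fun ξ => ?_
            show ‖𝓕 (gg f Nm δ δ1) ξ‖ ^ 2 ≤ 256 * W (2 * Real.pi * ξ)
            rw [gg_fourier f Nm hδ hδ10, norm_mul, mul_pow]
            have h2 := mm_le (t := 2 * Real.pi * ξ) hδ hδδ hδ1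
            calc _ ≤ ‖Dt (2 * Real.pi * ξ)‖ ^ 2 * (256 * mul δ δ1 (2 * Real.pi * ξ)) := by
                  apply mul_le_mul_of_nonneg_left h2 (by positivity)
              _ = _ := by rw [hW]; ring
      _ = 256 * (|(2 * Real.pi)⁻¹| * ∫ t : ℝ, W t) := by
          rw [integral_const_mul, Measure.integral_comp_mul_left W (2 * Real.pi), smul_eq_mul]
      _ ≤ 256 * (1 * ∫ t : ℝ, W t) := by
          have h3 : |(2 * Real.pi)⁻¹| ≤ 1 := by
            rw [abs_of_pos (by positivity)]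
            apply inv_le_one_of_one_le₀
            nlinarith [Real.pi_gt_three]
          have h4 : 0 ≤ ∫ t : ℝ, W t := integral_nonneg hW0
          gcongr
      _ = _ := by rw [one_mul]
  have hlog : Real.log X ≤ Real.log (2 * X) := Real.log_le_log hX0 (by linarith)
  have hg2 : Integrable (fun y => ‖gg f Nm δ δ1 y‖ ^ 2) :=
    (gg_L2 f Nm δ δ1).integrable_norm_pow (by norm_num)
  have h5 : ∫ y in (Real.log X)..(Real.log (2 * X)), ‖Sd f Nm δ y / δ - Sd f Nm δ1 y / δ1‖ ^ 2 ≤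
      4 * X ^ 2 * ∫ y : ℝ, ‖gg f Nm δ δ1 y‖ ^ 2 := by
    rw [intervalIntegral.integral_of_le hlog, ← integral_const_mul]
    calc _ ≤ ∫ y in Set.Ioc (Real.log X) (Real.log (2 * X)), 4 * X ^ 2 * ‖gg f Nm δ δ1 y‖ ^ 2 := by
          apply integral_mono_of_nonneg
          · exact Filter.Eventually.of_forall fun y => by positivity
          · exact (hg2.const_mul _).integrableOn
          · rw [Filter.EventuallyLE, ae_restrict_iff' measurableSet_Ioc]
            refine Filter.Eventually.of_forall fun y hy => ?_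
            rw [gg_eq, norm_mul, mul_pow, Complex.norm_exp]
            have h6 : (-(y : ℂ)).re = -y := by simp
            rw [h6]
            have h7 : 1 ≤ 4 * X ^ 2 * Real.exp (-y) ^ 2 := by
              have h8 : Real.exp y ≤ 2 * X := by
                calc Real.exp y ≤ Real.exp (Real.log (2 * X)) := Real.exp_le_exp.mpr hy.2
                  _ = 2 * X := Real.exp_log (by positivity)
              have h9 : 0 < Real.exp y := Real.exp_pos y
              rw [Real.exp_neg, inv_pow, ← div_eq_mul_inv, one_le_div (by positivity)]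
              nlinarith
            have h10 : 0 ≤ ‖Sd f Nm δ y / δ - Sd f Nm δ1 y / δ1‖ ^ 2 := by positivity
            calc _ = 1 * ‖Sd f Nm δ y / δ - Sd f Nm δ1 y / δ1‖ ^ 2 := (one_mul _).symm
              _ ≤ (4 * X ^ 2 * Real.exp (-y) ^ 2) * ‖Sd f Nm δ y / δ - Sd f Nm δ1 y / δ1‖ ^ 2 :=
                  mul_le_mul_of_nonneg_right h7 h10
              _ = _ := by ring
      _ ≤ ∫ y : ℝ, 4 * X ^ 2 * ‖gg f Nm δ δ1 y‖ ^ 2 := by
          apply setIntegral_le_integral (hg2.const_mul _)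
          exact Filter.Eventually.of_forall fun y => by
            show 0 ≤ 4 * X ^ 2 * ‖gg f Nm δ δ1 y‖ ^ 2
            positivity
  calc _ ≤ 4 * X ^ 2 * ∫ y : ℝ, ‖gg f Nm δ δ1 y‖ ^ 2 := h5
    _ = 4 * X ^ 2 * ∫ ξ : ℝ, ‖𝓕 (gg f Nm δ δ1) ξ‖ ^ 2 := by rw [hPl]
    _ ≤ 4 * X ^ 2 * (256 * ∫ t : ℝ, W t) := by gcongr
    _ = 1024 * X ^ 2 * ∫ t : ℝ, W t := by ring

end Pool.Agent.H43.SI
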