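import Mathlib

/-!
# [H43 SI DIRS] Dirichlet's divisor sum

There are `c, C` with `|Σ_{n<=N} (log n - τ(n)) - c N| <= C sqrt N` for all `N >= 1`
(`τ(n) = n.divisors.card`, `c = -2γ`).

PROOF. `Σ_{n<=N} log n = N log N - N + O(log(2N))` (`Stirling`, or comparison with the integral).
`Σ_{n<=N} τ(n) = #{(a,b) : ab <= N} = 2 Σ_{a<=s} ⌊N/a⌋ - s^2`, `s = ⌊sqrt N⌋` (hyperbola),
`= 2N Σ_{a<=s} 1/a - s^2 + O(s) = 2N(log s + γ + O(1/s)) - N + O(sqrt N) = N log N + (2γ-1)N + O(sqrt N)`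
(`s = sqrt N + O(1)`, `2 log s = log N + O(1/sqrt N)`); `Σ_{a<=s} 1/a = log s + γ + O(1/s)`: Mathlib
`Real.eulerMascheroniSeq`, `Real.eulerMascheroniSeq'` (`H_s - log s` decreases and `H_s - log(s+1)` increases to
`γ`, so `0 <= H_s - log s - γ <= log(1+1/s) <= 1/s`).
-/

namespace Pool.Agent.H43.SI

open Finset

private theorem dirs_log (N : ℕ) (hN : 1 ≤ N) :
    0 ≤ ∑ n ∈ Icc 1 N, Real.log n - (N * Real.log N - N) ∧
    ∑ n ∈ Icc 1 N, Real.log n - (N * Real.log N - N) ≤ 1 + Real.log N := by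
  induction N, hN using Nat.le_induction with
  | base => simp
  | succ N hN ih =>
    rw [Finset.sum_Icc_succ_top (by omega)]
    have h0 : (1 : ℝ) ≤ N := by exact_mod_cast hN
    have hN0 : (0 : ℝ) < N := by linarith
    have hN1 : (0 : ℝ) < (N : ℝ) + 1 := by linarith
    have h1 : Real.log ((N : ℝ) + 1) - Real.log N ≤ 1 / N := by
      rw [← Real.log_div hN1.ne' hN0.ne']
      refine (Real.log_le_sub_one_of_pos (div_pos hN1 hN0)).trans (le_of_eq ?_)
      field_simp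
      ring
    have h2 : 1 / ((N : ℝ) + 1) ≤ Real.log ((N : ℝ) + 1) - Real.log N := by
      have h3 := Real.log_le_sub_one_of_pos (div_pos hN0 hN1)
      rw [Real.log_div hN0.ne' hN1.ne'] at h3
      have h4 : (N : ℝ) / (N + 1) - 1 = -(1 / (N + 1)) := by
        field_simp
        ring
      rw [h4] at h3
      linarith
    have h5 : (N : ℝ) * (Real.log ((N : ℝ) + 1) - Real.log N) ≤ 1 := by
      have := mul_le_mul_of_nonneg_left h1 hN0.le
      rwa [mul_one_div_cancel hN0.ne'] at this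
    have h6 : 1 - 1 / ((N : ℝ) + 1) ≤ (N : ℝ) * (Real.log ((N : ℝ) + 1) - Real.log N) := by
      have h7 := mul_le_mul_of_nonneg_left h2 hN0.le
      have h8 : (N : ℝ) * (1 / (N + 1)) = 1 - 1 / (N + 1) := by
        field_simp
        ring
      rw [h8] at h7
      exact h7
    push_cast
    constructor
    · nlinarith [ih.1]
    · nlinarith [ih.2]

private theorem dirs_tau (N : ℕ) : ∑ n ∈ Icc 1 N, n.divisors.card = ∑ n ∈ Icc 1 N, N / n := by
  have h := ArithmeticFunction.sum_Ioc_sigma0_eq_sum_div N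
  have e : Ioc 0 N = Icc 1 N := by
    ext x
    simp only [mem_Ioc, mem_Icc]
    omega
  rw [e] at h
  rw [← h]
  refine Finset.sum_congr rfl fun n _ => ?_
  rw [ArithmeticFunction.sigma_zero_apply]

private theorem dirs_hyp (N : ℕ) :
    ∑ n ∈ Icc 1 N, N / n + Nat.sqrt N ^ 2 = 2 * ∑ n ∈ Icc 1 (Nat.sqrt N), N / n := by
  set s := Nat.sqrt N with hs
  have hs1 : s * s ≤ N := Nat.sqrt_le N
  have hs2 : N < (s + 1) * (s + 1) := Nat.lt_succ_sqrt N
  have hsN : s ≤ N := Nat.sqrt_le_self N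
  set T : Finset (ℕ × ℕ) := (Icc 1 N ×ˢ Icc 1 N).filter (fun p => p.1 * p.2 ≤ N) with hT
  have count : ∀ k ≤ N, ((Icc 1 k ×ˢ Icc 1 N).filter (fun p : ℕ × ℕ => p.1 * p.2 ≤ N)).card =
      ∑ n ∈ Icc 1 k, N / n := by
    intro k hk
    rw [Finset.card_filter, Finset.sum_product]
    refine Finset.sum_congr rfl fun n hn => ?_
    rw [mem_Icc] at hn
    rw [← Finset.card_filter]
    have e : (Icc 1 N).filter (fun m => n * m ≤ N) = Icc 1 (N / n) := by
      ext m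
      simp only [mem_filter, mem_Icc]
      rw [Nat.le_div_iff_mul_le (by omega), mul_comm m n]
      constructor
      · rintro ⟨⟨h1, h2⟩, h3⟩
        exact ⟨h1, h3⟩
      · rintro ⟨h1, h3⟩
        refine ⟨⟨h1, ?_⟩, h3⟩
        exact (Nat.le_mul_of_pos_left m (by omega)).trans h3
    rw [e, Nat.card_Icc, Nat.add_sub_cancel]
  have c0 : T.card = ∑ n ∈ Icc 1 N, N / n := count N le_rfl
  have c1 := count s hsN
  set T1 := (Icc 1 s ×ˢ Icc 1 N).filter (fun p : ℕ × ℕ => p.1 * p.2 ≤ N) with hT1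
  set T2 := (Icc 1 N ×ˢ Icc 1 s).filter (fun p : ℕ × ℕ => p.1 * p.2 ≤ N) with hT2
  have c2 : T2.card = T1.card := by
    refine Finset.card_bij (fun p _ => (p.2, p.1)) ?_ ?_ ?_
    · intro p hp
      simp only [hT1, hT2, mem_filter, mem_product] at hp ⊢
      exact ⟨⟨hp.1.2, hp.1.1⟩, by rw [mul_comm]; exact hp.2⟩
    · intro p _ q _ h
      simp only [Prod.mk.injEq] at h
      exact Prod.ext h.2 h.1
    · intro p hp
      refine ⟨(p.2, p.1), ?_, rfl⟩
      simp only [hT1, hT2, mem_filter, mem_product] at hp ⊢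
      exact ⟨⟨hp.1.2, hp.1.1⟩, by rw [mul_comm]; exact hp.2⟩
  have cU : T1 ∪ T2 = T := by
    ext p
    simp only [hT, hT1, hT2, mem_union, mem_filter, mem_product, mem_Icc]
    constructor
    · rintro (⟨⟨⟨h1, h2⟩, h3⟩, h4⟩ | ⟨⟨h1, ⟨h2, h3⟩⟩, h4⟩)
      · exact ⟨⟨⟨h1, h2.trans hsN⟩, h3⟩, h4⟩
      · exact ⟨⟨h1, ⟨h2, h3.trans hsN⟩⟩, h4⟩
    · rintro ⟨⟨⟨h1, h2⟩, ⟨h3, h4⟩⟩, h5⟩
      by_cases h6 : p.1 ≤ s
      · exact Or.inl ⟨⟨⟨h1, h6⟩, ⟨h3, h4⟩⟩, h5⟩
      · right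
        refine ⟨⟨⟨h1, h2⟩, ⟨h3, ?_⟩⟩, h5⟩
        by_contra h7
        have : (s + 1) * (s + 1) ≤ p.1 * p.2 := Nat.mul_le_mul (by omega) (by omega)
        omega
  have cI : T1 ∩ T2 = Icc 1 s ×ˢ Icc 1 s := by
    ext p
    simp only [hT1, hT2, mem_inter, mem_filter, mem_product, mem_Icc]
    constructor
    · rintro ⟨⟨⟨h1, h2⟩, h3⟩, ⟨⟨h4, h5⟩, h6⟩⟩
      exact ⟨h1, h5⟩
    · rintro ⟨⟨h1, h2⟩, ⟨h3, h4⟩⟩
      have : p.1 * p.2 ≤ s * s := Nat.mul_le_mul h2 h4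
      exact ⟨⟨⟨⟨h1, h2⟩, ⟨h3, h4.trans hsN⟩⟩, this.trans hs1⟩,
        ⟨⟨⟨h1, h2.trans hsN⟩, ⟨h3, h4⟩⟩, this.trans hs1⟩⟩
  have h := Finset.card_union_add_card_inter T1 T2
  rw [cU, cI, c2, Finset.card_product, Nat.card_Icc, Nat.add_sub_cancel] at h
  rw [← c0, ← c1, sq]
  omega

private theorem dirs_harm (s : ℕ) (hs : 1 ≤ s) :
    |∑ n ∈ Icc 1 s, 1 / (n : ℝ) - Real.log s - Real.eulerMascheroniConstant| ≤ 1 / s := by
  have hs0 : (0 : ℝ) < s := by exact_mod_cast hs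
  have e : ∑ n ∈ Icc 1 s, 1 / (n : ℝ) = (harmonic s : ℝ) := by
    rw [harmonic_eq_sum_Icc]
    push_cast
    refine Finset.sum_congr rfl fun n _ => ?_
    rw [one_div]
  rw [e]
  have h1 := Real.eulerMascheroniSeq_lt_eulerMascheroniConstant s
  have h2 := Real.eulerMascheroniConstant_lt_eulerMascheroniSeq' s
  unfold Real.eulerMascheroniSeq at h1
  unfold Real.eulerMascheroniSeq' at h2
  rw [if_neg (by omega)] at h2
  have h3 : Real.log ((s : ℝ) + 1) - Real.log s ≤ 1 / s := by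
    rw [← Real.log_div (by linarith : (s : ℝ) + 1 ≠ 0) hs0.ne']
    refine (Real.log_le_sub_one_of_pos (div_pos (by linarith) hs0)).trans (le_of_eq ?_)
    field_simp
    ring
  rw [abs_of_nonneg (by linarith)]
  linarith

theorem dirs : ∃ c C : ℝ, 0 < C ∧ ∀ N : ℕ, 1 ≤ N →
    |∑ n ∈ Icc 1 N, (Real.log n - (n.divisors.card : ℝ)) - c * N| ≤ C * Real.sqrt N := by
  refine ⟨-(2 * Real.eulerMascheroniConstant), 15, by norm_num, fun N hN => ?_⟩
  set γ := Real.eulerMascheroniConstant with hγ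
  have hN1 : (1 : ℝ) ≤ N := by exact_mod_cast hN
  have hN0 : (0 : ℝ) < N := by linarith
  set r := Real.sqrt N with hr
  have hr2 : r * r = N := Real.mul_self_sqrt hN0.le
  have hr1 : 1 ≤ r := by
    rw [hr]
    exact Real.one_le_sqrt.2 hN1
  set s := Nat.sqrt N with hs
  have hs1 : s * s ≤ N := Nat.sqrt_le N
  have hs2 : N < (s + 1) * (s + 1) := Nat.lt_succ_sqrt N
  have hs0 : 1 ≤ s := by
    rw [hs, Nat.one_le_iff_ne_zero]
    intro h
    rw [Nat.sqrt_eq_zero] at h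
    omega
  have gs1 : (1 : ℝ) ≤ s := by exact_mod_cast hs0
  have gs2 : (s : ℝ) * s ≤ N := by exact_mod_cast hs1
  have gs3 : (N : ℝ) + 1 ≤ (s + 1) * (s + 1) := by exact_mod_cast hs2
  have gsr : (s : ℝ) ≤ r := by
    rw [hr]
    exact Real.le_sqrt_of_sq_le (by rw [sq]; exact gs2)
  have gsr2 : r ≤ 2 * s := by
    rw [hr]
    refine Real.sqrt_le_iff.2 ⟨by linarith, ?_⟩
    nlinarith
  have gNs : (N : ℝ) * (1 / s) ≤ 2 * r := by
    rw [mul_one_div, div_le_iff₀ (by linarith)]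
    nlinarith
  -- logarithms
  have l1 := dirs_log N hN
  have l2 : Real.log N ≤ 2 * r := by
    have h1 : Real.log N = 2 * Real.log r := by
      rw [← hr2, Real.log_mul (by linarith) (by linarith)]
      ring
    have h2 := Real.log_le_sub_one_of_pos (by linarith : 0 < r)
    linarith
  -- 2 log s
  have l3 : 2 * Real.log s ≤ Real.log N := by
    have h1 : 2 * Real.log s = Real.log ((s : ℝ) * s) := by
      rw [Real.log_mul (by linarith) (by linarith)]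
      ring
    rw [h1]
    exact Real.log_le_log (by nlinarith) gs2
  have l4 : Real.log N - 2 * Real.log s ≤ 2 * (1 / s) := by
    have h1 : 2 * Real.log s = Real.log ((s : ℝ) * s) := by
      rw [Real.log_mul (by linarith) (by linarith)]
      ring
    have hss : (0 : ℝ) < (s : ℝ) * s := by nlinarith
    rw [h1, ← Real.log_div hN0.ne' hss.ne']
    refine (Real.log_le_sub_one_of_pos (div_pos hN0 hss)).trans ?_
    rw [div_sub_one hss.ne', div_le_iff₀ hss]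
    have : 2 * (1 / (s : ℝ)) * (s * s) = 2 * s := by field_simp
    rw [this]
    linarith
  have l5 : |(N : ℝ) * (Real.log N - 2 * Real.log s)| ≤ 4 * r := by
    rw [abs_of_nonneg (mul_nonneg hN0.le (by linarith))]
    have := mul_le_mul_of_nonneg_left l4 hN0.le
    linarith
  -- floors
  have f1 : |∑ n ∈ Icc 1 s, ((N / n : ℕ) : ℝ) - N * ∑ n ∈ Icc 1 s, 1 / (n : ℝ)| ≤ s := by
    rw [Finset.mul_sum, ← Finset.sum_sub_distrib]
    refine (Finset.abs_sum_le_sum_abs _ _).trans ?_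
    refine (Finset.sum_le_card_nsmul _ _ (1 : ℝ) ?_).trans (le_of_eq ?_)
    · intro n hn
      rw [mem_Icc] at hn
      have hn0 : (0 : ℝ) < n := by exact_mod_cast hn.1
      have h1 : ((N / n : ℕ) : ℝ) ≤ (N : ℝ) / n := Nat.cast_div_le
      have h2 : (N : ℝ) / n < ((N / n : ℕ) : ℝ) + 1 := by
        rw [div_lt_iff₀ hn0]
        have := Nat.lt_div_mul_add (a := N) hn.1
        have h3 : N < (N / n + 1) * n := by
          rw [add_mul, one_mul]
          exact this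
        exact_mod_cast h3
      rw [mul_one_div, abs_le]
      constructor <;> linarith
    · rw [Nat.card_Icc, nsmul_eq_mul, Nat.add_sub_cancel, mul_one]
  have f2 := dirs_harm s hs0
  have f3 : |(N : ℝ) * (∑ n ∈ Icc 1 s, 1 / (n : ℝ) - Real.log s - γ)| ≤ 2 * r := by
    rw [abs_mul, abs_of_nonneg hN0.le]
    exact (mul_le_mul_of_nonneg_left f2 hN0.le).trans gNs
  -- tau
  have t1 : (∑ n ∈ Icc 1 N, (n.divisors.card : ℝ)) + (s : ℝ) ^ 2 =
      2 * ∑ n ∈ Icc 1 s, ((N / n : ℕ) : ℝ) := by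
    have h1 := dirs_hyp N
    rw [← dirs_tau] at h1
    exact_mod_cast h1
  rw [Finset.sum_sub_distrib]
  set S1 := ∑ n ∈ Icc 1 N, Real.log n with hS1
  set S2 := ∑ n ∈ Icc 1 N, (n.divisors.card : ℝ) with hS2
  set F := ∑ n ∈ Icc 1 s, ((N / n : ℕ) : ℝ) with hF
  set Hm := ∑ n ∈ Icc 1 s, 1 / (n : ℝ) with hHm
  have key : S1 - S2 - -(2 * γ) * N = (S1 - (N * Real.log N - N)) - 2 * (F - N * Hm)
      - 2 * (N * (Hm - Real.log s - γ)) + N * (Real.log N - 2 * Real.log s) + ((s : ℝ) ^ 2 - N) := by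
    linarith
  rw [key]
  have a1 := abs_le.1 f1
  have a2 := abs_le.1 f3
  have a3 := abs_le.1 l5
  have a4 : -(2 * r) ≤ (s : ℝ) ^ 2 - N := by nlinarith
  have a5 : (s : ℝ) ^ 2 - N ≤ 0 := by nlinarith
  rw [abs_le]
  constructor
  · linarith [l1.1, l1.2, a1.1, a1.2, a2.1, a2.2, a3.1, a3.2]
  · linarith [l1.1, l1.2, a1.1, a1.2, a2.1, a2.2, a3.1, a3.2]

end Pool.Agent.H43.SI
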