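import Pool.Agent.H43.SI.Six

/-!
# [H43 SI AP] Residue classes

For a unit `a mod q`: `∫_{log X}^{log 2X} (Sa δ y - δ e^y/φ(q))^2 dy <= η δ^2 X^2`, where `Sa δ y` is the sum of
`Λ(n)` over `n ≡ a mod q`, `n <= Nm`, `y < log n <= y+δ` (a real number).

PROOF. `1[n ≡ a] = φ(q)^(-1) Σ_χ χ(a)^(-1) χ(n)` (`DirichletCharacter.sum_char_inv_mul_char_eq`), so
`Sa δ y = φ(q)^(-1) Σ_χ χ(a⁻¹) Sd (Λχ) δ y`, and the main terms: only `χ = 1` contributes,
`φ(q)^(-1) δ e^y`. By Cauchy-Schwarz the square of the difference is at most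
`φ(q)^(-1) Σ_χ ‖Sd (Λχ) δ y - 1[χ=1]δe^y‖^2`; integrate and use `six` for each of the `φ(q)` characters.
-/

namespace Pool.Agent.H43.SI

open Finset MeasureTheory

/-- sum of `Λ` over a residue class, `y < log n <= y + δ`, `n <= Nm` -/
noncomputable def Sa (q : ℕ) (a : ZMod q) (Nm : ℕ) (δ y : ℝ) : ℝ :=
  ∑ n ∈ (Icc 1 Nm).filter (fun n : ℕ => (n : ZMod q) = a ∧ y < Real.log n ∧ Real.log n ≤ y + δ),
    ArithmeticFunction.vonMangoldt n

/-- the difference for one character -/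
private noncomputable def apD {q : ℕ} (Nm : ℕ) (δ y : ℝ) (χ : DirichletCharacter ℂ q) : ℂ :=
  Sd (fun n => ((ArithmeticFunction.vonMangoldt n : ℝ) : ℂ) * χ n) Nm δ y -
    (open Classical in if χ = 1 then ((δ * Real.exp y : ℝ) : ℂ) else 0)

private theorem apD_meas {q : ℕ} (Nm : ℕ) (δ : ℝ) (χ : DirichletCharacter ℂ q) :
    Measurable (fun y => apD Nm δ y χ) := by
  unfold apD
  refine (Sd_measurable _ Nm δ).sub ?_
  split_ifs
  · exact Complex.measurable_ofReal.comp (Real.measurable_exp.const_mul δ)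
  · exact measurable_const

private theorem apD_int {q : ℕ} (Nm : ℕ) (δ a b : ℝ) (χ : DirichletCharacter ℂ q) :
    IntervalIntegrable (fun y => ‖apD Nm δ y χ‖ ^ 2) volume a b := by
  have hc : Continuous (fun y : ℝ => (∑ n ∈ Icc 1 Nm,
      ‖((ArithmeticFunction.vonMangoldt n : ℝ) : ℂ) * χ n‖ + |δ| * Real.exp y) ^ 2) := by
    fun_prop
  refine (hc.intervalIntegrable a b).mono_fun'
    ((apD_meas Nm δ χ).norm.pow_const 2).aestronglyMeasurable
    (Filter.Eventually.of_forall fun y => ?_)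
  simp only [Real.norm_eq_abs, abs_pow, abs_norm]
  refine pow_le_pow_left₀ (norm_nonneg _) ?_ 2
  unfold apD
  refine (norm_sub_le _ _).trans (add_le_add (Sd_bound _ _ _ _) ?_)
  split_ifs
  · rw [Complex.norm_real, Real.norm_eq_abs, abs_mul, abs_of_pos (Real.exp_pos y)]
  · rw [norm_zero]
    positivity

private theorem ap_eq (q : ℕ) [NeZero q] (a : ZMod q) (ha : IsUnit a) (Nm : ℕ) (δ y : ℝ) :
    (((Sa q a Nm δ y - δ * Real.exp y / q.totient : ℝ)) : ℂ) =
      (q.totient : ℂ)⁻¹ * ∑ χ : DirichletCharacter ℂ q, χ a⁻¹ * apD Nm δ y χ := by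
  have hq : (q.totient : ℂ) ≠ 0 := by
    exact_mod_cast (Nat.totient_pos.2 (Nat.pos_of_ne_zero (NeZero.ne q))).ne'
  have h1 : ∑ χ : DirichletCharacter ℂ q, χ a⁻¹ *
      Sd (fun n => ((ArithmeticFunction.vonMangoldt n : ℝ) : ℂ) * χ n) Nm δ y =
      (q.totient : ℂ) * (Sa q a Nm δ y : ℝ) := by
    have e1 : ∀ χ : DirichletCharacter ℂ q, χ a⁻¹ *
        Sd (fun n => ((ArithmeticFunction.vonMangoldt n : ℝ) : ℂ) * χ n) Nm δ y =
        ∑ n ∈ (Icc 1 Nm).filter (fun n : ℕ => y < Real.log n ∧ Real.log n ≤ y + δ),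
          ((ArithmeticFunction.vonMangoldt n : ℝ) : ℂ) * (χ a⁻¹ * χ (n : ZMod q)) := by
      intro χ
      unfold Sd
      rw [Finset.mul_sum]
      refine Finset.sum_congr rfl fun n _ => ?_
      ring
    rw [Finset.sum_congr rfl fun χ _ => e1 χ, Finset.sum_comm]
    have e2 : ∀ n ∈ (Icc 1 Nm).filter (fun n : ℕ => y < Real.log n ∧ Real.log n ≤ y + δ),
        ∑ χ : DirichletCharacter ℂ q,
          ((ArithmeticFunction.vonMangoldt n : ℝ) : ℂ) * (χ a⁻¹ * χ (n : ZMod q)) =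
        (q.totient : ℂ) *
          (if (n : ZMod q) = a then ((ArithmeticFunction.vonMangoldt n : ℝ) : ℂ) else 0) := by
      intro n _
      rw [← Finset.mul_sum, DirichletCharacter.sum_char_inv_mul_char_eq ℂ ha]
      by_cases h : (n : ZMod q) = a
      · rw [if_pos h, if_pos h.symm]
        ring
      · rw [if_neg h, if_neg (fun h' => h h'.symm)]
        ring
    rw [Finset.sum_congr rfl e2, ← Finset.mul_sum]
    congr 1
    unfold Sa
    rw [Complex.ofReal_sum, Finset.sum_ite, Finset.sum_const_zero, add_zero]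
    refine Finset.sum_congr ?_ fun _ _ => rfl
    ext n
    simp only [mem_filter]
    tauto
  have h2 : ∑ χ : DirichletCharacter ℂ q, χ a⁻¹ *
      (open Classical in if χ = 1 then ((δ * Real.exp y : ℝ) : ℂ) else 0) =
      ((δ * Real.exp y : ℝ) : ℂ) := by
    classical
    rw [Finset.sum_eq_single (1 : DirichletCharacter ℂ q)]
    · rw [if_pos rfl]
      have hu : IsUnit a⁻¹ := by
        obtain ⟨u, rfl⟩ := ha
        rw [ZMod.inv_coe_unit]
        exact Units.isUnit _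
      rw [MulChar.one_apply hu, one_mul]
    · intro χ _ hχ
      rw [if_neg hχ, mul_zero]
    · intro h
      exact absurd (Finset.mem_univ _) h
  have h3 : ∑ χ : DirichletCharacter ℂ q, χ a⁻¹ * apD Nm δ y χ =
      (q.totient : ℂ) * (Sa q a Nm δ y : ℝ) - ((δ * Real.exp y : ℝ) : ℂ) := by
    rw [← h1, ← h2, ← Finset.sum_sub_distrib]
    refine Finset.sum_congr rfl fun χ _ => ?_
    unfold apD
    ring
  rw [h3, mul_sub, inv_mul_cancel_left₀ hq]
  push_cast
  field_simp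

private theorem ap_card (q : ℕ) [NeZero q] :
    ((univ : Finset (DirichletCharacter ℂ q)).card : ℝ) = q.totient := by
  have h := DirichletCharacter.card_eq_totient_of_hasEnoughRootsOfUnity ℂ q
  rw [Nat.card_eq_fintype_card] at h
  rw [Finset.card_univ]
  exact_mod_cast h

private theorem ap_pt (q : ℕ) [NeZero q] (a : ZMod q) (ha : IsUnit a) (Nm : ℕ) (δ y : ℝ) :
    (Sa q a Nm δ y - δ * Real.exp y / q.totient) ^ 2 ≤
      (q.totient : ℝ)⁻¹ * ∑ χ : DirichletCharacter ℂ q, ‖apD Nm δ y χ‖ ^ 2 := by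
  have hq : (0 : ℝ) < q.totient := by
    exact_mod_cast (Nat.totient_pos.2 (Nat.pos_of_ne_zero (NeZero.ne q)))
  have h1 : (Sa q a Nm δ y - δ * Real.exp y / q.totient) ^ 2 =
      ‖(q.totient : ℂ)⁻¹ * ∑ χ : DirichletCharacter ℂ q, χ a⁻¹ * apD Nm δ y χ‖ ^ 2 := by
    rw [← ap_eq q a ha, Complex.norm_real, Real.norm_eq_abs, sq_abs]
  rw [h1, norm_mul, norm_inv, Complex.norm_natCast]
  have h2 : ‖∑ χ : DirichletCharacter ℂ q, χ a⁻¹ * apD Nm δ y χ‖ ≤
      ∑ χ : DirichletCharacter ℂ q, ‖apD Nm δ y χ‖ := by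
    refine (norm_sum_le _ _).trans (Finset.sum_le_sum fun χ _ => ?_)
    rw [norm_mul]
    exact mul_le_of_le_one_left (norm_nonneg _) (DirichletCharacter.norm_le_one χ _)
  have h3 : (∑ χ : DirichletCharacter ℂ q, ‖apD Nm δ y χ‖) ^ 2 ≤
      q.totient * ∑ χ : DirichletCharacter ℂ q, ‖apD Nm δ y χ‖ ^ 2 := by
    have := sq_sum_le_card_mul_sum_sq (s := (univ : Finset (DirichletCharacter ℂ q)))
      (f := fun χ => ‖apD Nm δ y χ‖)
    rwa [ap_card] at this
  calc ((q.totient : ℝ)⁻¹ * ‖∑ χ : DirichletCharacter ℂ q, χ a⁻¹ * apD Nm δ y χ‖) ^ 2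
      = (q.totient : ℝ)⁻¹ ^ 2 * ‖∑ χ : DirichletCharacter ℂ q, χ a⁻¹ * apD Nm δ y χ‖ ^ 2 := by
        ring
    _ ≤ (q.totient : ℝ)⁻¹ ^ 2 * (q.totient *
        ∑ χ : DirichletCharacter ℂ q, ‖apD Nm δ y χ‖ ^ 2) := by
        refine mul_le_mul_of_nonneg_left ?_ (by positivity)
        exact (pow_le_pow_left₀ (norm_nonneg _) h2 2).trans h3
    _ = (q.totient : ℝ)⁻¹ * ∑ χ : DirichletCharacter ℂ q, ‖apD Nm δ y χ‖ ^ 2 := by
        field_simp

theorem ap (q : ℕ) [NeZero q] (ε : ℝ) (hε : 0 < ε) (hε1 : ε < 1 / 12) : ∃ A1 : ℝ, 0 < A1 ∧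
    ∀ η : ℝ, 0 < η → ∃ X0 : ℝ, 10 ≤ X0 ∧ ∀ (a : ZMod q), IsUnit a → ∀ (X δ : ℝ), X0 ≤ X →
    X ^ (-(2 : ℝ) / 3 + 2 * ε) ≤ δ → δ ≤ (Real.log X) ^ (-A1) → ∀ Nm : ℕ, 6 * X ≤ Nm →
    ∫ y in (Real.log X)..(Real.log (2 * X)),
      (Sa q a Nm δ y - δ * Real.exp y / q.totient) ^ 2 ≤ η * δ ^ 2 * X ^ 2 := by
  obtain ⟨A1, hA1, hsix⟩ := six q ε hε hε1
  refine ⟨A1, hA1, fun η hη => ?_⟩
  obtain ⟨X0, hX0, h⟩ := hsix η hη
  refine ⟨X0, hX0, fun a ha X δ hX hδ1 hδ2 Nm hNm => ?_⟩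
  have hXpos : 0 < X := by linarith
  have hle : Real.log X ≤ Real.log (2 * X) := Real.log_le_log hXpos (by linarith)
  have hq : (0 : ℝ) < q.totient := by
    exact_mod_cast (Nat.totient_pos.2 (Nat.pos_of_ne_zero (NeZero.ne q)))
  have hi : IntervalIntegrable (fun y => (q.totient : ℝ)⁻¹ *
      ∑ χ : DirichletCharacter ℂ q, ‖apD Nm δ y χ‖ ^ 2) volume (Real.log X)
      (Real.log (2 * X)) := by
    refine IntervalIntegrable.const_mul ?_ _
    have := IntervalIntegrable.sum (univ : Finset (DirichletCharacter ℂ q))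
      (fun χ _ => apD_int Nm δ (Real.log X) (Real.log (2 * X)) χ)
    refine this.congr fun y _ => ?_
    simp
  have hi2 : IntervalIntegrable (fun y => (Sa q a Nm δ y - δ * Real.exp y / q.totient) ^ 2)
      volume (Real.log X) (Real.log (2 * X)) := by
    have hmeas : Measurable (fun y => (Sa q a Nm δ y - δ * Real.exp y / q.totient) ^ 2) := by
      have e : (fun y => (Sa q a Nm δ y - δ * Real.exp y / q.totient) ^ 2) =
          fun y => ‖(q.totient : ℂ)⁻¹ *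
            ∑ χ : DirichletCharacter ℂ q, χ a⁻¹ * apD Nm δ y χ‖ ^ 2 := by
        funext y
        rw [← ap_eq q a ha, Complex.norm_real, Real.norm_eq_abs, sq_abs]
      rw [e]
      refine (Measurable.const_mul ?_ _).norm.pow_const 2
      exact Finset.measurable_sum _ fun χ _ => (apD_meas Nm δ χ).const_mul _
    refine hi.mono_fun' hmeas.aestronglyMeasurable (Filter.Eventually.of_forall fun y => ?_)
    have h12 := ap_pt q a ha Nm δ y
    simp only [Real.norm_eq_abs, abs_pow, sq_abs]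
    exact h12
  refine (intervalIntegral.integral_mono_on hle hi2 hi
    (fun y _ => ap_pt q a ha Nm δ y)).trans ?_
  have h5 : ∫ y in (Real.log X)..(Real.log (2 * X)),
      ∑ χ : DirichletCharacter ℂ q, ‖apD Nm δ y χ‖ ^ 2 =
      ∑ χ : DirichletCharacter ℂ q, ∫ y in (Real.log X)..(Real.log (2 * X)),
        ‖apD Nm δ y χ‖ ^ 2 :=
    intervalIntegral.integral_finsetSum
      (s := (univ : Finset (DirichletCharacter ℂ q))) (f := fun χ y => ‖apD Nm δ y χ‖ ^ 2)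
      (fun χ _ => apD_int Nm δ (Real.log X) (Real.log (2 * X)) χ)
  rw [intervalIntegral.integral_const_mul, h5]
  have h4 : ∑ χ : DirichletCharacter ℂ q, ∫ y in (Real.log X)..(Real.log (2 * X)),
      ‖apD Nm δ y χ‖ ^ 2 ≤ q.totient * (η * δ ^ 2 * X ^ 2) := by
    have h6 : ∀ χ : DirichletCharacter ℂ q, ∫ y in (Real.log X)..(Real.log (2 * X)),
        ‖apD Nm δ y χ‖ ^ 2 ≤ η * δ ^ 2 * X ^ 2 := by
      intro χ
      have h7 := h χ X δ hX hδ1 hδ2 Nm hNm
      by_cases hχ : χ = 1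
      · simp only [if_pos hχ] at h7
        simp only [apD, if_pos hχ]
        exact h7
      · simp only [if_neg hχ] at h7
        simp only [apD, if_neg hχ]
        exact h7
    calc ∑ χ : DirichletCharacter ℂ q, ∫ y in (Real.log X)..(Real.log (2 * X)),
          ‖apD Nm δ y χ‖ ^ 2 ≤ ∑ _χ : DirichletCharacter ℂ q, η * δ ^ 2 * X ^ 2 :=
          Finset.sum_le_sum fun χ _ => h6 χ
      _ = q.totient * (η * δ ^ 2 * X ^ 2) := by
          rw [Finset.sum_const, nsmul_eq_mul, ap_card]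
  calc (q.totient : ℝ)⁻¹ * ∑ χ : DirichletCharacter ℂ q,
        ∫ y in (Real.log X)..(Real.log (2 * X)), ‖apD Nm δ y χ‖ ^ 2
      ≤ (q.totient : ℝ)⁻¹ * (q.totient * (η * δ ^ 2 * X ^ 2)) :=
        mul_le_mul_of_nonneg_left h4 (by positivity)
    _ = η * δ ^ 2 * X ^ 2 := by rw [inv_mul_cancel_left₀ hq.ne']

end Pool.Agent.H43.SI
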