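import Pool.Agent.H43.SI.Mvp
import Pool.Agent.H43.LF.Vdx
import Pool.Agent.H43.LF.Em

/-!
# [H43 SI ME2] Main estimate if there is a long smooth factor

`0 < ε < 1/12`, `A > 0`. There are `A0, X0` such that for `X >= X0`, `T0 >= (log X)^A0`, a box `e` with
`X <= 2^S <= 2^9 X` and an index `i >= 3` with `2^(e_i) >= X^(1/2-ε/8)`:
`∫_{T0 <= |t| <= X^(2/3-ε)} ‖bp χ e t‖^2 dt <= (log X)^(-A)`.

PROOF. `N = 2^(e_i)/2`, `P = pol (cf χ i) (e i)`, `G` = product of the other five factors, `T = X^(2/3-ε)`,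
`ℓ = log X`, `S <= 3ℓ`. For `i = 3` the logarithm is removed by partial summation. Dyadic blocks
`T' <= |t| <= 2T'`; if `2^(e_i) >= X^(1-ε)` use `LF.em`, otherwise `LF.vdx`, and `mvp` for `G`.
-/

namespace Pool.Agent.H43.SI

open Finset MeasureTheory

/-- partial summation with an increasing weight -/
theorem me2_abel (c : ℕ → ℂ) (w : ℕ → ℝ) (N : ℕ) (M : ℝ) (hM : 0 ≤ M)
    (hw : ∀ n, N ≤ n → w n ≤ w (n + 1)) (k : ℕ) :
    (∀ u, u ≤ N + k → ‖∑ n ∈ Ioc N u, c n‖ ≤ M) →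
    ‖∑ n ∈ Ioc N (N + k), c n * (w n : ℂ) - (w (N + k) : ℂ) * ∑ n ∈ Ioc N (N + k), c n‖ ≤
      M * (w (N + k) - w N) := by
  induction k with
  | zero =>
    intro _
    simp
  | succ k ih =>
    intro h
    have h1 := ih (fun u hu => h u (by omega))
    have h2 := h (N + k) (by omega)
    have h3 : Ioc N (N + (k + 1)) = insert (N + k + 1) (Ioc N (N + k)) := by
      ext n; simp only [Finset.mem_Ioc, Finset.mem_insert]; omega
    have h4 : (N + k + 1) ∉ Ioc N (N + k) := by simp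
    rw [h3, Finset.sum_insert h4, Finset.sum_insert h4]
    have h5 : N + (k + 1) = N + k + 1 := by ring
    rw [h5]
    have h6 : c (N + k + 1) * (w (N + k + 1) : ℂ) + ∑ n ∈ Ioc N (N + k), c n * (w n : ℂ) -
        (w (N + k + 1) : ℂ) * (c (N + k + 1) + ∑ n ∈ Ioc N (N + k), c n) =
        (∑ n ∈ Ioc N (N + k), c n * (w n : ℂ) - (w (N + k) : ℂ) * ∑ n ∈ Ioc N (N + k), c n) -
        ((w (N + k + 1) - w (N + k) : ℝ) : ℂ) * ∑ n ∈ Ioc N (N + k), c n := by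
      push_cast
      ring
    rw [h6]
    refine (norm_sub_le _ _).trans ?_
    have h7 := hw (N + k) (by omega)
    have h8 : ‖((w (N + k + 1) - w (N + k) : ℝ) : ℂ) * ∑ n ∈ Ioc N (N + k), c n‖ ≤
        (w (N + k + 1) - w (N + k)) * M := by
      rw [norm_mul, Complex.norm_real, Real.norm_of_nonneg (by linarith)]
      exact mul_le_mul_of_nonneg_left h2 (by linarith)
    nlinarith

theorem me2_P {q : ℕ} (χ : DirichletCharacter ℂ q) (i : Fin 6) (hi : 3 ≤ (i : ℕ)) (a : ℕ)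
    (ha : 1 ≤ a) (t M : ℝ) (hM : 0 ≤ M)
    (h : ∀ u, u ≤ 2 ^ a → ‖LF.ds (fun n => χ n) (2 ^ a / 2) u t‖ ≤ M) :
    ‖pol (cf χ i) a t‖ ≤ 2 * (1 + a) * M := by
  have ha0 : (0 : ℝ) ≤ a := Nat.cast_nonneg a
  by_cases h3 : (i : ℕ) = 3
  · have h1 : pol (cf χ i) a t = ∑ n ∈ Ioc (2 ^ a / 2 : ℕ) (2 ^ a),
        (χ ((n : ℕ) : ZMod q) * ((n : ℕ) : ℂ) ^ (-(1 + (t : ℂ) * Complex.I))) *
          ((Real.log n : ℝ) : ℂ) := by
      unfold pol LF.ds
      refine Finset.sum_congr rfl fun n _ => ?_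
      unfold cf
      rw [if_neg (by omega), if_pos h3]
      ring
    obtain ⟨k, hk⟩ := Nat.exists_eq_add_of_le (Nat.div_le_self (2 ^ a) 2)
    have hN1 : 1 ≤ 2 ^ a / 2 := by
      obtain ⟨b, rfl⟩ := Nat.exists_eq_add_of_le ha
      rw [pow_add, pow_one, Nat.mul_div_cancel_left _ (by norm_num)]
      exact Nat.one_le_two_pow
    have h2 := me2_abel (fun n => χ n * (n : ℂ) ^ (-(1 + (t : ℂ) * Complex.I)))
      (fun n => Real.log n) (2 ^ a / 2) M hM (fun n hn => by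
        apply Real.log_le_log
        · have : 0 < n := by omega
          exact_mod_cast this
        · push_cast; linarith) k (fun u hu => h u (by rw [hk]; exact hu))
    rw [← hk, ← h1] at h2
    have h4 := h (2 ^ a) le_rfl
    unfold LF.ds at h4
    have hl0 : 0 ≤ Real.log ((2 ^ a / 2 : ℕ) : ℝ) := Real.log_nonneg (by exact_mod_cast hN1)
    have hl1 : 0 ≤ Real.log ((2 ^ a : ℕ) : ℝ) := Real.log_nonneg (by
      exact_mod_cast Nat.one_le_two_pow)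
    have hl2 : Real.log ((2 ^ a : ℕ) : ℝ) ≤ a := by
      push_cast
      rw [Real.log_pow]
      have := Real.log_two_lt_d9
      nlinarith
    have h5 : ‖((Real.log ((2 ^ a : ℕ) : ℝ) : ℝ) : ℂ) * ∑ n ∈ Ioc (2 ^ a / 2 : ℕ) (2 ^ a),
        χ ((n : ℕ) : ZMod q) * ((n : ℕ) : ℂ) ^ (-(1 + (t : ℂ) * Complex.I))‖ ≤ a * M := by
      rw [norm_mul, Complex.norm_real, Real.norm_of_nonneg hl1]
      exact mul_le_mul hl2 h4 (norm_nonneg _) ha0
    have h6 := norm_le_norm_add_norm_sub' (pol (cf χ i) a t)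
      (((Real.log ((2 ^ a : ℕ) : ℝ) : ℝ) : ℂ) * ∑ n ∈ Ioc (2 ^ a / 2 : ℕ) (2 ^ a),
        χ ((n : ℕ) : ZMod q) * ((n : ℕ) : ℂ) ^ (-(1 + (t : ℂ) * Complex.I)))
    have h7 : M * (Real.log ((2 ^ a : ℕ) : ℝ) - Real.log ((2 ^ a / 2 : ℕ) : ℝ)) ≤ M * a :=
      mul_le_mul_of_nonneg_left (by linarith) hM
    nlinarith
  · have h1 : pol (cf χ i) a t = LF.ds (fun n => χ n) (2 ^ a / 2) (2 ^ a) t := by
      unfold pol LF.ds
      refine Finset.sum_congr rfl fun n _ => ?_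
      unfold cf
      rw [if_neg (by omega), if_neg h3]
    rw [h1]
    have h2 := h (2 ^ a) le_rfl
    nlinarith

theorem me2_cont_pol (c : ℕ → ℂ) (a : ℕ) : Continuous (fun t : ℝ => pol c a t) := by
  unfold pol LF.ds
  refine continuous_finsetSum _ fun n hn => ?_
  rw [Finset.mem_Ioc] at hn
  have hn0 : (n : ℂ) ≠ 0 := by
    have : n ≠ 0 := by omega
    exact_mod_cast this
  refine continuous_const.mul ?_
  refine Continuous.const_cpow ?_ (Or.inl hn0)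
  fun_prop

theorem me2_cont_bp {q : ℕ} (χ : DirichletCharacter ℂ q) (e : Fin 6 → ℕ) (s : Finset (Fin 6)) :
    Continuous (fun t : ℝ => ∏ i ∈ s, pol (cf χ i) (e i) t) :=
  continuous_finsetProd _ fun i _ => me2_cont_pol _ _

theorem me2_add {f : ℝ → ℝ} (hf : Continuous f) (hf0 : ∀ t, 0 ≤ f t) {A B C : Set ℝ}
    (hA : A ⊆ B ∪ C) (hB : MeasurableSet B) (hC : MeasurableSet C)
    {R : ℝ} (hBR : B ⊆ Set.Icc (-R) R) (hCR : C ⊆ Set.Icc (-R) R) :
    ∫ t in A, f t ≤ (∫ t in B, f t) + ∫ t in C, f t := by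
  have hint : ∀ D : Set ℝ, D ⊆ Set.Icc (-R) R → IntegrableOn f D := fun D hD =>
    (hf.continuousOn.integrableOn_compact isCompact_Icc).mono_set hD
  have h1 : ∫ t in A, f t ≤ ∫ t in B ∪ C, f t :=
    setIntegral_mono_set (hint _ (Set.union_subset hBR hCR))
      (Filter.Eventually.of_forall hf0) (LE.le.eventuallyLE hA)
  have h2 : B ∪ C = B ∪ (C \ B) := by rw [Set.union_sdiff_self]
  have h3 : ∫ t in B ∪ (C \ B), f t = (∫ t in B, f t) + ∫ t in C \ B, f t :=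
    setIntegral_union Set.disjoint_sdiff_right (hC.diff hB) (hint _ hBR)
      (hint _ (Set.sdiff_subset.trans hCR))
  have h4 : ∫ t in C \ B, f t ≤ ∫ t in C, f t :=
    setIntegral_mono_set (hint _ hCR) (Filter.Eventually.of_forall hf0)
      (LE.le.eventuallyLE Set.sdiff_subset)
  rw [h2, h3] at h1
  linarith

/-- the dyadic block -/
def blk (T' T : ℝ) : Set ℝ := {t : ℝ | T' ≤ |t| ∧ |t| ≤ 2 * T' ∧ |t| ≤ T}

theorem me2_meas (a b c : ℝ) : MeasurableSet {t : ℝ | a ≤ |t| ∧ |t| ≤ b ∧ |t| ≤ c} := by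
  apply IsClosed.measurableSet
  have h1 : IsClosed {t : ℝ | a ≤ |t|} := isClosed_le continuous_const continuous_abs
  have h2 : IsClosed {t : ℝ | |t| ≤ b} := isClosed_le continuous_abs continuous_const
  have h3 : IsClosed {t : ℝ | |t| ≤ c} := isClosed_le continuous_abs continuous_const
  exact h1.inter (h2.inter h3)

/-- sum over the dyadic blocks -/
theorem me2_sum {f : ℝ → ℝ} (hf : Continuous f) (hf0 : ∀ t, 0 ≤ f t) {T0 T b : ℝ} (hT0 : 1 ≤ T0)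
    (hb : ∀ T', T0 ≤ T' → ∫ t in blk T' T, f t ≤ b) (k : ℕ) :
    ∫ t in {t : ℝ | T0 ≤ |t| ∧ |t| ≤ 2 ^ k * T0 ∧ |t| ≤ T}, f t ≤ (k + 1) * b := by
  have hsubT : ∀ x y : ℝ, {t : ℝ | x ≤ |t| ∧ |t| ≤ y ∧ |t| ≤ T} ⊆ Set.Icc (-T) T := by
    intro x y t ht
    exact abs_le.1 ht.2.2
  induction k with
  | zero =>
    have h1 : {t : ℝ | T0 ≤ |t| ∧ |t| ≤ 2 ^ 0 * T0 ∧ |t| ≤ T} ⊆ blk T0 T := by
      intro t ht
      refine ⟨ht.1, ?_, ht.2.2⟩
      have := ht.2.1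
      rw [pow_zero, one_mul] at this
      linarith
    have h2 : ∫ t in {t : ℝ | T0 ≤ |t| ∧ |t| ≤ 2 ^ 0 * T0 ∧ |t| ≤ T}, f t ≤
        ∫ t in blk T0 T, f t :=
      setIntegral_mono_set
        ((hf.continuousOn.integrableOn_compact isCompact_Icc).mono_set (hsubT _ _))
        (Filter.Eventually.of_forall hf0) (LE.le.eventuallyLE h1)
    have h3 := hb T0 le_rfl
    simp only [Nat.cast_zero, zero_add, one_mul]
    exact h2.trans h3
  | succ k ih =>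
    have hsub : {t : ℝ | T0 ≤ |t| ∧ |t| ≤ 2 ^ (k + 1) * T0 ∧ |t| ≤ T} ⊆
        {t : ℝ | T0 ≤ |t| ∧ |t| ≤ 2 ^ k * T0 ∧ |t| ≤ T} ∪ blk (2 ^ k * T0) T := by
      intro t ht
      by_cases h : |t| ≤ 2 ^ k * T0
      · exact Or.inl ⟨ht.1, h, ht.2.2⟩
      · refine Or.inr ⟨(not_le.1 h).le, ?_, ht.2.2⟩
        have := ht.2.1
        rw [pow_succ] at this
        linarith
    have h1 := me2_add hf hf0 hsub (me2_meas _ _ _) (me2_meas _ _ _) (hsubT _ _) (hsubT _ _)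
    have h2 : T0 ≤ 2 ^ k * T0 := by
      have : (1 : ℝ) ≤ 2 ^ k := one_le_pow₀ (by norm_num)
      nlinarith
    have h3 := hb _ h2
    push_cast
    linarith

/-- one block: reduction to the mean value of the other factors -/
theorem me2_red {q : ℕ} (χ : DirichletCharacter ℂ q) (e : Fin 6 → ℕ) (i : Fin 6) (T' T W : ℝ)
    (hT' : 1 ≤ T') (hW : 0 ≤ W) (hP : ∀ t ∈ blk T' T, ‖pol (cf χ i) (e i) t‖ ^ 2 ≤ W) :
    ∫ t in blk T' T, ‖bp χ e t‖ ^ 2 ≤
      W * ∫ t in (-(2 * T'))..(2 * T'), ‖∏ j ∈ univ.erase i, pol (cf χ j) (e j) t‖ ^ 2 := by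
  set G : ℝ → ℂ := fun t => ∏ j ∈ univ.erase i, pol (cf χ j) (e j) t with hG
  have hGc : Continuous G := me2_cont_bp χ e _
  have hbp : ∀ t, bp χ e t = pol (cf χ i) (e i) t * G t := by
    intro t
    unfold bp
    rw [hG]
    exact (Finset.mul_prod_erase univ (fun j => pol (cf χ j) (e j) t) (Finset.mem_univ i)).symm
  have hbpc : Continuous fun t : ℝ => ‖bp χ e t‖ ^ 2 := by
    have : Continuous fun t : ℝ => bp χ e t := me2_cont_bp χ e univ
    fun_prop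
  have hG2c : Continuous fun t : ℝ => ‖G t‖ ^ 2 := by fun_prop
  have hsub : blk T' T ⊆ Set.Icc (-(2 * T')) (2 * T') := fun t ht => abs_le.1 ht.2.1
  have hm : MeasurableSet (blk T' T) := me2_meas _ _ _
  have h1 : ∫ t in blk T' T, ‖bp χ e t‖ ^ 2 ≤ ∫ t in blk T' T, W * ‖G t‖ ^ 2 := by
    apply setIntegral_mono_on
      ((hbpc.continuousOn.integrableOn_compact isCompact_Icc).mono_set hsub)
      (((continuous_const.mul hG2c).continuousOn.integrableOn_compact isCompact_Icc).mono_set hsub)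
      hm
    intro t ht
    rw [hbp, norm_mul, mul_pow]
    exact mul_le_mul_of_nonneg_right (hP t ht) (by positivity)
  have h2 : ∫ t in blk T' T, W * ‖G t‖ ^ 2 ≤ ∫ t in Set.Icc (-(2 * T')) (2 * T'), W * ‖G t‖ ^ 2 :=
    setIntegral_mono_set ((continuous_const.mul hG2c).continuousOn.integrableOn_compact
      isCompact_Icc) (Filter.Eventually.of_forall fun t => by positivity)
      (LE.le.eventuallyLE hsub)
  rw [integral_Icc_eq_integral_Ioc, ← intervalIntegral.integral_of_le (by linarith),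
    intervalIntegral.integral_const_mul] at h2
  exact h1.trans h2

/-- numerical part, case I -/
theorem me2_n1 (T' N X y : ℝ) (hT : 1 ≤ T') (hN : 0 < N) (hX : 0 < X) (hNX : N ≤ 256 * X)
    (h : T' ^ 3 ≤ 4 * y * N ^ 2) :
    (1 / T' ^ 2 + 9 * T' ^ 2 / N ^ 2) * (4 * T' * N / X + 1) ≤ 1025 * (1 / T' + 36 * y) := by
  have hT0 : 0 < T' := by linarith
  have h1 : 4 * T' * N / X + 1 ≤ 1025 * T' := by
    have h2 : 4 * T' * N / X ≤ 1024 * T' := by
      rw [div_le_iff₀ hX]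
      nlinarith
    linarith
  have h3 : (1 / T' ^ 2 + 9 * T' ^ 2 / N ^ 2) * (1025 * T') =
      1025 * (1 / T' + 9 * (T' ^ 3 / N ^ 2)) := by
    field_simp
  have h4 : T' ^ 3 / N ^ 2 ≤ 4 * y := by
    rw [div_le_iff₀ (by positivity)]
    exact h
  calc _ ≤ (1 / T' ^ 2 + 9 * T' ^ 2 / N ^ 2) * (1025 * T') := by
        apply mul_le_mul_of_nonneg_left h1
        positivity
    _ = 1025 * (1 / T' + 9 * (T' ^ 3 / N ^ 2)) := h3
    _ ≤ _ := by linarith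

/-- numerical part, case II -/
theorem me2_n2 (T' N X y : ℝ) (hT : 1 ≤ T') (hN : 0 < N) (hX : 0 < X) (h1 : T' ^ 2 ≤ 2 * y * N * X)
    (h2 : T' ≤ 4 * y * N ^ 2) (h3 : N ≤ y * X / 2) :
    (2 * T' / N ^ 2 + 1 / T') * (4 * T' * N / X + 1) ≤ 26 * y + 1 / T' := by
  have hT0 : 0 < T' := by linarith
  have e : (2 * T' / N ^ 2 + 1 / T') * (4 * T' * N / X + 1) =
      8 * (T' ^ 2 / (N * X)) + 2 * (T' / N ^ 2) + 4 * (N / X) + 1 / T' := by
    field_simp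
    ring
  have h4 : T' ^ 2 / (N * X) ≤ 2 * y := by
    rw [div_le_iff₀ (by positivity)]
    linarith
  have h5 : T' / N ^ 2 ≤ 4 * y := by
    rw [div_le_iff₀ (by positivity)]
    exact h2
  have h6 : N / X ≤ y / 2 := by
    rw [div_le_iff₀ hX]
    linarith
  rw [e]
  linarith

/-- the exponents -/
theorem me2_e1 (X ε T' N : ℝ) (hX : 1 ≤ X) (hT : 0 < T') (hTX : T' ≤ X ^ (2 / 3 - ε))
    (hN : X ^ (1 - ε) ≤ 2 * N) : T' ^ 3 ≤ 4 * X ^ (-ε) * N ^ 2 := by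
  have hX0 : 0 < X := by linarith
  have h1 : T' ^ 3 ≤ (X ^ (2 / 3 - ε)) ^ 3 := pow_le_pow_left₀ hT.le hTX 3
  have h2 : (X ^ (1 - ε)) ^ 2 ≤ (2 * N) ^ 2 := pow_le_pow_left₀ (by positivity) hN 2
  have h3 : (X ^ (2 / 3 - ε)) ^ 3 = X ^ (-ε) * (X ^ (1 - ε)) ^ 2 := by
    rw [← Real.rpow_natCast (X ^ (2 / 3 - ε)) 3, ← Real.rpow_mul hX0.le,
      ← Real.rpow_natCast (X ^ (1 - ε)) 2, ← Real.rpow_mul hX0.le, ← Real.rpow_add hX0]
    congr 1
    push_cast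
    ring
  have h4 : 0 < X ^ (-ε) := by positivity
  calc T' ^ 3 ≤ X ^ (-ε) * (X ^ (1 - ε)) ^ 2 := by rw [← h3]; exact h1
    _ ≤ X ^ (-ε) * (2 * N) ^ 2 := mul_le_mul_of_nonneg_left h2 h4.le
    _ = _ := by ring

theorem me2_e2 (X ε T' N : ℝ) (hX : 1 ≤ X) (hε : 0 < ε) (hT : 0 < T') (hTX : T' ≤ X ^ (2 / 3 - ε))
    (hN : X ^ (1 / 2 - ε / 8) ≤ 2 * N) : T' ^ 2 ≤ 2 * X ^ (-ε) * N * X := by
  have hX0 : 0 < X := by linarith
  have h1 : T' ^ 2 ≤ (X ^ (2 / 3 - ε)) ^ 2 := pow_le_pow_left₀ hT.le hTX 2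
  have h3 : (X ^ (2 / 3 - ε)) ^ 2 ≤ X ^ (-ε) * X ^ (1 / 2 - ε / 8) * X := by
    have h5 : X ^ (-ε) * X ^ (1 / 2 - ε / 8) * X = X ^ (-ε + (1 / 2 - ε / 8) + 1) := by
      rw [Real.rpow_add hX0, Real.rpow_add hX0, Real.rpow_one]
    rw [← Real.rpow_natCast (X ^ (2 / 3 - ε)) 2, ← Real.rpow_mul hX0.le, h5]
    apply Real.rpow_le_rpow_of_exponent_le hX
    push_cast
    linarith
  have h4 : 0 < X ^ (-ε) := by positivity
  calc T' ^ 2 ≤ X ^ (-ε) * X ^ (1 / 2 - ε / 8) * X := h1.trans h3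
    _ ≤ X ^ (-ε) * (2 * N) * X := by gcongr
    _ = _ := by ring

theorem me2_e3 (X ε T' N : ℝ) (hX : 1 ≤ X) (hε1 : ε < 1 / 12) (hTX : T' ≤ X ^ (2 / 3 - ε))
    (hN : X ^ (1 / 2 - ε / 8) ≤ 2 * N) : T' ≤ 4 * X ^ (-ε) * N ^ 2 := by
  have hX0 : 0 < X := by linarith
  have h2 : (X ^ (1 / 2 - ε / 8)) ^ 2 ≤ (2 * N) ^ 2 := pow_le_pow_left₀ (by positivity) hN 2
  have h3 : X ^ (2 / 3 - ε) ≤ X ^ (-ε) * (X ^ (1 / 2 - ε / 8)) ^ 2 := by
    rw [← Real.rpow_natCast (X ^ (1 / 2 - ε / 8)) 2, ← Real.rpow_mul hX0.le, ← Real.rpow_add hX0]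
    apply Real.rpow_le_rpow_of_exponent_le hX
    push_cast
    linarith
  have h4 : 0 < X ^ (-ε) := by positivity
  calc T' ≤ X ^ (-ε) * (X ^ (1 / 2 - ε / 8)) ^ 2 := hTX.trans h3
    _ ≤ X ^ (-ε) * (2 * N) ^ 2 := mul_le_mul_of_nonneg_left h2 h4.le
    _ = _ := by ring

theorem me2_e4 (X ε N : ℝ) (hX : 1 ≤ X) (hN : 2 * N ≤ X ^ (1 - ε)) :
    N ≤ X ^ (-ε) * X / 2 := by
  have hX0 : 0 < X := by linarith
  have h1 : X ^ (1 - ε) = X ^ (-ε) * X := by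
    rw [sub_eq_add_neg, add_comm, Real.rpow_add hX0, Real.rpow_one]
  rw [h1] at hN
  linarith

theorem me2_sq (x y : ℝ) : (x + y) ^ 2 ≤ 2 * (x ^ 2 + y ^ 2) := by
  nlinarith [sq_nonneg (x - y)]

theorem me2_mul {C1 c d L E F : ℝ} (hC : 0 ≤ C1) (hd : 0 ≤ d) (hL : 0 ≤ L) (hE : 0 ≤ E)
    (h1 : c ≤ d) (h2 : E ≤ F) : C1 * c * L * E ≤ C1 * d * L * F :=
  mul_le_mul (mul_le_mul_of_nonneg_right (mul_le_mul_of_nonneg_left h1 hC) hL) h2 hE
    (by positivity)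

/-- one block -/
theorem me2_blk (q : ℕ) [NeZero q] : ∃ K : ℝ, 0 < K ∧ ∃ B : ℕ, ∀ (χ : DirichletCharacter ℂ q)
    (ε X : ℝ) (e : Fin 6 → ℕ) (i : Fin 6) (T' : ℝ), 0 < ε → ε < 1 / 12 → 10 ≤ X →
    X ≤ 2 ^ (∑ i, e i) → (2 : ℝ) ^ (∑ i, e i) ≤ 2 ^ 9 * X → 3 ≤ (i : ℕ) →
    X ^ (1 / 2 - ε / 8) ≤ (2 : ℝ) ^ (e i) → 1 ≤ T' → T' ≤ X ^ (2 / 3 - ε) →
    ∫ t in blk T' (X ^ (2 / 3 - ε)), ‖bp χ e t‖ ^ 2 ≤
      K * (1 + ((∑ i, e i : ℕ) : ℝ)) ^ (B + 2) * (36 * X ^ (-ε) + 1 / T') := by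
  obtain ⟨C1, hC1, B, hB⟩ := mvp
  obtain ⟨C2, hC2, hvdx⟩ := LF.vdx q
  have hqR : (1 : ℝ) ≤ q := by exact_mod_cast Nat.one_le_iff_ne_zero.2 (NeZero.ne q)
  refine ⟨C1 * (820000 * q ^ 2 + 8 * C2 ^ 2), by positivity, B, ?_⟩
  intro χ ε X e i T' hε hε1 hX hS1 hS2 hi hei hT1 hTX
  have hX0 : 0 < X := by linarith
  have hX1 : 1 ≤ X := by linarith
  have hT0 : 0 < T' := by linarith
  set y : ℝ := X ^ (-ε) with hy
  have hy0 : 0 < y := by positivity
  have ha : 1 ≤ e i := by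
    by_contra h
    have h0 : e i = 0 := by omega
    rw [h0, pow_zero] at hei
    have h1 : (1 : ℝ) < X ^ (1 / 2 - ε / 8) := Real.one_lt_rpow (by linarith) (by linarith)
    linarith
  set N : ℕ := 2 ^ (e i) / 2 with hN
  have hN2 : 2 * N = 2 ^ (e i) := by
    obtain ⟨b, hb⟩ := Nat.exists_eq_add_of_le ha
    rw [hN, hb, pow_add, pow_one, Nat.mul_div_cancel_left _ (by norm_num)]
  have hN1 : 1 ≤ N := by
    have : 0 < 2 ^ (e i) := by positivity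
    omega
  have hN0 : (0 : ℝ) < N := by exact_mod_cast hN1
  have hN2R : 2 * (N : ℝ) = 2 ^ (e i) := by exact_mod_cast hN2
  rw [← hN2R] at hei
  set S : ℕ := ∑ i, e i with hS
  set S' : ℕ := ∑ j ∈ univ.erase i, e j with hS'
  have hSS : S' + e i = S := by
    rw [hS, hS', add_comm]
    exact Finset.add_sum_erase univ e (Finset.mem_univ i)
  have hpow : (2 : ℝ) ^ S' * (2 * N) = 2 ^ S := by
    rw [hN2R, ← pow_add, hSS]
  have hp0 : (0 : ℝ) < 2 ^ S' := by positivity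
  have hNX : (N : ℝ) ≤ 256 * X := by
    have h1 : (1 : ℝ) ≤ 2 ^ S' := one_le_pow₀ (by norm_num)
    have h2 : (2 * N : ℝ) ≤ 2 ^ S' * (2 * N) := le_mul_of_one_le_left (by positivity) h1
    rw [hpow] at h2
    linarith
  have hSR : (0 : ℝ) ≤ (S : ℝ) := Nat.cast_nonneg S
  have haS : ((e i : ℕ) : ℝ) ≤ S := by
    have : e i ≤ S := by omega
    exact_mod_cast this
  have hS'S : ((S' : ℕ) : ℝ) ≤ S := by
    have : S' ≤ S := by omega
    exact_mod_cast this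
  -- the mean value of the other factors
  have hG := hB q χ e (univ.erase i) (2 * T') (by linarith)
  rw [← hS'] at hG
  have hG2 : 2 * T' / 2 ^ S' ≤ 4 * T' * N / X := by
    rw [div_le_div_iff₀ hp0 hX0]
    have h1 : X ≤ 2 ^ S' * (2 * N) := by rw [hpow]; exact hS1
    calc 2 * T' * X ≤ 2 * T' * (2 ^ S' * (2 * N)) :=
          mul_le_mul_of_nonneg_left h1 (by linarith)
      _ = 4 * T' * N * 2 ^ S' := by ring
  have hG3 : ∫ t in (-(2 * T'))..(2 * T'), ‖∏ j ∈ univ.erase i, pol (cf χ j) (e j) t‖ ^ 2 ≤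
      C1 * (1 + (S : ℝ)) ^ B * (4 * T' * N / X + 1) := by
    refine hG.trans ?_
    have h1 : (1 + (S' : ℝ)) ^ B ≤ (1 + (S : ℝ)) ^ B := by gcongr
    have h2 : 0 ≤ 2 * T' / 2 ^ S' + 1 := by positivity
    have h3 : C1 * (1 + (S' : ℝ)) ^ B ≤ C1 * (1 + (S : ℝ)) ^ B :=
      mul_le_mul_of_nonneg_left h1 hC1.le
    exact mul_le_mul h3 (by linarith) h2 (by positivity)
  have hGf : 0 ≤ C1 * (1 + (S : ℝ)) ^ B := by positivity
  have hP0 : ∀ M : ℝ, 0 ≤ M → (∀ t ∈ blk T' (X ^ (2 / 3 - ε)), ∀ u, u ≤ 2 ^ (e i) →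
      ‖LF.ds (fun n => χ n) N u t‖ ≤ M) → ∀ W : ℝ, M ^ 2 ≤ W →
      ∫ t in blk T' (X ^ (2 / 3 - ε)), ‖bp χ e t‖ ^ 2 ≤
        (4 * (1 + (S : ℝ)) ^ 2 * W) * (C1 * (1 + (S : ℝ)) ^ B * (4 * T' * N / X + 1)) := by
    intro M hM h W hW
    have hW0 : 0 ≤ W := (sq_nonneg M).trans hW
    have hred := me2_red χ e i T' (X ^ (2 / 3 - ε)) (4 * (1 + (S : ℝ)) ^ 2 * W) hT1
      (by positivity) (by
        intro t ht
        have h1 := me2_P χ i hi (e i) ha t M hM (h t ht)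
        have h2 : 2 * (1 + ((e i : ℕ) : ℝ)) * M ≤ 2 * (1 + (S : ℝ)) * M := by gcongr
        calc ‖pol (cf χ i) (e i) t‖ ^ 2 ≤ (2 * (1 + (S : ℝ)) * M) ^ 2 :=
              pow_le_pow_left₀ (norm_nonneg _) (h1.trans h2) 2
          _ = 4 * (1 + (S : ℝ)) ^ 2 * M ^ 2 := by ring
          _ ≤ _ := by gcongr)
    refine hred.trans ?_
    exact mul_le_mul_of_nonneg_left hG3 (by positivity)
  rcases le_total (X ^ (1 - ε)) (2 * (N : ℝ)) with hc | hc
  · -- case I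
    have hM := hP0 (10 * q * (1 / T' + 3 * T' / N)) (by positivity) (by
      intro t ht u hu
      have ht0 : 0 < |t| := hT0.trans_le ht.1
      have h1 := LF.em χ N u hN1 (by omega) t (abs_pos.1 ht0)
      refine h1.trans ?_
      have h2 : 1 / |t| ≤ 1 / T' := one_div_le_one_div_of_le hT0 ht.1
      have h3 : (1 + |t|) / N ≤ 3 * T' / N := by
        gcongr
        linarith [ht.2.1]
      gcongr) (200 * q ^ 2 * (1 / T' ^ 2 + 9 * T' ^ 2 / N ^ 2)) (by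
      have h1 : (1 / T' + 3 * T' / N) ^ 2 ≤ 2 * (1 / T' ^ 2 + 9 * T' ^ 2 / N ^ 2) := by
        refine (me2_sq _ _).trans (le_of_eq ?_)
        rw [div_pow, div_pow, one_pow, mul_pow]
        norm_num
      calc (10 * (q : ℝ) * (1 / T' + 3 * T' / N)) ^ 2 =
            100 * q ^ 2 * (1 / T' + 3 * T' / N) ^ 2 := by ring
        _ ≤ 100 * q ^ 2 * (2 * (1 / T' ^ 2 + 9 * T' ^ 2 / N ^ 2)) := by gcongr
        _ = _ := by ring)
    refine hM.trans ?_
    have hn := me2_n1 T' N X y hT1 hN0 hX0 hNX (me2_e1 X ε T' N hX1 hT0 hTX hc)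
    calc (4 * (1 + (S : ℝ)) ^ 2 * (200 * q ^ 2 * (1 / T' ^ 2 + 9 * T' ^ 2 / N ^ 2))) *
          (C1 * (1 + (S : ℝ)) ^ B * (4 * T' * N / X + 1))
        = C1 * (800 * q ^ 2) * (1 + (S : ℝ)) ^ (B + 2) *
          ((1 / T' ^ 2 + 9 * T' ^ 2 / N ^ 2) * (4 * T' * N / X + 1)) := by ring
      _ ≤ C1 * (800 * q ^ 2) * (1 + (S : ℝ)) ^ (B + 2) * (1025 * (1 / T' + 36 * y)) :=
          me2_mul hC1.le (by positivity) (by positivity) (by positivity) le_rfl hn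
      _ = C1 * (820000 * q ^ 2) * (1 + (S : ℝ)) ^ (B + 2) * (36 * y + 1 / T') := by ring
      _ ≤ C1 * (820000 * q ^ 2 + 8 * C2 ^ 2) * (1 + (S : ℝ)) ^ (B + 2) * (36 * y + 1 / T') :=
          me2_mul hC1.le (by positivity) (by positivity) (by positivity) (by
            have : 0 ≤ 8 * C2 ^ 2 := by positivity
            linarith) le_rfl
  · -- case II
    have hM := hP0 (C2 * (Real.sqrt (2 * T') / N + 1 / Real.sqrt T')) (by positivity) (by
      intro t ht u hu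
      have ht0 : 0 < |t| := hT0.trans_le ht.1
      have h1 := hvdx χ N u t hN1 (by omega) (hT1.trans ht.1)
      refine h1.trans ?_
      have h2 : 1 / Real.sqrt |t| ≤ 1 / Real.sqrt T' :=
        one_div_le_one_div_of_le (Real.sqrt_pos.2 hT0) (Real.sqrt_le_sqrt ht.1)
      have h3 : Real.sqrt |t| / N ≤ Real.sqrt (2 * T') / N := by
        gcongr
        exact ht.2.1
      gcongr) (2 * C2 ^ 2 * (2 * T' / N ^ 2 + 1 / T')) (by
      set a := Real.sqrt (2 * T') with ha'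
      set b := Real.sqrt T' with hb'
      have ea : a ^ 2 = 2 * T' := Real.sq_sqrt (by linarith)
      have eb : b ^ 2 = T' := Real.sq_sqrt (by linarith)
      have h1 : (a / N + 1 / b) ^ 2 ≤ 2 * (a ^ 2 / N ^ 2 + 1 / b ^ 2) := by
        refine (me2_sq _ _).trans (le_of_eq ?_)
        rw [div_pow, div_pow, one_pow]
      rw [ea, eb] at h1
      calc (C2 * (a / N + 1 / b)) ^ 2 = C2 ^ 2 * (a / N + 1 / b) ^ 2 := by ring
        _ ≤ C2 ^ 2 * (2 * (2 * T' / N ^ 2 + 1 / T')) := by gcongr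
        _ = _ := by ring)
    refine hM.trans ?_
    have hn := me2_n2 T' N X y hT1 hN0 hX0 (me2_e2 X ε T' N hX1 hε hT0 hTX hei)
      (me2_e3 X ε T' N hX1 hε1 hTX hei) (me2_e4 X ε N hX1 hc)
    calc (4 * (1 + (S : ℝ)) ^ 2 * (2 * C2 ^ 2 * (2 * T' / N ^ 2 + 1 / T'))) *
          (C1 * (1 + (S : ℝ)) ^ B * (4 * T' * N / X + 1))
        = C1 * (8 * C2 ^ 2) * (1 + (S : ℝ)) ^ (B + 2) *
          ((2 * T' / N ^ 2 + 1 / T') * (4 * T' * N / X + 1)) := by ring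
      _ ≤ C1 * (820000 * q ^ 2 + 8 * C2 ^ 2) * (1 + (S : ℝ)) ^ (B + 2) * (36 * y + 1 / T') :=
          me2_mul hC1.le (by positivity) (by positivity) (by positivity) (by
            have : 0 ≤ 820000 * (q : ℝ) ^ 2 := by positivity
            linarith) (hn.trans (by linarith))

theorem me2 (q : ℕ) [NeZero q] (ε A : ℝ) (hε : 0 < ε) (hε1 : ε < 1 / 12) (hA : 0 < A) :
    ∃ A0 X0 : ℝ, 0 < A0 ∧ 10 ≤ X0 ∧ ∀ (χ : DirichletCharacter ℂ q) (X T0 : ℝ), X0 ≤ X →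
    (Real.log X) ^ A0 ≤ T0 →
    ∀ (e : Fin 6 → ℕ), X ≤ 2 ^ (∑ i, e i) → (2 : ℝ) ^ (∑ i, e i) ≤ 2 ^ 9 * X →
    (∃ i : Fin 6, 3 ≤ (i : ℕ) ∧ X ^ (1 / 2 - ε / 8) ≤ (2 : ℝ) ^ (e i)) →
    ∫ t in {t : ℝ | T0 ≤ |t| ∧ |t| ≤ X ^ (2 / 3 - ε)}, ‖bp χ e t‖ ^ 2 ≤
      (Real.log X) ^ (-A) := by
  obtain ⟨K, hK, B, hblk⟩ := me2_blk q
  set K2 : ℝ := K * 4 ^ (B + 2) with hK2
  have hK2p : 0 < K2 := by positivity
  have hlog : ∀ᶠ X : ℝ in Filter.atTop, (Real.log X) ^ (A + B + 4) ≤ 1 / (72 * K2) * X ^ ε := by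
    have h1 := (isLittleO_log_rpow_rpow_atTop (A + B + 4) hε).def
      (show (0 : ℝ) < 1 / (72 * K2) by positivity)
    filter_upwards [h1, Filter.eventually_ge_atTop (1 : ℝ)] with X hX hX1
    rw [Real.norm_of_nonneg (Real.rpow_nonneg (Real.log_nonneg hX1) _),
      Real.norm_of_nonneg (by positivity)] at hX
    exact hX
  have hlog2 : ∀ᶠ X : ℝ in Filter.atTop, max 6 (2 * K2) ≤ Real.log X :=
    Real.tendsto_log_atTop.eventually_ge_atTop _
  obtain ⟨X1, hX1⟩ := Filter.eventually_atTop.1 (hlog.and hlog2)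
  refine ⟨A + B + 5, max 10 X1, by positivity, le_max_left _ _, ?_⟩
  rintro χ X T0 hX hT0 e hS1 hS2 ⟨i, hi, hei⟩
  have hX10 : 10 ≤ X := (le_max_left _ _).trans hX
  have hX0 : 0 < X := by linarith
  obtain ⟨hl1, hl2⟩ := hX1 X ((le_max_right _ _).trans hX)
  set l : ℝ := Real.log X with hl
  have hl6 : 6 ≤ l := (le_max_left _ _).trans hl2
  have hlK : 2 * K2 ≤ l := (le_max_right _ _).trans hl2
  have hl0 : 0 < l := by linarith
  have hT01 : 1 ≤ T0 := by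
    refine le_trans ?_ hT0
    apply Real.one_le_rpow (by linarith)
    positivity
  set T : ℝ := X ^ (2 / 3 - ε) with hT
  -- the size of S
  set S : ℕ := ∑ i, e i with hS
  have hSl : (S : ℝ) ≤ 3 * l := by
    have h1 : Real.log ((2 : ℝ) ^ S) ≤ Real.log (2 ^ 9 * X) := Real.log_le_log (by positivity) hS2
    rw [Real.log_pow, Real.log_mul (by norm_num) hX0.ne', Real.log_pow, ← hl] at h1
    have h2 := Real.log_two_gt_d9
    have h3 := Real.log_two_lt_d9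
    push_cast at h1
    nlinarith
  have hS4 : (1 + (S : ℝ)) ^ (B + 2) ≤ 4 ^ (B + 2) * l ^ (B + 2) := by
    rw [← mul_pow]
    gcongr
    linarith
  -- one block
  have hb : ∀ T', T0 ≤ T' → ∫ t in blk T' T, ‖bp χ e t‖ ^ 2 ≤ l ^ (-A - 2) := by
    intro T' hT'
    have hT'1 : 1 ≤ T' := hT01.trans hT'
    by_cases hc : T' ≤ T
    · refine (hblk χ ε X e i T' hε hε1 hX10 hS1 hS2 hi hei hT'1 hc).trans ?_
      have h1 : 1 / T' ≤ l ^ (-(A + B + 5)) := by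
        rw [Real.rpow_neg hl0.le, one_div]
        apply inv_anti₀ (by positivity)
        exact hT0.trans hT'
      have hy0 : 0 < X ^ (-ε) := by positivity
      have h2 : K * (1 + (S : ℝ)) ^ (B + 2) * (36 * X ^ (-ε) + 1 / T') ≤
          K * (4 ^ (B + 2) * l ^ (B + 2)) * (36 * X ^ (-ε) + l ^ (-(A + B + 5))) := by
        gcongr
      refine h2.trans ?_
      have h3 : K * (4 ^ (B + 2) * l ^ (B + 2)) * (36 * X ^ (-ε) + l ^ (-(A + B + 5))) =
          36 * K2 * (l ^ (B + 2) * X ^ (-ε)) + K2 * (l ^ (B + 2) * l ^ (-(A + B + 5))) := by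
        rw [hK2]
        ring
      rw [h3]
      have hlB : l ^ (B + 2) = l ^ ((B : ℝ) + 2) := by
        rw [← Real.rpow_natCast]
        congr 1
        push_cast
        ring
      have h4 : K2 * (l ^ (B + 2) * l ^ (-(A + B + 5))) ≤ 1 / 2 * l ^ (-A - 2) := by
        rw [hlB, ← Real.rpow_add hl0]
        have e1 : (B : ℝ) + 2 + -(A + B + 5) = (-A - 2) - 1 := by ring
        rw [e1, Real.rpow_sub_one hl0.ne']
        have h5 : K2 / l ≤ 1 / 2 := by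
          rw [div_le_div_iff₀ hl0 (by norm_num)]
          linarith
        have h6 : 0 < l ^ (-A - 2) := by positivity
        calc K2 * (l ^ (-A - 2) / l) = (K2 / l) * l ^ (-A - 2) := by ring
          _ ≤ _ := by gcongr
      have h5 : 36 * K2 * (l ^ (B + 2) * X ^ (-ε)) ≤ 1 / 2 * l ^ (-A - 2) := by
        have e1 : l ^ (B + 2) = l ^ (A + B + 4) * l ^ (-A - 2) := by
          rw [hlB, ← Real.rpow_add hl0]
          congr 1
          ring
        have e2 : X ^ ε * X ^ (-ε) = 1 := by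
          rw [← Real.rpow_add hX0, add_neg_cancel, Real.rpow_zero]
        have h6 : 0 < l ^ (-A - 2) := by positivity
        rw [e1]
        calc 36 * K2 * (l ^ (A + B + 4) * l ^ (-A - 2) * X ^ (-ε))
            ≤ 36 * K2 * (1 / (72 * K2) * X ^ ε * l ^ (-A - 2) * X ^ (-ε)) := by gcongr
          _ = 36 * K2 * (1 / (72 * K2)) * (X ^ ε * X ^ (-ε)) * l ^ (-A - 2) := by ring
          _ = 1 / 2 * l ^ (-A - 2) := by
            rw [e2, mul_one]
            congr 1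
            field_simp
            norm_num
      linarith
    · have h1 : blk T' T = ∅ := by
        ext t
        simp only [blk, Set.mem_ofPred_eq, Set.mem_empty_iff_false, iff_false, not_and, not_le]
        intro h2 _
        linarith [not_le.1 hc]
      rw [h1, Measure.restrict_empty, integral_zero_measure]
      positivity
  -- all blocks
  have hfc : Continuous fun t : ℝ => ‖bp χ e t‖ ^ 2 := by
    have : Continuous fun t : ℝ => bp χ e t := me2_cont_bp χ e univ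
    fun_prop
  have hsum := me2_sum hfc (fun t => by positivity) hT01 hb ⌈2 * l⌉₊
  have hk1 : (2 * l) ≤ ⌈2 * l⌉₊ := Nat.le_ceil _
  have hk2 : (⌈2 * l⌉₊ : ℝ) < 2 * l + 1 := Nat.ceil_lt_add_one (by positivity)
  have hTk : T ≤ 2 ^ ⌈2 * l⌉₊ * T0 := by
    have h1 : T ≤ X := by
      calc T ≤ X ^ (1 : ℝ) := Real.rpow_le_rpow_of_exponent_le (by linarith) (by linarith)
        _ = X := Real.rpow_one X
    have h2 : X ≤ 2 ^ ⌈2 * l⌉₊ := by
      rw [← Real.log_le_log_iff hX0 (by positivity), Real.log_pow, ← hl]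
      have h3 := Real.log_two_gt_d9
      nlinarith
    have h4 : (0 : ℝ) < 2 ^ ⌈2 * l⌉₊ := by positivity
    nlinarith
  have hset : {t : ℝ | T0 ≤ |t| ∧ |t| ≤ T} =
      {t : ℝ | T0 ≤ |t| ∧ |t| ≤ 2 ^ ⌈2 * l⌉₊ * T0 ∧ |t| ≤ T} := by
    ext t
    simp only [Set.mem_ofPred_eq]
    constructor
    · rintro ⟨h1, h2⟩
      exact ⟨h1, h2.trans hTk, h2⟩
    · rintro ⟨h1, _, h2⟩
      exact ⟨h1, h2⟩
  rw [hset]
  refine hsum.trans ?_
  have h6 : 0 < l ^ (-A - 2) := by positivity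
  have e3 : l ^ (-A) = l ^ 2 * l ^ (-A - 2) := by
    rw [← Real.rpow_natCast l 2, ← Real.rpow_add hl0]
    congr 1
    push_cast
    ring
  rw [e3]
  apply mul_le_mul_of_nonneg_right _ h6.le
  nlinarith

end Pool.Agent.H43.SI
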