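import Pool.Agent.H43.SI.Me1
import Pool.Agent.H43.SI.Me2

/-!
# [H43 SI FREQ] All frequencies

`0 < ε < 1/12`, `A > 0`. There are `A1, X0` such that for `X >= X0`, every box `e` with
`X <= 2^S <= 2^9 X` and `2^(e_i) <= 8 X^(1/3)` for `i < 3`, every `δ` with
`X^(-2/3+2ε) <= δ <= δ1 := (log X)^(-A1)`:
`∫_ℝ ‖bp χ e t‖^2 mul δ δ1 t dt <= (log X)^(-A)`.

PROOF. `ℓ = log X`, `T1 = X^(2/3-ε)`.
(M) There is `A0` with `∫_{ℓ^A0 <= |t| <= T1} ‖bp‖^2 <= ℓ^(-A-1)`: if some `i` has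
`exp(ℓ^0.98) <= 2^(e_i) <= X^(1/3+ε/2)` this is `me1`. Otherwise every `2^(e_i)` is `< exp(ℓ^0.98)` or
`> X^(1/3+ε/2)`; the long ones have `i >= 3` (`8X^(1/3) <= X^(1/3+ε/2)`), there are at most two of
them (three would give `2^S > X^(1+3ε/2) > 2^9 X`), and at least one; the product of the short ones is
`<= exp(6ℓ^0.98)`, so the longest has `2^(e_i) >= (X exp(-6ℓ^0.98))^(1/2) >= X^(1/2-ε/8)`: `me2`. Take the
maximum of the two `A0` (for `me1` enlarging `A0` shrinks the set, the integrand is `>= 0`; `me2` is stated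
with a free `T0`).
(L) `|t| <= ℓ^A0`: `mul <= (δ1(1+|t|))^2 <= 4 ℓ^(2A0-2A1)` and `‖bp‖ <= (1+S)^6 <= (4ℓ)^6` (`pw_triv`): the
integral is `<= 2ℓ^A0 * 4^13 ℓ^12 * ℓ^(2A0-2A1) <= ℓ^(-A-1)` if `A1 >= 2A0 + A + 10`.
(H) `|t| >= T1`: `mul <= 1/(δ|t|)^2`. Dyadic intervals `[T',2T']`, `T' = 2^k T1`: by `mvp` with `s = univ`
(`∫_{-2T'}^{2T'} ‖bp‖^2 <= C ℓ^B (T'/X + 1)`): `<= C ℓ^B (δT')^(-2) (T'/X+1)`, sum over `k`:
`<= C' ℓ^B (δ^(-2) T1^(-2) + δ^(-2) T1^(-1) X^(-1)) <= C'' ℓ^B X^(-2ε)` because `δT1 >= X^ε`, and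
`δ^(-2)T1^(-1)X^(-1) = (δT1)^(-2) T1/X`. (Sum of integrals over countably many sets or: the
function `∑_k` trick, or integrate `∫_{T1}^∞` by monotone convergence; alternatively cut at `T' > X^10`,
beyond which `‖bp‖ <= (4ℓ)^6` and `∫_{X^10}^∞ (δt)^(-2) dt <= X^(-5)` is trivial, so that only
finitely many dyadic intervals are needed.)
The integrand is continuous and `<= C/(1+|t|)^2`, so it is integrable (needed to split the integral).
-/

namespace Pool.Agent.H43.SI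

open Finset MeasureTheory

theorem mul_nonneg' {δ δ1 : ℝ} (t : ℝ) : 0 ≤ mul δ δ1 t := by
  unfold mul
  exact le_min zero_le_one (le_min (sq_nonneg _) (sq_nonneg _))

theorem mul_le_one (δ δ1 t : ℝ) : mul δ δ1 t ≤ 1 := min_le_left _ _

theorem mul_le_low (δ δ1 t : ℝ) : mul δ δ1 t ≤ (δ1 * (1 + |t|)) ^ 2 :=
  le_trans (min_le_right _ _) (min_le_left _ _)

theorem mul_le_high (δ δ1 t : ℝ) : mul δ δ1 t ≤ (1 / (δ * (1 + |t|))) ^ 2 :=
  le_trans (min_le_right _ _) (min_le_right _ _)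

theorem mul_cont {δ δ1 : ℝ} (hδ : 0 < δ) : Continuous (mul δ δ1) := by
  unfold mul
  apply Continuous.min continuous_const
  apply Continuous.min
  · fun_prop
  · apply Continuous.pow
    apply Continuous.div continuous_const (by fun_prop)
    intro t
    have := abs_nonneg t
    positivity

/-- the integral over all frequencies from its three parts -/
theorem freq_abs (b : ℝ → ℝ) (hb : Continuous b) (hb0 : ∀ t, 0 ≤ b t) (Kb : ℝ)
    (hKb : ∀ t, b t ≤ Kb) (δ δ1 T1 T2 M P K : ℝ) (hδ : 0 < δ) (hT1 : 1 ≤ T1) (hT2 : 0 ≤ T2)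
    (hM : ∫ t in {t : ℝ | T2 ≤ |t| ∧ |t| ≤ T1}, b t ≤ M)
    (hP : 0 ≤ P)
    (hH : ∀ k : ℕ, ∫ t in (-(2 ^ (k + 1) * T1))..(2 ^ (k + 1) * T1), b t ≤ P * 2 ^ k)
    (hL : ∀ t, |t| ≤ T2 → b t * mul δ δ1 t ≤ K) :
    ∫ t : ℝ, b t * mul δ δ1 t ≤ 2 * T2 * K + M + 2 * P / (δ * T1) ^ 2 := by
  set h : ℝ → ℝ := fun t => b t * mul δ δ1 t with hh
  have hm := mul_cont (δ1 := δ1) hδ
  have hcont : Continuous h := hb.mul hm
  have h0 : ∀ t, 0 ≤ h t := fun t => mul_nonneg (hb0 t) (mul_nonneg' t)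
  have hKb0 : 0 ≤ Kb := le_trans (hb0 0) (hKb 0)
  -- integrability
  have hint : Integrable h := by
    have hg : Integrable (fun t : ℝ => (Kb / δ ^ 2) * (1 + t ^ 2)⁻¹) :=
      integrable_inv_one_add_sq.const_mul _
    refine Integrable.mono' hg hcont.aestronglyMeasurable (Filter.Eventually.of_forall ?_)
    intro t
    rw [Real.norm_eq_abs, abs_of_nonneg (h0 t)]
    have h1 : mul δ δ1 t ≤ (1 / δ ^ 2) * (1 + t ^ 2)⁻¹ := by
      refine le_trans (mul_le_high δ δ1 t) ?_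
      have h2 : 1 + t ^ 2 ≤ (1 + |t|) ^ 2 := by
        have := abs_nonneg t
        have h3 : |t| ^ 2 = t ^ 2 := sq_abs t
        nlinarith
      have h3 : (1 / (δ * (1 + |t|))) ^ 2 = (1 / δ ^ 2) * ((1 + |t|) ^ 2)⁻¹ := by
        have := abs_nonneg t
        have h4 : 1 + |t| ≠ 0 := by positivity
        field_simp
      rw [h3]
      have h5 : 0 < 1 + t ^ 2 := by positivity
      gcongr
    calc b t * mul δ δ1 t ≤ Kb * ((1 / δ ^ 2) * (1 + t ^ 2)⁻¹) :=
          mul_le_mul (hKb t) h1 (mul_nonneg' t) hKb0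
      _ = (Kb / δ ^ 2) * (1 + t ^ 2)⁻¹ := by ring
  -- the central part
  have hcen : ∫ t in (-T1)..T1, h t ≤ 2 * T2 * K + M := by
    rw [intervalIntegral.integral_of_le (by linarith), ← integral_Icc_eq_integral_Ioc]
    have hmeas : MeasurableSet {t : ℝ | T2 ≤ |t|} :=
      (isClosed_le continuous_const continuous_abs).measurableSet
    rw [← integral_inter_add_sdiff hmeas hint.integrableOn]
    have e1 : Set.Icc (-T1) T1 ∩ {t : ℝ | T2 ≤ |t|} = {t : ℝ | T2 ≤ |t| ∧ |t| ≤ T1} := by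
      ext t
      simp only [Set.mem_inter_iff, Set.mem_Icc, Set.mem_ofPred_eq, abs_le]
      tauto
    have hm2 : MeasurableSet {t : ℝ | T2 ≤ |t| ∧ |t| ≤ T1} := by
      rw [← e1]; exact measurableSet_Icc.inter hmeas
    have hbi : ∀ s : Set ℝ, s ⊆ Set.Icc (-T1) T1 → IntegrableOn b s := fun s hs =>
      (hb.continuousOn.integrableOn_compact isCompact_Icc).mono_set hs
    have p1 : ∫ t in Set.Icc (-T1) T1 ∩ {t : ℝ | T2 ≤ |t|}, h t ≤ M := by
      rw [e1]
      refine le_trans ?_ hM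
      apply setIntegral_mono_on hint.integrableOn (hbi _ (by rw [← e1]; exact Set.inter_subset_left))
        hm2
      intro t _
      calc h t ≤ b t * 1 := mul_le_mul_of_nonneg_left (mul_le_one _ _ _) (hb0 t)
        _ = b t := mul_one _
    have p2 : ∫ t in Set.Icc (-T1) T1 \ {t : ℝ | T2 ≤ |t|}, h t ≤ 2 * T2 * K := by
      have s1 : Set.Icc (-T1) T1 \ {t : ℝ | T2 ≤ |t|} ⊆ Set.Icc (-T2) T2 := by
        intro t ht
        have := ht.2
        simp only [Set.mem_ofPred_eq, not_le] at this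
        exact abs_le.1 this.le
      have s2 : ∫ t in Set.Icc (-T1) T1 \ {t : ℝ | T2 ≤ |t|}, h t ≤ ∫ t in Set.Icc (-T2) T2, h t :=
        setIntegral_mono_set hint.integrableOn (Filter.Eventually.of_forall h0)
          (HasSubset.Subset.eventuallyLE s1)
      have s3 : ∫ t in Set.Icc (-T2) T2, h t ≤ ∫ _ in Set.Icc (-T2) T2, K := by
        apply setIntegral_mono_on hint.integrableOn _ measurableSet_Icc
        · intro t ht
          exact hL t (abs_le.2 ht)
        · exact integrableOn_const (by simp) (by simp)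
      have s4 : ∫ _ in Set.Icc (-T2) T2, K = 2 * T2 * K := by
        rw [setIntegral_const]
        simp only [measureReal_def, Real.volume_Icc, smul_eq_mul]
        rw [ENNReal.toReal_ofReal (by linarith)]
        ring
      linarith
    linarith
  -- the dyadic steps
  have hstep : ∀ k : ℕ, ∫ t in (-(2 ^ k * T1))..(2 ^ k * T1), h t ≤
      2 * T2 * K + M + (2 - 2 / 2 ^ k) * (P / (δ * T1) ^ 2) := by
    intro k
    induction k with
    | zero =>
      simpa using hcen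
    | succ k ih =>
      set R := 2 ^ k * T1 with hR
      have hRpos : 0 < R := by positivity
      have hR2 : 2 ^ (k + 1) * T1 = 2 * R := by rw [hR, pow_succ]; ring
      have hHk := hH k
      rw [hR2] at hHk ⊢
      have hi : ∀ a c : ℝ, IntervalIntegrable h volume a c := fun a c =>
        hcont.intervalIntegrable a c
      have hib : ∀ a c : ℝ, IntervalIntegrable b volume a c := fun a c =>
        hb.intervalIntegrable a c
      have sp : ∫ t in (-(2 * R))..(2 * R), h t = (∫ t in (-(2 * R))..(-R), h t) +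
          (∫ t in (-R)..R, h t) + ∫ t in R..(2 * R), h t := by
        rw [intervalIntegral.integral_add_adjacent_intervals (hi _ _) (hi _ _),
          intervalIntegral.integral_add_adjacent_intervals (hi _ _) (hi _ _)]
      have spb : ∫ t in (-(2 * R))..(2 * R), b t = (∫ t in (-(2 * R))..(-R), b t) +
          (∫ t in (-R)..R, b t) + ∫ t in R..(2 * R), b t := by
        rw [intervalIntegral.integral_add_adjacent_intervals (hib _ _) (hib _ _),
          intervalIntegral.integral_add_adjacent_intervals (hib _ _) (hib _ _)]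
      have hw : ∀ t : ℝ, R ≤ |t| → h t ≤ (1 / (δ * R)) ^ 2 * b t := by
        intro t ht
        have h1 : mul δ δ1 t ≤ (1 / (δ * R)) ^ 2 := by
          refine le_trans (mul_le_high δ δ1 t) ?_
          have h2 : 1 / (δ * (1 + |t|)) ≤ 1 / (δ * R) := by
            apply one_div_le_one_div_of_le (by positivity)
            gcongr
            linarith
          have h3 : 0 ≤ 1 / (δ * (1 + |t|)) := by positivity
          exact pow_le_pow_left₀ h3 h2 2
        calc h t = mul δ δ1 t * b t := by rw [hh]; ring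
          _ ≤ (1 / (δ * R)) ^ 2 * b t := mul_le_mul_of_nonneg_right h1 (hb0 t)
      have q1 : ∫ t in (-(2 * R))..(-R), h t ≤ (1 / (δ * R)) ^ 2 * ∫ t in (-(2 * R))..(-R), b t := by
        rw [← intervalIntegral.integral_const_mul]
        apply intervalIntegral.integral_mono_on (by linarith) (hi _ _) ((hib _ _).const_mul _)
        intro t ht
        apply hw
        rw [abs_of_nonpos (by linarith [ht.2])]
        linarith [ht.2]
      have q3 : ∫ t in R..(2 * R), h t ≤ (1 / (δ * R)) ^ 2 * ∫ t in R..(2 * R), b t := by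
        rw [← intervalIntegral.integral_const_mul]
        apply intervalIntegral.integral_mono_on (by linarith) (hi _ _) ((hib _ _).const_mul _)
        intro t ht
        apply hw
        rw [abs_of_nonneg (by linarith [ht.1])]
        exact ht.1
      have q2 : 0 ≤ ∫ t in (-R)..R, b t :=
        intervalIntegral.integral_nonneg (by linarith) (fun t _ => hb0 t)
      have q4 : (1 / (δ * R)) ^ 2 * ((∫ t in (-(2 * R))..(-R), b t) + ∫ t in R..(2 * R), b t) ≤
          (1 / (δ * R)) ^ 2 * (P * 2 ^ k) := by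
        apply mul_le_mul_of_nonneg_left _ (by positivity)
        linarith
      have q5 : (1 / (δ * R)) ^ 2 * (P * 2 ^ k) = (1 / 2 ^ k) * (P / (δ * T1) ^ 2) := by
        rw [hR]
        have : T1 ≠ 0 := by linarith
        field_simp
      have q6 : (2 - 2 / 2 ^ (k + 1)) * (P / (δ * T1) ^ 2) =
          (2 - 2 / 2 ^ k) * (P / (δ * T1) ^ 2) + (1 / 2 ^ k) * (P / (δ * T1) ^ 2) := by
        rw [← add_mul]
        congr 1
        rw [pow_succ]
        field_simp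
        ring
      rw [q6, sp]
      linarith
  -- the limit
  have hlim : Filter.Tendsto (fun k : ℕ => ∫ t in (-(2 ^ k * T1))..(2 ^ k * T1), h t)
      Filter.atTop (nhds (∫ t, h t)) := by
    have hpow : Filter.Tendsto (fun k : ℕ => (2 : ℝ) ^ k * T1) Filter.atTop Filter.atTop :=
      (tendsto_pow_atTop_atTop_of_one_lt (by norm_num)).atTop_mul_const (by linarith)
    exact intervalIntegral_tendsto_integral hint (Filter.tendsto_neg_atTop_atBot.comp hpow) hpow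
  refine le_of_tendsto' hlim fun k => le_trans (hstep k) ?_
  have hQ : 0 ≤ P / (δ * T1) ^ 2 := by positivity
  have h2k : 0 ≤ 2 / (2 : ℝ) ^ k := by positivity
  have : (2 - 2 / 2 ^ k) * (P / (δ * T1) ^ 2) ≤ 2 * (P / (δ * T1) ^ 2) :=
    mul_le_mul_of_nonneg_right (by linarith) hQ
  calc _ ≤ 2 * T2 * K + M + 2 * (P / (δ * T1) ^ 2) := by linarith
    _ = _ := by ring

/-- the choice of the long or medium factor, in logarithms -/
theorem freq_comb (x : Fin 6 → ℝ) (ℓ a ε : ℝ) (hε1 : ε < 1 / 12) (hx : ∀ i, 0 ≤ x i)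
    (hlo : ℓ ≤ ∑ i, x i) (hup : ∑ i, x i ≤ 6.3 + ℓ) (hℓ : 0 < ℓ) (ha : 16 * a ≤ ε * ℓ)
    (h5 : 5 ≤ ε * ℓ) (h3 : ∀ i : Fin 6, (i : ℕ) < 3 → x i ≤ 2.1 + ℓ / 3) :
    (∃ i, a ≤ x i ∧ x i ≤ (1 / 3 + ε / 2) * ℓ) ∨
      ∃ i : Fin 6, 3 ≤ (i : ℕ) ∧ (1 / 2 - ε / 8) * ℓ ≤ x i := by
  by_contra hcon
  push Not at hcon
  obtain ⟨hA, hB⟩ := hcon
  rw [Fin.sum_univ_six] at hlo hup
  have d : ∀ i, x i < a ∨ (1 / 3 + ε / 2) * ℓ < x i := by
    intro i
    rcases lt_or_ge (x i) a with h | h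
    · exact Or.inl h
    · exact Or.inr (hA i h)
  have hshort : ∀ i : Fin 6, (i : ℕ) < 3 → x i < a := by
    intro i hi
    rcases d i with h | h
    · exact h
    · have := h3 i hi
      exfalso
      linarith
  have b0 := hshort 0 (by decide)
  have b1 := hshort 1 (by decide)
  have b2 := hshort 2 (by decide)
  have c3 := hB 3 (by decide)
  have c4 := hB 4 (by decide)
  have c5 := hB 5 (by decide)
  have x0 := hx 0
  have x1 := hx 1
  have x2 := hx 2
  rcases d 3 with h | h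
  · linarith
  rcases d 4 with h' | h'
  · linarith
  rcases d 5 with h'' | h''
  · linarith
  · linarith

theorem pol_cont (c : ℕ → ℂ) (a : ℕ) : Continuous (pol c a) := by
  unfold pol LF.ds
  apply continuous_finsetSum
  intro n hn
  rw [mem_Ioc] at hn
  apply Continuous.mul continuous_const
  apply Continuous.const_cpow (by fun_prop)
  left
  have : n ≠ 0 := by omega
  exact_mod_cast this

theorem freq (q : ℕ) [NeZero q] (ε A : ℝ) (hε : 0 < ε) (hε1 : ε < 1 / 12) (hA : 0 < A) :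
    ∃ A1 X0 : ℝ, 0 < A1 ∧ 10 ≤ X0 ∧ ∀ (χ : DirichletCharacter ℂ q) (X δ : ℝ), X0 ≤ X →
    X ^ (-(2 : ℝ) / 3 + 2 * ε) ≤ δ → δ ≤ (Real.log X) ^ (-A1) →
    ∀ (e : Fin 6 → ℕ), X ≤ 2 ^ (∑ i, e i) → (2 : ℝ) ^ (∑ i, e i) ≤ 2 ^ 9 * X →
    (∀ i : Fin 6, (i : ℕ) < 3 → (2 : ℝ) ^ (e i) ≤ 8 * X ^ ((1 : ℝ) / 3)) →
    ∫ t : ℝ, ‖bp χ e t‖ ^ 2 * mul δ ((Real.log X) ^ (-A1)) t ≤ (Real.log X) ^ (-A) := by
  obtain ⟨C, hC, B, hmvp⟩ := mvp
  obtain ⟨A01, X01, hA01, hX01, hme1⟩ := me1 q ε (A + 1) hε (by linarith) (by linarith)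
  obtain ⟨A02, X02, hA02, hX02, hme2⟩ := me2 q ε (A + 1) hε hε1 (by linarith)
  set A0 := max A01 A02 with hA0
  have hA0pos : 0 < A0 := lt_of_lt_of_le hA01 (le_max_left _ _)
  set A1 := 2 * A0 + A + 14 with hA1
  -- conditions on X
  have ev1 : ∀ᶠ X : ℝ in Filter.atTop, max (8 * 4 * 3 ^ 12) (5 / ε) ≤ Real.log X :=
    Real.tendsto_log_atTop.eventually_ge_atTop _
  have ev2 : ∀ᶠ X : ℝ in Filter.atTop, 16 * (Real.log X) ^ (0.98 : ℝ) ≤ ε * Real.log X := by
    have h1 : Filter.Tendsto (fun x : ℝ => x ^ (0.02 : ℝ)) Filter.atTop Filter.atTop :=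
      tendsto_rpow_atTop (by norm_num)
    have h2 := (h1.comp Real.tendsto_log_atTop).eventually_ge_atTop (16 / ε)
    have h3 : ∀ᶠ X : ℝ in Filter.atTop, 1 ≤ Real.log X :=
      Real.tendsto_log_atTop.eventually_ge_atTop _
    filter_upwards [h2, h3] with X hX hX1
    have hX' : 16 / ε ≤ (Real.log X) ^ (0.02 : ℝ) := hX
    have h4 : (Real.log X) ^ (0.98 : ℝ) * (Real.log X) ^ (0.02 : ℝ) = Real.log X := by
      rw [← Real.rpow_add (by linarith)]; norm_num
    have h5 : 0 ≤ (Real.log X) ^ (0.98 : ℝ) := Real.rpow_nonneg (by linarith) _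
    have h6 := mul_le_mul_of_nonneg_left hX' h5
    rw [h4] at h6
    have h7 : ε * ((Real.log X) ^ (0.98 : ℝ) * (16 / ε)) ≤ ε * Real.log X := by gcongr
    calc 16 * (Real.log X) ^ (0.98 : ℝ) = ε * ((Real.log X) ^ (0.98 : ℝ) * (16 / ε)) := by
          field_simp
      _ ≤ _ := h7
  have ev3 : ∀ᶠ X : ℝ in Filter.atTop,
      24 * C * 3 ^ B * (Real.log X) ^ (A + B) ≤ X ^ (2 * ε) := by
    have h := (isLittleO_log_rpow_rpow_atTop (A + B) (s := 2 * ε) (by linarith)).bound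
      (c := 1 / (24 * C * 3 ^ B)) (by positivity)
    filter_upwards [h, Filter.eventually_ge_atTop (1 : ℝ)] with X hX hX1
    rw [Real.norm_eq_abs, Real.norm_eq_abs,
      abs_of_nonneg (Real.rpow_nonneg (by linarith : 0 ≤ X) _)] at hX
    have h1 := le_trans (le_abs_self _) hX
    calc 24 * C * 3 ^ B * (Real.log X) ^ (A + B)
        ≤ 24 * C * 3 ^ B * (1 / (24 * C * 3 ^ B) * X ^ (2 * ε)) := by gcongr
      _ = X ^ (2 * ε) := by field_simp
  obtain ⟨X1, hX1⟩ := Filter.eventually_atTop.1 (ev1.and (ev2.and ev3))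
  refine ⟨A1, max X1 (max X01 X02), by positivity,
    le_trans hX01 (le_trans (le_max_left _ _) (le_max_right _ _)), ?_⟩
  intro χ X δ hX hδ1 hδ2 e he1 he2 he3
  obtain ⟨c1, c2, c3⟩ := hX1 X (le_trans (le_max_left _ _) hX)
  have hXX01 : X01 ≤ X := le_trans (le_trans (le_max_left _ _) (le_max_right _ _)) hX
  have hXX02 : X02 ≤ X := le_trans (le_trans (le_max_right _ _) (le_max_right _ _)) hX
  have hX10 : 10 ≤ X := le_trans hX01 hXX01
  have hXpos : 0 < X := by linarith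
  have hXone : 1 ≤ X := by linarith
  set ℓ := Real.log X with hℓ
  have hℓbig : 8 * 4 * 3 ^ 12 ≤ ℓ := le_trans (le_max_left _ _) c1
  have hℓ100 : 100 ≤ ℓ := by
    refine le_trans ?_ hℓbig
    norm_num
  have hℓpos : 0 < ℓ := by linarith
  have hℓone : 1 ≤ ℓ := by linarith
  have h5 : 5 ≤ ε * ℓ := by
    have := le_trans (le_max_right _ _) c1
    rw [div_le_iff₀ hε] at this
    linarith
  have hXℓ : X = Real.exp ℓ := (Real.exp_log hXpos).symm
  have hXr : ∀ a : ℝ, X ^ a = Real.exp (a * ℓ) := by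
    intro a
    rw [Real.rpow_def_of_pos hXpos]; congr 1; ring
  have hl2a : (0.6931471803 : ℝ) < Real.log 2 := Real.log_two_gt_d9
  have hl2b : Real.log 2 < 0.6931471808 := Real.log_two_lt_d9
  have h2e : ∀ n : ℕ, (2 : ℝ) ^ n = Real.exp (n * Real.log 2) := by
    intro n
    rw [mul_comm, ← Real.rpow_natCast, Real.rpow_def_of_pos (by norm_num)]
  set S := ∑ i, e i with hS
  -- the size of S
  have hSlog : (S : ℝ) * Real.log 2 ≤ 9 * Real.log 2 + ℓ := by
    have h1 := Real.log_le_log (by positivity) he2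
    rw [Real.log_pow, Real.log_mul (by norm_num) hXpos.ne', Real.log_pow] at h1
    push_cast at h1
    linarith
  have hSlog' : ℓ ≤ (S : ℝ) * Real.log 2 := by
    have h1 := Real.log_le_log hXpos he1
    rwa [Real.log_pow] at h1
  have hS3 : 1 + (S : ℝ) ≤ 3 * ℓ := by
    have h1 : (S : ℝ) * 0.6931471803 ≤ (S : ℝ) * Real.log 2 :=
      mul_le_mul_of_nonneg_left hl2a.le (Nat.cast_nonneg _)
    linarith
  have hS0 : (0 : ℝ) ≤ S := Nat.cast_nonneg _
  -- δ
  have hδpos : 0 < δ := lt_of_lt_of_le (Real.rpow_pos_of_pos hXpos _) hδ1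
  set δ1 := ℓ ^ (-A1) with hδ1def
  have hδ1pos : 0 < δ1 := Real.rpow_pos_of_pos hℓpos _
  set T1 := X ^ (2 / 3 - ε) with hT1
  have hT1one : 1 ≤ T1 := Real.one_le_rpow hXone (by linarith)
  have hT1X : T1 ≤ X := by
    calc T1 ≤ X ^ (1 : ℝ) := Real.rpow_le_rpow_of_exponent_le hXone (by linarith)
      _ = X := Real.rpow_one X
  set T2 := ℓ ^ A0 with hT2
  have hT2one : 1 ≤ T2 := Real.one_le_rpow hℓone hA0pos.le
  -- the trivial bound
  have hbp : ∀ t, ‖bp χ e t‖ ≤ (3 * ℓ) ^ 6 := by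
    intro t
    unfold bp
    rw [norm_prod]
    calc ∏ i, ‖pol (cf χ i) (e i) t‖ ≤ ∏ _i : Fin 6, (3 * ℓ) := by
          apply Finset.prod_le_prod (fun i _ => norm_nonneg _)
          intro i _
          refine le_trans (pw_triv χ i (e i) t) (le_trans ?_ hS3)
          have : e i ≤ S := Finset.single_le_sum (fun j _ => Nat.zero_le _) (Finset.mem_univ i)
          have : (e i : ℝ) ≤ S := by exact_mod_cast this
          linarith
      _ = (3 * ℓ) ^ 6 := by simp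
  have hbsq : ∀ t, ‖bp χ e t‖ ^ 2 ≤ (3 * ℓ) ^ 12 := by
    intro t
    calc ‖bp χ e t‖ ^ 2 ≤ ((3 * ℓ) ^ 6) ^ 2 := pow_le_pow_left₀ (norm_nonneg _) (hbp t) 2
      _ = (3 * ℓ) ^ 12 := by ring
  have hbcont : Continuous (fun t => ‖bp χ e t‖ ^ 2) := by
    apply Continuous.pow
    apply Continuous.norm
    unfold bp
    exact continuous_finsetProd _ (fun i _ => pol_cont _ _)
  -- the middle part
  have hMid : ∫ t in {t : ℝ | T2 ≤ |t| ∧ |t| ≤ T1}, ‖bp χ e t‖ ^ 2 ≤ ℓ ^ (-(A + 1)) := by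
    have hcase := freq_comb (fun i => (e i : ℝ) * Real.log 2) ℓ (ℓ ^ (0.98 : ℝ)) ε hε1
      (by intro i; positivity)
      (by rw [← Finset.sum_mul]; rw [hS] at hSlog'; push_cast at hSlog'; exact hSlog')
      (by
        rw [← Finset.sum_mul]; rw [hS] at hSlog; push_cast at hSlog
        linarith) hℓpos c2 h5
      (by
        intro i hi
        have h1 := he3 i hi
        have h2 := Real.log_le_log (by positivity) h1
        rw [Real.log_pow, Real.log_mul (by norm_num) (by positivity), Real.log_rpow hXpos,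
          show (8 : ℝ) = 2 ^ 3 by norm_num, Real.log_pow] at h2
        push_cast at h2
        linarith)
    rcases hcase with ⟨i, hi1, hi2⟩ | ⟨i, hi0, hi1⟩
    · have h1 := hme1 χ X hXX01 e he1 he2 ⟨i, by
        rw [h2e]; exact Real.exp_le_exp.2 hi1, by
        rw [h2e, hXr]; exact Real.exp_le_exp.2 hi2⟩
      refine le_trans ?_ h1
      apply setIntegral_mono_set
      · apply (hbcont.continuousOn.integrableOn_compact (isCompact_Icc (a := -T1) (b := T1))).mono_set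
        intro t ht
        exact abs_le.1 ht.2
      · exact Filter.Eventually.of_forall (fun t => sq_nonneg _)
      · apply HasSubset.Subset.eventuallyLE
        intro t ht
        refine ⟨le_trans ?_ ht.1, ht.2⟩
        exact Real.rpow_le_rpow_of_exponent_le hℓone (le_max_left _ _)
    · exact hme2 χ X T2 hXX02
        (Real.rpow_le_rpow_of_exponent_le hℓone (le_max_right _ _)) e he1 he2
        ⟨i, hi0, by rw [h2e, hXr]; exact Real.exp_le_exp.2 hi1⟩
  -- the high part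
  have hHigh : ∀ k : ℕ, ∫ t in (-(2 ^ (k + 1) * T1))..(2 ^ (k + 1) * T1), ‖bp χ e t‖ ^ 2 ≤
      (3 * (C * (3 * ℓ) ^ B)) * 2 ^ k := by
    intro k
    have hT : 1 ≤ 2 ^ (k + 1) * T1 := by
      have : (1 : ℝ) ≤ 2 ^ (k + 1) := one_le_pow₀ (by norm_num)
      calc (1 : ℝ) = 1 * 1 := by ring
        _ ≤ 2 ^ (k + 1) * T1 := by gcongr
    have h1 := hmvp q χ e Finset.univ (2 ^ (k + 1) * T1) hT
    have h2 : 2 ^ (k + 1) * T1 / 2 ^ S ≤ 2 ^ (k + 1) := by
      rw [div_le_iff₀ (by positivity)]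
      have : T1 ≤ 2 ^ S := le_trans hT1X he1
      gcongr
    have h3 : (1 : ℝ) ≤ 2 ^ k := one_le_pow₀ (by norm_num)
    have h4 : 2 ^ (k + 1) * T1 / 2 ^ S + 1 ≤ 3 * 2 ^ k := by
      calc 2 ^ (k + 1) * T1 / 2 ^ S + 1 ≤ 2 ^ (k + 1) + 1 := by linarith
        _ = 2 * 2 ^ k + 1 := by rw [pow_succ]; ring
        _ ≤ 3 * 2 ^ k := by linarith
    have h5 : (1 + (S : ℝ)) ^ B ≤ (3 * ℓ) ^ B := pow_le_pow_left₀ (by linarith) hS3 B
    refine le_trans h1 ?_
    calc C * (1 + (S : ℝ)) ^ B * (2 ^ (k + 1) * T1 / 2 ^ S + 1)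
        ≤ C * (3 * ℓ) ^ B * (3 * 2 ^ k) := by gcongr
      _ = (3 * (C * (3 * ℓ) ^ B)) * 2 ^ k := by ring
  -- the low part
  have hLow : ∀ t, |t| ≤ T2 → ‖bp χ e t‖ ^ 2 * mul δ δ1 t ≤
      (3 * ℓ) ^ 12 * (δ1 * (2 * T2)) ^ 2 := by
    intro t ht
    have h1 : mul δ δ1 t ≤ (δ1 * (2 * T2)) ^ 2 := by
      refine le_trans (mul_le_low δ δ1 t) ?_
      have h2 : 0 ≤ δ1 * (1 + |t|) := by positivity
      apply pow_le_pow_left₀ h2
      gcongr
      linarith
    exact mul_le_mul (hbsq t) h1 (mul_nonneg' t) (by positivity)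
  have hall := freq_abs (fun t => ‖bp χ e t‖ ^ 2) hbcont (fun t => sq_nonneg _) _ hbsq δ δ1 T1 T2
    (ℓ ^ (-(A + 1))) (3 * (C * (3 * ℓ) ^ B)) ((3 * ℓ) ^ 12 * (δ1 * (2 * T2)) ^ 2) hδpos hT1one
    (by linarith) hMid (by positivity) hHigh hLow
  refine le_trans hall ?_
  -- final estimates
  have hAA : ℓ ^ (-(A + 1)) ≤ ℓ ^ (-A) / 4 := by
    have e1 : ℓ ^ (-(A + 1)) = ℓ ^ (-A) / ℓ := by
      rw [show -(A + 1) = -A - 1 by ring, Real.rpow_sub hℓpos, Real.rpow_one]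
    rw [e1]
    have : 0 ≤ ℓ ^ (-A) := Real.rpow_nonneg hℓpos.le _
    apply div_le_div_of_nonneg_left this (by norm_num) (by linarith)
  have hLL : 2 * T2 * ((3 * ℓ) ^ 12 * (δ1 * (2 * T2)) ^ 2) ≤ ℓ ^ (-A) / 4 := by
    have e1 : 2 * T2 * ((3 * ℓ) ^ 12 * (δ1 * (2 * T2)) ^ 2) =
        (8 * 3 ^ 12) * (ℓ ^ (12 : ℕ) * T2 ^ (3 : ℕ) * δ1 ^ (2 : ℕ)) := by ring
    have e2 : ℓ ^ (12 : ℕ) * T2 ^ (3 : ℕ) * δ1 ^ (2 : ℕ) = ℓ ^ (12 + A0 * 3 + (-A1) * 2) := by
      rw [hT2, hδ1def, ← Real.rpow_natCast ℓ 12, ← Real.rpow_natCast (ℓ ^ A0) 3,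
        ← Real.rpow_natCast (ℓ ^ (-A1)) 2, ← Real.rpow_mul hℓpos.le, ← Real.rpow_mul hℓpos.le,
        ← Real.rpow_add hℓpos, ← Real.rpow_add hℓpos]
      norm_num
    have e3 : ℓ ^ (12 + A0 * 3 + (-A1) * 2) ≤ ℓ ^ (-A - 1) := by
      apply Real.rpow_le_rpow_of_exponent_le hℓone
      rw [hA1]
      linarith
    rw [e1, e2]
    calc (8 * 3 ^ 12) * ℓ ^ (12 + A0 * 3 + (-A1) * 2) ≤ (8 * 3 ^ 12) * ℓ ^ (-A - 1) := by
          gcongr
      _ = (8 * 3 ^ 12) * (ℓ ^ (-A) / ℓ) := by rw [Real.rpow_sub hℓpos, Real.rpow_one]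
      _ = ((8 * 4 * 3 ^ 12) / ℓ) * (ℓ ^ (-A) / 4) := by field_simp
      _ ≤ 1 * (ℓ ^ (-A) / 4) := by
          have h1 : 0 ≤ ℓ ^ (-A) := Real.rpow_nonneg hℓpos.le _
          apply mul_le_mul_of_nonneg_right _ (by positivity)
          rw [div_le_one hℓpos]
          exact hℓbig
      _ = ℓ ^ (-A) / 4 := one_mul _
  have hHH : 2 * (3 * (C * (3 * ℓ) ^ B)) / (δ * T1) ^ 2 ≤ ℓ ^ (-A) / 4 := by
    have e1 : X ^ ε ≤ δ * T1 := by
      calc X ^ ε = X ^ (-(2 : ℝ) / 3 + 2 * ε) * X ^ (2 / 3 - ε) := by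
            rw [← Real.rpow_add hXpos]; congr 1; ring
        _ ≤ δ * T1 := by gcongr
    have e2 : X ^ (2 * ε) ≤ (δ * T1) ^ 2 := by
      calc X ^ (2 * ε) = (X ^ ε) ^ 2 := by
            rw [← Real.rpow_natCast, ← Real.rpow_mul hXpos.le]; congr 1; push_cast; ring
        _ ≤ (δ * T1) ^ 2 := pow_le_pow_left₀ (Real.rpow_nonneg hXpos.le _) e1 2
    have e3 : 24 * C * 3 ^ B * (ℓ ^ A * ℓ ^ B) ≤ (δ * T1) ^ 2 := by
      refine le_trans ?_ (le_trans c3 e2)
      rw [Real.rpow_add hℓpos, Real.rpow_natCast]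
    have hℓA : 0 < ℓ ^ A := Real.rpow_pos_of_pos hℓpos _
    have e4 : ℓ ^ (-A) / 4 = 1 / (4 * ℓ ^ A) := by
      rw [Real.rpow_neg hℓpos.le]; field_simp
    rw [e4, div_le_div_iff₀ (by positivity) (by positivity), one_mul]
    refine le_trans (le_of_eq ?_) e3
    rw [mul_pow]; ring
  have hpos : 0 ≤ ℓ ^ (-A) := Real.rpow_nonneg hℓpos.le _
  linarith

end Pool.Agent.H43.SI
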