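import Mathlib

/-!
# [H43 SI DIV] Mean square of the divisor functions

`Σ_{n<=N} τ_r(n)^2 <= N (1+log N)^(r^2)`, `τ_r = ζ^r` (Dirichlet power of the arithmetic function `ζ`).

PROOF. (1) `τ_r(n)^2 <= τ_{r^2}(n)` for `n >= 1`. One proof: `τ_m(n)` counts the `m`-tuples of natural numbers
with product `n` (`ArithmeticFunction` convolution power, or `Nat.finMulAntidiag`); for two
factorisations `n = ∏ a_i = ∏ b_j` there is a matrix `(c_ij)` of natural numbers with
`a_i = ∏_j c_ij`, `b_j = ∏_i c_ij` (induction by gcd's / Riesz refinement), so the map from the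
`r^2`-tuples to the pairs of `r`-tuples is surjective. Another proof: induction with submultiplicativity
`τ_k(n) τ_r(n) <= τ_{kr}(n)`: both sides are multiplicative functions of `n` and on prime powers
`C(a+k-1,k-1) C(a+r-1,r-1) <= C(a+kr-1,kr-1)` (the number of `r×k`-matrices of naturals with sum `a`
is at least the number of pairs of marginals).
For `r = 0`: `τ_0 = 1_{n=1}`.
(2) `Σ_{n<=N} τ_m(n) <= N (1+log N)^(m-1)` for `m >= 1` by induction:
`Σ_{n<=N} τ_{m+1}(n) = Σ_{d<=N} Σ_{k<=N/d} τ_m(k) <= Σ_d (N/d)(1+log N)^(m-1)`,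
`Σ_{d<=N} 1/d <= 1+log N` (`harmonic_le_one_add_log`). The exponent `m-1 <= r^2` may be enlarged.
-/

namespace Pool.Agent.H43.SI

open Finset

/-- the divisor functions -/
noncomputable def dvt (k n : ℕ) : ℕ := ((ArithmeticFunction.zeta : ArithmeticFunction ℕ) ^ k) n

theorem dvt_zero (n : ℕ) : dvt 0 n = if n = 1 then 1 else 0 := by
  unfold dvt
  rw [pow_zero, ArithmeticFunction.one_apply]

theorem dvt_succ (k n : ℕ) : dvt (k + 1) n = ∑ e ∈ n.divisors, dvt k e := by
  unfold dvt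
  rw [pow_succ', ArithmeticFunction.zeta_mul_apply]

theorem dvt_one (k : ℕ) : dvt k 1 = 1 := by
  induction k with
  | zero => rw [dvt_zero, if_pos rfl]
  | succ k ih => rw [dvt_succ, Nat.divisors_one, Finset.sum_singleton, ih]

theorem dvt_mul_le (k : ℕ) : ∀ a b : ℕ, dvt k (a * b) ≤ dvt k a * dvt k b := by
  classical
  induction k with
  | zero =>
    intro a b
    rw [dvt_zero, dvt_zero, dvt_zero]
    by_cases h : a * b = 1
    · rw [if_pos h, if_pos (Nat.eq_one_of_mul_eq_one_right h), if_pos (Nat.eq_one_of_mul_eq_one_left h)]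
    · rw [if_neg h]
      exact Nat.zero_le _
  | succ k ih =>
    intro a b
    rw [dvt_succ, dvt_succ, dvt_succ, Finset.sum_mul_sum, ← Finset.sum_product']
    by_cases hab : a * b = 0
    · rw [hab, Nat.divisors_zero, Finset.sum_empty]
      exact Nat.zero_le _
    have ha : a ≠ 0 := left_ne_zero_of_mul hab
    have hb : b ≠ 0 := right_ne_zero_of_mul hab
    have hex : ∀ e : ℕ, ∃ p : ℕ × ℕ, e ∈ (a * b).divisors →
        p.1 ∣ a ∧ p.2 ∣ b ∧ e = p.1 * p.2 := by
      intro e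
      by_cases he : e ∈ (a * b).divisors
      · obtain ⟨x, y, h1, h2, h3⟩ := exists_dvd_and_dvd_of_dvd_mul (Nat.dvd_of_mem_divisors he)
        exact ⟨(x, y), fun _ => ⟨h1, h2, h3⟩⟩
      · exact ⟨(0, 0), fun h => absurd h he⟩
    choose φ hφ using hex
    have hinj : Set.InjOn φ ((a * b).divisors : Set ℕ) := by
      intro x hx y hy h
      rw [(hφ x hx).2.2, (hφ y hy).2.2, h]
    calc ∑ e ∈ (a * b).divisors, dvt k e
        ≤ ∑ e ∈ (a * b).divisors, dvt k (φ e).1 * dvt k (φ e).2 := by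
          refine Finset.sum_le_sum fun e he => ?_
          conv_lhs => rw [(hφ e he).2.2]
          exact ih _ _
      _ = ∑ p ∈ (a * b).divisors.image φ, dvt k p.1 * dvt k p.2 := by
          rw [Finset.sum_image hinj]
      _ ≤ ∑ p ∈ a.divisors ×ˢ b.divisors, dvt k p.1 * dvt k p.2 := by
          apply Finset.sum_le_sum_of_subset
          intro p hp
          obtain ⟨e, he, rfl⟩ := Finset.mem_image.1 hp
          obtain ⟨h1, h2, -⟩ := hφ e he
          rw [Finset.mem_product, Nat.mem_divisors, Nat.mem_divisors]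
          exact ⟨⟨h1, ha⟩, h2, hb⟩

theorem dvt_mul_pow (k r : ℕ) : ∀ n : ℕ, dvt r n * dvt k n ≤ dvt (k * r) n := by
  induction r with
  | zero =>
    intro n
    rw [mul_zero, dvt_zero]
    by_cases h : n = 1
    · rw [if_pos h, h, dvt_one]
    · rw [if_neg h, zero_mul]
  | succ r ih =>
    intro n
    have e1 : dvt (r + 1) n = ∑ x ∈ n.divisorsAntidiagonal, dvt r x.1 * dvt 1 x.2 := by
      unfold dvt
      rw [pow_add, ArithmeticFunction.mul_apply]
    have e2 : dvt (k * (r + 1)) n = ∑ x ∈ n.divisorsAntidiagonal, dvt (k * r) x.1 * dvt k x.2 := by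
      unfold dvt
      rw [mul_add, pow_add, mul_one, ArithmeticFunction.mul_apply]
    rw [e1, e2, Finset.sum_mul]
    refine Finset.sum_le_sum fun x hx => ?_
    have hx1 : x.1 * x.2 = n := (Nat.mem_divisorsAntidiagonal.1 hx).1
    have h1 : dvt k n ≤ dvt k x.1 * dvt k x.2 := by
      rw [← hx1]
      exact dvt_mul_le k _ _
    have h2 : dvt 1 x.2 ≤ 1 := by
      unfold dvt
      rw [pow_one, ArithmeticFunction.zeta_apply]
      split_ifs <;> norm_num
    calc dvt r x.1 * dvt 1 x.2 * dvt k n ≤ dvt r x.1 * 1 * (dvt k x.1 * dvt k x.2) :=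
          Nat.mul_le_mul (Nat.mul_le_mul_left _ h2) h1
      _ = (dvt r x.1 * dvt k x.1) * dvt k x.2 := by ring
      _ ≤ dvt (k * r) x.1 * dvt k x.2 := Nat.mul_le_mul_right _ (ih x.1)

theorem dvt_sum_succ (k N : ℕ) :
    ∑ n ∈ Icc 1 N, dvt (k + 1) n = ∑ d ∈ Icc 1 N, ∑ e ∈ Icc 1 (N / d), dvt k e := by
  have h1 : ∑ n ∈ Icc 1 N, dvt (k + 1) n =
      ∑ n ∈ Icc 1 N, ∑ d ∈ n.divisors, dvt k (n / d) := by
    refine Finset.sum_congr rfl fun n _ => ?_
    rw [dvt_succ, Nat.sum_div_divisors]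
  rw [h1, Finset.sum_sigma', Finset.sum_sigma']
  refine Finset.sum_bij' (fun x _ => ⟨x.2, x.1 / x.2⟩) (fun y _ => ⟨y.1 * y.2, y.1⟩) ?_ ?_ ?_ ?_ ?_
  · rintro ⟨n, d⟩ h
    simp only [Finset.mem_sigma, Finset.mem_Icc, Nat.mem_divisors] at h ⊢
    obtain ⟨⟨h1, h2⟩, h3, h4⟩ := h
    have hd : 0 < d := Nat.pos_of_dvd_of_pos h3 (by omega)
    have hdn : d ≤ n := Nat.le_of_dvd (by omega) h3
    exact ⟨⟨hd, by omega⟩, Nat.div_pos hdn hd, Nat.div_le_div_right h2⟩
  · rintro ⟨d, e⟩ h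
    simp only [Finset.mem_sigma, Finset.mem_Icc, Nat.mem_divisors] at h ⊢
    obtain ⟨⟨h1, h2⟩, h3, h4⟩ := h
    have h5 : d * e ≤ N := by
      rw [mul_comm]
      exact (Nat.le_div_iff_mul_le (by omega)).1 h4
    have h6 : 0 < d * e := Nat.mul_pos (by omega) (by omega)
    exact ⟨⟨h6, h5⟩, Dvd.intro _ rfl, h6.ne'⟩
  · rintro ⟨n, d⟩ h
    simp only [Finset.mem_sigma, Finset.mem_Icc, Nat.mem_divisors] at h
    simp only
    rw [Nat.mul_div_cancel' h.2.1]
  · rintro ⟨d, e⟩ h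
    simp only [Finset.mem_sigma, Finset.mem_Icc] at h
    simp only
    rw [Nat.mul_div_cancel_left _ (by omega : 0 < d)]
  · rintro ⟨n, d⟩ h
    rfl

theorem dvt_sum (k : ℕ) : ∀ N : ℕ, 1 ≤ N →
    ((∑ n ∈ Icc 1 N, dvt k n : ℕ) : ℝ) ≤ N * (1 + Real.log N) ^ k := by
  induction k with
  | zero =>
    intro N hN
    rw [pow_zero, mul_one]
    have h1 : ∑ n ∈ Icc 1 N, dvt 0 n = 1 := by
      simp_rw [dvt_zero]
      rw [Finset.sum_ite_eq' (Icc 1 N) 1 (fun _ => 1), if_pos (Finset.mem_Icc.2 ⟨le_rfl, hN⟩)]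
    rw [h1]
    exact_mod_cast hN
  | succ k ih =>
    intro N hN
    have hN0 : (0 : ℝ) < N := by exact_mod_cast hN
    rw [dvt_sum_succ]
    push_cast
    have hstep : ∀ d ∈ Icc 1 N, ((∑ e ∈ Icc 1 (N / d), (dvt k e : ℝ))) ≤
        N * (1 + Real.log N) ^ k * (1 / d) := by
      intro d hd
      rw [Finset.mem_Icc] at hd
      have hd0 : (0 : ℝ) < d := by exact_mod_cast hd.1
      have hq : 1 ≤ N / d := Nat.div_pos hd.2 hd.1
      have hq0 : (0 : ℝ) < ((N / d : ℕ) : ℝ) := by exact_mod_cast hq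
      have h1 := ih (N / d) hq
      push_cast at h1
      refine h1.trans ?_
      have h2 : ((N / d : ℕ) : ℝ) ≤ N / d := Nat.cast_div_le
      have h3 : Real.log ((N / d : ℕ) : ℝ) ≤ Real.log N := by
        apply Real.log_le_log hq0
        exact_mod_cast Nat.div_le_self N d
      have h4 : 0 ≤ Real.log ((N / d : ℕ) : ℝ) := Real.log_nonneg (by exact_mod_cast hq)
      calc ((N / d : ℕ) : ℝ) * (1 + Real.log ((N / d : ℕ) : ℝ)) ^ k
          ≤ (N / d) * (1 + Real.log N) ^ k := by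
            apply mul_le_mul h2 _ (by positivity) (by positivity)
            exact pow_le_pow_left₀ (by linarith) (by linarith) k
        _ = N * (1 + Real.log N) ^ k * (1 / d) := by ring
    refine (Finset.sum_le_sum hstep).trans ?_
    rw [← Finset.mul_sum]
    have hl : 0 ≤ Real.log N := Real.log_nonneg (by exact_mod_cast hN)
    have hH : ∑ d ∈ Icc 1 N, (1 / (d : ℝ)) ≤ 1 + Real.log N := by
      have h1 := harmonic_le_one_add_log N
      rw [harmonic_eq_sum_Icc] at h1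
      push_cast at h1
      simpa [one_div] using h1
    calc N * (1 + Real.log N) ^ k * ∑ d ∈ Icc 1 N, (1 / (d : ℝ))
        ≤ N * (1 + Real.log N) ^ k * (1 + Real.log N) :=
          mul_le_mul_of_nonneg_left hH (by positivity)
      _ = N * (1 + Real.log N) ^ (k + 1) := by ring

theorem div_sq (r N : ℕ) (hN : 1 ≤ N) :
    ∑ n ∈ Icc 1 N, ((((ArithmeticFunction.zeta : ArithmeticFunction ℕ) ^ r) n : ℕ) : ℝ) ^ 2 ≤
      N * (1 + Real.log N) ^ (r ^ 2) := by
  have h1 := dvt_sum (r ^ 2) N hN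
  refine le_trans ?_ h1
  push_cast
  refine Finset.sum_le_sum fun n _ => ?_
  have h2 := dvt_mul_pow r r n
  rw [← pow_two r, ← pow_two] at h2
  exact_mod_cast h2

end Pool.Agent.H43.SI
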