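import Pool.Agent.H43.SI.Defs
import Pool.Agent.H43.SI.Mvt
import Pool.Agent.H43.SI.Div

/-!
# [H43 SI MVP] Mean values of products of the factors

For a set `s` of indices, `S = Σ_{i∈s} e_i`, `T >= 1`:
`∫_{-T}^{T} ‖∏_{i∈s} pol (cf χ i) (e i) t‖^2 dt <= C (1+S)^B (T/2^S + 1)` with absolute `C`, `B`.

PROOF. Expand the product: `∏_{i∈s} Σ_{n_i} c_i(n_i) n_i^(-1-it) = Σ_{n <= 2^S} g(n) n^(-1) n^(-it)`,
`g` the Dirichlet product, `|g(n)| <= (1+S)^6 τ_r(n)`, `r = card s <= 6`; `g(n) = 0` unless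
`2^S <= 2^r n`. `mvt` with `N = 2^S`, `a_n = g(n)/n`, and `div_sq`.
-/

namespace Pool.Agent.H43.SI

open Finset

theorem mvp_ls (f : ArithmeticFunction ℂ) (N : ℕ) (hf : ∀ n, f n ≠ 0 → n ≤ N) (w : ℂ) :
    LSeriesSummable (fun n => f n) w ∧
      LSeries (fun n => f n) w = ∑ n ∈ Icc 1 N, f n * (n : ℂ) ^ (-w) := by
  have h0 : ∀ n ∉ Icc 1 N, LSeries.term (fun n => f n) w n = 0 := by
    intro n hn
    rw [Finset.mem_Icc] at hn
    rcases Nat.eq_zero_or_pos n with h | h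
    · subst h; simp
    · have h1 : f n = 0 := by
        by_contra h2
        exact hn ⟨h, hf n h2⟩
      rw [LSeries.term_of_ne_zero (by omega), h1, zero_div]
  refine ⟨summable_of_ne_finset_zero h0, ?_⟩
  unfold LSeries
  rw [tsum_eq_sum h0]
  refine Finset.sum_congr rfl fun n hn => ?_
  rw [Finset.mem_Icc] at hn
  rw [LSeries.term_of_ne_zero (by omega), Complex.cpow_neg, div_eq_mul_inv]

theorem mvp_af_supp (c : ℕ → ℂ) (a n : ℕ) (h : af c a n ≠ 0) :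
    1 ≤ n ∧ n ≤ 2 ^ a ∧ 2 ^ a ≤ 2 * n := by
  have h1 : n ∈ Ioc (2 ^ a / 2) (2 ^ a) := by
    by_contra h2
    apply h
    show (if n ∈ Ioc (2 ^ a / 2) (2 ^ a) then c n else 0) = 0
    rw [if_neg h2]
  rw [Finset.mem_Ioc] at h1
  omega

theorem mvp_pol (c : ℕ → ℂ) (a : ℕ) (t : ℝ) :
    pol c a t = LSeries (fun n => af c a n) (1 + (t : ℂ) * Complex.I) := by
  rw [(mvp_ls (af c a) (2 ^ a) (fun n hn => (mvp_af_supp c a n hn).2.1) _).2]
  unfold pol LF.ds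
  have hsub : Ioc (2 ^ a / 2) (2 ^ a) ⊆ Icc 1 (2 ^ a) := by
    intro n hn
    rw [Finset.mem_Ioc] at hn
    rw [Finset.mem_Icc]
    omega
  rw [← Finset.sum_subset hsub]
  · refine Finset.sum_congr rfl fun n hn => ?_
    show _ = (if n ∈ Ioc (2 ^ a / 2) (2 ^ a) then c n else 0) * _
    rw [if_pos hn]
  · intro n _ hn
    show (if n ∈ Ioc (2 ^ a / 2) (2 ^ a) then c n else 0) * _ = 0
    rw [if_neg hn, zero_mul]

theorem mvp_supp {q : ℕ} (χ : DirichletCharacter ℂ q) (e : Fin 6 → ℕ) (s : Finset (Fin 6)) :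
    ∀ n, (∏ i ∈ s, af (cf χ i) (e i)) n ≠ 0 →
      1 ≤ n ∧ n ≤ 2 ^ (∑ i ∈ s, e i) ∧ 2 ^ (∑ i ∈ s, e i) ≤ 2 ^ s.card * n := by
  induction s using Finset.induction_on with
  | empty =>
    intro n hn
    rw [Finset.prod_empty] at hn
    have : n = 1 := by
      by_contra h
      exact hn (ArithmeticFunction.one_apply_ne h)
    subst this
    simp
  | insert i s hi ih =>
    intro n hn
    rw [Finset.prod_insert hi, ArithmeticFunction.mul_apply] at hn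
    obtain ⟨x, hx, hx0⟩ := Finset.exists_ne_zero_of_sum_ne_zero hn
    obtain ⟨h1, h2⟩ := Nat.mem_divisorsAntidiagonal.1 hx
    obtain ⟨a1, a2, a3⟩ := mvp_af_supp _ _ _ (left_ne_zero_of_mul hx0)
    obtain ⟨b1, b2, b3⟩ := ih _ (right_ne_zero_of_mul hx0)
    rw [Finset.sum_insert hi, Finset.card_insert_of_notMem hi, ← h1]
    refine ⟨Nat.mul_pos a1 b1, ?_, ?_⟩
    · rw [pow_add]
      exact Nat.mul_le_mul a2 b2
    · calc 2 ^ (e i + ∑ i ∈ s, e i) = 2 ^ e i * 2 ^ (∑ i ∈ s, e i) := pow_add _ _ _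
        _ ≤ (2 * x.1) * (2 ^ s.card * x.2) := Nat.mul_le_mul a3 b3
        _ = 2 ^ (s.card + 1) * (x.1 * x.2) := by rw [pow_succ]; ring

theorem mvp_series {q : ℕ} (χ : DirichletCharacter ℂ q) (e : Fin 6 → ℕ) (s : Finset (Fin 6))
    (t : ℝ) : ∏ i ∈ s, pol (cf χ i) (e i) t =
      ∑ n ∈ Icc 1 (2 ^ (∑ i ∈ s, e i)), (∏ i ∈ s, af (cf χ i) (e i)) n *
        (n : ℂ) ^ (-(1 + (t : ℂ) * Complex.I)) := by
  have key : ∏ i ∈ s, pol (cf χ i) (e i) t =
      LSeries (fun n => (∏ i ∈ s, af (cf χ i) (e i)) n) (1 + (t : ℂ) * Complex.I) := by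
    induction s using Finset.induction_on with
    | empty =>
      rw [Finset.prod_empty, Finset.prod_empty]
      rw [(mvp_ls 1 1 (fun n hn => by
        by_contra h
        exact hn (ArithmeticFunction.one_apply_ne (by omega))) _).2]
      simp
    | insert i s hi ih =>
      rw [Finset.prod_insert hi, Finset.prod_insert hi, ih, mvp_pol]
      have h1 := (mvp_ls (af (cf χ i) (e i)) (2 ^ e i)
        (fun n hn => (mvp_af_supp _ _ n hn).2.1) (1 + (t : ℂ) * Complex.I)).1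
      have h2 := (mvp_ls (∏ i ∈ s, af (cf χ i) (e i)) (2 ^ (∑ i ∈ s, e i))
        (fun n hn => (mvp_supp χ e s n hn).2.1) (1 + (t : ℂ) * Complex.I)).1
      exact (ArithmeticFunction.LSeries_mul' h1 h2).symm
  rw [key, (mvp_ls _ (2 ^ (∑ i ∈ s, e i)) (fun n hn => (mvp_supp χ e s n hn).2.1) _).2]

theorem mvp_cf {q : ℕ} (χ : DirichletCharacter ℂ q) (i : Fin 6) (a n : ℕ) (hn : 1 ≤ n)
    (hna : n ≤ 2 ^ a) : ‖cf χ i n‖ ≤ 1 + a := by
  have hχ : ‖χ n‖ ≤ 1 := χ.norm_le_one _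
  have ha : (0 : ℝ) ≤ a := Nat.cast_nonneg a
  unfold cf
  split_ifs with h1 h2
  · rw [norm_mul]
    have h3 : ‖((ArithmeticFunction.moebius n : ℤ) : ℂ)‖ ≤ 1 := by
      rw [Complex.norm_intCast]
      exact_mod_cast ArithmeticFunction.abs_moebius_le_one
    calc _ ≤ 1 * 1 := mul_le_mul h3 hχ (norm_nonneg _) zero_le_one
      _ ≤ 1 + (a : ℝ) := by linarith
  · rw [norm_mul, Complex.norm_real, Real.norm_eq_abs]
    have h3 : 0 ≤ Real.log n := Real.log_nonneg (by exact_mod_cast hn)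
    have h4 : Real.log n ≤ a := by
      calc Real.log n ≤ Real.log (2 ^ a) := Real.log_le_log (by exact_mod_cast hn)
            (by exact_mod_cast hna)
        _ = a * Real.log 2 := Real.log_pow _ _
        _ ≤ a * 1 := mul_le_mul_of_nonneg_left (by
            have := Real.log_two_lt_d9; linarith) ha
        _ = a := mul_one _
    rw [abs_of_nonneg h3]
    calc ‖χ n‖ * Real.log n ≤ 1 * a := mul_le_mul hχ h4 h3 zero_le_one
      _ ≤ 1 + (a : ℝ) := by linarith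
  · linarith

theorem mvp_bound {q : ℕ} (χ : DirichletCharacter ℂ q) (e : Fin 6 → ℕ) (s : Finset (Fin 6)) :
    ∀ n, ‖(∏ i ∈ s, af (cf χ i) (e i)) n‖ ≤ (1 + ((∑ i ∈ s, e i : ℕ) : ℝ)) ^ s.card *
      ((((ArithmeticFunction.zeta : ArithmeticFunction ℕ) ^ s.card) n : ℕ) : ℝ) := by
  induction s using Finset.induction_on with
  | empty =>
    intro n
    rw [Finset.prod_empty, Finset.card_empty, pow_zero, pow_zero, one_mul]
    by_cases h : n = 1
    · subst h; simp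
    · rw [ArithmeticFunction.one_apply_ne h, ArithmeticFunction.one_apply_ne h]; simp
  | insert i s hi ih =>
    intro n
    rw [Finset.prod_insert hi, ArithmeticFunction.mul_apply, Finset.card_insert_of_notMem hi,
      pow_succ' (ArithmeticFunction.zeta : ArithmeticFunction ℕ), ArithmeticFunction.mul_apply,
      Finset.sum_insert hi]
    push_cast
    rw [Finset.mul_sum]
    refine (norm_sum_le _ _).trans (Finset.sum_le_sum fun x hx => ?_)
    obtain ⟨h1, h2⟩ := Nat.mem_divisorsAntidiagonal.1 hx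
    have hx1 : x.1 ≠ 0 := by
      rintro h0
      rw [h0, zero_mul] at h1
      exact h2 h1.symm
    rw [norm_mul, ArithmeticFunction.zeta_apply_ne hx1, Nat.cast_one, one_mul]
    set S : ℝ := ∑ i ∈ s, (e i : ℝ) with hS
    have hS0 : 0 ≤ S := Finset.sum_nonneg fun _ _ => Nat.cast_nonneg _
    have he0 : (0 : ℝ) ≤ e i := Nat.cast_nonneg _
    have hA : ‖af (cf χ i) (e i) x.1‖ ≤ 1 + ((e i : ℝ) + S) := by
      show ‖(if x.1 ∈ Ioc (2 ^ e i / 2) (2 ^ e i) then cf χ i x.1 else 0)‖ ≤ _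
      split_ifs with h
      · rw [Finset.mem_Ioc] at h
        have := mvp_cf χ i (e i) x.1 (Nat.pos_of_ne_zero hx1) h.2
        linarith
      · rw [norm_zero]; linarith
    have hB := ih x.2
    push_cast at hB
    rw [← hS] at hB
    have hz : (0 : ℝ) ≤ ((((ArithmeticFunction.zeta : ArithmeticFunction ℕ) ^ s.card) x.2 : ℕ) : ℝ) :=
      Nat.cast_nonneg _
    calc ‖af (cf χ i) (e i) x.1‖ * ‖(∏ i ∈ s, af (cf χ i) (e i)) x.2‖
        ≤ (1 + ((e i : ℝ) + S)) * ((1 + S) ^ s.card *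
          ((((ArithmeticFunction.zeta : ArithmeticFunction ℕ) ^ s.card) x.2 : ℕ) : ℝ)) :=
          mul_le_mul hA hB (norm_nonneg _) (by linarith)
      _ ≤ (1 + ((e i : ℝ) + S)) * ((1 + ((e i : ℝ) + S)) ^ s.card *
          ((((ArithmeticFunction.zeta : ArithmeticFunction ℕ) ^ s.card) x.2 : ℕ) : ℝ)) := by
          gcongr
          linarith
      _ = _ := by rw [pow_succ]; ring

theorem mvp : ∃ C : ℝ, 0 < C ∧ ∃ B : ℕ, ∀ (q : ℕ) (χ : DirichletCharacter ℂ q) (e : Fin 6 → ℕ)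
    (s : Finset (Fin 6)) (T : ℝ), 1 ≤ T →
    ∫ t in (-T)..T, ‖∏ i ∈ s, pol (cf χ i) (e i) t‖ ^ 2 ≤
      C * (1 + ((∑ i ∈ s, e i : ℕ) : ℝ)) ^ B * (T / 2 ^ (∑ i ∈ s, e i) + 1) := by
  obtain ⟨C, hC, hmvt⟩ := mvt
  refine ⟨4096 * C, by positivity, 48, ?_⟩
  intro q χ e s T hT
  set S : ℕ := ∑ i ∈ s, e i with hS
  set g := ∏ i ∈ s, af (cf χ i) (e i) with hg
  have hr : s.card ≤ 6 := by
    have := s.card_le_univ
    simpa using this
  have h1 : ∀ t : ℝ, ∏ i ∈ s, pol (cf χ i) (e i) t =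
      ∑ n ∈ Icc 1 (2 ^ S), (g n * (n : ℂ)⁻¹) * (n : ℂ) ^ (-((t : ℂ) * Complex.I)) := by
    intro t
    rw [mvp_series]
    refine Finset.sum_congr rfl fun n hn => ?_
    rw [Finset.mem_Icc] at hn
    have hn0 : (n : ℂ) ≠ 0 := by
      have : n ≠ 0 := by omega
      exact_mod_cast this
    rw [neg_add, Complex.cpow_add _ _ hn0, Complex.cpow_neg_one, mul_assoc]
  have h2 := hmvt (2 ^ S) T (fun n => g n * (n : ℂ)⁻¹) Nat.one_le_two_pow hT
  have h3 : ∫ t in (-T)..T, ‖∏ i ∈ s, pol (cf χ i) (e i) t‖ ^ 2 =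
      ∫ t in (-T)..T, ‖∑ n ∈ Icc 1 (2 ^ S), (g n * (n : ℂ)⁻¹) *
        (n : ℂ) ^ (-((t : ℂ) * Complex.I))‖ ^ 2 := by
    congr 1
    funext t
    rw [h1 t]
  rw [h3]
  refine h2.trans ?_
  have hS1 : (1 : ℝ) ≤ 1 + (S : ℝ) := by
    have : (0 : ℝ) ≤ S := Nat.cast_nonneg S
    linarith
  have hP : (0 : ℝ) < 2 ^ S := by positivity
  have hterm : ∀ n ∈ Icc 1 (2 ^ S), ‖g n * (n : ℂ)⁻¹‖ ^ 2 ≤
      (64 / 2 ^ S) ^ 2 * (1 + (S : ℝ)) ^ 12 *
        ((((ArithmeticFunction.zeta : ArithmeticFunction ℕ) ^ s.card) n : ℕ) : ℝ) ^ 2 := by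
    intro n hn
    rw [Finset.mem_Icc] at hn
    by_cases h0 : g n = 0
    · rw [h0, zero_mul, norm_zero, zero_pow (by norm_num)]
      positivity
    · obtain ⟨a1, a2, a3⟩ := mvp_supp χ e s n h0
      have hnp : (0 : ℝ) < n := by exact_mod_cast a1
      have h4 : ((n : ℝ))⁻¹ ≤ 64 / 2 ^ S := by
        rw [inv_le_comm₀ hnp (by positivity), inv_div, div_le_iff₀ (by norm_num)]
        have h5 : (2 : ℝ) ^ S ≤ 2 ^ s.card * n := by exact_mod_cast a3
        have h6 : (2 : ℝ) ^ s.card ≤ 2 ^ 6 := pow_le_pow_right₀ (by norm_num) hr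
        calc (2 : ℝ) ^ S ≤ 2 ^ s.card * n := h5
          _ ≤ 2 ^ 6 * n := mul_le_mul_of_nonneg_right h6 hnp.le
          _ = n * 64 := by ring
      have h7 := mvp_bound χ e s n
      rw [← hg, ← hS] at h7
      have h8 : ‖g n‖ ≤ (1 + (S : ℝ)) ^ 6 *
          ((((ArithmeticFunction.zeta : ArithmeticFunction ℕ) ^ s.card) n : ℕ) : ℝ) :=
        h7.trans (mul_le_mul_of_nonneg_right (pow_le_pow_right₀ hS1 hr) (Nat.cast_nonneg _))
      rw [norm_mul, norm_inv, Complex.norm_natCast]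
      calc (‖g n‖ * (n : ℝ)⁻¹) ^ 2 ≤ (((1 + (S : ℝ)) ^ 6 *
          ((((ArithmeticFunction.zeta : ArithmeticFunction ℕ) ^ s.card) n : ℕ) : ℝ)) *
            (64 / 2 ^ S)) ^ 2 := by
            apply pow_le_pow_left₀ (by positivity)
            exact mul_le_mul h8 h4 (by positivity) (by positivity)
        _ = _ := by ring
  have hsum : ∑ n ∈ Icc 1 (2 ^ S), ‖g n * (n : ℂ)⁻¹‖ ^ 2 ≤
      4096 * (1 + (S : ℝ)) ^ 48 / 2 ^ S := by
    refine (Finset.sum_le_sum hterm).trans ?_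
    rw [← Finset.mul_sum]
    have h9 := div_sq s.card (2 ^ S) Nat.one_le_two_pow
    push_cast at h9
    have h10 : (1 + Real.log ((2 : ℝ) ^ S)) ^ (s.card ^ 2) ≤ (1 + (S : ℝ)) ^ 36 := by
      have h11 : 1 ≤ 1 + Real.log ((2 : ℝ) ^ S) := by
        have := Real.log_nonneg (show (1 : ℝ) ≤ 2 ^ S from one_le_pow₀ (by norm_num))
        linarith
      have h12 : 1 + Real.log ((2 : ℝ) ^ S) ≤ 1 + (S : ℝ) := by
        rw [Real.log_pow]
        have h13 := Real.log_two_lt_d9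
        have h14 : (S : ℝ) * Real.log 2 ≤ S * 1 :=
          mul_le_mul_of_nonneg_left (by linarith) (Nat.cast_nonneg S)
        linarith
      calc (1 + Real.log ((2 : ℝ) ^ S)) ^ (s.card ^ 2) ≤ (1 + (S : ℝ)) ^ (s.card ^ 2) :=
            pow_le_pow_left₀ (by linarith) h12 _
        _ ≤ (1 + (S : ℝ)) ^ 36 := by
            apply pow_le_pow_right₀ hS1
            calc s.card ^ 2 ≤ 6 ^ 2 := Nat.pow_le_pow_left hr 2
              _ = 36 := by norm_num
    calc (64 / 2 ^ S) ^ 2 * (1 + (S : ℝ)) ^ 12 * ∑ n ∈ Icc 1 (2 ^ S),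
          ((((ArithmeticFunction.zeta : ArithmeticFunction ℕ) ^ s.card) n : ℕ) : ℝ) ^ 2
        ≤ (64 / 2 ^ S) ^ 2 * (1 + (S : ℝ)) ^ 12 * (2 ^ S * (1 + (S : ℝ)) ^ 36) := by
          apply mul_le_mul_of_nonneg_left _ (by positivity)
          exact h9.trans (mul_le_mul_of_nonneg_left h10 hP.le)
      _ = 4096 * (1 + (S : ℝ)) ^ 48 / 2 ^ S := by
          field_simp
          ring
  calc C * (T + ((2 ^ S : ℕ) : ℝ)) * ∑ n ∈ Icc 1 (2 ^ S), ‖g n * (n : ℂ)⁻¹‖ ^ 2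
      ≤ C * (T + ((2 ^ S : ℕ) : ℝ)) * (4096 * (1 + (S : ℝ)) ^ 48 / 2 ^ S) := by
        apply mul_le_mul_of_nonneg_left hsum
        positivity
    _ = 4096 * C * (1 + (S : ℝ)) ^ 48 * (T / 2 ^ S + 1) := by
        push_cast
        field_simp

end Pool.Agent.H43.SI
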