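import Pool.Agent.H43.SI.Defs

/-!
# [H43 SI HB] Heath-Brown's identity with `K = 3`

For `1 <= n <= 2^(3b)`, `n <= 2^B`: `Λ(n) χ(n) = Σ_e w(e) bf χ e n`, the sum over all
`e : Fin 6 → ℕ` with `e_i <= b` for `i < 3` and `e_i <= B` for `i >= 3`.

PROOF. In the ring `ArithmeticFunction ℂ`: let `Z = χ` (i.e. `n ↦ χ n` for `n >= 1`), `M = μ χ`,
`Lo = χ log`, `La = Λ χ`, `M_z = M` restricted to `n <= z = 2^b`. `Z * M = 1`, `La * Z = Lo`.
The function `1 - Z * M_z` vanishes at all `n <= z`, so its third power vanishes at all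
`n <= z^3 = 2^(3b)`, hence so does `La * (1 - Z M_z)^3`. Expanding, with `La * Z = Lo`:
`La = 3 M_z Lo - 3 M_z^2 Lo Z + M_z^3 Lo Z^2` at `n <= z^3`.
Values at `n <= 2^B` do not change if `Lo` and `Z` are restricted to `n <= 2^B`.
-/

namespace Pool.Agent.H43.SI

open Finset

/-- the set of boxes -/
def boxes (b B : ℕ) : Finset (Fin 6 → ℕ) :=
  Fintype.piFinset fun i => if (i : ℕ) < 3 then range (b + 1) else range (B + 1)

/-- the coefficients in Heath-Brown's identity -/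
def wt (e : Fin 6 → ℕ) : ℂ :=
  1 + (if e 2 = 0 ∧ e 5 = 0 then -3 else 0) +
    (if e 1 = 0 ∧ e 2 = 0 ∧ e 4 = 0 ∧ e 5 = 0 then 3 else 0)

/-- twist of an arithmetic function by a character -/
noncomputable def tw {q : ℕ} (χ : DirichletCharacter ℂ q) (f : ArithmeticFunction ℂ) :
    ArithmeticFunction ℂ := ⟨fun n => χ n * f n, by simp⟩

/-- restriction to `n <= N` -/
noncomputable def tr (f : ArithmeticFunction ℂ) (N : ℕ) : ArithmeticFunction ℂ :=
  ⟨fun n => if n ≤ N then f n else 0, by simp⟩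

theorem tw_apply {q : ℕ} (χ : DirichletCharacter ℂ q) (f : ArithmeticFunction ℂ) (n : ℕ) :
    tw χ f n = χ n * f n := rfl

theorem tr_apply (f : ArithmeticFunction ℂ) (N n : ℕ) :
    tr f N n = if n ≤ N then f n else 0 := rfl

theorem tw_mul {q : ℕ} (χ : DirichletCharacter ℂ q) (f g : ArithmeticFunction ℂ) :
    tw χ (f * g) = tw χ f * tw χ g := by
  ext n
  rw [tw_apply, ArithmeticFunction.mul_apply, ArithmeticFunction.mul_apply, Finset.mul_sum]
  refine Finset.sum_congr rfl fun x hx => ?_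
  rw [tw_apply, tw_apply]
  have h1 : x.1 * x.2 = n := (Nat.mem_divisorsAntidiagonal.1 hx).1
  rw [← h1, Nat.cast_mul, map_mul]
  ring

theorem tw_one {q : ℕ} (χ : DirichletCharacter ℂ q) : tw χ 1 = 1 := by
  ext n
  rw [tw_apply]
  by_cases h : n = 1
  · subst h; simp
  · rw [ArithmeticFunction.one_apply_ne h, mul_zero]

theorem af_sub_apply (f g : ArithmeticFunction ℂ) (n : ℕ) : (f - g) n = f n - g n := by
  have h1 : f = (f - g) + g := by ring
  have h2 := congrArg (fun F : ArithmeticFunction ℂ => F n) h1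
  simp only [ArithmeticFunction.add_apply] at h2
  exact (sub_eq_of_eq_add h2).symm

/-- agreement up to `N` is preserved by products -/
theorem mul_agree {f f' g g' : ArithmeticFunction ℂ} {N : ℕ} (hf : ∀ n ≤ N, f n = f' n)
    (hg : ∀ n ≤ N, g n = g' n) : ∀ n ≤ N, (f * g) n = (f' * g') n := by
  intro n hn
  rw [ArithmeticFunction.mul_apply, ArithmeticFunction.mul_apply]
  refine Finset.sum_congr rfl fun x hx => ?_
  obtain ⟨h1, h2⟩ := Nat.mem_divisorsAntidiagonal.1 hx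
  have hx1 : x.1 ≤ n := Nat.le_of_dvd (Nat.pos_of_ne_zero h2) ⟨x.2, h1.symm⟩
  have hx2 : x.2 ≤ n := Nat.le_of_dvd (Nat.pos_of_ne_zero h2) ⟨x.1, by rw [mul_comm]; exact h1.symm⟩
  rw [hf _ (hx1.trans hn), hg _ (hx2.trans hn)]

theorem mul_vanish {f g : ArithmeticFunction ℂ} {a b : ℕ} (hf : ∀ n ≤ a, f n = 0)
    (hg : ∀ n ≤ b, g n = 0) : ∀ n ≤ a * b, (f * g) n = 0 := by
  intro n hn
  rw [ArithmeticFunction.mul_apply]
  refine Finset.sum_eq_zero fun x hx => ?_
  obtain ⟨h1, h2⟩ := Nat.mem_divisorsAntidiagonal.1 hx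
  by_cases h3 : x.1 ≤ a
  · rw [hf _ h3, zero_mul]
  · by_cases h4 : x.2 ≤ b
    · rw [hg _ h4, mul_zero]
    · exfalso
      push Not at h3 h4
      have h5 : a * b < x.1 * x.2 := by
        calc a * b ≤ a * x.2 := Nat.mul_le_mul_left _ h4.le
          _ < x.1 * x.2 := Nat.mul_lt_mul_of_pos_right h3 (by omega)
      omega

theorem mul_vanish' {f g : ArithmeticFunction ℂ} {N : ℕ} (hg : ∀ n ≤ N, g n = 0) :
    ∀ n ≤ N, (f * g) n = 0 := by
  intro n hn
  rw [ArithmeticFunction.mul_apply]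
  refine Finset.sum_eq_zero fun x hx => ?_
  obtain ⟨h1, h2⟩ := Nat.mem_divisorsAntidiagonal.1 hx
  have hx2 : x.2 ≤ n := Nat.le_of_dvd (Nat.pos_of_ne_zero h2) ⟨x.1, by rw [mul_comm]; exact h1.symm⟩
  rw [hg _ (hx2.trans hn), mul_zero]

/-- `log` and `Λ` with complex values -/
noncomputable def cLog : ArithmeticFunction ℂ := ⟨fun n => ((Real.log n : ℝ) : ℂ), by simp⟩

noncomputable def cLam : ArithmeticFunction ℂ :=
  ⟨fun n => ((ArithmeticFunction.vonMangoldt n : ℝ) : ℂ), by simp⟩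

noncomputable def cMu : ArithmeticFunction ℂ :=
  ((ArithmeticFunction.moebius : ArithmeticFunction ℤ) : ArithmeticFunction ℂ)

noncomputable def cZe : ArithmeticFunction ℂ :=
  ((ArithmeticFunction.zeta : ArithmeticFunction ℕ) : ArithmeticFunction ℂ)

theorem cLam_mul_cZe : cLam * cZe = cLog := by
  ext n
  have h1 := congrArg (fun f : ArithmeticFunction ℝ => f n) ArithmeticFunction.vonMangoldt_mul_zeta
  simp only [ArithmeticFunction.mul_apply, ArithmeticFunction.log_apply] at h1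
  rw [ArithmeticFunction.mul_apply]
  show _ = ((Real.log n : ℝ) : ℂ)
  rw [← h1]
  push_cast
  refine Finset.sum_congr rfl fun x hx => ?_
  show ((ArithmeticFunction.vonMangoldt x.1 : ℝ) : ℂ) * _ = _
  congr 1

theorem cZe_mul_cMu : cZe * cMu = 1 := ArithmeticFunction.coe_zeta_mul_coe_moebius

/-- the algebraic identity -/
theorem hb_alg {Z M Lo La Mz : ArithmeticFunction ℂ} {z : ℕ} (hZM : Z * M = 1) (hLa : La * Z = Lo)
    (hMz : ∀ n ≤ z, Mz n = M n) {n : ℕ} (hn : n ≤ z * z * z) :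
    La n = (3 * (Mz * Lo) - 3 * (Mz * Mz * Lo * Z) + Mz * Mz * Mz * Lo * Z * Z) n := by
  set D := 1 - Z * Mz with hD
  have hD0 : ∀ k ≤ z, D k = 0 := by
    intro k hk
    have h1 : (Z * Mz) k = (Z * M) k := mul_agree (N := z) (fun _ _ => rfl) hMz k hk
    rw [hD, af_sub_apply, h1, hZM, sub_self]
  have hD2 : ∀ k ≤ z * z, (D * D) k = 0 := mul_vanish hD0 hD0
  have hD3 : ∀ k ≤ z * z * z, (D * D * D) k = 0 := mul_vanish hD2 hD0
  have hL := mul_vanish' (f := La) hD3 n hn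
  have hexp : La * (D * D * D) = La - (3 * (Mz * Lo) - 3 * (Mz * Mz * Lo * Z) +
      Mz * Mz * Mz * Lo * Z * Z) := by
    rw [hD, ← hLa]
    ring
  rw [hexp, af_sub_apply] at hL
  exact sub_eq_zero.1 hL

theorem sum_af (c : ℕ → ℂ) (f : ArithmeticFunction ℂ) (hcf : ∀ n, 1 ≤ n → c n = f n) (b : ℕ) :
    ∑ a ∈ range (b + 1), af c a = tr f (2 ^ b) := by
  induction b with
  | zero =>
    rw [Finset.sum_range_one]
    ext n
    rw [tr_apply]
    show (if n ∈ Ioc (2 ^ 0 / 2) (2 ^ 0) then c n else 0) = _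
    by_cases h : n = 0
    · subst h; simp
    · by_cases h1 : n = 1
      · subst h1; simp [hcf 1 le_rfl]
      · rw [if_neg (by simp; omega), if_neg (by simp; omega)]
  | succ b ih =>
    rw [Finset.sum_range_succ, ih]
    ext n
    rw [ArithmeticFunction.add_apply, tr_apply, tr_apply]
    show _ + (if n ∈ Ioc (2 ^ (b + 1) / 2) (2 ^ (b + 1)) then c n else 0) = _
    have h2 : (2 : ℕ) ^ (b + 1) / 2 = 2 ^ b := by rw [pow_succ]; simp
    have h3 : (2 : ℕ) ^ b ≤ 2 ^ (b + 1) := Nat.pow_le_pow_right (by norm_num) (Nat.le_succ b)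
    have h4 : 1 ≤ (2 : ℕ) ^ b := Nat.one_le_two_pow
    rw [h2]
    by_cases h5 : n ≤ 2 ^ b
    · rw [if_pos h5, if_neg (by rw [Finset.mem_Ioc]; omega), if_pos (h5.trans h3), add_zero]
    · rw [if_neg h5, zero_add]
      by_cases h6 : n ≤ 2 ^ (b + 1)
      · rw [if_pos (by rw [Finset.mem_Ioc]; omega), if_pos h6, hcf n (by omega)]
      · rw [if_neg (by rw [Finset.mem_Ioc]; omega), if_neg h6]

theorem af_zero (c : ℕ → ℂ) (hc : c 1 = 1) : af c 0 = 1 := by
  ext n
  show (if n ∈ Ioc (2 ^ 0 / 2) (2 ^ 0) then c n else 0) = _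
  by_cases h1 : n = 1
  · subst h1; simp [hc]
  · rw [if_neg (by simp; omega), ArithmeticFunction.one_apply_ne h1]

/-- sums over the boxes with some exponents equal to zero -/
theorem sum_boxes {q : ℕ} (χ : DirichletCharacter ℂ q) (b B : ℕ) (s : Finset (Fin 6)) :
    ∑ e ∈ boxes b B, (if ∀ i ∈ s, e i = 0 then bf χ e else 0) =
      ∏ i : Fin 6, (if i ∈ s then af (cf χ i) 0 else
        ∑ a ∈ (if (i : ℕ) < 3 then range (b + 1) else range (B + 1)), af (cf χ i) a) := by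
  have h1 : ∀ i : Fin 6, (if i ∈ s then af (cf χ i) 0 else
      ∑ a ∈ (if (i : ℕ) < 3 then range (b + 1) else range (B + 1)), af (cf χ i) a) =
      ∑ a ∈ (if (i : ℕ) < 3 then range (b + 1) else range (B + 1)),
        (if i ∈ s → a = 0 then af (cf χ i) a else 0) := by
    intro i
    by_cases hi : i ∈ s
    · rw [if_pos hi]
      have h0 : 0 ∈ (if (i : ℕ) < 3 then range (b + 1) else range (B + 1)) := by
        split_ifs <;> simp
      rw [Finset.sum_eq_single_of_mem 0 h0]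
      · simp
      · intro a _ ha
        rw [if_neg]
        intro h
        exact ha (h hi)
    · rw [if_neg hi]
      refine Finset.sum_congr rfl fun a _ => ?_
      rw [if_pos (fun h => absurd h hi)]
  rw [Finset.prod_congr rfl (fun i _ => h1 i), Finset.prod_univ_sum]
  unfold boxes
  refine Finset.sum_congr rfl fun e _ => ?_
  by_cases h2 : ∀ i ∈ s, e i = 0
  · rw [if_pos h2]
    have h3 : ∀ i ∈ (Finset.univ : Finset (Fin 6)), (if i ∈ s → e i = 0 then af (cf χ i) (e i) else 0) =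
        af (cf χ i) (e i) := fun i _ => if_pos (h2 i)
    rw [Finset.prod_congr rfl h3, Fin.prod_univ_six]
    rfl
  · rw [if_neg h2]
    push Not at h2
    obtain ⟨i, hi, hei⟩ := h2
    refine (Finset.prod_eq_zero (Finset.mem_univ i) ?_).symm
    rw [if_neg]
    intro h
    exact hei (h hi)

theorem hb {q : ℕ} [NeZero q] (χ : DirichletCharacter ℂ q) (b B n : ℕ) (hn : 1 ≤ n)
    (h1 : n ≤ 2 ^ (3 * b)) (h2 : n ≤ 2 ^ B) :
    ((ArithmeticFunction.vonMangoldt n : ℝ) : ℂ) * χ n = ∑ e ∈ boxes b B, wt e * bf χ e n := by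
  set Z := tw χ cZe with hZ
  set M := tw χ cMu with hM
  set Lo := tw χ cLog with hLo
  set La := tw χ cLam with hLaDef
  have hZM : Z * M = 1 := by rw [hZ, hM, ← tw_mul, cZe_mul_cMu, tw_one]
  have hLaZ : La * Z = Lo := by rw [hLaDef, hZ, ← tw_mul, cLam_mul_cZe]
  -- the factors
  have hc0 : ∀ i : Fin 6, (i : ℕ) < 3 → ∀ k, 1 ≤ k → cf χ i k = M k := by
    intro i hi k hk
    unfold cf
    rw [if_pos hi, hM, tw_apply, mul_comm]
    rfl
  have hc3 : ∀ k, 1 ≤ k → cf χ 3 k = Lo k := by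
    intro k hk
    unfold cf
    rw [if_neg (by decide), if_pos (by decide), hLo, tw_apply]
    rfl
  have hc4 : ∀ i : Fin 6, 3 < (i : ℕ) → ∀ k, 1 ≤ k → cf χ i k = Z k := by
    intro i hi k hk
    unfold cf
    rw [if_neg (by omega), if_neg (by omega), hZ, tw_apply]
    unfold cZe
    rw [ArithmeticFunction.natCoe_apply, ArithmeticFunction.zeta_apply_ne (by omega), Nat.cast_one,
      mul_one]
  have h10 : ∀ i : Fin 6, (i : ℕ) ≠ 3 → cf χ i 1 = 1 := by
    intro i hi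
    unfold cf
    split_ifs with h
    · simp
    · simp
  set Mz := tr M (2 ^ b) with hMz
  set Z' := tr Z (2 ^ B) with hZ'
  set Lo' := tr Lo (2 ^ B) with hLo'
  have s0 : ∑ a ∈ range (b + 1), af (cf χ 0) a = Mz := sum_af _ _ (hc0 0 (by decide)) b
  have s1 : ∑ a ∈ range (b + 1), af (cf χ 1) a = Mz := sum_af _ _ (hc0 1 (by decide)) b
  have s2 : ∑ a ∈ range (b + 1), af (cf χ 2) a = Mz := sum_af _ _ (hc0 2 (by decide)) b
  have s3 : ∑ a ∈ range (B + 1), af (cf χ 3) a = Lo' := sum_af _ _ hc3 B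
  have s4 : ∑ a ∈ range (B + 1), af (cf χ 4) a = Z' := sum_af _ _ (hc4 4 (by decide)) B
  have s5 : ∑ a ∈ range (B + 1), af (cf χ 5) a = Z' := sum_af _ _ (hc4 5 (by decide)) B
  have z1 : af (cf χ 1) 0 = 1 := af_zero _ (h10 1 (by decide))
  have z2 : af (cf χ 2) 0 = 1 := af_zero _ (h10 2 (by decide))
  have z4 : af (cf χ 4) 0 = 1 := af_zero _ (h10 4 (by decide))
  have z5 : af (cf χ 5) 0 = 1 := af_zero _ (h10 5 (by decide))
  have A1 : ∑ e ∈ boxes b B, bf χ e = Mz * Mz * Mz * Lo' * Z' * Z' := by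
    have := sum_boxes χ b B ∅
    simp only [Finset.notMem_empty, false_imp_iff, implies_true, if_true, if_false] at this
    rw [this, Fin.prod_univ_six]
    have e0 : (((0 : Fin 6) : ℕ) < 3) := by decide
    have e1 : (((1 : Fin 6) : ℕ) < 3) := by decide
    have e2 : (((2 : Fin 6) : ℕ) < 3) := by decide
    have e3 : ¬ (((3 : Fin 6) : ℕ) < 3) := by decide
    have e4 : ¬ (((4 : Fin 6) : ℕ) < 3) := by decide
    have e5 : ¬ (((5 : Fin 6) : ℕ) < 3) := by decide
    rw [if_pos e0, if_pos e1, if_pos e2, if_neg e3, if_neg e4, if_neg e5, s0, s1, s2, s3, s4, s5]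
  have A2 : ∑ e ∈ boxes b B, (if e 2 = 0 ∧ e 5 = 0 then bf χ e else 0) = Mz * Mz * Lo' * Z' := by
    have := sum_boxes χ b B {2, 5}
    have h3 : ∀ e : Fin 6 → ℕ, (∀ i ∈ ({2, 5} : Finset (Fin 6)), e i = 0) ↔ (e 2 = 0 ∧ e 5 = 0) := by
      intro e; simp
    simp only [h3] at this
    rw [this, Fin.prod_univ_six]
    have e0 : (((0 : Fin 6) : ℕ) < 3) := by decide
    have e1 : (((1 : Fin 6) : ℕ) < 3) := by decide
    have e3 : ¬ (((3 : Fin 6) : ℕ) < 3) := by decide
    have e4 : ¬ (((4 : Fin 6) : ℕ) < 3) := by decide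
    have m0 : (0 : Fin 6) ∉ ({2, 5} : Finset (Fin 6)) := by decide
    have m1 : (1 : Fin 6) ∉ ({2, 5} : Finset (Fin 6)) := by decide
    have m2 : (2 : Fin 6) ∈ ({2, 5} : Finset (Fin 6)) := by decide
    have m3 : (3 : Fin 6) ∉ ({2, 5} : Finset (Fin 6)) := by decide
    have m4 : (4 : Fin 6) ∉ ({2, 5} : Finset (Fin 6)) := by decide
    have m5 : (5 : Fin 6) ∈ ({2, 5} : Finset (Fin 6)) := by decide
    rw [if_neg m0, if_neg m1, if_pos m2, if_neg m3, if_neg m4, if_pos m5, if_pos e0, if_pos e1,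
      if_neg e3, if_neg e4, s0, s1, s3, s4, z2, z5]
    ring
  have A3 : ∑ e ∈ boxes b B, (if e 1 = 0 ∧ e 2 = 0 ∧ e 4 = 0 ∧ e 5 = 0 then bf χ e else 0) =
      Mz * Lo' := by
    have := sum_boxes χ b B {1, 2, 4, 5}
    have h3 : ∀ e : Fin 6 → ℕ, (∀ i ∈ ({1, 2, 4, 5} : Finset (Fin 6)), e i = 0) ↔
        (e 1 = 0 ∧ e 2 = 0 ∧ e 4 = 0 ∧ e 5 = 0) := by
      intro e; simp
    simp only [h3] at this
    rw [this, Fin.prod_univ_six]
    have e0 : (((0 : Fin 6) : ℕ) < 3) := by decide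
    have e3 : ¬ (((3 : Fin 6) : ℕ) < 3) := by decide
    have m0 : (0 : Fin 6) ∉ ({1, 2, 4, 5} : Finset (Fin 6)) := by decide
    have m1 : (1 : Fin 6) ∈ ({1, 2, 4, 5} : Finset (Fin 6)) := by decide
    have m2 : (2 : Fin 6) ∈ ({1, 2, 4, 5} : Finset (Fin 6)) := by decide
    have m3 : (3 : Fin 6) ∉ ({1, 2, 4, 5} : Finset (Fin 6)) := by decide
    have m4 : (4 : Fin 6) ∈ ({1, 2, 4, 5} : Finset (Fin 6)) := by decide
    have m5 : (5 : Fin 6) ∈ ({1, 2, 4, 5} : Finset (Fin 6)) := by decide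
    rw [if_neg m0, if_pos m1, if_pos m2, if_neg m3, if_pos m4, if_pos m5, if_pos e0,
      if_neg e3, s0, s3, z1, z2, z4, z5]
    ring
  -- the sum with the weights
  have hW : ∑ e ∈ boxes b B, wt e * bf χ e n =
      (3 * (Mz * Lo') - 3 * (Mz * Mz * Lo' * Z') + Mz * Mz * Mz * Lo' * Z' * Z') n := by
    have h4 : ∀ e, wt e * bf χ e n = bf χ e n +
        (-3) * (if e 2 = 0 ∧ e 5 = 0 then bf χ e else 0) n +
        3 * (if e 1 = 0 ∧ e 2 = 0 ∧ e 4 = 0 ∧ e 5 = 0 then bf χ e else 0) n := by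
      intro e
      unfold wt
      split_ifs <;> simp <;> ring
    rw [Finset.sum_congr rfl (fun e _ => h4 e), Finset.sum_add_distrib, Finset.sum_add_distrib,
      ← Finset.mul_sum, ← Finset.mul_sum]
    have app : ∀ g : (Fin 6 → ℕ) → ArithmeticFunction ℂ,
        ∑ e ∈ boxes b B, g e n = (∑ e ∈ boxes b B, g e) n := by
      intro g
      induction (boxes b B) using Finset.induction_on with
      | empty => simp
      | insert a s ha ih =>
        rw [Finset.sum_insert ha, Finset.sum_insert ha, ArithmeticFunction.add_apply, ih]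
    rw [app, app, app, A1, A2, A3]
    have t3 : ∀ g : ArithmeticFunction ℂ, (3 * g) n = 3 * g n := by
      intro g
      have h5 : (3 : ArithmeticFunction ℂ) * g = g + g + g := by ring
      rw [h5, ArithmeticFunction.add_apply, ArithmeticFunction.add_apply]
      ring
    rw [ArithmeticFunction.add_apply, af_sub_apply, t3, t3]
    ring
  have hz3 : n ≤ 2 ^ b * 2 ^ b * 2 ^ b := by
    refine h1.trans (le_of_eq ?_)
    rw [← pow_add, ← pow_add]
    congr 1
    ring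
  have hmain := hb_alg hZM hLaZ (Mz := Mz) (z := 2 ^ b)
    (fun k hk => by rw [hMz, tr_apply, if_pos hk]) hz3
  have hLL : ∀ k ≤ 2 ^ B, Lo' k = Lo k := fun k hk => by rw [hLo', tr_apply, if_pos hk]
  have hZZ : ∀ k ≤ 2 ^ B, Z' k = Z k := fun k hk => by rw [hZ', tr_apply, if_pos hk]
  have hid : ∀ f : ArithmeticFunction ℂ, ∀ k ≤ 2 ^ B, f k = f k := fun _ _ _ => rfl
  have g1 := mul_agree (hid Mz) hLL
  have g2 := mul_agree (mul_agree (hid (Mz * Mz)) hLL) hZZ
  have g3 := mul_agree (mul_agree (mul_agree (hid (Mz * Mz * Mz)) hLL) hZZ) hZZ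
  have g1' := mul_agree (hid 3) g1 n h2
  have g2' := mul_agree (hid 3) g2 n h2
  rw [hW, ArithmeticFunction.add_apply, af_sub_apply, g1', g2', g3 n h2]
  rw [ArithmeticFunction.add_apply, af_sub_apply] at hmain
  rw [← hmain, hLaDef, tw_apply, mul_comm]
  rfl

end Pool.Agent.H43.SI
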