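import Pool.Agent.H43.SI.Msum
import Pool.Agent.H43.SI.Dirs

/-!
# [H43 SI PSI] Prime number theorem with error `x (log x)^(-A)`, fixed modulus

PROOF, `χ ≠ 1`. `Λχ = (μχ) * (χ log)` (Dirichlet convolution; `ArithmeticFunction.vonMangoldt` identities
twisted by `χ`). `G(y) = Σ_{b<=y} χ(b) log b` satisfies `|G(y)| <= 2q log(2y)` (`y >= 1`; Abel summation,
`|Σ_{b<=y} χ(b)| <= q`, `H92.SW.norm_S_le_level`), `M(y) = Σ_{a<=y} μ(a)χ(a)`. Let `z = (log x)^(A+3)` and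
`x` large. Hyperbola method:
`Σ_{ab<=x} μχ(a) χ(b)log b = Σ_{a <= x/z} μχ(a) G(x/a) + Σ_{b<=z} χ(b) log b (M(x/b) - M(x/z))`.
First sum `<= (x/z) 2q log(2x)`. Second: by `msum` (exponent `A+1`, `x/b >= x/z >= sqrt x`)
`<= Σ_{b<=z} log b * 2C (x/b)(2/log x)^(A+1)`… `<= C' x (log x)^(-A-1) log^2 z <= C'' x (log x)^(-A)`.
`χ = 1` (principal mod `q`): `Σ_{n<=x} Λ(n)χ(n)` differs from `ψ(x)` by the prime powers of the primes
dividing `q`: `<= ω(q) log x`. For `ψ(x) - x` (take `q = 1` in `msum`): with `c` from `dirs`,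
`f(b) = log b - τ(b) - c`: `Λ - 1 - c 1_{n=1} = μ * f` (as `μ * log = Λ`, `μ * τ = 1`, `μ * 1 = δ`), and
`F(y) = Σ_{b<=y} f(b)` satisfies `|F(y)| <= C sqrt y`, also for real `y >= 1` (bounded change), so by the
hyperbola method with `z = (log x)^(2A+6)`:
`Σ_{a<=x/z} |F(x/a)| <= C Σ_{a<=x/z} sqrt(x/a) <= 2C x/sqrt z`, and
`Σ_{b<=z} |f(b)| |M(x/b) - M(x/z)| <= C x (log x)^(-A-3) Σ_{b<=z} (|f(b)|+..)/b`-type `<= C x (log x)^(-A)`
(`|f(b)| <= C b`, so crudely `Σ_{b<=z} |f(b)| 2C(x/b)(..)^(-A') <= C z x (log x)^(-A')` with `A' = 3A+10` in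
`msum`, which is enough). For small `x` enlarge `C`.
-/

namespace Pool.Agent.H43.SI

open Finset


lemma ps_hyp (f g : ArithmeticFunction ℂ) (N Y : ℕ) (hY : Y ≤ N) :
    ∑ n ∈ Ioc 0 N, (f * g) n = (∑ a ∈ Ioc 0 Y, f a * ∑ b ∈ Ioc 0 (N / a), g b) +
      ∑ b ∈ Ioc 0 (N / (Y + 1)), g b * ((∑ a ∈ Ioc 0 (N / b), f a) - ∑ a ∈ Ioc 0 Y, f a) := by
  rw [ArithmeticFunction.sum_Ioc_mul_eq_sum_sum]
  have h1 : ∑ a ∈ Ioc 0 N, f a * ∑ b ∈ Ioc 0 (N / a), g b =
      (∑ a ∈ Ioc 0 Y, f a * ∑ b ∈ Ioc 0 (N / a), g b) +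
      ∑ a ∈ Ioc Y N, f a * ∑ b ∈ Ioc 0 (N / a), g b :=
    (Finset.sum_Ioc_consecutive _ (Nat.zero_le _) hY).symm
  rw [h1]
  congr 1
  have h2 : ∀ b ∈ Ioc 0 (N / (Y + 1)),
      g b * ((∑ a ∈ Ioc 0 (N / b), f a) - ∑ a ∈ Ioc 0 Y, f a) =
      ∑ a ∈ Ioc Y (N / b), f a * g b := by
    intro b hb
    rw [Finset.mem_Ioc] at hb
    have hle : Y ≤ N / b := by
      rw [Nat.le_div_iff_mul_le hb.1]
      have := (Nat.le_div_iff_mul_le (Nat.succ_pos Y)).1 hb.2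
      nlinarith
    rw [← Finset.sum_Ioc_consecutive _ (Nat.zero_le _) hle, add_sub_cancel_left, Finset.mul_sum]
    exact Finset.sum_congr rfl fun a _ => mul_comm _ _
  rw [Finset.sum_congr rfl h2]
  have h3 : ∀ a ∈ Ioc Y N, f a * ∑ b ∈ Ioc 0 (N / a), g b =
      ∑ b ∈ Ioc 0 (N / a), f a * g b := fun a _ => Finset.mul_sum _ _ _
  rw [Finset.sum_congr rfl h3]
  refine Finset.sum_comm' ?_
  intro a b
  simp only [Finset.mem_Ioc]
  constructor
  · rintro ⟨⟨h4, h5⟩, h6, h7⟩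
    have h8 := (Nat.le_div_iff_mul_le (by omega : 0 < a)).1 h7
    refine ⟨⟨h4, ?_⟩, h6, ?_⟩
    · rw [Nat.le_div_iff_mul_le h6]
      linarith [mul_comm a b]
    · rw [Nat.le_div_iff_mul_le (Nat.succ_pos Y)]
      calc b * (Y + 1) ≤ b * a := Nat.mul_le_mul_left _ h4
        _ ≤ N := h8
  · rintro ⟨⟨h4, h5⟩, h6, h7⟩
    have h8 := (Nat.le_div_iff_mul_le h6).1 h5
    refine ⟨⟨h4, ?_⟩, h6, ?_⟩
    · calc a = a * 1 := (mul_one a).symm
        _ ≤ a * b := Nat.mul_le_mul_left _ h6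
        _ ≤ N := h8
    · rw [Nat.le_div_iff_mul_le (by omega : 0 < a)]
      linarith [mul_comm a b]

lemma ps_sqrt (Y : ℕ) : ∑ a ∈ Ioc 0 Y, 1 / Real.sqrt a ≤ 2 * Real.sqrt Y := by
  induction Y with
  | zero => simp
  | succ Y ih =>
    rw [Finset.sum_Ioc_succ_top (Nat.zero_le _)]
    have h1 : (0 : ℝ) < Real.sqrt ((Y + 1 : ℕ) : ℝ) := Real.sqrt_pos.2 (by positivity)
    have h0 : 0 ≤ Real.sqrt ((Y : ℕ) : ℝ) := Real.sqrt_nonneg _
    have h2 : Real.sqrt ((Y + 1 : ℕ) : ℝ) ^ 2 = (Y : ℝ) + 1 := by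
      rw [Real.sq_sqrt (by positivity)]; push_cast; ring
    have h3 : Real.sqrt ((Y : ℕ) : ℝ) ^ 2 = (Y : ℝ) := Real.sq_sqrt (by positivity)
    set s := Real.sqrt ((Y + 1 : ℕ) : ℝ)
    set t := Real.sqrt ((Y : ℕ) : ℝ)
    have h4 : 1 / s ≤ 2 * (s - t) := by
      rw [div_le_iff₀ h1]
      nlinarith [sq_nonneg (s - t)]
    linarith

lemma ps_triv (f g : ArithmeticFunction ℂ) (K : ℝ) (hK : 0 < K) (hf : ∀ n, ‖f n‖ ≤ 1)
    (hV : ∀ n : ℕ, ‖∑ b ∈ Ioc 0 n, g b‖ ≤ K * Real.sqrt n) (N Y : ℕ) (hY : Y ≤ N) :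
    ‖∑ a ∈ Ioc 0 Y, f a * ∑ b ∈ Ioc 0 (N / a), g b‖ ≤ K * Real.sqrt N * (2 * Real.sqrt Y) := by
  calc ‖∑ a ∈ Ioc 0 Y, f a * ∑ b ∈ Ioc 0 (N / a), g b‖
      ≤ ∑ a ∈ Ioc 0 Y, K * Real.sqrt N * (1 / Real.sqrt a) := by
        refine (norm_sum_le _ _).trans (Finset.sum_le_sum fun a ha => ?_)
        rw [Finset.mem_Ioc] at ha
        rw [norm_mul]
        have h1 : ((N / a : ℕ) : ℝ) ≤ (N : ℝ) / a := Nat.cast_div_le
        have h2 : Real.sqrt ((N / a : ℕ) : ℝ) ≤ Real.sqrt N * (1 / Real.sqrt a) := by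
          rw [mul_one_div, ← Real.sqrt_div (Nat.cast_nonneg N)]
          exact Real.sqrt_le_sqrt h1
        calc ‖f a‖ * ‖∑ b ∈ Ioc 0 (N / a), g b‖ ≤ 1 * (K * Real.sqrt ((N / a : ℕ) : ℝ)) :=
              mul_le_mul (hf a) (hV _) (norm_nonneg _) zero_le_one
          _ ≤ K * Real.sqrt N * (1 / Real.sqrt a) := by
              rw [one_mul, mul_assoc]
              exact mul_le_mul_of_nonneg_left h2 hK.le
    _ = K * Real.sqrt N * ∑ a ∈ Ioc 0 Y, (1 / Real.sqrt a) := by rw [Finset.mul_sum]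
    _ ≤ K * Real.sqrt N * (2 * Real.sqrt Y) :=
        mul_le_mul_of_nonneg_left (ps_sqrt Y) (by positivity)

lemma ps_gb (g : ArithmeticFunction ℂ) (K : ℝ) (hK : 0 < K)
    (hV : ∀ n : ℕ, ‖∑ b ∈ Ioc 0 n, g b‖ ≤ K * Real.sqrt n) (b : ℕ) (hb : 0 < b) :
    ‖g b‖ ≤ 2 * K * b := by
  obtain ⟨m, rfl⟩ : ∃ m, b = m + 1 := ⟨b - 1, by omega⟩
  have h1 : g (m + 1) = (∑ b ∈ Ioc 0 (m + 1), g b) - ∑ b ∈ Ioc 0 m, g b := by
    rw [Finset.sum_Ioc_succ_top (Nat.zero_le _)]; ring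
  have h2 : Real.sqrt ((m + 1 : ℕ) : ℝ) ≤ ((m + 1 : ℕ) : ℝ) := by
    rw [Real.sqrt_le_left (by positivity)]
    have : (1 : ℝ) ≤ ((m + 1 : ℕ) : ℝ) := by push_cast; linarith [Nat.cast_nonneg (α := ℝ) m]
    nlinarith
  have h3 : Real.sqrt (m : ℝ) ≤ ((m + 1 : ℕ) : ℝ) := by
    refine le_trans (Real.sqrt_le_sqrt ?_) h2
    push_cast; linarith
  rw [h1]
  calc ‖(∑ b ∈ Ioc 0 (m + 1), g b) - ∑ b ∈ Ioc 0 m, g b‖
      ≤ ‖∑ b ∈ Ioc 0 (m + 1), g b‖ + ‖∑ b ∈ Ioc 0 m, g b‖ := norm_sub_le _ _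
    _ ≤ K * Real.sqrt ((m + 1 : ℕ) : ℝ) + K * Real.sqrt (m : ℝ) := add_le_add (hV _) (hV _)
    _ ≤ K * ((m + 1 : ℕ) : ℝ) + K * ((m + 1 : ℕ) : ℝ) :=
        add_le_add (mul_le_mul_of_nonneg_left h2 hK.le) (mul_le_mul_of_nonneg_left h3 hK.le)
    _ = 2 * K * ((m + 1 : ℕ) : ℝ) := by ring

open Filter in
lemma ps_ev (A : ℝ) (hA : 0 < A) : ∃ N0 : ℕ, 3 ≤ N0 ∧ ∀ N : ℕ, N0 ≤ N →
    (Real.log N) ^ (2 * A) ≤ Real.sqrt N ∧ (2 : ℝ) ≤ (N : ℝ) ^ (1 / 4 : ℝ) ∧
    (N : ℝ) ^ (1 / 4 : ℝ) ≤ Real.sqrt N - 1 ∧ 1 ≤ Real.log N := by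
  have h1 : ∀ᶠ x : ℝ in atTop, (Real.log x) ^ (2 * A) ≤ Real.sqrt x := by
    have := (isLittleO_log_rpow_rpow_atTop (2 * A) (by norm_num : (0 : ℝ) < 1 / 2)).bound
      (by norm_num : (0 : ℝ) < 1)
    filter_upwards [this, eventually_ge_atTop (1 : ℝ)] with x hx hx1
    rw [one_mul, Real.norm_eq_abs, Real.norm_eq_abs] at hx
    rw [Real.sqrt_eq_rpow]
    calc (Real.log x) ^ (2 * A) ≤ |Real.log x ^ (2 * A)| := le_abs_self _
      _ ≤ |x ^ (1 / 2 : ℝ)| := hx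
      _ = x ^ (1 / 2 : ℝ) := abs_of_nonneg (Real.rpow_nonneg (by linarith) _)
  obtain ⟨X, hX⟩ := (h1.exists_forall_of_atTop)
  refine ⟨max 16 ⌈X⌉₊, le_trans (by norm_num) (le_max_left _ _), fun N hN => ?_⟩
  have hN16 : (16 : ℝ) ≤ N := by exact_mod_cast (le_max_left _ _).trans hN
  have hNX : X ≤ N := (Nat.le_ceil X).trans (by exact_mod_cast (le_max_right _ _).trans hN)
  have h4 : (2 : ℝ) ≤ (N : ℝ) ^ (1 / 4 : ℝ) := by
    have : (2 : ℝ) = (16 : ℝ) ^ (1 / 4 : ℝ) := by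
      rw [show (16 : ℝ) = 2 ^ (4 : ℝ) by norm_num, ← Real.rpow_mul (by norm_num)]
      norm_num
    rw [this]
    exact Real.rpow_le_rpow (by norm_num) hN16 (by norm_num)
  refine ⟨hX _ hNX, h4, ?_, ?_⟩
  · have h5 : Real.sqrt N = ((N : ℝ) ^ (1 / 4 : ℝ)) ^ 2 := by
      rw [Real.sqrt_eq_rpow, ← Real.rpow_natCast, ← Real.rpow_mul (by positivity)]
      norm_num
    rw [h5]
    nlinarith
  · rw [Real.le_log_iff_exp_le (by linarith)]
    have := Real.exp_one_lt_d9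
    linarith

lemma ps_large (A : ℝ) (hA : 0 < A) (K C : ℝ) (hK : 0 < K) (hC : 0 < C)
    (f g : ArithmeticFunction ℂ) (hf : ∀ n, ‖f n‖ ≤ 1)
    (hV : ∀ n : ℕ, ‖∑ b ∈ Ioc 0 n, g b‖ ≤ K * Real.sqrt n)
    (hM : ∀ n : ℕ, 2 ≤ n → ‖∑ a ∈ Ioc 0 n, f a‖ ≤ C * n * (Real.log n) ^ (-(5 * A)))
    (N : ℕ) (h1 : (Real.log N) ^ (2 * A) ≤ Real.sqrt N) (h2 : (2 : ℝ) ≤ (N : ℝ) ^ (1 / 4 : ℝ))
    (h3 : (N : ℝ) ^ (1 / 4 : ℝ) ≤ Real.sqrt N - 1) (h4 : 1 ≤ Real.log N) :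
    ‖∑ n ∈ Ioc 0 N, (f * g) n‖ ≤
      (2 * K + 4 * K * C * (4 : ℝ) ^ (5 * A)) * N * (Real.log N) ^ (-A) := by
  set L := Real.log N with hL
  set z := L ^ (2 * A) with hz
  have hL0 : 0 < L := by linarith
  have hz1 : 1 ≤ z := Real.one_le_rpow h4 (by positivity)
  have hz0 : 0 < z := by linarith
  have hN0 : (0 : ℝ) < N := by
    rcases Nat.eq_zero_or_pos N with h | h
    · exfalso; rw [h] at h2; norm_num at h2
    · exact_mod_cast h
  have hs0 : 0 < Real.sqrt N := Real.sqrt_pos.2 hN0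
  have hss : Real.sqrt N * Real.sqrt N = N := Real.mul_self_sqrt hN0.le
  set Y := ⌊(N : ℝ) / z⌋₊ with hYd
  have hYle : (Y : ℝ) ≤ N / z := Nat.floor_le (by positivity)
  have hYlt : (N : ℝ) / z < Y + 1 := Nat.lt_floor_add_one _
  have hNz : (N : ℝ) / z ≤ N := div_le_self hN0.le hz1
  have hYN : Y ≤ N := by exact_mod_cast hYle.trans hNz
  have hsNz : Real.sqrt N ≤ (N : ℝ) / z := by
    rw [le_div_iff₀ hz0]
    calc Real.sqrt N * z ≤ Real.sqrt N * Real.sqrt N := mul_le_mul_of_nonneg_left h1 hs0.le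
      _ = N := hss
  have hYq : (N : ℝ) ^ (1 / 4 : ℝ) ≤ Y := by linarith
  rw [ps_hyp f g N Y hYN]
  have hfirst : ‖∑ a ∈ Ioc 0 Y, f a * ∑ b ∈ Ioc 0 (N / a), g b‖ ≤ 2 * K * N * L ^ (-A) := by
    refine (ps_triv f g K hK hf hV N Y hYN).trans ?_
    have h5 : Real.sqrt Y ≤ Real.sqrt N * L ^ (-A) := by
      have h6 : Real.sqrt N * L ^ (-A) = Real.sqrt (N / z) := by
        rw [Real.sqrt_div hN0.le, hz, Real.sqrt_eq_rpow (L ^ (2 * A)), ← Real.rpow_mul hL0.le,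
          Real.rpow_neg hL0.le, div_eq_mul_inv]
        congr 3
        ring
      rw [h6]
      exact Real.sqrt_le_sqrt hYle
    calc K * Real.sqrt N * (2 * Real.sqrt Y) ≤
        K * Real.sqrt N * (2 * (Real.sqrt N * L ^ (-A))) := by gcongr
      _ = 2 * K * (Real.sqrt N * Real.sqrt N) * L ^ (-A) := by ring
      _ = 2 * K * N * L ^ (-A) := by rw [hss]
  have hMn : ∀ n : ℕ, n ≤ N → (N : ℝ) ^ (1 / 4 : ℝ) ≤ n →
      ‖∑ a ∈ Ioc 0 n, f a‖ ≤ C * N * ((4 : ℝ) ^ (5 * A) * L ^ (-(5 * A))) := by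
    intro n hn hn4
    have hn2 : 2 ≤ n := by exact_mod_cast h2.trans hn4
    have hn0 : (0 : ℝ) < n := by positivity
    refine (hM n hn2).trans ?_
    have h5 : L / 4 ≤ Real.log n := by
      have h6 : Real.log ((N : ℝ) ^ (1 / 4 : ℝ)) ≤ Real.log n :=
        Real.log_le_log (by positivity) hn4
      rw [Real.log_rpow hN0] at h6
      linarith
    have h6 : (Real.log n) ^ (-(5 * A)) ≤ (4 : ℝ) ^ (5 * A) * L ^ (-(5 * A)) := by
      calc (Real.log n) ^ (-(5 * A)) ≤ (L / 4) ^ (-(5 * A)) :=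
            Real.rpow_le_rpow_of_nonpos (by positivity) h5 (by linarith)
        _ = (4 : ℝ) ^ (5 * A) * L ^ (-(5 * A)) := by
            rw [Real.div_rpow hL0.le (by norm_num), Real.rpow_neg (by norm_num : (0 : ℝ) ≤ 4)]
            field_simp
    have h7 : (n : ℝ) ≤ N := by exact_mod_cast hn
    have h8 : 0 ≤ (Real.log n) ^ (-(5 * A)) :=
      Real.rpow_nonneg (Real.log_nonneg (by exact_mod_cast (by omega : 1 ≤ n))) _
    calc C * n * (Real.log n) ^ (-(5 * A)) ≤ C * N * (Real.log n) ^ (-(5 * A)) := by gcongr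
      _ ≤ _ := by gcongr
  have hsecond : ‖∑ b ∈ Ioc 0 (N / (Y + 1)),
      g b * ((∑ a ∈ Ioc 0 (N / b), f a) - ∑ a ∈ Ioc 0 Y, f a)‖ ≤
      4 * K * C * (4 : ℝ) ^ (5 * A) * N * L ^ (-A) := by
    have hcard : ((N / (Y + 1) : ℕ) : ℝ) ≤ z := by
      calc ((N / (Y + 1) : ℕ) : ℝ) ≤ (N : ℝ) / ((Y + 1 : ℕ) : ℝ) := Nat.cast_div_le
        _ ≤ z := by
            rw [div_le_iff₀ (by positivity)]
            push_cast
            rw [div_lt_iff₀ hz0] at hYlt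
            linarith
    have hterm : ∀ b ∈ Ioc 0 (N / (Y + 1)),
        ‖g b * ((∑ a ∈ Ioc 0 (N / b), f a) - ∑ a ∈ Ioc 0 Y, f a)‖ ≤
        2 * K * z * (2 * (C * N * ((4 : ℝ) ^ (5 * A) * L ^ (-(5 * A))))) := by
      intro b hb
      rw [Finset.mem_Ioc] at hb
      have hbz : (b : ℝ) ≤ z := le_trans (by exact_mod_cast hb.2) hcard
      have hNb : Y ≤ N / b := by
        rw [Nat.le_div_iff_mul_le hb.1]
        have := (Nat.le_div_iff_mul_le (Nat.succ_pos Y)).1 hb.2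
        nlinarith
      rw [norm_mul]
      refine mul_le_mul ((ps_gb g K hK hV b hb.1).trans ?_) ?_ (norm_nonneg _) (by positivity)
      · gcongr
      · refine (norm_sub_le _ _).trans ?_
        have h5 := hMn (N / b) (Nat.div_le_self _ _) (hYq.trans (by exact_mod_cast hNb))
        have h6 := hMn Y hYN hYq
        linarith
    calc _ ≤ ∑ b ∈ Ioc 0 (N / (Y + 1)),
          2 * K * z * (2 * (C * N * ((4 : ℝ) ^ (5 * A) * L ^ (-(5 * A))))) :=
          (norm_sum_le _ _).trans (Finset.sum_le_sum hterm)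
      _ = ((N / (Y + 1) : ℕ) : ℝ) *
          (2 * K * z * (2 * (C * N * ((4 : ℝ) ^ (5 * A) * L ^ (-(5 * A)))))) := by
          rw [Finset.sum_const, Nat.card_Ioc, nsmul_eq_mul, Nat.sub_zero]
      _ ≤ z * (2 * K * z * (2 * (C * N * ((4 : ℝ) ^ (5 * A) * L ^ (-(5 * A)))))) := by
          gcongr
      _ = 4 * K * C * (4 : ℝ) ^ (5 * A) * N * (z * z * L ^ (-(5 * A))) := by ring
      _ = 4 * K * C * (4 : ℝ) ^ (5 * A) * N * L ^ (-A) := by
          rw [hz, ← Real.rpow_add hL0, ← Real.rpow_add hL0]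
          congr 2
          ring
  calc _ ≤ 2 * K * N * L ^ (-A) + 4 * K * C * (4 : ℝ) ^ (5 * A) * N * L ^ (-A) :=
        (norm_add_le _ _).trans (add_le_add hfirst hsecond)
    _ = _ := by ring

lemma ps_core (A : ℝ) (hA : 0 < A) (K C : ℝ) (hK : 0 < K) (hC : 0 < C) : ∃ D : ℝ, 0 < D ∧
    ∀ (f g : ArithmeticFunction ℂ), (∀ n, ‖f n‖ ≤ 1) →
    (∀ n : ℕ, ‖∑ b ∈ Ioc 0 n, g b‖ ≤ K * Real.sqrt n) →
    (∀ n : ℕ, 2 ≤ n → ‖∑ a ∈ Ioc 0 n, f a‖ ≤ C * n * (Real.log n) ^ (-(5 * A))) →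
    ∀ N : ℕ, 2 ≤ N → ‖∑ n ∈ Ioc 0 N, (f * g) n‖ ≤ D * N * (Real.log N) ^ (-A) := by
  obtain ⟨N0, hN03, hN0⟩ := ps_ev A hA
  have hl0 : 0 < Real.log N0 := Real.log_pos (by exact_mod_cast (by omega : 1 < N0))
  refine ⟨max (2 * K + 4 * K * C * (4 : ℝ) ^ (5 * A)) (2 * K * (Real.log N0) ^ A),
    lt_max_of_lt_left (by positivity), fun f g hf hV hM N hN => ?_⟩
  have hNp : (0 : ℝ) < N := by positivity
  have hlN : 0 < Real.log N := Real.log_pos (by exact_mod_cast (by omega : 1 < N))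
  rcases le_or_gt N0 N with h | h
  · obtain ⟨h1, h2, h3, h4⟩ := hN0 N h
    refine (ps_large A hA K C hK hC f g hf hV hM N h1 h2 h3 h4).trans ?_
    have : 0 ≤ (Real.log N) ^ (-A) := by positivity
    gcongr
    exact le_max_left _ _
  · have h1 : ∑ n ∈ Ioc 0 N, (f * g) n = ∑ a ∈ Ioc 0 N, f a * ∑ b ∈ Ioc 0 (N / a), g b :=
      ArithmeticFunction.sum_Ioc_mul_eq_sum_sum _ _ _
    rw [h1]
    refine (ps_triv f g K hK hf hV N N le_rfl).trans ?_
    have h2 : Real.sqrt N * Real.sqrt N = N := Real.mul_self_sqrt hNp.le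
    have h3 : 1 ≤ (Real.log N0) ^ A * (Real.log N) ^ (-A) := by
      rw [Real.rpow_neg hlN.le, ← div_eq_mul_inv, one_le_div (by positivity)]
      exact Real.rpow_le_rpow hlN.le (Real.log_le_log hNp (by exact_mod_cast h.le)) hA.le
    calc K * Real.sqrt N * (2 * Real.sqrt N) = 2 * K * (Real.sqrt N * Real.sqrt N) := by ring
      _ = 2 * K * N * 1 := by rw [h2, mul_one]
      _ ≤ 2 * K * N * ((Real.log N0) ^ A * (Real.log N) ^ (-A)) := by gcongr
      _ = (2 * K * (Real.log N0) ^ A) * N * (Real.log N) ^ (-A) := by ring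
      _ ≤ _ := by
          have : 0 ≤ (Real.log N) ^ (-A) := by positivity
          gcongr
          exact le_max_right _ _

lemma ps_Icc (N : ℕ) : Icc 1 N = Ioc 0 N := by
  ext n; simp only [Finset.mem_Icc, Finset.mem_Ioc]; omega

/-- The function `μ χ`. -/
noncomputable def psF {q : ℕ} (χ : DirichletCharacter ℂ q) : ArithmeticFunction ℂ :=
  ⟨fun n => ((ArithmeticFunction.moebius n : ℤ) : ℂ) * χ n, by simp⟩

/-- The function `χ log`. -/
noncomputable def psG {q : ℕ} (χ : DirichletCharacter ℂ q) : ArithmeticFunction ℂ :=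
  ⟨fun n => (Real.log n : ℂ) * χ n, by simp⟩

lemma psF_apply {q : ℕ} (χ : DirichletCharacter ℂ q) (n : ℕ) :
    psF χ n = ((ArithmeticFunction.moebius n : ℤ) : ℂ) * χ n := rfl

lemma psG_apply {q : ℕ} (χ : DirichletCharacter ℂ q) (n : ℕ) :
    psG χ n = (Real.log n : ℂ) * χ n := rfl

lemma psF_norm {q : ℕ} (χ : DirichletCharacter ℂ q) (n : ℕ) : ‖psF χ n‖ ≤ 1 := by
  rw [psF_apply, norm_mul]
  have h1 : ‖((ArithmeticFunction.moebius n : ℤ) : ℂ)‖ ≤ 1 := by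
    rw [Complex.norm_intCast]
    exact_mod_cast ArithmeticFunction.abs_moebius_le_one
  calc _ ≤ 1 * 1 := mul_le_mul h1 (DirichletCharacter.norm_le_one χ _) (norm_nonneg _) zero_le_one
    _ = 1 := one_mul 1

lemma psFG {q : ℕ} (χ : DirichletCharacter ℂ q) (n : ℕ) :
    (psF χ * psG χ) n = ((ArithmeticFunction.vonMangoldt n : ℝ) : ℂ) * χ n := by
  rw [ArithmeticFunction.mul_apply]
  have h1 : ∀ p ∈ n.divisorsAntidiagonal, psF χ p.1 * psG χ p.2 =
      (((ArithmeticFunction.moebius p.1 : ℤ) : ℂ) * (Real.log p.2 : ℂ)) * χ n := by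
    intro p hp
    rw [psF_apply, psG_apply]
    have h2 := (Nat.mem_divisorsAntidiagonal.1 hp).1
    rw [← h2]
    push_cast
    rw [map_mul]
    ring
  rw [Finset.sum_congr rfl h1, ← Finset.sum_mul]
  congr 1
  rw [← ArithmeticFunction.moebius_mul_log_eq_vonMangoldt, ArithmeticFunction.mul_apply]
  push_cast
  refine Finset.sum_congr rfl fun p _ => ?_
  simp [ArithmeticFunction.log_apply]

lemma ps_abel {q : ℕ} (χ : DirichletCharacter ℂ q) (n : ℕ) :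
    ∑ b ∈ Ioc 0 n, psG χ b = (∑ b ∈ Ioc 0 n, χ b) * (Real.log n : ℂ) -
      ∑ b ∈ Ioo 0 n, (∑ a ∈ Ioc 0 b, χ a) * ((Real.log ((b + 1 : ℕ) : ℝ) - Real.log b : ℝ) : ℂ) := by
  induction n with
  | zero => simp
  | succ n ih =>
    rcases Nat.eq_zero_or_pos n with rfl | hn
    · have : Ioo 0 1 = (∅ : Finset ℕ) := by
        ext a; simp only [Finset.mem_Ioo, Finset.notMem_empty, iff_false]; omega
      simp [psG_apply, this]
    · have h1 : Ioo 0 (n + 1) = insert n (Ioo 0 n) := by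
        ext b; simp only [Finset.mem_Ioo, Finset.mem_insert]; omega
      have h2 : n ∉ Ioo 0 n := by simp
      rw [Finset.sum_Ioc_succ_top (Nat.zero_le _), ih, h1, Finset.sum_insert h2,
        Finset.sum_Ioc_succ_top (Nat.zero_le _), psG_apply]
      push_cast
      ring

lemma ps_telesc (n : ℕ) (hn : 0 < n) :
    ∑ b ∈ Ioo 0 n, (Real.log ((b + 1 : ℕ) : ℝ) - Real.log b) = Real.log n := by
  induction n with
  | zero => omega
  | succ n ih =>
    rcases Nat.eq_zero_or_pos n with rfl | hn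
    · have : Ioo 0 (0 + 1) = (∅ : Finset ℕ) := by
        ext a; simp only [Finset.mem_Ioo, Finset.notMem_empty, iff_false]; omega
      rw [this]; simp
    · have h1 : Ioo 0 (n + 1) = insert n (Ioo 0 n) := by
        ext b; simp only [Finset.mem_Ioo, Finset.mem_insert]; omega
      have h2 : n ∉ Ioo 0 n := by simp
      rw [h1, Finset.sum_insert h2, ih hn]
      ring

lemma ps_V {q : ℕ} [NeZero q] {χ : DirichletCharacter ℂ q} (hχ : χ ≠ 1) (n : ℕ) :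
    ‖∑ b ∈ Ioc 0 n, psG χ b‖ ≤ (4 * q) * Real.sqrt n := by
  rcases Nat.eq_zero_or_pos n with rfl | hn
  · simp
  · have hS : ∀ m : ℕ, ‖∑ b ∈ Ioc 0 m, χ (b : ZMod q)‖ ≤ q := by
      intro m
      have := Pool.Agent.H92.SW.norm_S_le_level hχ (m : ℝ)
      unfold Pool.Agent.H92.SW.S at this
      rw [Nat.floor_natCast, ps_Icc] at this
      exact this
    have hn1 : (1 : ℝ) ≤ n := by exact_mod_cast hn
    have hl0 : 0 ≤ Real.log n := Real.log_nonneg hn1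
    have hl : Real.log n ≤ 2 * Real.sqrt n := by
      have := Real.log_le_rpow_div (by positivity : (0 : ℝ) ≤ (n : ℝ)) (by norm_num : (0 : ℝ) < 1 / 2)
      rw [Real.sqrt_eq_rpow]
      linarith
    rw [ps_abel]
    calc _ ≤ ‖(∑ b ∈ Ioc 0 n, χ b) * (Real.log n : ℂ)‖ + ‖∑ b ∈ Ioo 0 n, (∑ a ∈ Ioc 0 b, χ a) *
          ((Real.log ((b + 1 : ℕ) : ℝ) - Real.log b : ℝ) : ℂ)‖ := norm_sub_le _ _
      _ ≤ q * Real.log n + ∑ b ∈ Ioo 0 n, q * (Real.log ((b + 1 : ℕ) : ℝ) - Real.log b) := by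
          refine add_le_add ?_ ((norm_sum_le _ _).trans (Finset.sum_le_sum fun b hb => ?_))
          · rw [norm_mul, Complex.norm_real, Real.norm_of_nonneg hl0]
            exact mul_le_mul_of_nonneg_right (hS n) hl0
          · rw [Finset.mem_Ioo] at hb
            have h1 : 0 ≤ Real.log ((b + 1 : ℕ) : ℝ) - Real.log b := by
              rw [sub_nonneg]
              exact Real.log_le_log (by exact_mod_cast hb.1) (by push_cast; linarith)
            rw [norm_mul, Complex.norm_real, Real.norm_of_nonneg h1]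
            exact mul_le_mul_of_nonneg_right (hS b) h1
      _ = 2 * q * Real.log n := by
          rw [← Finset.mul_sum, ps_telesc n hn]; ring
      _ ≤ 2 * q * (2 * Real.sqrt n) := by gcongr
      _ = (4 * q) * Real.sqrt n := by ring

/-- The function `log - τ - c`. -/
noncomputable def psH (c : ℝ) : ArithmeticFunction ℂ :=
  ⟨fun n => if n = 0 then 0 else (Real.log n : ℂ) - (n.divisors.card : ℂ) - (c : ℂ), by simp⟩

lemma psH_apply (c : ℝ) {n : ℕ} (hn : n ≠ 0) :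
    psH c n = (Real.log n : ℂ) - (n.divisors.card : ℂ) - (c : ℂ) := by
  show (if n = 0 then 0 else _) = _
  rw [if_neg hn]

lemma ps_card (n : ℕ) : ((ArithmeticFunction.zeta : ArithmeticFunction ℂ) *
    (ArithmeticFunction.zeta : ArithmeticFunction ℂ)) n = (n.divisors.card : ℂ) := by
  rw [ArithmeticFunction.coe_zeta_mul_apply]
  rw [Finset.card_eq_sum_ones]
  push_cast
  refine Finset.sum_congr rfl fun i hi => ?_
  have : i ≠ 0 := (Nat.pos_of_mem_divisors hi).ne'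
  simp [ArithmeticFunction.natCoe_apply, ArithmeticFunction.zeta_apply, this]

lemma ps_one (n : ℕ) : (1 : DirichletCharacter ℂ 1) (n : ZMod 1) = 1 :=
  MulChar.one_apply (isUnit_of_subsingleton _)

lemma psF_one : psF (1 : DirichletCharacter ℂ 1) =
    ((ArithmeticFunction.moebius : ArithmeticFunction ℤ) : ArithmeticFunction ℂ) := by
  ext n
  rw [psF_apply, ps_one, mul_one, ArithmeticFunction.intCoe_apply]

lemma psFH (c : ℝ) {n : ℕ} (hn : n ≠ 0) : (psF (1 : DirichletCharacter ℂ 1) * psH c) n =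
    ((ArithmeticFunction.vonMangoldt n : ℝ) : ℂ) - 1 - (if n = 1 then (c : ℂ) else 0) := by
  have h1 : (psF (1 : DirichletCharacter ℂ 1) * psH c) n =
      (psF (1 : DirichletCharacter ℂ 1) * psG (1 : DirichletCharacter ℂ 1)) n -
      (psF (1 : DirichletCharacter ℂ 1) * ((ArithmeticFunction.zeta : ArithmeticFunction ℂ) *
        (ArithmeticFunction.zeta : ArithmeticFunction ℂ))) n -
      (psF (1 : DirichletCharacter ℂ 1) * (ArithmeticFunction.zeta : ArithmeticFunction ℂ)) n * c := by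
    simp only [ArithmeticFunction.mul_apply (f := psF (1 : DirichletCharacter ℂ 1))]
    rw [Finset.sum_mul, ← Finset.sum_sub_distrib, ← Finset.sum_sub_distrib]
    refine Finset.sum_congr rfl fun p hp => ?_
    have hp2 : p.2 ≠ 0 := by
      intro h
      have := (Nat.mem_divisorsAntidiagonal.1 hp).1
      rw [h, mul_zero] at this
      exact hn this.symm
    rw [psH_apply c hp2, ps_card, psG_apply, ps_one, ArithmeticFunction.natCoe_apply,
      ArithmeticFunction.zeta_apply, if_neg hp2]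
    push_cast
    ring
  rw [h1, psFG, ps_one, ← mul_assoc, psF_one, ArithmeticFunction.coe_moebius_mul_coe_zeta, one_mul,
    ArithmeticFunction.natCoe_apply, ArithmeticFunction.zeta_apply, if_neg hn,
    ArithmeticFunction.one_apply]
  split_ifs <;> push_cast <;> ring

lemma ps_sumL (c : ℝ) {N : ℕ} (hN : 1 ≤ N) :
    ∑ n ∈ Ioc 0 N, ((ArithmeticFunction.vonMangoldt n : ℝ) : ℂ) =
    (∑ n ∈ Ioc 0 N, (psF (1 : DirichletCharacter ℂ 1) * psH c) n) + N + c := by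
  have h1 : ∀ n ∈ Ioc 0 N, (psF (1 : DirichletCharacter ℂ 1) * psH c) n =
      ((ArithmeticFunction.vonMangoldt n : ℝ) : ℂ) - 1 - (if n = 1 then (c : ℂ) else 0) := by
    intro n hn
    rw [Finset.mem_Ioc] at hn
    exact psFH c (by omega)
  rw [Finset.sum_congr rfl h1, Finset.sum_sub_distrib, Finset.sum_sub_distrib,
    Finset.sum_ite_eq' (Ioc 0 N) 1 (fun _ => (c : ℂ)), if_pos (Finset.mem_Ioc.2 ⟨one_pos, hN⟩)]
  simp only [Finset.sum_const, Nat.card_Ioc, nsmul_eq_mul, Nat.sub_zero, mul_one]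
  ring

lemma ps_princ (q : ℕ) [NeZero q] (N : ℕ) (hN : 1 ≤ N) :
    ‖∑ n ∈ Ioc 0 N, ((ArithmeticFunction.vonMangoldt n : ℝ) : ℂ) * (1 : DirichletCharacter ℂ q) n -
      ∑ n ∈ Ioc 0 N, ((ArithmeticFunction.vonMangoldt n : ℝ) : ℂ)‖ ≤
      (((q + 1) * (Nat.log 2 N + 1) : ℕ) : ℝ) * Real.log N := by
  classical
  set T := (Ioc 0 N).filter (fun n => ArithmeticFunction.vonMangoldt n ≠ 0 ∧ ¬ Nat.Coprime n q)
    with hT
  have hcard : T.card ≤ (q + 1) * (Nat.log 2 N + 1) := by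
    have hsub : T ⊆ ((Finset.range (q + 1)) ×ˢ (Finset.range (Nat.log 2 N + 1))).image
        (fun pk : ℕ × ℕ => pk.1 ^ pk.2) := by
      intro n hn
      rw [hT, Finset.mem_filter, Finset.mem_Ioc] at hn
      obtain ⟨⟨hn0, hnN⟩, hL, hc⟩ := hn
      rw [ArithmeticFunction.vonMangoldt_ne_zero_iff, isPrimePow_nat_iff] at hL
      obtain ⟨p, k, hp, hk, rfl⟩ := hL
      rw [Nat.coprime_pow_left_iff hk, hp.coprime_iff_not_dvd, not_not] at hc
      rw [Finset.mem_image]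
      refine ⟨(p, k), ?_, rfl⟩
      rw [Finset.mem_product, Finset.mem_range, Finset.mem_range]
      refine ⟨Nat.lt_succ_of_le (Nat.le_of_dvd (Nat.pos_of_ne_zero (NeZero.ne q)) hc),
        Nat.lt_succ_of_le ?_⟩
      show k ≤ Nat.log 2 N
      apply Nat.le_log_of_pow_le (by norm_num)
      exact (Nat.pow_le_pow_left hp.two_le k).trans hnN
    calc T.card ≤ _ := Finset.card_le_card hsub
      _ ≤ ((Finset.range (q + 1)) ×ˢ (Finset.range (Nat.log 2 N + 1))).card := Finset.card_image_le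
      _ = (q + 1) * (Nat.log 2 N + 1) := by rw [Finset.card_product]; simp
  rw [← Finset.sum_sub_distrib]
  have hterm : ∀ n ∈ Ioc 0 N, n ∉ T →
      ((ArithmeticFunction.vonMangoldt n : ℝ) : ℂ) * (1 : DirichletCharacter ℂ q) n -
      ((ArithmeticFunction.vonMangoldt n : ℝ) : ℂ) = 0 := by
    intro n hn hnT
    rw [hT, Finset.mem_filter, not_and] at hnT
    have h1 := hnT hn
    rw [not_and_or, not_not, not_not] at h1
    rcases h1 with h1 | h1
    · rw [h1]; simp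
    · rw [MulChar.one_apply ((ZMod.isUnit_iff_coprime n q).2 h1)]; simp
  have hTsub : T ⊆ Ioc 0 N := Finset.filter_subset _ _
  rw [← Finset.sum_subset hTsub (fun n hn hnT => hterm n hn hnT)]
  calc _ ≤ ∑ n ∈ T, Real.log N := by
        refine (norm_sum_le _ _).trans (Finset.sum_le_sum fun n hn => ?_)
        have hn' := Finset.mem_Ioc.1 (hTsub hn)
        rw [hT, Finset.mem_filter] at hn
        have h0 : (1 : DirichletCharacter ℂ q) (n : ZMod q) = 0 := by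
          apply MulChar.map_nonunit
          rw [ZMod.isUnit_iff_coprime]
          exact hn.2.2
        rw [h0, mul_zero, zero_sub, norm_neg, Complex.norm_real,
          Real.norm_of_nonneg ArithmeticFunction.vonMangoldt_nonneg]
        refine ArithmeticFunction.vonMangoldt_le_log.trans ?_
        exact Real.log_le_log (by exact_mod_cast hn'.1) (by exact_mod_cast hn'.2)
    _ = T.card * Real.log N := by rw [Finset.sum_const, nsmul_eq_mul]
    _ ≤ _ := by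
        refine mul_le_mul_of_nonneg_right (by exact_mod_cast hcard) ?_
        exact Real.log_nonneg (by exact_mod_cast hN)

lemma ps_logpow (A : ℝ) (hA : 0 < A) : ∃ B : ℝ, 0 < B ∧ ∀ x : ℝ, 2 ≤ x →
    (Real.log x) ^ 2 ≤ B * (x * (Real.log x) ^ (-A)) := by
  refine ⟨(A + 2) ^ (A + 2), by positivity, fun x hx => ?_⟩
  have hl : 0 < Real.log x := Real.log_pos (by linarith)
  have hx0 : 0 < x := by linarith
  have h1 : Real.log x ≤ (A + 2) * x ^ (1 / (A + 2)) := by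
    have := Real.log_le_rpow_div hx0.le (by positivity : 0 < 1 / (A + 2))
    rw [div_div_eq_mul_div, div_one] at this
    linarith
  have h2 : (Real.log x) ^ (A + 2) ≤ (A + 2) ^ (A + 2) * x := by
    calc (Real.log x) ^ (A + 2) ≤ ((A + 2) * x ^ (1 / (A + 2))) ^ (A + 2) :=
          Real.rpow_le_rpow hl.le h1 (by positivity)
      _ = (A + 2) ^ (A + 2) * x := by
          rw [Real.mul_rpow (by positivity) (by positivity), ← Real.rpow_mul hx0.le,
            one_div_mul_cancel (by positivity), Real.rpow_one]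
  rw [Real.rpow_add hl, Real.rpow_two] at h2
  rw [Real.rpow_neg hl.le, ← mul_assoc, ← div_eq_mul_inv, le_div_iff₀ (by positivity)]
  linarith

lemma ps_fl {x : ℝ} (hx : 2 ≤ x) : 2 ≤ ⌊x⌋₊ ∧ ((⌊x⌋₊ : ℕ) : ℝ) ≤ x ∧ x ≤ (⌊x⌋₊ : ℕ) + 1 ∧
    Real.log x ≤ 2 * Real.log (⌊x⌋₊ : ℕ) := by
  have h1 : 2 ≤ ⌊x⌋₊ := Nat.le_floor (by exact_mod_cast hx)
  have h2 : ((⌊x⌋₊ : ℕ) : ℝ) ≤ x := Nat.floor_le (by linarith)
  have h3 : x < (⌊x⌋₊ : ℕ) + 1 := Nat.lt_floor_add_one x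
  have h4 : (2 : ℝ) ≤ (⌊x⌋₊ : ℕ) := by exact_mod_cast h1
  refine ⟨h1, h2, h3.le, ?_⟩
  have h5 : x ≤ ((⌊x⌋₊ : ℕ) : ℝ) ^ 2 := by nlinarith
  calc Real.log x ≤ Real.log (((⌊x⌋₊ : ℕ) : ℝ) ^ 2) := Real.log_le_log (by linarith) h5
    _ = 2 * Real.log (⌊x⌋₊ : ℕ) := by rw [Real.log_pow]; push_cast; ring

lemma ps_real (A : ℝ) (hA : 0 < A) {D x : ℝ} (hD : 0 < D) (hx : 2 ≤ x) :
    D * (⌊x⌋₊ : ℕ) * (Real.log (⌊x⌋₊ : ℕ)) ^ (-A) ≤
      D * (2 : ℝ) ^ A * (x * (Real.log x) ^ (-A)) := by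
  obtain ⟨h1, h2, h3, h4⟩ := ps_fl hx
  have hl : 0 < Real.log x := Real.log_pos (by linarith)
  have hN : 0 < Real.log (⌊x⌋₊ : ℕ) := by linarith
  have h5 : (Real.log (⌊x⌋₊ : ℕ)) ^ (-A) ≤ (2 : ℝ) ^ A * (Real.log x) ^ (-A) := by
    calc (Real.log (⌊x⌋₊ : ℕ)) ^ (-A) ≤ (Real.log x / 2) ^ (-A) :=
          Real.rpow_le_rpow_of_nonpos (by positivity) (by linarith) (by linarith)
      _ = (2 : ℝ) ^ A * (Real.log x) ^ (-A) := by
          rw [Real.div_rpow hl.le (by norm_num), Real.rpow_neg (by norm_num : (0 : ℝ) ≤ 2)]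
          field_simp
  calc D * (⌊x⌋₊ : ℕ) * (Real.log (⌊x⌋₊ : ℕ)) ^ (-A)
      ≤ D * x * ((2 : ℝ) ^ A * (Real.log x) ^ (-A)) := by gcongr
    _ = _ := by ring

theorem psi_log (q : ℕ) [NeZero q] (A : ℝ) (hA : 0 < A) : ∃ C : ℝ, 0 < C ∧
    ∀ (χ : DirichletCharacter ℂ q) (x : ℝ), 2 ≤ x →
    ‖∑ n ∈ Icc 1 ⌊x⌋₊, ((ArithmeticFunction.vonMangoldt n : ℝ) : ℂ) * χ n -
        (open Classical in if χ = 1 then (x : ℂ) else 0)‖ ≤ C * x * (Real.log x) ^ (-A) := by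
  have hq : (0 : ℝ) < q := by exact_mod_cast Nat.pos_of_ne_zero (NeZero.ne q)
  obtain ⟨C1, hC1, hM1⟩ := msum q (5 * A) (by linarith)
  obtain ⟨C0, hC0, hM0⟩ := msum 1 (5 * A) (by linarith)
  obtain ⟨c, C2, hC2, hd⟩ := dirs
  obtain ⟨D1, hD1, hcore1⟩ := ps_core A hA (4 * q) C1 (by positivity) hC1
  obtain ⟨D2, hD2, hcore2⟩ := ps_core A hA C2 C0 hC2 hC0
  obtain ⟨B, hB, hlog⟩ := ps_logpow A hA
  refine ⟨D1 * (2 : ℝ) ^ A + (D2 * (2 : ℝ) ^ A + (4 * (q + 1) + 4 * (1 + |c|)) * B),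
    by positivity, fun χ x hx => ?_⟩
  obtain ⟨h1, h2, h3, h4⟩ := ps_fl hx
  have hl : 0 < Real.log x := Real.log_pos (by linarith)
  have hE : 0 < x * (Real.log x) ^ (-A) := by positivity
  set N := ⌊x⌋₊ with hN
  rw [ps_Icc]
  by_cases hχ : χ = 1
  · subst hχ
    rw [if_pos rfl]
    have hV : ∀ n : ℕ, ‖∑ b ∈ Ioc 0 n, psH c b‖ ≤ C2 * Real.sqrt n := by
      intro n
      rcases Nat.eq_zero_or_pos n with rfl | hn
      · simp
      · refine le_trans (le_of_eq ?_) (hd n hn)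
        have h5 : ∑ b ∈ Ioc 0 n, psH c b =
            ((∑ n ∈ Icc 1 n, (Real.log n - (n.divisors.card : ℝ)) - c * n : ℝ) : ℂ) := by
          rw [ps_Icc]
          have h6 : ∀ b ∈ Ioc 0 n, psH c b =
              ((Real.log b - (b.divisors.card : ℝ) : ℝ) : ℂ) - (c : ℂ) := by
            intro b hb
            rw [Finset.mem_Ioc] at hb
            rw [psH_apply c (by omega)]
            push_cast
            ring
          rw [Finset.sum_congr rfl h6, Finset.sum_sub_distrib]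
          simp [mul_comm]
        rw [h5, Complex.norm_real, Real.norm_eq_abs]
    have hM : ∀ n : ℕ, 2 ≤ n → ‖∑ a ∈ Ioc 0 n, psF (1 : DirichletCharacter ℂ 1) a‖ ≤
        C0 * n * (Real.log n) ^ (-(5 * A)) := by
      intro n hn
      have := hM0 1 n (by exact_mod_cast hn)
      rw [Nat.floor_natCast, ps_Icc] at this
      exact this
    have hmain := hcore2 _ _ (psF_norm _) hV hM N h1
    have hp := ps_princ q N (by omega)
    have hs := ps_sumL c (N := N) (by omega)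
    have hr := ps_real A hA hD2 hx
    have hL2 := hlog x hx
    have hlogN : Real.log N ≤ Real.log x := Real.log_le_log (by positivity) h2
    have hlx : (1 : ℝ) / 2 ≤ Real.log x := by
      have := Real.log_two_gt_d9
      have := Real.log_le_log (by norm_num) hx
      linarith
    have hlogN0 : 0 ≤ Real.log N := by linarith
    have hlog2 : (((q + 1) * (Nat.log 2 N + 1) : ℕ) : ℝ) * Real.log N ≤
        4 * (q + 1) * (Real.log x) ^ 2 := by
      have h5 : ((Nat.log 2 N : ℕ) : ℝ) ≤ 2 * Real.log N := by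
        have h6 : (2 : ℝ) ^ (Nat.log 2 N) ≤ N := by
          exact_mod_cast Nat.pow_log_le_self 2 (by omega)
        have h7 : Real.log ((2 : ℝ) ^ (Nat.log 2 N)) ≤ Real.log N :=
          Real.log_le_log (by positivity) h6
        rw [Real.log_pow] at h7
        have h8 := Real.log_two_gt_d9
        have h9 : (0 : ℝ) ≤ (Nat.log 2 N : ℕ) := Nat.cast_nonneg _
        nlinarith
      have h6 : ((Nat.log 2 N : ℕ) : ℝ) + 1 ≤ 4 * Real.log x := by linarith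
      push_cast
      calc ((q : ℝ) + 1) * (((Nat.log 2 N : ℕ) : ℝ) + 1) * Real.log N
          ≤ ((q : ℝ) + 1) * (4 * Real.log x) * Real.log x := by gcongr
        _ = 4 * (q + 1) * (Real.log x) ^ 2 := by ring
    have hone : (1 : ℝ) ≤ 4 * (Real.log x) ^ 2 := by nlinarith
    have hNx : ‖((N : ℕ) : ℂ) - (x : ℂ)‖ ≤ 1 := by
      rw [show ((N : ℕ) : ℂ) - (x : ℂ) = (((N : ℝ) - x : ℝ) : ℂ) by push_cast; ring,
        Complex.norm_real, Real.norm_eq_abs, abs_le]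
      constructor <;> linarith
    have hcn : ‖(c : ℂ)‖ = |c| := by rw [Complex.norm_real, Real.norm_eq_abs]
    set S1 := ∑ n ∈ Ioc 0 N, ((ArithmeticFunction.vonMangoldt n : ℝ) : ℂ) *
      (1 : DirichletCharacter ℂ q) n
    set S2 := ∑ n ∈ Ioc 0 N, ((ArithmeticFunction.vonMangoldt n : ℝ) : ℂ)
    set S3 := ∑ n ∈ Ioc 0 N, (psF (1 : DirichletCharacter ℂ 1) * psH c) n
    have hdec : S1 - (x : ℂ) = (S1 - S2) + (S3 + (((N : ℕ) : ℂ) - (x : ℂ)) + c) := by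
      rw [hs]; ring
    rw [hdec]
    calc ‖(S1 - S2) + (S3 + (((N : ℕ) : ℂ) - (x : ℂ)) + c)‖
        ≤ ‖S1 - S2‖ + (‖S3‖ + ‖((N : ℕ) : ℂ) - (x : ℂ)‖ + ‖(c : ℂ)‖) := by
          refine (norm_add_le _ _).trans (add_le_add le_rfl ?_)
          exact (norm_add_le _ _).trans (add_le_add (norm_add_le _ _) le_rfl)
      _ ≤ 4 * (q + 1) * (Real.log x) ^ 2 + (D2 * (2 : ℝ) ^ A * (x * (Real.log x) ^ (-A)) +
          1 + |c|) := by
          rw [hcn]
          gcongr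
          · exact hp.trans hlog2
          · exact hmain.trans hr
      _ ≤ 4 * (q + 1) * (Real.log x) ^ 2 + (D2 * (2 : ℝ) ^ A * (x * (Real.log x) ^ (-A)) +
          (1 + |c|) * (4 * (Real.log x) ^ 2)) := by
          have : (1 + |c|) * 1 ≤ (1 + |c|) * (4 * (Real.log x) ^ 2) := by gcongr
          linarith
      _ = D2 * (2 : ℝ) ^ A * (x * (Real.log x) ^ (-A)) +
          (4 * (q + 1) + 4 * (1 + |c|)) * (Real.log x) ^ 2 := by ring
      _ ≤ D2 * (2 : ℝ) ^ A * (x * (Real.log x) ^ (-A)) +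
          (4 * (q + 1) + 4 * (1 + |c|)) * (B * (x * (Real.log x) ^ (-A))) := by gcongr
      _ = (D2 * (2 : ℝ) ^ A + (4 * (q + 1) + 4 * (1 + |c|)) * B) *
          (x * (Real.log x) ^ (-A)) := by ring
      _ ≤ (D1 * (2 : ℝ) ^ A + (D2 * (2 : ℝ) ^ A + (4 * (q + 1) + 4 * (1 + |c|)) * B)) *
          (x * (Real.log x) ^ (-A)) := by
          have : 0 ≤ D1 * (2 : ℝ) ^ A := by positivity
          exact mul_le_mul_of_nonneg_right (by linarith) hE.le
      _ = _ := by ring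
  · rw [if_neg hχ, sub_zero]
    have hM : ∀ n : ℕ, 2 ≤ n → ‖∑ a ∈ Ioc 0 n, psF χ a‖ ≤
        C1 * n * (Real.log n) ^ (-(5 * A)) := by
      intro n hn
      have := hM1 χ n (by exact_mod_cast hn)
      rw [Nat.floor_natCast, ps_Icc] at this
      exact this
    have hmain := hcore1 _ _ (psF_norm χ) (ps_V hχ) hM N h1
    have hr := ps_real A hA hD1 hx
    rw [Finset.sum_congr rfl fun n _ => (psFG χ n).symm]
    calc _ ≤ D1 * (2 : ℝ) ^ A * (x * (Real.log x) ^ (-A)) := hmain.trans hr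
      _ ≤ (D1 * (2 : ℝ) ^ A + (D2 * (2 : ℝ) ^ A + (4 * (q + 1) + 4 * (1 + |c|)) * B)) *
          (x * (Real.log x) ^ (-A)) := by
          have : 0 ≤ (D2 * (2 : ℝ) ^ A + (4 * (q + 1) + 4 * (1 + |c|)) * B) := by positivity
          exact mul_le_mul_of_nonneg_right (by linarith) hE.le
      _ = _ := by ring

end Pool.Agent.H43.SI
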