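import Pool.Agent.H43.SI.Si
import Pool.Agent.H43.SI.Psi

/-!
# [H43 SI SIX] Short sums of `Λ χ`

For `q`, `0 < ε < 1/12` there is `A1` such that for every `η > 0` there is `X0`: for `X >= X0`, `χ mod q`,
`X^(-2/3+2ε) <= δ <= (log X)^(-A1)`, `Nm >= 6X`:
`∫_{log X}^{log 2X} ‖Sd (Λχ) Nm δ y - 1[χ=1] δ e^y‖^2 dy <= η δ^2 X^2`.

PROOF. `si` with `A = 1` gives `A1` and (multiplied by `δ^2`)
`∫ ‖Sd δ y - (δ/δ1) Sd δ1 y‖^2 <= δ^2 X^2 (log X)^(-1)`, `δ1 = (log X)^(-A1)`. For `y ∈ [log X, log 2X]`: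
`Sd δ1 y = ψ(e^(y+δ1),χ) - ψ(e^y,χ)` (sum over `e^y < n <= e^(y+δ1) <= 6X <= Nm`), by `psi_log` with the exponent
`A1+2`: `= 1[χ=1] e^y (e^δ1 - 1) + O(X (log X)^(-A1-2))`, so
`(δ/δ1) Sd δ1 y = 1[χ=1] δ e^y + O(δ X δ1 + δ X (log X)^(-2))` (`|(e^δ1-1)/δ1 - 1| <= δ1`). The interval of
integration has length `log 2`. `‖a+b‖^2 <= 2‖a‖^2+2‖b‖^2`.
-/

namespace Pool.Agent.H43.SI

open Finset MeasureTheory

private theorem six_Sd (f : ℕ → ℂ) (Nm : ℕ) (δ y : ℝ) (hδ : 0 ≤ δ)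
    (h : Real.exp (y + δ) ≤ Nm) :
    Sd f Nm δ y = ∑ n ∈ Icc 1 ⌊Real.exp (y + δ)⌋₊, f n - ∑ n ∈ Icc 1 ⌊Real.exp y⌋₊, f n := by
  have e0 : ∀ k, Icc 1 k = Ioc 0 k := by
    intro k
    ext y
    simp only [mem_Icc, mem_Ioc]
    omega
  have hfl : ⌊Real.exp y⌋₊ ≤ ⌊Real.exp (y + δ)⌋₊ :=
    Nat.floor_le_floor (Real.exp_le_exp.2 (by linarith))
  have hset : (Icc 1 Nm).filter (fun n : ℕ => y < Real.log n ∧ Real.log n ≤ y + δ) =
      Ioc ⌊Real.exp y⌋₊ ⌊Real.exp (y + δ)⌋₊ := by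
    ext n
    simp only [mem_filter, mem_Icc, mem_Ioc]
    constructor
    · rintro ⟨⟨h1, h2⟩, h3, h4⟩
      have hn : (0 : ℝ) < n := by exact_mod_cast h1
      refine ⟨?_, ?_⟩
      · rw [Nat.floor_lt (Real.exp_pos y).le]
        exact (Real.lt_log_iff_exp_lt hn).1 h3
      · exact Nat.le_floor ((Real.log_le_iff_le_exp hn).1 h4)
    · rintro ⟨h1, h2⟩
      have hn1 : 1 ≤ n := by omega
      have hn : (0 : ℝ) < n := by exact_mod_cast hn1
      rw [Nat.floor_lt (Real.exp_pos y).le] at h1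
      rw [Nat.le_floor_iff (Real.exp_pos _).le] at h2
      refine ⟨⟨hn1, ?_⟩, (Real.lt_log_iff_exp_lt hn).2 h1, (Real.log_le_iff_le_exp hn).2 h2⟩
      exact_mod_cast h2.trans h
  unfold Sd
  rw [hset, e0, e0, eq_sub_iff_add_eq, add_comm,
    Finset.sum_Ioc_consecutive _ (Nat.zero_le _) hfl]

theorem six (q : ℕ) [NeZero q] (ε : ℝ) (hε : 0 < ε) (hε1 : ε < 1 / 12) : ∃ A1 : ℝ, 0 < A1 ∧
    ∀ η : ℝ, 0 < η → ∃ X0 : ℝ, 10 ≤ X0 ∧ ∀ (χ : DirichletCharacter ℂ q) (X δ : ℝ), X0 ≤ X →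
    X ^ (-(2 : ℝ) / 3 + 2 * ε) ≤ δ → δ ≤ (Real.log X) ^ (-A1) → ∀ Nm : ℕ, 6 * X ≤ Nm →
    ∫ y in (Real.log X)..(Real.log (2 * X)),
      ‖Sd (fun n => ((ArithmeticFunction.vonMangoldt n : ℝ) : ℂ) * χ n) Nm δ y -
        (open Classical in if χ = 1 then ((δ * Real.exp y : ℝ) : ℂ) else 0)‖ ^ 2 ≤
      η * δ ^ 2 * X ^ 2 := by
  obtain ⟨A1, X1, hA1, hX1, hsi⟩ := si q ε 1 hε hε1 one_pos
  obtain ⟨C, hC, hpsi⟩ := psi_log q (A1 + 2) (by linarith)
  refine ⟨A1, hA1, fun η hη => ?_⟩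
  -- conditions for large X
  have t0 : Filter.Tendsto (fun X : ℝ => Real.log X) Filter.atTop Filter.atTop :=
    Real.tendsto_log_atTop
  have t1 : Filter.Tendsto (fun X : ℝ => (Real.log X) ^ (-(1 : ℝ))) Filter.atTop (nhds 0) :=
    (tendsto_rpow_neg_atTop one_pos).comp t0
  have t2 : Filter.Tendsto (fun X : ℝ => (Real.log X) ^ (-(2 : ℝ))) Filter.atTop (nhds 0) :=
    (tendsto_rpow_neg_atTop two_pos).comp t0
  have t3 : Filter.Tendsto (fun X : ℝ => (Real.log X) ^ (-A1)) Filter.atTop (nhds 0) :=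
    (tendsto_rpow_neg_atTop hA1).comp t0
  have t4 : Filter.Tendsto (fun X : ℝ => 2 * (Real.log X) ^ (-(1 : ℝ)) +
      2 * (2 * (Real.log X) ^ (-A1) + 12 * C * (Real.log X) ^ (-(2 : ℝ))) ^ 2)
      Filter.atTop (nhds 0) := by
    have := (t1.const_mul 2).add ((((t3.const_mul 2).add (t2.const_mul (12 * C))).pow 2).const_mul 2)
    simpa using this
  have ev1 := t4.eventually_lt_const hη
  have ev2 := t3.eventually_lt_const (show (0 : ℝ) < 1 by norm_num)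
  obtain ⟨X2, hX2⟩ := Filter.eventually_atTop.1 (ev1.and ev2)
  refine ⟨max X1 X2, hX1.trans (le_max_left _ _), fun χ X δ hX hδl hδu Nm hNm => ?_⟩
  have hXX1 : X1 ≤ X := (le_max_left _ _).trans hX
  obtain ⟨b1, b2⟩ := hX2 X ((le_max_right _ _).trans hX)
  have hX10 : 10 ≤ X := hX1.trans hXX1
  have hX0 : 0 < X := by linarith
  have hlX : 0 < Real.log X := Real.log_pos (by linarith)
  have hδ0 : 0 < δ := lt_of_lt_of_le (Real.rpow_pos_of_pos hX0 _) hδl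
  set ℓ := Real.log X with hℓ
  set δ1 := ℓ ^ (-A1) with hδ1
  have hδ10 : 0 < δ1 := Real.rpow_pos_of_pos hlX _
  set f : ℕ → ℂ := fun n => ((ArithmeticFunction.vonMangoldt n : ℝ) : ℂ) * χ n with hf
  set β : ℝ := 2 * δ1 + 12 * C * ℓ ^ (-(2 : ℝ)) with hβ
  have hβ0 : 0 ≤ β := by positivity
  have h1 := hsi χ X δ hXX1 hδl hδu Nm hNm
  have hle : Real.log X ≤ Real.log (2 * X) := Real.log_le_log hX0 (by linarith)
  have hlog2 : Real.log (2 * X) - Real.log X ≤ 1 := by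
    rw [Real.log_mul (by norm_num) hX0.ne']
    have := Real.log_two_lt_d9
    linarith
  -- pointwise bound
  have hpt : ∀ y ∈ Set.Icc (Real.log X) (Real.log (2 * X)),
      ‖Sd f Nm δ y - (open Classical in if χ = 1 then ((δ * Real.exp y : ℝ) : ℂ) else 0)‖ ^ 2 ≤
      2 * δ ^ 2 * ‖SiD f Nm δ δ1 y‖ ^ 2 + 2 * δ ^ 2 * X ^ 2 * β ^ 2 := by
    intro y hy
    have hey1 : X ≤ Real.exp y := by
      rw [← Real.exp_log hX0]
      exact Real.exp_le_exp.2 hy.1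
    have hey2 : Real.exp y ≤ 2 * X := by
      rw [← Real.exp_log (show (0 : ℝ) < 2 * X by linarith)]
      exact Real.exp_le_exp.2 hy.2
    have hed : Real.exp (y + δ1) ≤ 6 * X := by
      rw [Real.exp_add]
      have h3 : Real.exp δ1 ≤ 3 :=
        (Real.exp_le_exp.2 b2.le).trans (Real.exp_one_lt_three).le
      nlinarith [Real.exp_pos δ1, Real.exp_pos y]
    have hed1 : Real.exp y ≤ Real.exp (y + δ1) := Real.exp_le_exp.2 (by linarith)
    have hSd := six_Sd f Nm δ1 y hδ10.le (hed.trans hNm)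
    have hp : ∀ z : ℝ, X ≤ z → z ≤ 6 * X →
        ‖∑ n ∈ Icc 1 ⌊z⌋₊, f n - (open Classical in if χ = 1 then (z : ℂ) else 0)‖ ≤
        6 * C * X * ℓ ^ (-(A1 + 2)) := by
      intro z hz1 hz2
      refine (hpsi χ z (by linarith)).trans ?_
      have hlz : ℓ ≤ Real.log z := Real.log_le_log hX0 hz1
      have h3 : (Real.log z) ^ (-(A1 + 2)) ≤ ℓ ^ (-(A1 + 2)) :=
        Real.rpow_le_rpow_of_nonpos hlX hlz (by linarith)
      calc C * z * (Real.log z) ^ (-(A1 + 2)) ≤ C * (6 * X) * ℓ ^ (-(A1 + 2)) :=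
            mul_le_mul (mul_le_mul_of_nonneg_left hz2 hC.le) h3
              (Real.rpow_nonneg (hlX.le.trans hlz) _) (by positivity)
        _ = 6 * C * X * ℓ ^ (-(A1 + 2)) := by ring
    have hp1 := hp _ (hey1.trans hed1) hed
    have hp2 := hp _ hey1 (by linarith)
    -- the value at δ1
    have hmain : ‖Sd f Nm δ1 y / δ1 -
        (open Classical in if χ = 1 then ((Real.exp y : ℝ) : ℂ) else 0)‖ ≤ X * β := by
      have h4 : ‖Sd f Nm δ1 y - (open Classical in if χ = 1 then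
          ((Real.exp (y + δ1) - Real.exp y : ℝ) : ℂ) else 0)‖ ≤ 12 * C * X * ℓ ^ (-(A1 + 2)) := by
        rw [hSd]
        have e1 : (∑ n ∈ Icc 1 ⌊Real.exp (y + δ1)⌋₊, f n - ∑ n ∈ Icc 1 ⌊Real.exp y⌋₊, f n) -
            (open Classical in if χ = 1 then
              ((Real.exp (y + δ1) - Real.exp y : ℝ) : ℂ) else 0) =
            (∑ n ∈ Icc 1 ⌊Real.exp (y + δ1)⌋₊, f n -
              (open Classical in if χ = 1 then ((Real.exp (y + δ1) : ℝ) : ℂ) else 0)) -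
            (∑ n ∈ Icc 1 ⌊Real.exp y⌋₊, f n -
              (open Classical in if χ = 1 then ((Real.exp y : ℝ) : ℂ) else 0)) := by
          split_ifs
          · push_cast
            ring
          · ring
        rw [e1]
        refine (norm_sub_le _ _).trans ((add_le_add hp1 hp2).trans (le_of_eq ?_))
        ring
      have h5 : ‖(open Classical in if χ = 1 then
          ((Real.exp (y + δ1) - Real.exp y : ℝ) : ℂ) else 0) / (δ1 : ℂ) -
          (open Classical in if χ = 1 then ((Real.exp y : ℝ) : ℂ) else 0)‖ ≤ 2 * X * δ1 := by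
        split_ifs
        · have e2 : ((Real.exp (y + δ1) - Real.exp y : ℝ) : ℂ) / (δ1 : ℂ) -
              ((Real.exp y : ℝ) : ℂ) =
              ((Real.exp y * ((Real.exp δ1 - 1 - δ1) / δ1) : ℝ) : ℂ) := by
            rw [Real.exp_add]
            have : (δ1 : ℂ) ≠ 0 := by exact_mod_cast hδ10.ne'
            push_cast
            field_simp
          rw [e2, Complex.norm_real, Real.norm_eq_abs, abs_mul, abs_of_pos (Real.exp_pos y)]
          have h6 : |(Real.exp δ1 - 1 - δ1) / δ1| ≤ δ1 := by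
            rw [abs_div, abs_of_pos hδ10, div_le_iff₀ hδ10, ← sq]
            exact Real.abs_exp_sub_one_sub_id_le (by rw [abs_of_pos hδ10]; exact b2.le)
          exact mul_le_mul hey2 h6 (abs_nonneg _) (by linarith)
        · rw [zero_div, sub_zero, norm_zero]
          positivity
      have h7 : Sd f Nm δ1 y / δ1 -
          (open Classical in if χ = 1 then ((Real.exp y : ℝ) : ℂ) else 0) =
          (Sd f Nm δ1 y - (open Classical in if χ = 1 then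
          ((Real.exp (y + δ1) - Real.exp y : ℝ) : ℂ) else 0)) / (δ1 : ℂ) +
          ((open Classical in if χ = 1 then
          ((Real.exp (y + δ1) - Real.exp y : ℝ) : ℂ) else 0) / (δ1 : ℂ) -
          (open Classical in if χ = 1 then ((Real.exp y : ℝ) : ℂ) else 0)) := by ring
      rw [h7]
      refine (norm_add_le _ _).trans ?_
      have h8 : ‖(Sd f Nm δ1 y - (open Classical in if χ = 1 then
          ((Real.exp (y + δ1) - Real.exp y : ℝ) : ℂ) else 0)) / (δ1 : ℂ)‖ ≤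
          12 * C * X * ℓ ^ (-(2 : ℝ)) := by
        rw [norm_div, Complex.norm_real, Real.norm_eq_abs, abs_of_pos hδ10,
          div_le_iff₀ hδ10]
        refine h4.trans (le_of_eq ?_)
        have e3 : ℓ ^ (-(A1 + 2)) = ℓ ^ (-(2 : ℝ)) * δ1 := by
          rw [hδ1, ← Real.rpow_add hlX]
          congr 1
          ring
        rw [e3]
        ring
      calc _ ≤ 12 * C * X * ℓ ^ (-(2 : ℝ)) + 2 * X * δ1 := add_le_add h8 h5
        _ = X * β := by rw [hβ]; ring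
    have h9 : Sd f Nm δ y - (open Classical in if χ = 1 then ((δ * Real.exp y : ℝ) : ℂ) else 0) =
        (δ : ℂ) * (SiD f Nm δ δ1 y + (Sd f Nm δ1 y / δ1 -
        (open Classical in if χ = 1 then ((Real.exp y : ℝ) : ℂ) else 0))) := by
      have : (δ : ℂ) ≠ 0 := by exact_mod_cast hδ0.ne'
      unfold SiD
      split_ifs
      · push_cast
        field_simp
        ring
      · field_simp
        ring
    rw [h9, norm_mul, Complex.norm_real, Real.norm_eq_abs, abs_of_pos hδ0]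
    set a := SiD f Nm δ δ1 y with ha
    set b := Sd f Nm δ1 y / δ1 -
        (open Classical in if χ = 1 then ((Real.exp y : ℝ) : ℂ) else 0) with hb
    have h10 : ‖a + b‖ ≤ ‖a‖ + X * β := (norm_add_le _ _).trans (by linarith)
    have h11 : ‖a + b‖ ^ 2 ≤ 2 * ‖a‖ ^ 2 + 2 * (X * β) ^ 2 := by
      have h12 : ‖a + b‖ ^ 2 ≤ (‖a‖ + X * β) ^ 2 := pow_le_pow_left₀ (norm_nonneg _) h10 2
      nlinarith [sq_nonneg (‖a‖ - X * β)]
    calc (δ * ‖a + b‖) ^ 2 = δ ^ 2 * ‖a + b‖ ^ 2 := by ring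
      _ ≤ δ ^ 2 * (2 * ‖a‖ ^ 2 + 2 * (X * β) ^ 2) :=
        mul_le_mul_of_nonneg_left h11 (sq_nonneg _)
      _ = 2 * δ ^ 2 * ‖a‖ ^ 2 + 2 * δ ^ 2 * X ^ 2 * β ^ 2 := by ring
  -- integrate
  have hi1 : IntervalIntegrable (fun y => ‖SiD f Nm δ δ1 y‖ ^ 2) volume (Real.log X)
      (Real.log (2 * X)) := SiD_intervalIntegrable f Nm δ δ1 _ _
  have hi2 : IntervalIntegrable (fun y => 2 * δ ^ 2 * ‖SiD f Nm δ δ1 y‖ ^ 2 +
      2 * δ ^ 2 * X ^ 2 * β ^ 2) volume (Real.log X) (Real.log (2 * X)) :=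
    (hi1.const_mul _).add intervalIntegrable_const
  have hi3 : IntervalIntegrable (fun y => ‖Sd f Nm δ y -
      (open Classical in if χ = 1 then ((δ * Real.exp y : ℝ) : ℂ) else 0)‖ ^ 2) volume
      (Real.log X) (Real.log (2 * X)) := by
    have hmeas : Measurable (fun y : ℝ => ‖Sd f Nm δ y -
      (open Classical in if χ = 1 then ((δ * Real.exp y : ℝ) : ℂ) else 0)‖ ^ 2) := by
      refine ((Sd_measurable f Nm δ).sub ?_).norm.pow_const 2
      split_ifs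
      · exact Complex.measurable_ofReal.comp (Real.measurable_exp.const_mul δ)
      · exact measurable_const
    refine hi2.mono_fun' hmeas.aestronglyMeasurable ?_
    rw [Set.uIoc_of_le hle]
    refine (ae_restrict_iff' measurableSet_Ioc).2 (Filter.Eventually.of_forall fun y hy => ?_)
    have h12 := hpt y (Set.Ioc_subset_Icc_self hy)
    simp only [Real.norm_eq_abs, abs_pow, abs_norm]
    exact h12
  refine (intervalIntegral.integral_mono_on hle hi3 hi2 hpt).trans ?_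
  rw [intervalIntegral.integral_add (hi1.const_mul _) intervalIntegrable_const,
    intervalIntegral.integral_const_mul, intervalIntegral.integral_const, smul_eq_mul]
  have h13 : ∫ y in (Real.log X)..(Real.log (2 * X)), ‖SiD f Nm δ δ1 y‖ ^ 2 ≤
      X ^ 2 * ℓ ^ (-(1 : ℝ)) := h1
  have h14 : (Real.log (2 * X) - Real.log X) * (2 * δ ^ 2 * X ^ 2 * β ^ 2) ≤
      1 * (2 * δ ^ 2 * X ^ 2 * β ^ 2) := mul_le_mul_of_nonneg_right hlog2 (by positivity)
  have h15 : 2 * δ ^ 2 * ∫ y in (Real.log X)..(Real.log (2 * X)), ‖SiD f Nm δ δ1 y‖ ^ 2 ≤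
      2 * δ ^ 2 * (X ^ 2 * ℓ ^ (-(1 : ℝ))) := mul_le_mul_of_nonneg_left h13 (by positivity)
  have h16 : 2 * δ ^ 2 * (X ^ 2 * ℓ ^ (-(1 : ℝ))) + 1 * (2 * δ ^ 2 * X ^ 2 * β ^ 2) =
      (2 * ℓ ^ (-(1 : ℝ)) + 2 * β ^ 2) * (δ ^ 2 * X ^ 2) := by ring
  have h17 : (2 * ℓ ^ (-(1 : ℝ)) + 2 * β ^ 2) * (δ ^ 2 * X ^ 2) ≤ η * (δ ^ 2 * X ^ 2) :=
    mul_le_mul_of_nonneg_right b1.le (by positivity)
  calc _ ≤ _ := add_le_add h15 h14
    _ = (2 * ℓ ^ (-(1 : ℝ)) + 2 * β ^ 2) * (δ ^ 2 * X ^ 2) := h16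
    _ ≤ η * (δ ^ 2 * X ^ 2) := h17
    _ = η * δ ^ 2 * X ^ 2 := by ring

end Pool.Agent.H43.SI
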