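import Pool.Agent.H43.SI.Defs

/-!
# [H43 SI POLY] The box function and its Dirichlet polynomial

`S = Σ_i e_i`. (1) `bf χ e n = 0` unless `n <= 2^S` and `2^S <= 64 n`.
(2) `Σ_{n<=2^S} bf χ e n * n^(-(1+it)) = bp χ e t`.

PROOF. `bf` is a sum over factorisations `n = n_0...n_5` with `n_i ∈ (2^(e_i)/2, 2^(e_i)]`, so
`n_i <= 2^(e_i) <= 2 n_i` (natural division: `2^a/2 < n` gives `2^a < 2(n+..)`; for `a = 0`: `n = 1`; for
`a >= 1`: `2^(a-1) < n`). (2): multiplicativity of `n ↦ n^(-s)` for positive integers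
(`Complex.natCast_mul_natCast_cpow`) and finite sums; e.g. `LSeries_mul`/`LSeries_convolution` for functions
with finite support, or by induction on the number of factors: if `f`, `g` are arithmetic functions
supported in `{1..F}`, `{1..G}` then `Σ_{n<=FG} (f*g)(n) n^(-s) = (Σ f n^(-s)) (Σ g n^(-s))`.
-/

namespace Pool.Agent.H43.SI

open Finset

/-- support between `h / c` and `h` -/
def PolyS (f : ArithmeticFunction ℂ) (c h : ℕ) : Prop :=
  ∀ n, f n ≠ 0 → 1 ≤ n ∧ n ≤ h ∧ h ≤ c * n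

theorem polyS_mul {f g : ArithmeticFunction ℂ} {c h c' h' : ℕ} (hf : PolyS f c h)
    (hg : PolyS g c' h') : PolyS (f * g) (c * c') (h * h') := by
  intro n hn
  rw [ArithmeticFunction.mul_apply] at hn
  obtain ⟨x, hx, hx2⟩ := Finset.exists_ne_zero_of_sum_ne_zero hn
  rw [Nat.mem_divisorsAntidiagonal] at hx
  obtain ⟨h1, h2, h3⟩ := hf x.1 (left_ne_zero_of_mul hx2)
  obtain ⟨h4, h5, h6⟩ := hg x.2 (right_ne_zero_of_mul hx2)
  rw [← hx.1]
  refine ⟨Nat.mul_pos h1 h4, Nat.mul_le_mul h2 h5, ?_⟩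
  calc h * h' ≤ (c * x.1) * (c' * x.2) := Nat.mul_le_mul h3 h6
    _ = c * c' * (x.1 * x.2) := by ring

theorem polyS_af (c : ℕ → ℂ) (a : ℕ) : PolyS (af c a) 2 (2 ^ a) := by
  intro n hn
  have h1 : n ∈ Ioc (2 ^ a / 2) (2 ^ a) := by
    by_contra h
    exact hn (if_neg h)
  rw [mem_Ioc] at h1
  omega

theorem poly_summable {f : ArithmeticFunction ℂ} {c h : ℕ} (hf : PolyS f c h) (s : ℂ) :
    LSeriesSummable (fun n => f n) s := by
  refine summable_of_finite_support ((Set.finite_Icc 1 h).subset fun n hn => ?_)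
  have h1 : f n ≠ 0 := by
    intro h0
    apply hn
    simp [LSeries.term, h0]
  exact ⟨(hf n h1).1, (hf n h1).2.1⟩

theorem poly_LSeries {f : ArithmeticFunction ℂ} {c h : ℕ} (hf : PolyS f c h) (s : ℂ) :
    LSeries (fun n => f n) s = ∑ n ∈ Icc 1 h, f n * (n : ℂ) ^ (-s) := by
  unfold LSeries
  rw [tsum_eq_sum (s := Icc 1 h)]
  · refine sum_congr rfl fun n hn => ?_
    rw [LSeries.term_of_ne_zero (by rw [mem_Icc] at hn; omega), Complex.cpow_neg, div_eq_mul_inv]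
  · intro n hn
    have h1 : f n = 0 := by
      by_contra h0
      exact hn (mem_Icc.2 ⟨(hf n h0).1, (hf n h0).2.1⟩)
    simp [LSeries.term, h1]

theorem polyS_bf {q : ℕ} (χ : DirichletCharacter ℂ q) (e : Fin 6 → ℕ) :
    PolyS (bf χ e) 64 (2 ^ (∑ i, e i)) := by
  have h := polyS_mul (polyS_mul (polyS_mul (polyS_mul (polyS_mul
    (polyS_af (cf χ 0) (e 0)) (polyS_af (cf χ 1) (e 1))) (polyS_af (cf χ 2) (e 2)))
    (polyS_af (cf χ 3) (e 3))) (polyS_af (cf χ 4) (e 4))) (polyS_af (cf χ 5) (e 5))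
  rw [← pow_add, ← pow_add, ← pow_add, ← pow_add, ← pow_add] at h
  rw [Fin.sum_univ_six]
  exact h

theorem bf_supp {q : ℕ} (χ : DirichletCharacter ℂ q) (e : Fin 6 → ℕ) (n : ℕ)
    (h : bf χ e n ≠ 0) : 1 ≤ n ∧ n ≤ 2 ^ (∑ i, e i) ∧ 2 ^ (∑ i, e i) ≤ 64 * n :=
  polyS_bf χ e n h

theorem poly_af (c : ℕ → ℂ) (a : ℕ) (t : ℝ) :
    LSeries (fun n => af c a n) (1 + (t : ℂ) * Complex.I) = pol c a t := by
  rw [poly_LSeries (polyS_af c a)]
  unfold pol LF.ds
  have h1 : Ioc (2 ^ a / 2) (2 ^ a) ⊆ Icc 1 (2 ^ a) := by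
    intro n hn
    rw [mem_Ioc] at hn
    rw [mem_Icc]
    omega
  rw [← sum_subset h1]
  · refine sum_congr rfl fun n hn => ?_
    have h2 : af c a n = c n := if_pos hn
    rw [h2]
  · intro n _ hn
    have h2 : af c a n = 0 := if_neg hn
    rw [h2, zero_mul]

theorem bf_poly {q : ℕ} (χ : DirichletCharacter ℂ q) (e : Fin 6 → ℕ) (t : ℝ) :
    ∑ n ∈ Icc 1 (2 ^ (∑ i, e i)), bf χ e n * (n : ℂ) ^ (-(1 + (t : ℂ) * Complex.I)) =
      bp χ e t := by
  rw [← poly_LSeries (polyS_bf χ e)]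
  unfold bp bf
  have s0 := polyS_af (cf χ 0) (e 0)
  have s1 := polyS_mul s0 (polyS_af (cf χ 1) (e 1))
  have s2 := polyS_mul s1 (polyS_af (cf χ 2) (e 2))
  have s3 := polyS_mul s2 (polyS_af (cf χ 3) (e 3))
  have s4 := polyS_mul s3 (polyS_af (cf χ 4) (e 4))
  rw [ArithmeticFunction.LSeries_mul' (poly_summable s4 _)
      (poly_summable (polyS_af (cf χ 5) (e 5)) _),
    ArithmeticFunction.LSeries_mul' (poly_summable s3 _)
      (poly_summable (polyS_af (cf χ 4) (e 4)) _),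
    ArithmeticFunction.LSeries_mul' (poly_summable s2 _)
      (poly_summable (polyS_af (cf χ 3) (e 3)) _),
    ArithmeticFunction.LSeries_mul' (poly_summable s1 _)
      (poly_summable (polyS_af (cf χ 2) (e 2)) _),
    ArithmeticFunction.LSeries_mul' (poly_summable s0 _)
      (poly_summable (polyS_af (cf χ 1) (e 1)) _), Fin.prod_univ_six]
  simp only [poly_af]

end Pool.Agent.H43.SI
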