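import Pool.Agent.H43.SI.Freq
import Pool.Agent.H43.SI.Hb
import Pool.Agent.H43.SI.Poly
import Pool.Agent.H43.SI.Par

/-!
# [H43 SI SI] Short sums against longer sums for `Λ χ`

`0 < ε < 1/12`, `A > 0`. There are `A1, X0` such that for `X >= X0`, all `χ mod q`, all `δ` with
`X^(-2/3+2ε) <= δ <= δ1 = (log X)^(-A1)`:
`∫_{log X}^{log 2X} ‖Sd (Λχ) δ y/δ - Sd (Λχ) δ1 y/δ1‖^2 dy <= X^2 (log X)^(-A)` (`Nm` any number `>= 6X`).

PROOF. `ℓ = log X`. Choose `b` minimal with `2^(3b) >= 6X` (so `2^b <= 2 (6X)^(1/3) <= 8 X^(1/3)`) and `B` with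
`6X <= 2^B <= 12 X`. For `y ∈ [log X, log 2X]` and `δ <= δ1 <= 1` the integers `n` with
`y < log n <= y+δ1` satisfy `X < n <= 2e X <= 6X`, so by `hb`
`Sd (Λχ) δ y = Σ_{e∈boxes b B} wt e Sd (bf χ e) δ y` and only the boxes with `X <= 2^S <= 2^9 X` matter
(`bf_supp`: `bf χ e n ≠ 0` implies `n <= 2^S <= 64 n <= 384 X`). The number of boxes is
`<= (b+1)^3 (B+1)^3 <= (4ℓ)^6`, `|wt e| <= 7`. By Cauchy-Schwarz
`∫ ‖..‖^2 <= 49 (4ℓ)^6 Σ_e ∫ ‖Sd (bf χ e) δ y/δ - Sd (bf χ e) δ1 y/δ1‖^2 dy`. For each `e`: `par` with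
`f = bf χ e`, `Nm = 2^S` (in the range of `y` the value of `Sd` does not depend on `Nm >= 6X`, and for
`Nm = 2^S` all `n` with `bf χ e n ≠ 0` are included), `bf_poly`, and `freq` with `A + 13`.
-/

namespace Pool.Agent.H43.SI

open Finset MeasureTheory

/-- the difference of the two averages -/
noncomputable def SiD (f : ℕ → ℂ) (Nm : ℕ) (δ δ1 y : ℝ) : ℂ :=
  Sd f Nm δ y / δ - Sd f Nm δ1 y / δ1

theorem Sd_eq_ite (f : ℕ → ℂ) (Nm : ℕ) (δ y : ℝ) : Sd f Nm δ y =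
    ∑ n ∈ Icc 1 Nm, if y < Real.log n ∧ Real.log n ≤ y + δ then f n else 0 := by
  unfold Sd
  rw [Finset.sum_filter]

theorem Sd_measurable (f : ℕ → ℂ) (Nm : ℕ) (δ : ℝ) : Measurable (Sd f Nm δ) := by
  have : Sd f Nm δ = fun y => ∑ n ∈ Icc 1 Nm,
      if y < Real.log n ∧ Real.log n ≤ y + δ then f n else 0 := by
    funext y
    exact Sd_eq_ite f Nm δ y
  rw [this]
  apply Finset.measurable_sum
  intro n _
  apply Measurable.ite _ measurable_const measurable_const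
  apply MeasurableSet.inter
  · exact measurableSet_lt measurable_id measurable_const
  · exact measurableSet_le measurable_const (measurable_id.add_const δ)

theorem Sd_bound (f : ℕ → ℂ) (Nm : ℕ) (δ y : ℝ) : ‖Sd f Nm δ y‖ ≤ ∑ n ∈ Icc 1 Nm, ‖f n‖ := by
  unfold Sd
  refine le_trans (norm_sum_le _ _) ?_
  exact Finset.sum_le_sum_of_subset_of_nonneg (Finset.filter_subset _ _)
    (fun _ _ _ => norm_nonneg _)

theorem SiD_intervalIntegrable (f : ℕ → ℂ) (Nm : ℕ) (δ δ1 a c : ℝ) :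
    IntervalIntegrable (fun y => ‖SiD f Nm δ δ1 y‖ ^ 2) volume a c := by
  have hmeas : Measurable (fun y => ‖SiD f Nm δ δ1 y‖ ^ 2) := by
    unfold SiD
    exact (((Sd_measurable f Nm δ).div_const _).sub
      ((Sd_measurable f Nm δ1).div_const _)).norm.pow_const 2
  rw [intervalIntegrable_iff]
  set K : ℝ := ((∑ n ∈ Icc 1 Nm, ‖f n‖) / |δ| + (∑ n ∈ Icc 1 Nm, ‖f n‖) / |δ1|) ^ 2 with hK
  refine Measure.integrableOn_of_bounded (M := K) ?_ hmeas.aestronglyMeasurable ?_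
  · simp
  · refine Filter.Eventually.of_forall ?_
    intro y
    rw [Real.norm_eq_abs, abs_of_nonneg (sq_nonneg _), hK]
    apply pow_le_pow_left₀ (norm_nonneg _)
    unfold SiD
    refine le_trans (norm_sub_le _ _) ?_
    rw [norm_div, norm_div, Complex.norm_real, Complex.norm_real, Real.norm_eq_abs,
      Real.norm_eq_abs]
    exact add_le_add (div_le_div_of_nonneg_right (Sd_bound _ _ _ _) (abs_nonneg _))
      (div_le_div_of_nonneg_right (Sd_bound _ _ _ _) (abs_nonneg _))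

/-- the size of the integers in a short interval -/
theorem si_range {X y δ : ℝ} (hX : 1 ≤ X) (hy1 : Real.log X ≤ y) (hy2 : y ≤ Real.log (2 * X))
    (hδ : δ ≤ 1) (n : ℕ) (hn : 1 ≤ n) (h : y < Real.log n ∧ Real.log n ≤ y + δ) :
    X < n ∧ (n : ℝ) ≤ 6 * X := by
  have hX0 : 0 < X := by linarith
  have hnpos : (0 : ℝ) < n := by exact_mod_cast hn
  constructor
  · have : Real.log X < Real.log n := lt_of_le_of_lt hy1 h.1
    exact (Real.log_lt_log_iff hX0 hnpos).1 this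
  · have h1 : Real.log n ≤ Real.log (2 * X) + 1 := by linarith [h.2]
    have h2 : (n : ℝ) ≤ Real.exp (Real.log (2 * X) + 1) := by
      rw [← Real.log_le_iff_le_exp hnpos]; exact h1
    rw [Real.exp_add, Real.exp_log (by linarith)] at h2
    have h3 := Real.exp_one_lt_three
    nlinarith

/-- the value of `Sd` does not depend on the cut off -/
theorem Sd_cut (f : ℕ → ℂ) (K K' : ℕ) (δ y : ℝ) (h : ∀ n : ℕ, 1 ≤ n → n ≤ K ∨ n ≤ K' →
    (y < Real.log n ∧ Real.log n ≤ y + δ) → f n ≠ 0 → n ≤ K ∧ n ≤ K') :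
    Sd f K δ y = Sd f K' δ y := by
  have key : ∀ L L' : ℕ, L ≤ L' → (∀ n : ℕ, 1 ≤ n → n ≤ L' →
      (y < Real.log n ∧ Real.log n ≤ y + δ) → f n ≠ 0 → n ≤ L) → Sd f L δ y = Sd f L' δ y := by
    intro L L' hL hh
    rw [Sd_eq_ite, Sd_eq_ite]
    apply Finset.sum_subset (Icc_subset_Icc_right hL)
    intro n hn hn2
    rw [mem_Icc] at hn hn2
    split_ifs with hc
    · by_contra h0
      exact hn2 ⟨hn.1, hh n hn.1 hn.2 hc h0⟩
    · rfl
  rcases le_total K K' with hKK | hKK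
  · exact key K K' hKK (fun n h1 h2 h3 h4 => (h n h1 (Or.inr h2) h3 h4).1)
  · exact (key K' K hKK (fun n h1 h2 h3 h4 => (h n h1 (Or.inl h2) h3 h4).2)).symm

theorem wt_norm (e : Fin 6 → ℕ) : ‖wt e‖ ≤ 7 := by
  unfold wt
  calc _ ≤ ‖(1 : ℂ) + (if e 2 = 0 ∧ e 5 = 0 then -3 else 0)‖ +
        ‖(if e 1 = 0 ∧ e 2 = 0 ∧ e 4 = 0 ∧ e 5 = 0 then (3 : ℂ) else 0)‖ := norm_add_le _ _
    _ ≤ (‖(1 : ℂ)‖ + ‖(if e 2 = 0 ∧ e 5 = 0 then (-3 : ℂ) else 0)‖) +
        ‖(if e 1 = 0 ∧ e 2 = 0 ∧ e 4 = 0 ∧ e 5 = 0 then (3 : ℂ) else 0)‖ := by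
        gcongr
        exact norm_add_le _ _
    _ ≤ (1 + 3) + 3 := by
        gcongr
        · simp
        · split_ifs <;> simp
        · split_ifs <;> simp
    _ = 7 := by norm_num

/-- the mean square of the von Mangoldt sums from those of the boxes -/
theorem si_boxes {q : ℕ} [NeZero q] (χ : DirichletCharacter ℂ q) (X δ δ1 : ℝ) (hX : 1 ≤ X)
    (hδ1 : δ1 ≤ 1) (hδδ : δ ≤ δ1) (b B Nm : ℕ) (hb1 : 6 * X ≤ 2 ^ (3 * b)) (hB1 : 6 * X ≤ 2 ^ B)
    (Z : ℝ) (hZ : ∀ e ∈ boxes b B, ∫ y in (Real.log X)..(Real.log (2 * X)),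
      ‖SiD (fun n => bf χ e n) Nm δ δ1 y‖ ^ 2 ≤ Z) :
    ∫ y in (Real.log X)..(Real.log (2 * X)),
      ‖SiD (fun n => ((ArithmeticFunction.vonMangoldt n : ℝ) : ℂ) * χ n) Nm δ δ1 y‖ ^ 2 ≤
      49 * ((boxes b B).card : ℝ) ^ 2 * Z := by
  have hlog : Real.log X ≤ Real.log (2 * X) := Real.log_le_log (by linarith) (by linarith)
  have hSd : ∀ y : ℝ, Real.log X ≤ y → y ≤ Real.log (2 * X) → ∀ d : ℝ, d ≤ 1 →
      Sd (fun n => ((ArithmeticFunction.vonMangoldt n : ℝ) : ℂ) * χ n) Nm d y =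
      ∑ e ∈ boxes b B, wt e * Sd (fun n => bf χ e n) Nm d y := by
    intro y hy1 hy2 d hd
    have e1 : ∑ e ∈ boxes b B, wt e * Sd (fun n => bf χ e n) Nm d y =
        ∑ n ∈ (Icc 1 Nm).filter (fun n : ℕ => y < Real.log n ∧ Real.log n ≤ y + d),
          ∑ e ∈ boxes b B, wt e * bf χ e n := by
      rw [Finset.sum_comm]
      apply Finset.sum_congr rfl
      intro e _
      unfold Sd
      rw [Finset.mul_sum]
    rw [e1]
    unfold Sd
    apply Finset.sum_congr rfl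
    intro n hn
    rw [mem_filter, mem_Icc] at hn
    have hr := si_range hX hy1 hy2 hd n hn.1.1 hn.2
    apply hb χ b B n hn.1.1
    · have : (n : ℝ) ≤ 2 ^ (3 * b) := le_trans hr.2 hb1
      exact_mod_cast this
    · have : (n : ℝ) ≤ 2 ^ B := le_trans hr.2 hB1
      exact_mod_cast this
  have hD : ∀ y ∈ Set.Icc (Real.log X) (Real.log (2 * X)),
      ‖SiD (fun n => ((ArithmeticFunction.vonMangoldt n : ℝ) : ℂ) * χ n) Nm δ δ1 y‖ ^ 2 ≤
      49 * ((boxes b B).card : ℝ) * ∑ e ∈ boxes b B, ‖SiD (fun n => bf χ e n) Nm δ δ1 y‖ ^ 2 := by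
    intro y hy
    have e1 : SiD (fun n => ((ArithmeticFunction.vonMangoldt n : ℝ) : ℂ) * χ n) Nm δ δ1 y =
        ∑ e ∈ boxes b B, wt e * SiD (fun n => bf χ e n) Nm δ δ1 y := by
      unfold SiD
      rw [hSd y hy.1 hy.2 δ (by linarith), hSd y hy.1 hy.2 δ1 hδ1, Finset.sum_div, Finset.sum_div,
        ← Finset.sum_sub_distrib]
      apply Finset.sum_congr rfl
      intro e _
      ring
    rw [e1]
    have e2 : ‖∑ e ∈ boxes b B, wt e * SiD (fun n => bf χ e n) Nm δ δ1 y‖ ≤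
        ∑ e ∈ boxes b B, 7 * ‖SiD (fun n => bf χ e n) Nm δ δ1 y‖ := by
      refine le_trans (norm_sum_le _ _) (Finset.sum_le_sum ?_)
      intro e _
      rw [norm_mul]
      exact mul_le_mul_of_nonneg_right (wt_norm e) (norm_nonneg _)
    calc _ ≤ (∑ e ∈ boxes b B, 7 * ‖SiD (fun n => bf χ e n) Nm δ δ1 y‖) ^ 2 :=
          pow_le_pow_left₀ (norm_nonneg _) e2 2
      _ ≤ ((boxes b B).card : ℝ) *
          ∑ e ∈ boxes b B, (7 * ‖SiD (fun n => bf χ e n) Nm δ δ1 y‖) ^ 2 :=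
          sq_sum_le_card_mul_sum_sq
      _ = 49 * ((boxes b B).card : ℝ) *
          ∑ e ∈ boxes b B, ‖SiD (fun n => bf χ e n) Nm δ δ1 y‖ ^ 2 := by
          rw [Finset.mul_sum, Finset.mul_sum]
          apply Finset.sum_congr rfl
          intro e _
          ring
  have hint : ∀ e, IntervalIntegrable (fun y => ‖SiD (fun n => bf χ e n) Nm δ δ1 y‖ ^ 2) volume
      (Real.log X) (Real.log (2 * X)) := fun e => SiD_intervalIntegrable _ _ _ _ _ _
  calc _ ≤ ∫ y in (Real.log X)..(Real.log (2 * X)), 49 * ((boxes b B).card : ℝ) *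
        ∑ e ∈ boxes b B, ‖SiD (fun n => bf χ e n) Nm δ δ1 y‖ ^ 2 := by
        apply intervalIntegral.integral_mono_on hlog (SiD_intervalIntegrable _ _ _ _ _ _)
        · apply IntervalIntegrable.const_mul
          have e3 : (fun y => ∑ e ∈ boxes b B, ‖SiD (fun n => bf χ e n) Nm δ δ1 y‖ ^ 2) =
              ∑ e ∈ boxes b B, fun y => ‖SiD (fun n => bf χ e n) Nm δ δ1 y‖ ^ 2 := by
            funext y
            rw [Finset.sum_apply]
          rw [e3]
          exact IntervalIntegrable.sum _ (fun e _ => hint e)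
        · exact hD
    _ = 49 * ((boxes b B).card : ℝ) * ∑ e ∈ boxes b B, ∫ y in (Real.log X)..(Real.log (2 * X)),
        ‖SiD (fun n => bf χ e n) Nm δ δ1 y‖ ^ 2 := by
        rw [intervalIntegral.integral_const_mul]
        congr 1
        exact intervalIntegral.integral_finsetSum (fun e _ => hint e)
    _ ≤ 49 * ((boxes b B).card : ℝ) * ∑ e ∈ boxes b B, Z := by
        apply mul_le_mul_of_nonneg_left (Finset.sum_le_sum hZ) (by positivity)
    _ = 49 * ((boxes b B).card : ℝ) ^ 2 * Z := by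
        rw [Finset.sum_const, nsmul_eq_mul]; ring

theorem boxes_card_le (b B : ℕ) (R : ℝ) (hb : (b : ℝ) + 1 ≤ R) (hB : (B : ℝ) + 1 ≤ R) :
    ((boxes b B).card : ℝ) ≤ R ^ 6 := by
  unfold boxes
  rw [Fintype.card_piFinset]
  push_cast
  calc _ ≤ ∏ _i : Fin 6, R := by
        apply Finset.prod_le_prod (fun i _ => by positivity)
        intro i _
        split_ifs
        · rw [card_range]; push_cast; exact hb
        · rw [card_range]; push_cast; exact hB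
    _ = R ^ 6 := by simp

theorem si (q : ℕ) [NeZero q] (ε A : ℝ) (hε : 0 < ε) (hε1 : ε < 1 / 12) (hA : 0 < A) :
    ∃ A1 X0 : ℝ, 0 < A1 ∧ 10 ≤ X0 ∧ ∀ (χ : DirichletCharacter ℂ q) (X δ : ℝ), X0 ≤ X →
    X ^ (-(2 : ℝ) / 3 + 2 * ε) ≤ δ → δ ≤ (Real.log X) ^ (-A1) → ∀ Nm : ℕ, 6 * X ≤ Nm →
    ∫ y in (Real.log X)..(Real.log (2 * X)),
      ‖Sd (fun n => ((ArithmeticFunction.vonMangoldt n : ℝ) : ℂ) * χ n) Nm δ y / δ -
        Sd (fun n => ((ArithmeticFunction.vonMangoldt n : ℝ) : ℂ) * χ n) Nm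
          ((Real.log X) ^ (-A1)) y / ((Real.log X) ^ (-A1) : ℝ)‖ ^ 2 ≤
      X ^ 2 * (Real.log X) ^ (-A) := by
  obtain ⟨C, hC, hpar⟩ := par
  obtain ⟨A1, X1, hA1, hX1, hfreq⟩ := freq q ε (A + 13) hε hε1 (by linarith)
  set L0 : ℝ := max 100 (49 * 3 ^ 12 * C) with hL0
  refine ⟨A1, max X1 (Real.exp L0), hA1, le_trans hX1 (le_max_left _ _), ?_⟩
  intro χ X δ hX hδ1 hδ2 Nm hNm
  have hXX1 : X1 ≤ X := le_trans (le_max_left _ _) hX
  have hX10 : 10 ≤ X := le_trans hX1 hXX1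
  have hXpos : 0 < X := by linarith
  set ℓ := Real.log X with hℓ
  have hℓL : L0 ≤ ℓ := (Real.le_log_iff_exp_le hXpos).2 (le_trans (le_max_right _ _) hX)
  have hℓ100 : 100 ≤ ℓ := le_trans (le_max_left _ _) hℓL
  have hℓC : 49 * 3 ^ 12 * C ≤ ℓ := le_trans (le_max_right _ _) hℓL
  have hℓpos : 0 < ℓ := by linarith
  set δ1 := ℓ ^ (-A1) with hδ1def
  have hδ11 : δ1 ≤ 1 := Real.rpow_le_one_of_one_le_of_nonpos (by linarith) (by linarith)
  have hδpos : 0 < δ := lt_of_lt_of_le (Real.rpow_pos_of_pos hXpos _) hδ1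
  have hl2a : (0.6931471803 : ℝ) < Real.log 2 := Real.log_two_gt_d9
  have hl2b : Real.log 2 < 0.6931471808 := Real.log_two_lt_d9
  have h2e : ∀ n : ℕ, (2 : ℝ) ^ n = Real.exp (n * Real.log 2) := by
    intro n
    rw [mul_comm, ← Real.rpow_natCast, Real.rpow_def_of_pos (by norm_num)]
  have hlog6 : Real.log (6 * X) = Real.log 6 + ℓ := Real.log_mul (by norm_num) hXpos.ne'
  have hlog6b : Real.log 6 ≤ 3 * Real.log 2 := by
    have : Real.log 6 ≤ Real.log (2 ^ 3) := Real.log_le_log (by norm_num) (by norm_num)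
    rwa [Real.log_pow] at this
  have hlog6c : 0 ≤ Real.log 6 := Real.log_nonneg (by norm_num)
  have h6X : 6 * X = Real.exp (Real.log 6 + ℓ) := by
    rw [← hlog6, Real.exp_log (by positivity)]
  -- b and B
  set b := ⌈(Real.log 6 + ℓ) / (3 * Real.log 2)⌉₊ with hb
  set B := ⌈(Real.log 6 + ℓ) / Real.log 2⌉₊ with hB
  have hb0 : (Real.log 6 + ℓ) / (3 * Real.log 2) ≤ b := Nat.le_ceil _
  have hb2 : (b : ℝ) < (Real.log 6 + ℓ) / (3 * Real.log 2) + 1 :=
    Nat.ceil_lt_add_one (by positivity)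
  have hB0 : (Real.log 6 + ℓ) / Real.log 2 ≤ B := Nat.le_ceil _
  have hB2 : (B : ℝ) < (Real.log 6 + ℓ) / Real.log 2 + 1 := Nat.ceil_lt_add_one (by positivity)
  rw [div_le_iff₀ (by positivity)] at hb0 hB0
  have hb3 : (b : ℝ) * (3 * Real.log 2) < (Real.log 6 + ℓ) + 3 * Real.log 2 := by
    have h1 : (0 : ℝ) < 3 * Real.log 2 := by positivity
    calc (b : ℝ) * (3 * Real.log 2)
        < ((Real.log 6 + ℓ) / (3 * Real.log 2) + 1) * (3 * Real.log 2) :=
          mul_lt_mul_of_pos_right hb2 h1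
      _ = (Real.log 6 + ℓ) + 3 * Real.log 2 := by field_simp
  have hB3 : (B : ℝ) * Real.log 2 < (Real.log 6 + ℓ) + Real.log 2 := by
    have h1 : (0 : ℝ) < Real.log 2 := by positivity
    calc (B : ℝ) * Real.log 2 < ((Real.log 6 + ℓ) / Real.log 2 + 1) * Real.log 2 :=
          mul_lt_mul_of_pos_right hB2 h1
      _ = (Real.log 6 + ℓ) + Real.log 2 := by field_simp
  have hbR : (b : ℝ) + 1 ≤ 3 * ℓ := by
    have h1 : (b : ℝ) * 2 ≤ (b : ℝ) * (3 * Real.log 2) := by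
      apply mul_le_mul_of_nonneg_left _ (Nat.cast_nonneg b)
      linarith
    linarith
  have hBR : (B : ℝ) + 1 ≤ 3 * ℓ := by
    have h1 : (B : ℝ) * (1 / 2) ≤ (B : ℝ) * Real.log 2 := by
      apply mul_le_mul_of_nonneg_left _ (Nat.cast_nonneg B)
      linarith
    linarith
  have hb6 : 6 * X ≤ 2 ^ (3 * b) := by
    rw [h2e, h6X]
    apply Real.exp_le_exp.2
    push_cast
    linarith
  have hB6 : 6 * X ≤ 2 ^ B := by
    rw [h2e, h6X]
    exact Real.exp_le_exp.2 hB0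
  have hb8 : (2 : ℝ) ^ b ≤ 8 * X ^ ((1 : ℝ) / 3) := by
    have e1 : 8 * X ^ ((1 : ℝ) / 3) = Real.exp (3 * Real.log 2 + ℓ / 3) := by
      rw [Real.exp_add, show (3 : ℝ) * Real.log 2 = ((3 : ℕ) : ℝ) * Real.log 2 by norm_num,
        ← h2e, Real.rpow_def_of_pos hXpos]
      norm_num
      congr 1
      ring
    rw [h2e, e1]
    apply Real.exp_le_exp.2
    linarith
  have hcard := boxes_card_le b B (3 * ℓ) hbR hBR
  -- each box
  set Z : ℝ := C * X ^ 2 * ℓ ^ (-(A + 13)) with hZ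
  have hZ0 : 0 ≤ Z := by positivity
  have hbox : ∀ e ∈ boxes b B, ∫ y in ℓ..(Real.log (2 * X)),
      ‖SiD (fun n => bf χ e n) Nm δ δ1 y‖ ^ 2 ≤ Z := by
    intro e he
    have hcut : ∀ y : ℝ, ℓ ≤ y → y ≤ Real.log (2 * X) → ∀ d : ℝ, d ≤ 1 →
        Sd (fun n => bf χ e n) Nm d y = Sd (fun n => bf χ e n) (2 ^ (∑ i, e i)) d y := by
      intro y hy1 hy2 d hd
      apply Sd_cut
      intro n hn _ h3 h4
      have hr := si_range (by linarith) hy1 hy2 hd n hn h3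
      refine ⟨?_, (bf_supp χ e n h4).2.1⟩
      have : (n : ℝ) ≤ Nm := le_trans hr.2 hNm
      exact_mod_cast this
    have hlog2 : ℓ ≤ Real.log (2 * X) := Real.log_le_log hXpos (by linarith)
    have hcongr : ∫ y in ℓ..(Real.log (2 * X)), ‖SiD (fun n => bf χ e n) Nm δ δ1 y‖ ^ 2 =
        ∫ y in ℓ..(Real.log (2 * X)),
          ‖SiD (fun n => bf χ e n) (2 ^ (∑ i, e i)) δ δ1 y‖ ^ 2 := by
      apply intervalIntegral.integral_congr
      intro y hy
      rw [Set.uIcc_of_le hlog2] at hy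
      simp only
      unfold SiD
      rw [hcut y hy.1 hy.2 δ (by linarith), hcut y hy.1 hy.2 δ1 hδ11]
    rw [hcongr]
    by_cases hgood : X ≤ 2 ^ (∑ i, e i) ∧ (2 : ℝ) ^ (∑ i, e i) ≤ 2 ^ 9 * X
    · obtain ⟨hg1, hg2⟩ := hgood
      have hp := (hpar (fun n => bf χ e n) (2 ^ (∑ i, e i)) X δ δ1 (by linarith) hδpos hδ2 hδ11).2
      have he3 : ∀ i : Fin 6, (i : ℕ) < 3 → (2 : ℝ) ^ (e i) ≤ 8 * X ^ ((1 : ℝ) / 3) := by
        intro i hi
        refine le_trans ?_ hb8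
        have h1 := (Fintype.mem_piFinset.1 he) i
        rw [if_pos hi, mem_range] at h1
        exact pow_le_pow_right₀ (by norm_num) (by omega)
      have hf := hfreq χ X δ hXX1 hδ1 hδ2 e hg1 hg2 he3
      have e1 : (fun t : ℝ => ‖∑ n ∈ Icc 1 (2 ^ (∑ i, e i)), bf χ e n *
          (n : ℂ) ^ (-(1 + (t : ℂ) * Complex.I))‖ ^ 2 * mul δ δ1 t) =
          fun t : ℝ => ‖bp χ e t‖ ^ 2 * mul δ δ1 t := by
        funext t
        rw [bf_poly]
      rw [e1] at hp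
      refine le_trans hp ?_
      rw [hZ]
      gcongr
    · have hzero : ∀ y ∈ Set.uIcc ℓ (Real.log (2 * X)),
          ‖SiD (fun n => bf χ e n) (2 ^ (∑ i, e i)) δ δ1 y‖ ^ 2 = 0 := by
        intro y hy
        rw [Set.uIcc_of_le hlog2] at hy
        have hSd0 : ∀ d : ℝ, d ≤ 1 → Sd (fun n => bf χ e n) (2 ^ (∑ i, e i)) d y = 0 := by
          intro d hd
          unfold Sd
          apply Finset.sum_eq_zero
          intro n hn
          rw [mem_filter, mem_Icc] at hn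
          by_contra h0
          have hr := si_range (by linarith) hy.1 hy.2 hd n hn.1.1 hn.2
          have hs := bf_supp χ e n h0
          apply hgood
          constructor
          · have : (n : ℝ) ≤ 2 ^ (∑ i, e i) := by exact_mod_cast hs.2.1
            linarith
          · have : (2 : ℝ) ^ (∑ i, e i) ≤ 64 * n := by exact_mod_cast hs.2.2
            linarith
        unfold SiD
        rw [hSd0 δ (by linarith), hSd0 δ1 hδ11]
        simp
      rw [intervalIntegral.integral_congr hzero]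
      simpa using hZ0
  have hmain := si_boxes χ X δ δ1 (by linarith) hδ11 hδ2 b B Nm hb6 hB6 Z hbox
  refine le_trans hmain ?_
  have hcard0 : (0 : ℝ) ≤ ((boxes b B).card : ℝ) := Nat.cast_nonneg _
  calc 49 * ((boxes b B).card : ℝ) ^ 2 * Z ≤ 49 * ((3 * ℓ) ^ 6) ^ 2 * Z := by gcongr
    _ = X ^ 2 * ((49 * 3 ^ 12 * C) * (ℓ ^ (12 : ℕ) * ℓ ^ (-(A + 13)))) := by rw [hZ]; ring
    _ ≤ X ^ 2 * (ℓ * (ℓ ^ (12 : ℕ) * ℓ ^ (-(A + 13)))) := by gcongr
    _ = X ^ 2 * ℓ ^ (-A) := by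
        have e1 : ℓ * (ℓ ^ (12 : ℕ) * ℓ ^ (-(A + 13))) = ℓ ^ (-A) := by
          rw [← mul_assoc, ← pow_succ', ← Real.rpow_natCast, ← Real.rpow_add hℓpos]
          congr 1
          push_cast
          ring
        rw [e1]

end Pool.Agent.H43.SI
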