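import Pool.Agent.H43.SI.Defs
import Pool.Agent.H43.LF.Mu
import Pool.Agent.H43.LF.Smf
import Pool.Agent.H43.LF.Cls

/-!
# [H43 SI PW] Pointwise bounds for one factor

(1) trivial: `‖pol (cf χ i) a t‖ <= 1 + a` .
(2) For every `A > 0` there is `X0(q,A)`: for `X >= X0`, `exp((log X)^0.98) <= 2^a <= X`,
`(log X)^(A+3) <= |t| <= X`, every `i`: `‖pol (cf χ i) a t‖ <= (log X)^(-A)`.

PROOF. (1) at most `2^(a-1)` terms (one term for `a = 0`) of size `<= (1+log n)/n`, `n > 2^(a-1)`: for `a >= 1`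
the sum of `1/n` over `(2^(a-1), 2^a]` is `<= 1`, the logarithm is `<= a log 2`; for `a = 0` the value at `n = 1` is
`<= 1`.
(2) `N = 2^a/2 = 2^(a-1)`, `N' = 2N`; `N >= exp((log X)^0.98)/2 >= exp((log X)^0.97)`.
`i < 3`: `LF.mu_sum`. `i = 4,5`: `LF.smf` with `A`. `i = 3`: partial summation with the increasing factor
`log n <= log 2N <= 2 log X`: `‖Σ χ(n) log n n^(-1-it)‖ <= 2 log(2N) max_u ‖Σ_{N<n<=u} χ(n) n^(-1-it)‖`, and
`LF.smf` with `A+2` (it needs `|t| >= (log X)^(A+3)`): `<= 4 log X (log X)^(-A-2) <= (log X)^(-A)`.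
-/

set_option autoImplicit false

namespace Pool.Agent.H43.SI

open Finset

theorem pw_cf {q : ℕ} (χ : DirichletCharacter ℂ q) (i : Fin 6) (n a : ℕ) (hn : 1 ≤ n)
    (hna : n ≤ 2 ^ a) : ‖cf χ i n‖ ≤ 1 + a := by
  have ha : (0 : ℝ) ≤ a := Nat.cast_nonneg a
  have h1 : ‖χ n‖ ≤ 1 := χ.norm_le_one _
  unfold cf
  split_ifs
  · have h2 : ‖((ArithmeticFunction.moebius n : ℤ) : ℂ)‖ ≤ 1 := by
      rw [Complex.norm_intCast]
      have := ArithmeticFunction.abs_moebius_le_one (n := n)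
      exact_mod_cast this
    rw [norm_mul]
    calc _ ≤ (1 : ℝ) * 1 := mul_le_mul h2 h1 (norm_nonneg _) zero_le_one
      _ ≤ 1 + a := by linarith
  · have h3 : 0 ≤ Real.log n := Real.log_natCast_nonneg n
    have h4 : Real.log n ≤ a := by
      have hn0 : (0 : ℝ) < n := by exact_mod_cast hn
      have h5 : Real.log n ≤ Real.log ((2 : ℝ) ^ a) := Real.log_le_log hn0 (by exact_mod_cast hna)
      rw [Real.log_pow] at h5
      have h6 : Real.log 2 ≤ 1 := by
        have := Real.log_two_lt_d9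
        linarith
      nlinarith
    rw [norm_mul, Complex.norm_real, Real.norm_of_nonneg h3]
    calc _ ≤ 1 * (a : ℝ) := mul_le_mul h1 h4 h3 zero_le_one
      _ ≤ 1 + a := by linarith
  · linarith

theorem pw_triv {q : ℕ} (χ : DirichletCharacter ℂ q) (i : Fin 6) (a : ℕ) (t : ℝ) :
    ‖pol (cf χ i) a t‖ ≤ 1 + a := by
  unfold pol LF.ds
  have hpos : 0 < 2 ^ a := by positivity
  set M : ℕ := max 1 (2 ^ a / 2) with hM
  have hM0 : (0 : ℝ) < M := by
    have : 0 < M := by omega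
    exact_mod_cast this
  have ha : (0 : ℝ) ≤ a := Nat.cast_nonneg a
  have h1 : ∀ n ∈ Ioc (2 ^ a / 2) (2 ^ a),
      ‖cf χ i n * (n : ℂ) ^ (-(1 + (t : ℂ) * Complex.I))‖ ≤ (1 + a) * (1 / M) := by
    intro n hn
    rw [mem_Ioc] at hn
    have hn1 : 1 ≤ n := by omega
    have hMn : (M : ℝ) ≤ n := by
      have : M ≤ n := by omega
      exact_mod_cast this
    rw [norm_mul, Complex.norm_natCast_cpow_of_pos (by omega)]
    have h2 : (-(1 + (t : ℂ) * Complex.I)).re = -1 := by simp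
    rw [h2, Real.rpow_neg_one, ← one_div]
    exact mul_le_mul (pw_cf χ i n a hn1 hn.2) (one_div_le_one_div_of_le hM0 hMn) (by positivity)
      (by positivity)
  refine ((norm_sum_le _ _).trans (Finset.sum_le_card_nsmul _ _ _ h1)).trans ?_
  rw [nsmul_eq_mul, Nat.card_Ioc]
  have h3 : ((2 ^ a - 2 ^ a / 2 : ℕ) : ℝ) ≤ M := by
    have h4 : 2 ^ a - 2 ^ a / 2 ≤ M := by
      rcases Nat.eq_zero_or_pos a with h0 | h0
      · subst h0
        norm_num at hM ⊢
        omega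
      · obtain ⟨b, rfl⟩ : ∃ b, a = b + 1 := ⟨a - 1, by omega⟩
        rw [pow_succ] at hM ⊢
        omega
    exact_mod_cast h4
  have h5 : ((2 ^ a - 2 ^ a / 2 : ℕ) : ℝ) * (1 / M) ≤ 1 := by
    rw [mul_one_div, div_le_one hM0]
    exact h3
  calc ((2 ^ a - 2 ^ a / 2 : ℕ) : ℝ) * ((1 + a) * (1 / M))
      = (1 + a) * (((2 ^ a - 2 ^ a / 2 : ℕ) : ℝ) * (1 / M)) := by ring
    _ ≤ (1 + a) * 1 := mul_le_mul_of_nonneg_left h5 (by positivity)
    _ = 1 + a := mul_one _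

/-- partial summation with the factor `log n` -/
theorem pw_log (a : ℕ → ℂ) (N N' : ℕ) (hNN : N + 1 ≤ N') (B : ℝ)
    (h : ∀ K ≤ N', ‖∑ n ∈ Ioc N K, a n‖ ≤ B) :
    ‖∑ n ∈ Ioc N N', ((Real.log n : ℝ) : ℂ) * a n‖ ≤ 2 * Real.log N' * B := by
  have hB : 0 ≤ B := (norm_nonneg _).trans (h 0 (Nat.zero_le _))
  have hN'1 : (1 : ℝ) ≤ N' := by exact_mod_cast (by omega : 1 ≤ N')
  have hlog : 0 ≤ Real.log N' := Real.log_nonneg hN'1
  set w : ℕ → ℝ := fun n => max 0 (Real.log N' - Real.log n) with hw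
  have h1 : ∀ n ∈ Ioc N N', ((Real.log n : ℝ) : ℂ) * a n =
      ((Real.log N' : ℝ) : ℂ) * a n - (w n : ℂ) * a n := by
    intro n hn
    rw [mem_Ioc] at hn
    have hn0 : (0 : ℝ) < n := by exact_mod_cast (by omega : 0 < n)
    have h2 : Real.log n ≤ Real.log N' := Real.log_le_log hn0 (by exact_mod_cast hn.2)
    have h3 : w n = Real.log N' - Real.log n := max_eq_right (by linarith)
    rw [h3]
    push_cast
    ring
  rw [Finset.sum_congr rfl h1, Finset.sum_sub_distrib, ← Finset.mul_sum]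
  refine (norm_sub_le _ _).trans ?_
  have h4 : ‖((Real.log N' : ℝ) : ℂ) * ∑ n ∈ Ioc N N', a n‖ ≤ Real.log N' * B := by
    rw [norm_mul, Complex.norm_real, Real.norm_of_nonneg hlog]
    exact mul_le_mul_of_nonneg_left (h N' le_rfl) hlog
  have h5 := LF.cls_abel a w ?_ (fun n => le_max_left _ _) N N' B h
  · have h6 : w (N + 1) ≤ Real.log N' := by
      refine max_le hlog ?_
      have : 0 ≤ Real.log ((N + 1 : ℕ) : ℝ) := Real.log_natCast_nonneg _
      linarith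
    have h7 := mul_le_mul_of_nonneg_right h6 hB
    linarith
  · intro n
    refine max_le_max le_rfl ?_
    rcases Nat.eq_zero_or_pos n with h0 | h0
    · subst h0
      simp
    · have hn0 : (0 : ℝ) < n := by exact_mod_cast h0
      have : Real.log n ≤ Real.log ((n + 1 : ℕ) : ℝ) :=
        Real.log_le_log hn0 (by push_cast; linarith)
      linarith

theorem pw (q : ℕ) [NeZero q] (A : ℝ) (hA : 0 < A) : ∃ X0 : ℝ, 10 ≤ X0 ∧
    ∀ (χ : DirichletCharacter ℂ q) (X : ℝ), X0 ≤ X → ∀ (i : Fin 6) (a : ℕ) (t : ℝ),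
    Real.exp ((Real.log X) ^ (0.98 : ℝ)) ≤ 2 ^ a → (2 : ℝ) ^ a ≤ X →
    (Real.log X) ^ (A + 3) ≤ |t| → |t| ≤ X →
    ‖pol (cf χ i) a t‖ ≤ (Real.log X) ^ (-A) := by
  obtain ⟨X1, hX1, h1⟩ := LF.mu_sum q A hA
  obtain ⟨X2, hX2, h2⟩ := LF.smf q A hA
  obtain ⟨X3, hX3, h3⟩ := LF.smf q (A + 2) (by linarith)
  refine ⟨max X1 (max X2 (max X3 (Real.exp ((2 : ℝ) ^ (100 : ℕ))))), hX1.trans (le_max_left _ _), ?_⟩
  intro χ X hX i a t ha1 ha2 ht1 ht2
  have hXX1 : X1 ≤ X := (le_max_left _ _).trans hX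
  have hXX2 : X2 ≤ X := ((le_max_left _ _).trans (le_max_right _ _)).trans hX
  have hXX3 : X3 ≤ X :=
    (((le_max_left _ _).trans (le_max_right _ _)).trans (le_max_right _ _)).trans hX
  have hXX4 : Real.exp ((2 : ℝ) ^ (100 : ℕ)) ≤ X :=
    (((le_max_right _ _).trans (le_max_right _ _)).trans (le_max_right _ _)).trans hX
  have hX0 : 0 < X := by linarith
  set L := Real.log X with hL
  have hL100 : (2 : ℝ) ^ (100 : ℕ) ≤ L := (Real.le_log_iff_exp_le hX0).2 hXX4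
  have hL2 : (2 : ℝ) ≤ L := le_trans (by norm_num) hL100
  have hL1 : (1 : ℝ) ≤ L := by linarith
  have hL0 : (0 : ℝ) < L := by linarith
  have hL97 : (1 : ℝ) ≤ L ^ (0.97 : ℝ) := Real.one_le_rpow hL1 (by norm_num)
  have hL98 : L ^ (0.97 : ℝ) + Real.log 2 ≤ L ^ (0.98 : ℝ) := by
    have e1 : L ^ (0.98 : ℝ) = L ^ (0.97 : ℝ) * L ^ (0.01 : ℝ) := by
      rw [← Real.rpow_add hL0]
      norm_num
    have e2 : (2 : ℝ) ≤ L ^ (0.01 : ℝ) := by
      have e3 : (2 : ℝ) = ((2 : ℝ) ^ (100 : ℕ)) ^ (0.01 : ℝ) := by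
        rw [← Real.rpow_natCast, ← Real.rpow_mul (by norm_num)]
        norm_num
      rw [e3]
      exact Real.rpow_le_rpow (by positivity) hL100 (by norm_num)
    have e4 : Real.log 2 ≤ 1 := by
      have := Real.log_two_lt_d9
      linarith
    rw [e1]
    nlinarith
  have hexp : 2 * Real.exp (L ^ (0.97 : ℝ)) ≤ 2 ^ a := by
    refine le_trans ?_ ha1
    have e1 : 2 * Real.exp (L ^ (0.97 : ℝ)) = Real.exp (L ^ (0.97 : ℝ) + Real.log 2) := by
      rw [Real.exp_add, Real.exp_log (by norm_num)]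
      ring
    rw [e1]
    exact Real.exp_le_exp.2 hL98
  have hapos : 1 ≤ a := by
    by_contra hcon
    have h0 : a = 0 := by omega
    subst h0
    have := Real.add_one_le_exp (L ^ (0.97 : ℝ))
    norm_num at hexp
    linarith
  obtain ⟨b, rfl⟩ : ∃ b, a = b + 1 := ⟨a - 1, by omega⟩
  have hdiv : 2 ^ (b + 1) / 2 = 2 ^ b := by
    rw [pow_succ]
    omega
  have hN1 : Real.exp (L ^ (0.97 : ℝ)) ≤ ((2 ^ b : ℕ) : ℝ) := by
    rw [pow_succ] at hexp
    push_cast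
    linarith
  have hb0 : (0 : ℝ) < 2 ^ b := by positivity
  have hN2 : ((2 ^ b : ℕ) : ℝ) ≤ X := by
    rw [pow_succ] at ha2
    push_cast
    linarith
  have hN3 : 2 ^ (b + 1) ≤ 2 * 2 ^ b := by
    rw [pow_succ]
    omega
  have hlow : ∀ c : ℝ, c ≤ A + 3 → L ^ c ≤ |t| := fun c hc =>
    (Real.rpow_le_rpow_of_exponent_le hL1 hc).trans ht1
  unfold pol
  rw [hdiv]
  by_cases hi3 : (i : ℕ) < 3
  · have e1 : cf χ i = fun n : ℕ => ((ArithmeticFunction.moebius n : ℤ) : ℂ) * χ n := by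
      funext n
      unfold cf
      rw [if_pos hi3]
    rw [e1]
    exact h1 χ X hXX1 _ _ t hN1 hN2 hN3 ht2
  · by_cases hi4 : (i : ℕ) = 3
    · have e1 : LF.ds (cf χ i) (2 ^ b) (2 ^ (b + 1)) t = ∑ n ∈ Ioc ((2 : ℕ) ^ b) ((2 : ℕ) ^ (b + 1)),
          ((Real.log n : ℝ) : ℂ) * (χ n * (n : ℂ) ^ (-(1 + (t : ℂ) * Complex.I))) := by
        unfold LF.ds
        refine Finset.sum_congr rfl fun n _ => ?_
        unfold cf
        rw [if_neg hi3, if_pos hi4]
        ring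
      rw [e1]
      have h4 := pw_log (fun n : ℕ => χ n * (n : ℂ) ^ (-(1 + (t : ℂ) * Complex.I))) (2 ^ b)
        (2 ^ (b + 1)) (by rw [pow_succ]; have : 0 < 2 ^ b := by positivity
                          omega) (L ^ (-(A + 2))) (by
          intro K hK
          exact h3 χ X hXX3 (2 ^ b) K t hN1 hN2 (hK.trans hN3) (hlow _ (by linarith)) ht2)
      refine h4.trans ?_
      have h5 : Real.log ((2 ^ (b + 1) : ℕ) : ℝ) ≤ L := by
        refine Real.log_le_log (by positivity) ?_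
        push_cast
        exact ha2
      have h6 : 0 < L ^ (-(A + 2)) := by positivity
      have h7 : L ^ (-A) = L ^ (-(A + 2)) * L ^ (2 : ℝ) := by
        rw [← Real.rpow_add hL0]
        congr 1
        ring
      rw [h7, Real.rpow_two]
      have h8 : 2 * Real.log ((2 ^ (b + 1) : ℕ) : ℝ) ≤ L ^ 2 := by nlinarith
      calc 2 * Real.log ((2 ^ (b + 1) : ℕ) : ℝ) * L ^ (-(A + 2))
          ≤ L ^ 2 * L ^ (-(A + 2)) := mul_le_mul_of_nonneg_right h8 h6.le
        _ = L ^ (-(A + 2)) * L ^ 2 := mul_comm _ _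
    · have e1 : cf χ i = fun n : ℕ => χ n := by
        funext n
        unfold cf
        rw [if_neg hi3, if_neg hi4]
      rw [e1]
      exact h2 χ X hXX2 _ _ t hN1 hN2 hN3 (hlow _ (by linarith)) ht2

end Pool.Agent.H43.SI
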