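import Pool.Agent.H43.SI.Mvp
import Pool.Agent.H43.SI.Pw

/-!
# [H43 SI ME1] Main estimate if one factor has medium length

`0 < ε < 1/3`, `A > 0`. There are `A0, X0` such that for `X >= X0`, a box `e` with
`X <= 2^S <= 2^9 X` (`S = Σ e_i`) and an index `i` with
`exp((log X)^0.98) <= 2^(e_i) <= X^(1/3+ε/2)`:
`∫_{(log X)^A0 <= |t| <= X^(2/3-ε)} ‖bp χ e t‖^2 dt <= (log X)^(-A)`.

PROOF. `C, B` from `mvp`. `pw` with `A' = A + B + 1` (`A0 = A' + 3`): `‖pol (cf χ i) (e i) t‖ <= (log X)^(-A')` on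
the range of integration. The other five factors: `mvp` with `s = univ.erase i`, `T = X^(2/3-ε)`,
`2^(S-e_i) >= X/X^(1/3+ε/2) = X^(2/3-ε/2) >= T`: the integral of their product squared is at most
`C (1+S)^B * 2`, `S <= 2 log X + 20 <= 3 log X`. Product:
`2 C 4^B (log X)^B (log X)^(-2A') <= (log X)^(-A)`. (The set of integration is contained in `[-T,T]`;
use `setIntegral_mono_set` and continuity for integrability.) Take `X0` uniform in `i`.
-/

namespace Pool.Agent.H43.SI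

open Finset MeasureTheory

theorem me1_cont (c : ℕ → ℂ) (a : ℕ) : Continuous (pol c a) := by
  unfold pol LF.ds
  refine continuous_finsetSum _ fun n _ => ?_
  refine continuous_const.mul ?_
  refine Continuous.const_cpow (by fun_prop) (Or.inr fun t h => ?_)
  have := congrArg Complex.re h
  simp at this

theorem me1 (q : ℕ) [NeZero q] (ε A : ℝ) (hε : 0 < ε) (hε1 : ε < 1 / 3) (hA : 0 < A) :
    ∃ A0 X0 : ℝ, 0 < A0 ∧ 10 ≤ X0 ∧ ∀ (χ : DirichletCharacter ℂ q) (X : ℝ), X0 ≤ X →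
    ∀ (e : Fin 6 → ℕ), X ≤ 2 ^ (∑ i, e i) → (2 : ℝ) ^ (∑ i, e i) ≤ 2 ^ 9 * X →
    (∃ i, Real.exp ((Real.log X) ^ (0.98 : ℝ)) ≤ 2 ^ (e i) ∧
      (2 : ℝ) ^ (e i) ≤ X ^ (1 / 3 + ε / 2)) →
    ∫ t in {t : ℝ | (Real.log X) ^ A0 ≤ |t| ∧ |t| ≤ X ^ (2 / 3 - ε)}, ‖bp χ e t‖ ^ 2 ≤
      (Real.log X) ^ (-A) := by
  obtain ⟨C, hC, B, hmvp⟩ := mvp
  obtain ⟨X1, hX1, hpw⟩ := pw q (A + B + 1) (by positivity)
  refine ⟨A + B + 1 + 3, max X1 (Real.exp (max 10 (2 * C * 3 ^ B))), by positivity,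
    hX1.trans (le_max_left _ _), ?_⟩
  intro χ X hX e hXS hSX hi
  obtain ⟨i, hi1, hi2⟩ := hi
  have hXX1 : X1 ≤ X := (le_max_left _ _).trans hX
  have hX0 : 0 < X := by linarith
  have hX1' : 1 ≤ X := by linarith
  set L := Real.log X with hL
  have hLM : max 10 (2 * C * 3 ^ B) ≤ L :=
    (Real.le_log_iff_exp_le hX0).2 ((le_max_right _ _).trans hX)
  have hL10 : 10 ≤ L := (le_max_left _ _).trans hLM
  have hLC : 2 * C * 3 ^ B ≤ L := (le_max_right _ _).trans hLM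
  have hL0 : 0 < L := by linarith
  have hL1 : 1 ≤ L := by linarith
  set T : ℝ := X ^ (2 / 3 - ε) with hT
  have hT1 : 1 ≤ T := Real.one_le_rpow hX1' (by linarith)
  have hTX : T ≤ X := by
    have := Real.rpow_le_rpow_of_exponent_le hX1' (show 2 / 3 - ε ≤ 1 by linarith)
    rwa [Real.rpow_one] at this
  have heX : (2 : ℝ) ^ (e i) ≤ X := by
    refine hi2.trans ?_
    have := Real.rpow_le_rpow_of_exponent_le hX1' (show 1 / 3 + ε / 2 ≤ 1 by linarith)
    rwa [Real.rpow_one] at this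
  set g : ℝ → ℝ := fun t => ‖∏ j ∈ univ.erase i, pol (cf χ j) (e j) t‖ ^ 2 with hg
  have hgc : Continuous g := by
    refine (Continuous.norm ?_).pow 2
    exact continuous_finsetProd _ fun j _ => me1_cont _ _
  have hbc : Continuous (fun t => ‖bp χ e t‖ ^ 2) := by
    refine (Continuous.norm ?_).pow 2
    unfold bp
    exact continuous_finsetProd _ fun j _ => me1_cont _ _
  set R : Set ℝ := {t : ℝ | L ^ (A + B + 1 + 3) ≤ |t| ∧ |t| ≤ T} with hR
  have hRm : MeasurableSet R := by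
    have h1 : IsClosed R :=
      (isClosed_le continuous_const continuous_abs).inter (isClosed_le continuous_abs continuous_const)
    exact h1.measurableSet
  have hRsub : R ⊆ Set.Icc (-T) T := fun t ht => abs_le.1 ht.2
  have hgi : IntegrableOn g (Set.Icc (-T) T) := hgc.integrableOn_Icc
  have hbi : IntegrableOn (fun t => ‖bp χ e t‖ ^ 2) (Set.Icc (-T) T) := hbc.integrableOn_Icc
  set c : ℝ := (L ^ (-(A + B + 1))) ^ 2 with hc
  have hc0 : 0 ≤ c := by positivity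
  have hpt : ∀ t ∈ R, ‖bp χ e t‖ ^ 2 ≤ c * g t := by
    intro t ht
    have h1 := hpw χ X hXX1 i (e i) t hi1 heX ht.1 (ht.2.trans hTX)
    have h2 : bp χ e t = pol (cf χ i) (e i) t * ∏ j ∈ univ.erase i, pol (cf χ j) (e j) t := by
      unfold bp
      rw [Finset.mul_prod_erase univ (fun j => pol (cf χ j) (e j) t) (mem_univ i)]
    rw [h2, norm_mul, mul_pow]
    exact mul_le_mul_of_nonneg_right (pow_le_pow_left₀ (norm_nonneg _) h1 2) (by positivity)
  have h1 : ∫ t in R, ‖bp χ e t‖ ^ 2 ≤ ∫ t in R, c * g t :=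
    setIntegral_mono_on (hbi.mono_set hRsub) ((hgi.mono_set hRsub).const_mul c) hRm hpt
  have h2 : ∫ t in R, c * g t = c * ∫ t in R, g t := integral_const_mul c _
  have h3 : ∫ t in R, g t ≤ ∫ t in Set.Icc (-T) T, g t :=
    setIntegral_mono_set hgi (Filter.Eventually.of_forall fun t => by positivity)
      (Filter.Eventually.of_forall hRsub)
  have h4 : ∫ t in Set.Icc (-T) T, g t = ∫ t in (-T)..T, g t := by
    rw [integral_Icc_eq_integral_Ioc, intervalIntegral.integral_of_le (by linarith)]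
  have h5 := hmvp q χ e (univ.erase i) T hT1
  have hS : ∑ j ∈ univ.erase i, e j + e i = ∑ j, e j := Finset.sum_erase_add univ e (mem_univ i)
  set S' : ℕ := ∑ j ∈ univ.erase i, e j with hS'
  have h6 : T / 2 ^ S' ≤ 1 := by
    rw [div_le_one (by positivity)]
    have h7 : X ≤ 2 ^ S' * X ^ (1 / 3 + ε / 2) := by
      refine hXS.trans ?_
      rw [← hS, pow_add]
      exact mul_le_mul_of_nonneg_left hi2 (by positivity)
    have h8 : T * X ^ (1 / 3 + ε / 2) ≤ X := by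
      rw [hT, ← Real.rpow_add hX0]
      have := Real.rpow_le_rpow_of_exponent_le hX1' (show 2 / 3 - ε + (1 / 3 + ε / 2) ≤ 1 by linarith)
      rwa [Real.rpow_one] at this
    exact le_of_mul_le_mul_right (h8.trans h7) (by positivity)
  have h9 : (1 + (S' : ℝ)) ≤ 3 * L := by
    have h10 : (S' : ℝ) ≤ ((∑ j, e j : ℕ) : ℝ) := by
      exact_mod_cast (by omega : S' ≤ ∑ j, e j)
    have h11 : ((∑ j, e j : ℕ) : ℝ) * Real.log 2 ≤ 9 * Real.log 2 + L := by
      have h12 := Real.log_le_log (by positivity) hSX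
      rw [Real.log_mul (by positivity) hX0.ne', Real.log_pow, Real.log_pow] at h12
      push_cast at h12 ⊢
      exact h12
    have h13 : (0.69 : ℝ) < Real.log 2 := by
      have := Real.log_two_gt_d9
      linarith
    have h14 : Real.log 2 < 0.7 := by
      have := Real.log_two_lt_d9
      linarith
    have h15 : (0 : ℝ) ≤ ((∑ j, e j : ℕ) : ℝ) := Nat.cast_nonneg _
    nlinarith
  have h16 : (1 + (S' : ℝ)) ^ B ≤ (3 * L) ^ B := pow_le_pow_left₀ (by positivity) h9 B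
  have h17 : C * (1 + (S' : ℝ)) ^ B * (T / 2 ^ S' + 1) ≤ C * (3 * L) ^ B * 2 :=
    mul_le_mul (mul_le_mul_of_nonneg_left h16 hC.le) (by linarith) (by positivity) (by positivity)
  have h18 : c * (C * (3 * L) ^ B * 2) ≤ L ^ (-A) := by
    have e1 : c = L ^ (-A) * (L ^ (-(A + 1) + -1) * L ^ (-(B : ℝ)) * L ^ (-(B : ℝ))) := by
      rw [hc, ← Real.rpow_natCast, ← Real.rpow_mul hL0.le, ← Real.rpow_add hL0,
        ← Real.rpow_add hL0, ← Real.rpow_add hL0]
      congr 1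
      push_cast
      ring
    have e2 : (3 * L) ^ B = 3 ^ B * L ^ (B : ℝ) := by
      rw [mul_pow, Real.rpow_natCast]
    have e3 : L ^ (-(B : ℝ)) * L ^ (B : ℝ) = 1 := by
      rw [← Real.rpow_add hL0]
      simp
    have e4 : L ^ (-(B : ℝ)) ≤ 1 := by
      exact Real.rpow_le_one_of_one_le_of_nonpos hL1 (by simp)
    have e5 : L ^ (-(A + 1) + -1) ≤ L ^ (-1 : ℝ) :=
      Real.rpow_le_rpow_of_exponent_le hL1 (by linarith)
    have e6 : L ^ (-1 : ℝ) * L = 1 := by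
      rw [Real.rpow_neg_one, inv_mul_cancel₀ hL0.ne']
    have hLA : 0 < L ^ (-A) := by positivity
    have hx1 : 0 < L ^ (-(A + 1) + -1) := by positivity
    have hx2 : 0 < L ^ (-(B : ℝ)) := by positivity
    rw [e1, e2]
    have e7 : L ^ (-A) * (L ^ (-(A + 1) + -1) * L ^ (-(B : ℝ)) * L ^ (-(B : ℝ))) *
        (C * (3 ^ B * L ^ (B : ℝ)) * 2) =
        L ^ (-A) * ((L ^ (-(A + 1) + -1) * (2 * C * 3 ^ B)) * L ^ (-(B : ℝ)) *
          (L ^ (-(B : ℝ)) * L ^ (B : ℝ))) := by ring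
    rw [e7, e3, mul_one]
    have e8 : L ^ (-(A + 1) + -1) * (2 * C * 3 ^ B) ≤ 1 := by
      exact (mul_le_mul e5 hLC (by positivity) (by positivity)).trans e6.le
    have e9 : L ^ (-(A + 1) + -1) * (2 * C * 3 ^ B) * L ^ (-(B : ℝ)) ≤ 1 * 1 :=
      mul_le_mul e8 e4 hx2.le zero_le_one
    calc L ^ (-A) * (L ^ (-(A + 1) + -1) * (2 * C * 3 ^ B) * L ^ (-(B : ℝ)))
        ≤ L ^ (-A) * (1 * 1) := mul_le_mul_of_nonneg_left e9 hLA.le
      _ = L ^ (-A) := by ring
  calc ∫ t in R, ‖bp χ e t‖ ^ 2 ≤ c * ∫ t in R, g t := h1.trans h2.le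
    _ ≤ c * ∫ t in (-T)..T, g t := mul_le_mul_of_nonneg_left (h3.trans h4.le) hc0
    _ ≤ c * (C * (1 + (S' : ℝ)) ^ B * (T / 2 ^ S' + 1)) := mul_le_mul_of_nonneg_left h5 hc0
    _ ≤ c * (C * (3 * L) ^ B * 2) := mul_le_mul_of_nonneg_left h17 hc0
    _ ≤ L ^ (-A) := h18

end Pool.Agent.H43.SI
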