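import Pool.Agent.H43.SI.Add
import Pool.Agent.H5.Short.Second

/-!
# [H43 SI PRI] Primes `n + jW`, `j < J`, for almost all `n`

`W >= 1`, `1/3 < κ < 1`, `η > 0`, `J = ⌊X^κ⌋`. For `X` large:
`Σ_{1<=n<=2X} (#{j < J : n+jW prime} - 1[(n,W)=1] J W/(φ(W) log X))^2 <= η X (J/log X)^2`.

PROOF. Let `η' > 0` be small and `K` with `2^(-K) <= η'`.
(a) `n <= 2^(1-K) X =: Y0`: `#{j<J : n+jW prime} <= pc n (JW) + 1` (primes of `[n, n+JW)`), and
`H5.Short.second` (with `X := ⌈Y0⌉`, `m := JW`) gives `Σ_{n<=Y0} (..)^2 <= C_W Y0 (J/log X)^2` for `X` large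
(`log Y0 >= (1/2) log X`, `J/log X -> ∞`); the main terms squared sum to `<= C_W Y0 (J/log X)^2` too.
Choose `η'` so small that this is `<= (η/2) X (J/log X)^2`.
(b) `n ∈ (Y,2Y]`, `Y = 2^(-k) X`, `k = 0..K-1` (integers: `⌊Y⌋ < n <= ⌊2Y⌋`). If `(n,W) > 1`: `n + jW` is divisible by
`(n,W)`, so it is prime only if `n + jW <= W`, impossible for `n > W`: the count is `0`. If `(n,W) = 1`, `a = n mod W`:
`#{j<J : n+jW prime} = #{p prime : n <= p < n+JW, p ≡ a}` `= #{p prime : n-1 < p <= n-1+JW, p ≡ a}`. Let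
`H = JW`, `Th = th W a (n-1) H`. `Th` differs from `Σ log p` by the prime powers `p^r`, `r >= 2`, in the interval, and
`log p = log X + O(K+1)` for `p ∈ (Y/2, 3Y]`, so
`|log X * # - Th| <= (K+2) * # + PP(n)`, where `PP(n)` is the sum of `Λ` over the proper prime powers of the
interval. `Σ_{n<=2X} PP(n)^2 <= H^2 Σ_{m <= 3X, m=p^r, r>=2} log^2 m * ... <= C H^2 sqrt X log^3 X` (each `m` lies in at
most `H` intervals, `PP(n)^2 <= H Σ_m Λ(m)^2`). With `add` (`q = W`, `ε` with `1/3+3ε < κ < 1-2ε`, `ε < 1/12`,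
applied at `X := Y`, `H = JW` is in the admissible range for `X` large; sum over all units `a`; shift `n -> n-1`
costs one boundary term per dyadic interval, `<= C H^2`): the sum over `n` of
`(Th - JW/φ(W))^2` is `<= η'' X H^2`. Also `Σ #^2 <= C X (J/log X)^2` (`second` again), so the term `(K+2)#/log X`
contributes `<= C (K+2)^2 X (J/log X)^2/log^2 X`. Divide by `log X`.
-/

namespace Pool.Agent.H43.SI

open Finset


/-- number of primes `n + jW`, `j < J` -/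
noncomputable def prC (W J n : ℕ) : ℝ :=
  (((range J).filter (fun j => (n + j * W).Prime)).card : ℝ)

/-- sum of `Λ(n + jW)` over `j < J` with `n + jW` not prime -/
noncomputable def prQ (W J n : ℕ) : ℝ :=
  ∑ j ∈ (range J).filter (fun j => ¬ (n + j * W).Prime), ArithmeticFunction.vonMangoldt (n + j * W)

lemma pri_le_pc {W n : ℕ} (J : ℕ) (hW : 1 ≤ W) (hn : 1 ≤ n) :
    prC W J n ≤ (Pool.Agent.H5.Short.pc (n - 1) (J * W) : ℝ) := by
  unfold prC Pool.Agent.H5.Short.pc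
  norm_cast
  apply card_le_card_of_injOn (fun j => n + j * W)
  · intro j hj
    simp only [coe_filter, mem_range, Set.mem_setOf_eq] at hj
    simp only [coe_filter, mem_Ioc, Set.mem_setOf_eq]
    have h1 : (j + 1) * W ≤ J * W := Nat.mul_le_mul_right _ hj.1
    rw [Nat.succ_mul] at h1
    exact ⟨⟨by omega, by omega⟩, hj.2⟩
  · intro a _ b _ h
    simp only at h
    have h1 : a * W = b * W := by omega
    exact Nat.eq_of_mul_eq_mul_right hW h1

lemma pri_nc {W n : ℕ} (J : ℕ) (hW : 1 ≤ W) (hn : W < n) (hc : ¬ n.Coprime W) :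
    prC W J n = 0 := by
  unfold prC
  have h0 : (range J).filter (fun j => (n + j * W).Prime) = ∅ := by
    rw [Finset.filter_eq_empty_iff]
    intro j _ hp
    have hg1 : Nat.gcd n W ∣ n + j * W :=
      (Nat.gcd_dvd_left n W).add ((Nat.gcd_dvd_right n W).mul_left j)
    rcases (Nat.dvd_prime hp).1 hg1 with h | h
    · exact hc h
    · have h2 : Nat.gcd n W ≤ W := Nat.gcd_le_right _ hW
      omega
  rw [h0]; simp

lemma pri_th {W n : ℕ} (J : ℕ) (hW : 1 ≤ W) (hn : 1 ≤ n) :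
    th W (n : ZMod W) (n - 1) (J * W) =
      ∑ j ∈ range J, ArithmeticFunction.vonMangoldt (n + j * W) := by
  unfold th
  have himg : (Ioc (n - 1) (n - 1 + J * W)).filter (fun m : ℕ => (m : ZMod W) = (n : ZMod W)) =
      (range J).image (fun j => n + j * W) := by
    ext m
    simp only [mem_filter, mem_Ioc, mem_image, mem_range]
    constructor
    · rintro ⟨⟨h1, h2⟩, h3⟩
      have h4 : n ≤ m := by omega
      have h5 : W ∣ m - n := (Nat.modEq_iff_dvd' h4).1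
        ((ZMod.natCast_eq_natCast_iff _ _ _).1 h3.symm)
      obtain ⟨k, hk⟩ := h5
      refine ⟨k, ?_, by rw [mul_comm k W]; omega⟩
      by_contra hcon
      have h6 : J * W ≤ k * W := Nat.mul_le_mul_right _ (not_lt.1 hcon)
      rw [mul_comm k W] at h6
      omega
    · rintro ⟨j, hj, rfl⟩
      have h1 : (j + 1) * W ≤ J * W := Nat.mul_le_mul_right _ hj
      rw [Nat.succ_mul] at h1
      exact ⟨⟨by omega, by omega⟩, by simp⟩
  rw [himg, Finset.sum_image]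
  intro a _ b _ h
  simp only at h
  have h1 : a * W = b * W := by omega
  exact Nat.eq_of_mul_eq_mul_right hW h1

lemma pri_cmp {W J n : ℕ} {L B : ℝ} (hB : ∀ j < J, |L - Real.log ((n + j * W : ℕ) : ℝ)| ≤ B) :
    |L * prC W J n - ∑ j ∈ range J, ArithmeticFunction.vonMangoldt (n + j * W)| ≤
      B * prC W J n + prQ W J n := by
  have h1 : ∑ j ∈ range J, ArithmeticFunction.vonMangoldt (n + j * W) =
      (∑ j ∈ (range J).filter (fun j => (n + j * W).Prime), Real.log ((n + j * W : ℕ) : ℝ)) +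
      prQ W J n := by
    rw [← Finset.sum_filter_add_sum_filter_not (range J) (fun j => (n + j * W).Prime)]
    congr 1
    refine Finset.sum_congr rfl fun j hj => ?_
    rw [mem_filter] at hj
    exact ArithmeticFunction.vonMangoldt_apply_prime hj.2
  have h2 : L * prC W J n = ∑ j ∈ (range J).filter (fun j => (n + j * W).Prime), L := by
    unfold prC
    rw [Finset.sum_const, nsmul_eq_mul, mul_comm]
  have h3 : B * prC W J n = ∑ j ∈ (range J).filter (fun j => (n + j * W).Prime), B := by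
    unfold prC
    rw [Finset.sum_const, nsmul_eq_mul, mul_comm]
  have hQ : 0 ≤ prQ W J n := Finset.sum_nonneg fun _ _ => ArithmeticFunction.vonMangoldt_nonneg
  rw [h1, h2, h3]
  have h4 : |(∑ j ∈ (range J).filter (fun j => (n + j * W).Prime), L) -
      ∑ j ∈ (range J).filter (fun j => (n + j * W).Prime), Real.log ((n + j * W : ℕ) : ℝ)| ≤
      ∑ j ∈ (range J).filter (fun j => (n + j * W).Prime), B := by
    rw [← Finset.sum_sub_distrib]
    refine (Finset.abs_sum_le_sum_abs _ _).trans (Finset.sum_le_sum fun j hj => ?_)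
    rw [mem_filter, mem_range] at hj
    exact hB j hj.1
  rw [abs_le] at h4 ⊢
  constructor <;> linarith [h4.1, h4.2]

lemma pri_pp {W : ℕ} (J N M : ℕ) (hM : N + J * W ≤ M) (hM1 : 1 ≤ M) :
    ∑ n ∈ Ioc 0 N, prQ W J n ^ 2 ≤
      (J : ℝ) ^ 2 * (Real.log M * (2 * Real.sqrt M * Real.log M)) := by
  set a : ℕ → ℝ := fun m => if m.Prime then 0 else ArithmeticFunction.vonMangoldt m with ha
  have ha0 : ∀ m, 0 ≤ a m := by
    intro m
    simp only [ha]
    split_ifs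
    · exact le_rfl
    · exact ArithmeticFunction.vonMangoldt_nonneg
  have hlM : 0 ≤ Real.log M := Real.log_nonneg (by exact_mod_cast hM1)
  have hsq : ∑ m ∈ Ioc 0 M, a m ^ 2 ≤ Real.log M * (2 * Real.sqrt M * Real.log M) := by
    calc ∑ m ∈ Ioc 0 M, a m ^ 2 ≤ ∑ m ∈ Ioc 0 M, Real.log M * a m := by
          refine Finset.sum_le_sum fun m hm => ?_
          rw [mem_Ioc] at hm
          rw [sq]
          refine mul_le_mul_of_nonneg_right ?_ (ha0 m)
          simp only [ha]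
          split_ifs
          · exact hlM
          · refine ArithmeticFunction.vonMangoldt_le_log.trans ?_
            exact Real.log_le_log (by exact_mod_cast hm.1) (by exact_mod_cast hm.2)
      _ = Real.log M * ∑ m ∈ Ioc 0 M, a m := by rw [Finset.mul_sum]
      _ ≤ Real.log M * (2 * Real.sqrt M * Real.log M) := by
          refine mul_le_mul_of_nonneg_left ?_ hlM
          have h1 := Chebyshev.psi_sub_theta_le (x := (M : ℝ)) (by exact_mod_cast hM1)
          rw [Chebyshev.psi_sub_theta_eq_sum_not_prime, Nat.floor_natCast, Finset.sum_filter] at h1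
          refine le_trans (le_of_eq (Finset.sum_congr rfl fun m _ => ?_)) h1
          simp only [ha]
          split_ifs <;> rfl
  have hQ : ∀ n, prQ W J n = ∑ j ∈ range J, a (n + j * W) := by
    intro n
    unfold prQ
    rw [Finset.sum_filter]
    refine Finset.sum_congr rfl fun j _ => ?_
    simp only [ha]
    split_ifs <;> rfl
  calc ∑ n ∈ Ioc 0 N, prQ W J n ^ 2 ≤ ∑ n ∈ Ioc 0 N, (J : ℝ) * ∑ j ∈ range J, a (n + j * W) ^ 2 := by
        refine Finset.sum_le_sum fun n _ => ?_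
        rw [hQ]
        have := sq_sum_le_card_mul_sum_sq (s := range J) (f := fun j => a (n + j * W))
        rwa [card_range] at this
    _ = (J : ℝ) * ∑ j ∈ range J, ∑ n ∈ Ioc 0 N, a (n + j * W) ^ 2 := by
        rw [← Finset.mul_sum, Finset.sum_comm]
    _ ≤ (J : ℝ) * ∑ j ∈ range J, Real.log M * (2 * Real.sqrt M * Real.log M) := by
        refine mul_le_mul_of_nonneg_left (Finset.sum_le_sum fun j hj => ?_) (Nat.cast_nonneg _)
        refine le_trans ?_ hsq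
        have h1 : ∑ n ∈ Ioc 0 N, a (n + j * W) ^ 2 =
            ∑ m ∈ (Ioc 0 N).image (fun n => n + j * W), a m ^ 2 := by
          rw [Finset.sum_image]
          intro x _ y _ h
          simp only at h
          omega
        rw [h1]
        refine Finset.sum_le_sum_of_subset_of_nonneg ?_ (fun _ _ _ => sq_nonneg _)
        intro m hm
        rw [mem_image] at hm
        obtain ⟨n, hn, rfl⟩ := hm
        rw [mem_Ioc] at hn ⊢
        rw [mem_range] at hj
        have h2 : j * W ≤ J * W := Nat.mul_le_mul_right _ hj.le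
        omega
    _ = _ := by
        rw [Finset.sum_const, card_range, nsmul_eq_mul]; ring

lemma pri_thle {q : ℕ} (a : ZMod q) (n H M : ℕ) (hM : n + H ≤ M) :
    0 ≤ th q a n H ∧ th q a n H ≤ H * Real.log M := by
  unfold th
  refine ⟨Finset.sum_nonneg fun _ _ => ArithmeticFunction.vonMangoldt_nonneg, ?_⟩
  calc _ ≤ ∑ m ∈ Ioc n (n + H), ArithmeticFunction.vonMangoldt m :=
        Finset.sum_le_sum_of_subset_of_nonneg (Finset.filter_subset _ _)
          (fun _ _ _ => ArithmeticFunction.vonMangoldt_nonneg)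
    _ ≤ ∑ m ∈ Ioc n (n + H), Real.log M := by
        refine Finset.sum_le_sum fun m hm => ?_
        rw [mem_Ioc] at hm
        refine ArithmeticFunction.vonMangoldt_le_log.trans ?_
        exact Real.log_le_log (by exact_mod_cast (by omega : 0 < m))
          (by exact_mod_cast (by omega : m ≤ M))
    _ = H * Real.log M := by
        rw [Finset.sum_const, Nat.card_Ioc, nsmul_eq_mul]
        congr 2
        omega

lemma pri_cop (W : ℕ) [NeZero W] (A B H : ℕ) (E E' : ℝ) (hE : 0 ≤ E) (hE' : 0 ≤ E')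
    (hadd : ∀ a : ZMod W, IsUnit a →
      ∑ n ∈ Ioc A B, (th W a n H - H / W.totient) ^ 2 ≤ E)
    (hb : ∀ a : ZMod W, (th W a A H - H / W.totient) ^ 2 ≤ E') :
    ∑ n ∈ (Ioc A B).filter (fun n => n.Coprime W),
      (th W (n : ZMod W) (n - 1) H - H / W.totient) ^ 2 ≤ W * (E + E') := by
  classical
  set U : Finset (ZMod W) := Finset.univ.filter IsUnit with hU
  have h1 : ∀ n ∈ (Ioc A B).filter (fun n => n.Coprime W),
      (th W (n : ZMod W) (n - 1) H - H / W.totient) ^ 2 ≤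
      ∑ a ∈ U, (th W a (n - 1) H - H / W.totient) ^ 2 := by
    intro n hn
    rw [mem_filter] at hn
    have h2 : (n : ZMod W) ∈ U := by
      rw [hU, mem_filter]
      exact ⟨mem_univ _, (ZMod.isUnit_iff_coprime n W).2 hn.2⟩
    exact Finset.single_le_sum (f := fun a : ZMod W => (th W a (n - 1) H - H / W.totient) ^ 2)
      (fun _ _ => sq_nonneg _) h2
  calc _ ≤ ∑ n ∈ (Ioc A B).filter (fun n => n.Coprime W),
        ∑ a ∈ U, (th W a (n - 1) H - H / W.totient) ^ 2 := Finset.sum_le_sum h1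
    _ ≤ ∑ n ∈ Ioc A B, ∑ a ∈ U, (th W a (n - 1) H - H / W.totient) ^ 2 :=
        Finset.sum_le_sum_of_subset_of_nonneg (Finset.filter_subset _ _)
          (fun _ _ _ => Finset.sum_nonneg fun _ _ => sq_nonneg _)
    _ = ∑ a ∈ U, ∑ n ∈ Ioc A B, (th W a (n - 1) H - H / W.totient) ^ 2 := Finset.sum_comm
    _ ≤ ∑ a ∈ U, (E + E') := by
        refine Finset.sum_le_sum fun a ha => ?_
        rw [hU, mem_filter] at ha
        have h3 : ∑ n ∈ Ioc A B, (th W a (n - 1) H - H / W.totient) ^ 2 =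
            ∑ m ∈ (Ioc A B).image (fun n => n - 1), (th W a m H - H / W.totient) ^ 2 := by
          rw [Finset.sum_image]
          intro x hx y hy h
          simp only [coe_Ioc, Set.mem_Ioc] at hx hy
          simp only at h
          omega
        rw [h3]
        calc _ ≤ ∑ m ∈ insert A (Ioc A B), (th W a m H - H / W.totient) ^ 2 := by
              refine Finset.sum_le_sum_of_subset_of_nonneg ?_ (fun _ _ _ => sq_nonneg _)
              intro m hm
              rw [mem_image] at hm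
              obtain ⟨n, hn, rfl⟩ := hm
              rw [mem_Ioc] at hn
              rw [mem_insert, mem_Ioc]
              omega
          _ = (th W a A H - H / W.totient) ^ 2 +
              ∑ m ∈ Ioc A B, (th W a m H - H / W.totient) ^ 2 := by
              rw [Finset.sum_insert (by simp)]
          _ ≤ E + E' := by linarith [hadd a ha.2, hb a]
    _ = (U.card : ℝ) * (E + E') := by rw [Finset.sum_const, nsmul_eq_mul]
    _ ≤ W * (E + E') := by
        refine mul_le_mul_of_nonneg_right ?_ (by positivity)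
        have : U.card ≤ Fintype.card (ZMod W) := Finset.card_le_univ _
        rw [ZMod.card] at this
        exact_mod_cast this

open Filter in
lemma pri_ev1 (c : ℝ) : ∀ᶠ X : ℕ in atTop, c ≤ Real.log X :=
  (Real.tendsto_log_atTop.comp tendsto_natCast_atTop_atTop).eventually_ge_atTop c

open Filter in
lemma pri_ev2 {a b c : ℝ} (hab : a < b) (hc : 0 < c) :
    ∀ᶠ X : ℕ in atTop, (X : ℝ) ^ a ≤ c * (X : ℝ) ^ b := by
  have h1 : Tendsto (fun X : ℕ => (X : ℝ) ^ (-(b - a))) atTop (nhds 0) :=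
    (tendsto_rpow_neg_atTop (by linarith : 0 < b - a)).comp tendsto_natCast_atTop_atTop
  filter_upwards [h1.eventually (gt_mem_nhds hc), eventually_gt_atTop 0] with X hX hX0
  have hXp : (0 : ℝ) < X := by exact_mod_cast hX0
  calc (X : ℝ) ^ a = (X : ℝ) ^ (-(b - a)) * (X : ℝ) ^ b := by
        rw [← Real.rpow_add hXp]; congr 1; ring
    _ ≤ c * (X : ℝ) ^ b := by
        exact mul_le_mul_of_nonneg_right (le_of_lt hX) (by positivity)

open Filter in
lemma pri_ev3 {b c : ℝ} (hb : 0 < b) (hc : 0 < c) :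
    ∀ᶠ X : ℕ in atTop, Real.log X ≤ c * (X : ℝ) ^ b := by
  have h1 := ((isLittleO_log_rpow_atTop hb).bound hc)
  have h2 := tendsto_natCast_atTop_atTop.eventually h1
  filter_upwards [h2] with X hX
  rw [Real.norm_eq_abs, Real.norm_eq_abs, abs_of_nonneg (a := (X : ℝ) ^ b) (by positivity)] at hX
  exact (le_abs_self _).trans hX

open Filter in
/-- the basic facts on `J = ⌊X^κ⌋` -/
lemma pri_evJ {κ r : ℝ} (W : ℕ) (hW : 1 ≤ W) (hκ : 0 < κ) (hκ1 : κ < 1) (hr : 0 < r) :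
    ∀ᶠ X : ℕ in atTop, 2 ≤ X ∧ 3 ≤ Real.log X ∧ Real.log X ≤ (⌊(X : ℝ) ^ κ⌋₊ : ℝ) ∧
      (⌊(X : ℝ) ^ κ⌋₊ : ℝ) * W ≤ r * X ∧ 1 ≤ ⌊(X : ℝ) ^ κ⌋₊ ∧
      (1 / 2) * (X : ℝ) ^ κ ≤ (⌊(X : ℝ) ^ κ⌋₊ : ℝ) := by
  have hWp : (0 : ℝ) < W := by exact_mod_cast hW
  filter_upwards [pri_ev1 3, pri_ev3 hκ (by norm_num : (0 : ℝ) < 1 / 2),
    pri_ev2 (a := κ) (b := 1) hκ1 (by positivity : 0 < r / W),
    pri_ev2 (a := 0) (b := κ) hκ (by norm_num : (0 : ℝ) < 1 / 2), eventually_ge_atTop 2]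
    with X h1 h2 h3 h4 h5
  rw [Real.rpow_zero] at h4
  rw [Real.rpow_one] at h3
  have hJ1 : (⌊(X : ℝ) ^ κ⌋₊ : ℝ) ≤ (X : ℝ) ^ κ := Nat.floor_le (by positivity)
  have hJ2 : (X : ℝ) ^ κ < (⌊(X : ℝ) ^ κ⌋₊ : ℝ) + 1 := Nat.lt_floor_add_one _
  have hJ3 : (1 / 2) * (X : ℝ) ^ κ ≤ (⌊(X : ℝ) ^ κ⌋₊ : ℝ) := by linarith
  refine ⟨h5, h1, by linarith, ?_, ?_, hJ3⟩
  · calc (⌊(X : ℝ) ^ κ⌋₊ : ℝ) * W ≤ (r / W * X) * W :=
          mul_le_mul_of_nonneg_right (hJ1.trans h3) hWp.le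
      _ = r * X := by field_simp
  · have : (1 : ℝ) ≤ (⌊(X : ℝ) ^ κ⌋₊ : ℝ) := by linarith
    exact_mod_cast this

lemma pri_sqsum {x y z : ℝ} : (x + y + z) ^ 2 ≤ 3 * x ^ 2 + 3 * y ^ 2 + 3 * z ^ 2 := by
  nlinarith [sq_nonneg (x - y), sq_nonneg (y - z), sq_nonneg (x - z)]

open Filter in
lemma pri_dy (W : ℕ) (hW : 1 ≤ W) (κ η r : ℝ) (hκ : 1 / 3 < κ) (hκ1 : κ < 1) (hη : 0 < η)
    (hr : 0 < r) (hr1 : r ≤ 1) :
    ∀ᶠ X : ℕ in atTop,
    ∑ n ∈ Ioc ⌊r * X⌋₊ ⌊2 * (r * X)⌋₊, (prC W ⌊(X : ℝ) ^ κ⌋₊ n -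
        (if n.Coprime W then (⌊(X : ℝ) ^ κ⌋₊ : ℝ) * W / (W.totient * Real.log X) else 0)) ^ 2 ≤
      η * X * (⌊(X : ℝ) ^ κ⌋₊ / Real.log X) ^ 2 := by
  haveI : NeZero W := ⟨by omega⟩
  have hWp : (0 : ℝ) < W := by exact_mod_cast hW
  have hW1 : (1 : ℝ) ≤ W := by exact_mod_cast hW
  obtain ⟨C, hC, hsec⟩ := Pool.Agent.H5.Short.second
  set ε : ℝ := min ((κ - 1 / 3) / 6) (min ((1 - κ) / 2) (1 / 24)) with hε
  have hε0 : 0 < ε := by
    rw [hε]
    exact lt_min (by linarith) (lt_min (by linarith) (by norm_num))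
  have hε1 : ε ≤ (κ - 1 / 3) / 6 := min_le_left _ _
  have hε2 : ε ≤ (1 - κ) / 2 := (min_le_right _ _).trans (min_le_left _ _)
  have hε3 : ε ≤ 1 / 24 := (min_le_right _ _).trans (min_le_right _ _)
  set η2 : ℝ := η / (18 * (W : ℝ) ^ 3) with hη2
  have hη20 : 0 < η2 := by positivity
  obtain ⟨X0, hX010, hadd⟩ := add W ε η2 hε0 (by linarith) hη20
  set B : ℝ := 2 - Real.log r with hB
  have hlr : Real.log r ≤ 0 := Real.log_nonpos hr.le hr1
  have hB0 : 2 ≤ B := by linarith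
  -- constants
  have hc1 : 0 < Real.sqrt (η / 144) := Real.sqrt_pos.2 (by positivity)
  have hc2 : 0 < Real.sqrt (η / (72 * (W : ℝ) ^ 3)) := Real.sqrt_pos.2 (by positivity)
  filter_upwards [pri_evJ (κ := κ) W hW (by linarith) hκ1 hr,
    pri_ev1 (Real.sqrt (36 * B ^ 2 * C * (W : ℝ) ^ 2 / η)),
    pri_ev3 (b := 1 / 4) (by norm_num) hc1,
    pri_ev3 (b := 1 / 2) (by norm_num) hc2,
    pri_ev2 (a := κ) (b := 1 - ε) (by linarith) (by positivity : 0 < r ^ (1 - ε) / W),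
    pri_ev2 (a := 1 / 3 + 3 * ε) (b := κ) (by linarith) (by norm_num : (0 : ℝ) < 1 / 2),
    (tendsto_natCast_atTop_atTop (R := ℝ)).eventually_ge_atTop (X0 / r)]
    with X hJall hLbig hlog4 hlog2 hHup hHlow hXX0
  obtain ⟨hX2, hL3, hLJ, hHY, hJ1, hJhalf⟩ := hJall
  set J : ℕ := ⌊(X : ℝ) ^ κ⌋₊ with hJ
  set L : ℝ := Real.log X with hL
  have hXp : (0 : ℝ) < X := by positivity
  have hJp : (0 : ℝ) < J := by exact_mod_cast hJ1
  have hJle : (J : ℝ) ≤ (X : ℝ) ^ κ := Nat.floor_le (by positivity)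
  have hLp : 0 < L := by linarith
  have hrX0 : 0 < r * X := by positivity
  have hrX : r * X ≤ X := by nlinarith
  set H : ℕ := J * W with hH
  have hHR : (H : ℝ) = J * W := by rw [hH]; push_cast; ring
  have hHp : (0 : ℝ) < H := by rw [hHR]; positivity
  set A := ⌊r * (X : ℝ)⌋₊ with hA
  set Bn := ⌊2 * (r * (X : ℝ))⌋₊ with hBn
  have hAle : (A : ℝ) ≤ r * X := Nat.floor_le hrX0.le
  have hAlt : r * X < A + 1 := Nat.lt_floor_add_one _
  have hBle : (Bn : ℝ) ≤ 2 * (r * X) := Nat.floor_le (by positivity)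
  have hBX : Bn ≤ 2 * X := by
    have : (Bn : ℝ) ≤ ((2 * X : ℕ) : ℝ) := by push_cast; linarith
    exact_mod_cast this
  have hHX : H ≤ X := by
    have : (H : ℝ) ≤ (X : ℕ) := by rw [hHR]; linarith
    exact_mod_cast this
  have hAX : A ≤ X := by
    have : (A : ℝ) ≤ (X : ℕ) := by linarith
    exact_mod_cast this
  -- log (3X)
  have hlog3 : Real.log ((3 * X : ℕ) : ℝ) + 1 ≤ 2 * L := by
    have h1 : Real.log ((3 * X : ℕ) : ℝ) = Real.log 3 + L := by
      push_cast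
      rw [Real.log_mul (by norm_num) hXp.ne']
    have h2 : Real.log 3 ≤ 2 := by
      have := Real.log_le_sub_one_of_pos (by norm_num : (0 : ℝ) < 3)
      linarith
    linarith
  have hlog30 : 0 ≤ Real.log ((3 * X : ℕ) : ℝ) :=
    Real.log_nonneg (by exact_mod_cast (by omega : 1 ≤ 3 * X))
  -- the range of H
  have hH1 : (r * (X : ℝ)) ^ ((1 : ℝ) / 3 + 3 * ε) ≤ H := by
    calc (r * (X : ℝ)) ^ ((1 : ℝ) / 3 + 3 * ε) ≤ (X : ℝ) ^ ((1 : ℝ) / 3 + 3 * ε) :=
          Real.rpow_le_rpow hrX0.le hrX (by positivity)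
      _ ≤ 1 / 2 * (X : ℝ) ^ κ := hHlow
      _ ≤ J := hJhalf
      _ = J * 1 := by ring
      _ ≤ J * W := mul_le_mul_of_nonneg_left hW1 hJp.le
      _ = H := hHR.symm
  have hH2 : (H : ℝ) ≤ (r * (X : ℝ)) ^ (1 - ε) := by
    rw [hHR, Real.mul_rpow hr.le hXp.le]
    calc (J : ℝ) * W ≤ (X : ℝ) ^ κ * W := mul_le_mul_of_nonneg_right hJle hWp.le
      _ ≤ (r ^ (1 - ε) / W * (X : ℝ) ^ (1 - ε)) * W := mul_le_mul_of_nonneg_right hHup hWp.le
      _ = r ^ (1 - ε) * (X : ℝ) ^ (1 - ε) := by field_simp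
  have hXX : X0 ≤ r * X := by
    rw [div_le_iff₀ hr] at hXX0
    linarith
  have haddX : ∀ a : ZMod W, IsUnit a →
      ∑ n ∈ Ioc A Bn, (th W a n H - H / W.totient) ^ 2 ≤ η2 * (r * X) * (H : ℝ) ^ 2 :=
    fun a ha => hadd a ha (r * X) H hXX hH1 hH2
  have htot : (1 : ℝ) ≤ W.totient := by exact_mod_cast Nat.totient_pos.2 hW
  have hbd : ∀ a : ZMod W, (th W a A H - H / W.totient) ^ 2 ≤ (H : ℝ) ^ 2 * (2 * L) ^ 2 := by
    intro a
    obtain ⟨h1, h2⟩ := pri_thle a A H (3 * X) (by omega)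
    have h3 : 0 ≤ (H : ℝ) / W.totient := by positivity
    have h4 : (H : ℝ) / W.totient ≤ H := div_le_self hHp.le htot
    rw [← mul_pow]
    apply sq_le_sq'
    · nlinarith
    · have : (H : ℝ) * Real.log ((3 * X : ℕ) : ℝ) ≤ H * (2 * L) :=
        mul_le_mul_of_nonneg_left (by linarith) hHp.le
      linarith
  have hcop := pri_cop W A Bn H _ _ (by positivity) (by positivity) haddX hbd
  -- second moment of the prime counts
  have hP2 : ∑ n ∈ Ioc A Bn, prC W J n ^ 2 ≤ 4 * C * (W : ℝ) ^ 2 * X * (J / L) ^ 2 := by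
    have h1 : ∑ n ∈ Ioc A Bn, prC W J n ^ 2 ≤
        ∑ m ∈ range (2 * X), (Pool.Agent.H5.Short.pc m H : ℝ) ^ 2 := by
      calc ∑ n ∈ Ioc A Bn, prC W J n ^ 2 ≤
            ∑ n ∈ Ioc A Bn, (Pool.Agent.H5.Short.pc (n - 1) H : ℝ) ^ 2 := by
            refine Finset.sum_le_sum fun n hn => ?_
            rw [mem_Ioc] at hn
            refine pow_le_pow_left₀ (Nat.cast_nonneg _) ?_ 2
            exact pri_le_pc J hW (by omega)
        _ = ∑ m ∈ (Ioc A Bn).image (fun n => n - 1), (Pool.Agent.H5.Short.pc m H : ℝ) ^ 2 := by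
            rw [Finset.sum_image]
            intro x hx y hy h
            simp only [coe_Ioc, Set.mem_Ioc] at hx hy
            simp only at h
            omega
        _ ≤ _ := by
            refine Finset.sum_le_sum_of_subset_of_nonneg ?_ (fun _ _ _ => sq_nonneg _)
            intro m hm
            rw [mem_image] at hm
            obtain ⟨n, hn, rfl⟩ := hm
            rw [mem_Ioc] at hn
            rw [mem_range]
            omega
    have h2 := hsec (2 * X) H (by omega) (by exact_mod_cast hHp) (by omega)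
    have h3 : L ≤ Real.log ((2 * X : ℕ) : ℝ) :=
      Real.log_le_log hXp (by push_cast; linarith)
    refine h1.trans (h2.trans ?_)
    have h4 : (H : ℝ) * ((2 * X : ℕ) : ℝ) / Real.log ((2 * X : ℕ) : ℝ) ≤
        2 * (W : ℝ) ^ 2 * X * (J / L) ^ 2 := by
      calc (H : ℝ) * ((2 * X : ℕ) : ℝ) / Real.log ((2 * X : ℕ) : ℝ) ≤
            (H : ℝ) * ((2 * X : ℕ) : ℝ) / L := by gcongr
        _ = 2 * W * X * (J / L) := by rw [hHR]; push_cast; ring
        _ ≤ 2 * (W : ℝ) ^ 2 * X * (J / L) ^ 2 := by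
            have h5 : (1 : ℝ) ≤ J / L := by rw [one_le_div hLp]; exact hLJ
            have h6 : (J : ℝ) / L ≤ (J / L) ^ 2 := by nlinarith
            have h7 : (W : ℝ) ≤ (W : ℝ) ^ 2 := by nlinarith
            gcongr
    have h5 : (H : ℝ) ^ 2 * ((2 * X : ℕ) : ℝ) / Real.log ((2 * X : ℕ) : ℝ) ^ 2 ≤
        2 * (W : ℝ) ^ 2 * X * (J / L) ^ 2 := by
      calc (H : ℝ) ^ 2 * ((2 * X : ℕ) : ℝ) / Real.log ((2 * X : ℕ) : ℝ) ^ 2 ≤
            (H : ℝ) ^ 2 * ((2 * X : ℕ) : ℝ) / L ^ 2 := by gcongr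
        _ = 2 * (W : ℝ) ^ 2 * X * (J / L) ^ 2 := by rw [hHR]; push_cast; ring
    calc C * ((H : ℝ) * ((2 * X : ℕ) : ℝ) / Real.log ((2 * X : ℕ) : ℝ) +
          (H : ℝ) ^ 2 * ((2 * X : ℕ) : ℝ) / Real.log ((2 * X : ℕ) : ℝ) ^ 2) ≤
          C * (2 * (W : ℝ) ^ 2 * X * (J / L) ^ 2 + 2 * (W : ℝ) ^ 2 * X * (J / L) ^ 2) := by
          gcongr
      _ = _ := by ring
  -- prime powers
  have hQ2 : ∑ n ∈ Ioc A Bn, prQ W J n ^ 2 ≤ (J : ℝ) ^ 2 * (16 * Real.sqrt X * L ^ 2) := by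
    have h1 := pri_pp (W := W) J Bn (3 * X) (by omega) (by omega)
    have h2 : ∑ n ∈ Ioc A Bn, prQ W J n ^ 2 ≤ ∑ n ∈ Ioc 0 Bn, prQ W J n ^ 2 := by
      refine Finset.sum_le_sum_of_subset_of_nonneg ?_ (fun _ _ _ => sq_nonneg _)
      exact Finset.Ioc_subset_Ioc_left (Nat.zero_le _)
    refine h2.trans (h1.trans ?_)
    have h3 : Real.sqrt ((3 * X : ℕ) : ℝ) ≤ 2 * Real.sqrt X := by
      rw [show (2 : ℝ) * Real.sqrt X = Real.sqrt (4 * X) by
        rw [Real.sqrt_mul (by norm_num), show (4 : ℝ) = 2 ^ 2 by norm_num,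
          Real.sqrt_sq (by norm_num)]]
      exact Real.sqrt_le_sqrt (by push_cast; linarith)
    have h4 : Real.log ((3 * X : ℕ) : ℝ) ≤ 2 * L := by linarith
    calc (J : ℝ) ^ 2 * (Real.log ((3 * X : ℕ) : ℝ) *
          (2 * Real.sqrt ((3 * X : ℕ) : ℝ) * Real.log ((3 * X : ℕ) : ℝ))) ≤
          (J : ℝ) ^ 2 * ((2 * L) * (2 * (2 * Real.sqrt X) * (2 * L))) := by gcongr
      _ = _ := by ring
  -- pointwise
  have hpt : ∀ n ∈ Ioc A Bn, L ^ 2 * (prC W J n -
      (if n.Coprime W then (J : ℝ) * W / (W.totient * L) else 0)) ^ 2 ≤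
      3 * B ^ 2 * prC W J n ^ 2 + 3 * prQ W J n ^ 2 +
      (if n.Coprime W then 3 * (th W (n : ZMod W) (n - 1) H - H / W.totient) ^ 2 else 0) := by
    intro n hn
    rw [mem_Ioc] at hn
    have hnA : r * X < n := by
      have : (A : ℝ) + 1 ≤ n := by exact_mod_cast hn.1
      linarith
    have hnB : (n : ℝ) ≤ 2 * (r * X) := le_trans (by exact_mod_cast hn.2) hBle
    by_cases hc : n.Coprime W
    · rw [if_pos hc, if_pos hc]
      have hcmp := pri_cmp (W := W) (J := J) (n := n) (L := L) (B := B) (by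
        intro j hj
        have hj2 : (j : ℝ) * W ≤ J * W :=
          mul_le_mul_of_nonneg_right (by exact_mod_cast hj.le) hWp.le
        have hm1 : r * X ≤ ((n + j * W : ℕ) : ℝ) := by
          push_cast
          have : (0 : ℝ) ≤ j * W := by positivity
          linarith
        have hm2 : ((n + j * W : ℕ) : ℝ) ≤ 3 * X := by
          push_cast
          linarith
        have h1 : Real.log (r * X) ≤ Real.log ((n + j * W : ℕ) : ℝ) := Real.log_le_log hrX0 hm1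
        have h2 : Real.log ((n + j * W : ℕ) : ℝ) ≤ Real.log (3 * X) :=
          Real.log_le_log (by linarith) hm2
        rw [Real.log_mul hr.ne' hXp.ne'] at h1
        rw [Real.log_mul (by norm_num) hXp.ne'] at h2
        have h3 : Real.log 3 ≤ 2 := by
          have := Real.log_le_sub_one_of_pos (by norm_num : (0 : ℝ) < 3)
          linarith
        rw [abs_le]
        constructor <;> linarith)
      rw [← pri_th J hW (by omega : 1 ≤ n), ← hH] at hcmp
      set P := prC W J n with hP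
      set Q := prQ W J n with hQd
      set T := th W (n : ZMod W) (n - 1) H with hT
      have hP0 : 0 ≤ P := Nat.cast_nonneg _
      have hQ0 : 0 ≤ Q := Finset.sum_nonneg fun _ _ => ArithmeticFunction.vonMangoldt_nonneg
      have e1 : L ^ 2 * (P - (J : ℝ) * W / (W.totient * L)) ^ 2 =
          ((L * P - T) + (T - H / W.totient)) ^ 2 := by
        rw [hHR]
        have : (W.totient : ℝ) ≠ 0 := by positivity
        field_simp
        ring
      rw [e1]
      have e2 : ((L * P - T) + (T - H / W.totient)) ^ 2 ≤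
          (B * P + Q + |T - H / W.totient|) ^ 2 := by
        apply sq_le_sq'
        · have := neg_abs_le (L * P - T)
          have := neg_abs_le (T - H / W.totient)
          linarith
        · have := le_abs_self (L * P - T)
          have := le_abs_self (T - H / W.totient)
          linarith
      refine e2.trans (pri_sqsum.trans (le_of_eq ?_))
      rw [sq_abs]
      ring
    · rw [if_neg hc, if_neg hc]
      have hWn : W < n := by
        have h1 : (W : ℝ) ≤ J * W := by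
          have : (1 : ℝ) ≤ J := by exact_mod_cast hJ1
          nlinarith
        have : (W : ℝ) < n := by linarith
        exact_mod_cast this
      rw [pri_nc J hW hWn hc]
      have : 0 ≤ 3 * prQ W J n ^ 2 := by positivity
      simp
      positivity
  -- sum up
  have hsum : L ^ 2 * ∑ n ∈ Ioc A Bn, (prC W J n -
      (if n.Coprime W then (J : ℝ) * W / (W.totient * L) else 0)) ^ 2 ≤ η * X * (J : ℝ) ^ 2 := by
    rw [Finset.mul_sum]
    refine (Finset.sum_le_sum hpt).trans ?_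
    rw [Finset.sum_add_distrib, Finset.sum_add_distrib, ← Finset.sum_filter, ← Finset.mul_sum,
      ← Finset.mul_sum, ← Finset.mul_sum]
    have t1 : 3 * B ^ 2 * ∑ n ∈ Ioc A Bn, prC W J n ^ 2 ≤ η / 3 * (X * (J : ℝ) ^ 2) := by
      have h1 : 36 * B ^ 2 * C * (W : ℝ) ^ 2 / η ≤ L ^ 2 := by
        have := Real.sqrt_le_left hLp.le |>.1 hLbig
        exact this
      rw [div_le_iff₀ hη] at h1
      calc 3 * B ^ 2 * ∑ n ∈ Ioc A Bn, prC W J n ^ 2 ≤
            3 * B ^ 2 * (4 * C * (W : ℝ) ^ 2 * X * (J / L) ^ 2) := by gcongr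
        _ = (36 * B ^ 2 * C * (W : ℝ) ^ 2) / 3 / L ^ 2 * (X * (J : ℝ) ^ 2) := by
            field_simp; ring
        _ ≤ (L ^ 2 * η) / 3 / L ^ 2 * (X * (J : ℝ) ^ 2) := by gcongr
        _ = η / 3 * (X * (J : ℝ) ^ 2) := by field_simp
    have t2 : 3 * ∑ n ∈ Ioc A Bn, prQ W J n ^ 2 ≤ η / 3 * (X * (J : ℝ) ^ 2) := by
      have h1 : L ^ 2 ≤ η / 144 * Real.sqrt X := by
        calc L ^ 2 ≤ (Real.sqrt (η / 144) * (X : ℝ) ^ (1 / 4 : ℝ)) ^ 2 :=
              pow_le_pow_left₀ hLp.le hlog4 2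
          _ = η / 144 * Real.sqrt X := by
              rw [mul_pow, Real.sq_sqrt (by positivity), Real.sqrt_eq_rpow,
                ← Real.rpow_natCast, ← Real.rpow_mul hXp.le]
              norm_num
      have h2 : Real.sqrt X * Real.sqrt X = X := Real.mul_self_sqrt hXp.le
      calc 3 * ∑ n ∈ Ioc A Bn, prQ W J n ^ 2 ≤ 3 * ((J : ℝ) ^ 2 * (16 * Real.sqrt X * L ^ 2)) := by
            gcongr
        _ ≤ 3 * ((J : ℝ) ^ 2 * (16 * Real.sqrt X * (η / 144 * Real.sqrt X))) := by gcongr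
        _ = η / 3 * ((Real.sqrt X * Real.sqrt X) * (J : ℝ) ^ 2) := by ring
        _ = η / 3 * (X * (J : ℝ) ^ 2) := by rw [h2]
    have t3 : 3 * ∑ n ∈ (Ioc A Bn).filter (fun n => n.Coprime W),
        (th W (n : ZMod W) (n - 1) H - H / W.totient) ^ 2 ≤ η / 3 * (X * (J : ℝ) ^ 2) := by
      have h1 : L ^ 2 ≤ η / (72 * (W : ℝ) ^ 3) * X := by
        calc L ^ 2 ≤ (Real.sqrt (η / (72 * (W : ℝ) ^ 3)) * (X : ℝ) ^ (1 / 2 : ℝ)) ^ 2 :=
              pow_le_pow_left₀ hLp.le hlog2 2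
          _ = η / (72 * (W : ℝ) ^ 3) * X := by
              have e5 : ((X : ℝ) ^ (1 / 2 : ℝ)) ^ 2 = X := by
                rw [← Real.rpow_natCast, ← Real.rpow_mul hXp.le]
                norm_num
              rw [mul_pow, Real.sq_sqrt (by positivity), e5]
      calc 3 * ∑ n ∈ (Ioc A Bn).filter (fun n => n.Coprime W),
            (th W (n : ZMod W) (n - 1) H - H / W.totient) ^ 2 ≤
            3 * (W * (η2 * (r * X) * (H : ℝ) ^ 2 + (H : ℝ) ^ 2 * (2 * L) ^ 2)) := by gcongr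
        _ ≤ 3 * (W * (η2 * X * (H : ℝ) ^ 2 + (H : ℝ) ^ 2 * (4 * (η / (72 * (W : ℝ) ^ 3) * X)))) := by
            have e1 : (2 * L) ^ 2 = 4 * L ^ 2 := by ring
            rw [e1]
            gcongr
        _ = η / 3 * (X * (J : ℝ) ^ 2) := by
            rw [hHR, hη2]
            field_simp
            ring
    have e : 3 * ∑ n ∈ (Ioc A Bn).filter (fun n => n.Coprime W),
        (th W (n : ZMod W) (n - 1) H - H / W.totient) ^ 2 =
        ∑ n ∈ (Ioc A Bn).filter (fun n => n.Coprime W),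
        3 * (th W (n : ZMod W) (n - 1) H - H / W.totient) ^ 2 := Finset.mul_sum _ _ _
    linarith [e]
  calc _ = (L ^ 2 * ∑ n ∈ Ioc A Bn, (prC W J n -
      (if n.Coprime W then (J : ℝ) * W / (W.totient * L) else 0)) ^ 2) / L ^ 2 := by
        field_simp
    _ ≤ (η * X * (J : ℝ) ^ 2) / L ^ 2 := by gcongr
    _ = η * X * (J / L) ^ 2 := by ring

open Filter in
lemma pri_small (W : ℕ) (hW : 1 ≤ W) (κ : ℝ) (hκ : 1 / 3 < κ) (hκ1 : κ < 1) :
    ∃ D : ℝ, 0 < D ∧ ∀ r : ℝ, 0 < r → r ≤ 1 → ∀ᶠ X : ℕ in atTop,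
    ∑ n ∈ Ioc 0 ⌊r * X⌋₊, (prC W ⌊(X : ℝ) ^ κ⌋₊ n -
        (if n.Coprime W then (⌊(X : ℝ) ^ κ⌋₊ : ℝ) * W / (W.totient * Real.log X) else 0)) ^ 2 ≤
      D * r * X * (⌊(X : ℝ) ^ κ⌋₊ / Real.log X) ^ 2 := by
  have hWp : (0 : ℝ) < W := by exact_mod_cast hW
  have hW1 : (1 : ℝ) ≤ W := by exact_mod_cast hW
  obtain ⟨C, hC, hsec⟩ := Pool.Agent.H5.Short.second
  refine ⟨8 * C * (W : ℝ) ^ 2 + (W : ℝ) ^ 2, by positivity, fun r hr hr1 => ?_⟩
  filter_upwards [pri_evJ (κ := κ) W hW (by linarith) hκ1 (by positivity : 0 < r / 2),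
    pri_ev1 (2 - 2 * Real.log (r / 2)),
    pri_ev2 (a := 0) (b := 1) (by norm_num) (by positivity : 0 < r / 4)]
    with X hJall hLbig hX4
  obtain ⟨hX2, hL3, hLJ, hHY, hJ1, hJhalf⟩ := hJall
  rw [Real.rpow_zero, Real.rpow_one] at hX4
  set J : ℕ := ⌊(X : ℝ) ^ κ⌋₊ with hJ
  set L : ℝ := Real.log X with hL
  have hXp : (0 : ℝ) < X := by positivity
  have hJp : (0 : ℝ) < J := by exact_mod_cast hJ1
  have hLp : 0 < L := by linarith
  have hrX0 : 0 < r * X := by positivity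
  set H : ℕ := J * W with hH
  have hHR : (H : ℝ) = J * W := by rw [hH]; push_cast; ring
  have hHp : (0 : ℝ) < H := by rw [hHR]; positivity
  set N := ⌊r * (X : ℝ)⌋₊ with hN
  have hNle : (N : ℝ) ≤ r * X := Nat.floor_le hrX0.le
  have hNlt : r * X < N + 1 := Nat.lt_floor_add_one _
  have hN2 : (r / 2) * X ≤ N := by linarith
  have hN2' : 2 ≤ N := by
    have : (2 : ℝ) ≤ (N : ℕ) + 1 := by linarith
    have h3 : (4 : ℝ) < (N : ℕ) + 1 := by linarith
    have h4 : 4 < N + 1 := by exact_mod_cast h3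
    omega
  have hNp : (0 : ℝ) < N := by positivity
  have hHN : H ≤ N := by
    have : (H : ℝ) ≤ N := by rw [hHR]; linarith
    exact_mod_cast this
  have hlogN : L / 2 ≤ Real.log N := by
    have h1 : Real.log (r / 2 * X) ≤ Real.log N := Real.log_le_log (by positivity) hN2
    rw [Real.log_mul (by positivity) hXp.ne'] at h1
    linarith
  have htot : (1 : ℝ) ≤ W.totient := by exact_mod_cast Nat.totient_pos.2 hW
  have hmain : ∀ n : ℕ, (prC W J n -
      (if n.Coprime W then (J : ℝ) * W / (W.totient * L) else 0)) ^ 2 ≤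
      prC W J n ^ 2 + (W * (J / L)) ^ 2 := by
    intro n
    have hP0 : 0 ≤ prC W J n := Nat.cast_nonneg _
    have hM : 0 ≤ (if n.Coprime W then (J : ℝ) * W / (W.totient * L) else 0) ∧
        (if n.Coprime W then (J : ℝ) * W / (W.totient * L) else 0) ≤ W * (J / L) := by
      split_ifs
      · refine ⟨by positivity, ?_⟩
        calc (J : ℝ) * W / (W.totient * L) ≤ (J : ℝ) * W / (1 * L) := by gcongr
          _ = W * (J / L) := by ring
      · exact ⟨le_rfl, by positivity⟩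
    obtain ⟨h1, h2⟩ := hM
    set m := (if n.Coprime W then (J : ℝ) * W / (W.totient * L) else 0)
    have h3 : m ^ 2 ≤ (W * (J / L)) ^ 2 := pow_le_pow_left₀ h1 h2 2
    nlinarith [mul_nonneg hP0 h1]
  have hP2 : ∑ n ∈ Ioc 0 N, prC W J n ^ 2 ≤ 8 * C * (W : ℝ) ^ 2 * N * (J / L) ^ 2 := by
    have h1 : ∑ n ∈ Ioc 0 N, prC W J n ^ 2 ≤
        ∑ m ∈ range N, (Pool.Agent.H5.Short.pc m H : ℝ) ^ 2 := by
      calc ∑ n ∈ Ioc 0 N, prC W J n ^ 2 ≤
            ∑ n ∈ Ioc 0 N, (Pool.Agent.H5.Short.pc (n - 1) H : ℝ) ^ 2 := by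
            refine Finset.sum_le_sum fun n hn => ?_
            rw [mem_Ioc] at hn
            refine pow_le_pow_left₀ (Nat.cast_nonneg _) ?_ 2
            exact pri_le_pc J hW (by omega)
        _ = ∑ m ∈ (Ioc 0 N).image (fun n => n - 1), (Pool.Agent.H5.Short.pc m H : ℝ) ^ 2 := by
            rw [Finset.sum_image]
            intro x hx y hy h
            simp only [coe_Ioc, Set.mem_Ioc] at hx hy
            simp only at h
            omega
        _ ≤ _ := by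
            refine Finset.sum_le_sum_of_subset_of_nonneg ?_ (fun _ _ _ => sq_nonneg _)
            intro m hm
            rw [mem_image] at hm
            obtain ⟨n, hn, rfl⟩ := hm
            rw [mem_Ioc] at hn
            rw [mem_range]
            omega
    have h2 := hsec N H hN2' (by exact_mod_cast hHp) hHN
    refine h1.trans (h2.trans ?_)
    have hLh : 0 < L / 2 := by positivity
    have h4 : (H : ℝ) * N / Real.log N ≤ 4 * (W : ℝ) ^ 2 * N * (J / L) ^ 2 := by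
      calc (H : ℝ) * N / Real.log N ≤ (H : ℝ) * N / (L / 2) := by gcongr
        _ = 2 * W * N * (J / L) := by rw [hHR]; field_simp
        _ ≤ 4 * (W : ℝ) ^ 2 * N * (J / L) ^ 2 := by
            have h5 : (1 : ℝ) ≤ J / L := by rw [one_le_div hLp]; exact hLJ
            have h6 : (J : ℝ) / L ≤ (J / L) ^ 2 := by nlinarith
            have h7 : 2 * (W : ℝ) ≤ 4 * (W : ℝ) ^ 2 := by nlinarith
            gcongr
    have h5 : (H : ℝ) ^ 2 * N / Real.log N ^ 2 ≤ 4 * (W : ℝ) ^ 2 * N * (J / L) ^ 2 := by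
      calc (H : ℝ) ^ 2 * N / Real.log N ^ 2 ≤ (H : ℝ) ^ 2 * N / (L / 2) ^ 2 := by gcongr
        _ = 4 * (W : ℝ) ^ 2 * N * (J / L) ^ 2 := by rw [hHR]; field_simp; ring
    calc C * ((H : ℝ) * N / Real.log N + (H : ℝ) ^ 2 * N / Real.log N ^ 2) ≤
          C * (4 * (W : ℝ) ^ 2 * N * (J / L) ^ 2 + 4 * (W : ℝ) ^ 2 * N * (J / L) ^ 2) := by
          gcongr
      _ = _ := by ring
  calc _ ≤ ∑ n ∈ Ioc 0 N, (prC W J n ^ 2 + (W * (J / L)) ^ 2) :=
        Finset.sum_le_sum fun n _ => hmain n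
    _ = (∑ n ∈ Ioc 0 N, prC W J n ^ 2) + N * (W * (J / L)) ^ 2 := by
        rw [Finset.sum_add_distrib, Finset.sum_const, Nat.card_Ioc, nsmul_eq_mul, Nat.sub_zero]
    _ ≤ 8 * C * (W : ℝ) ^ 2 * N * (J / L) ^ 2 + N * (W * (J / L)) ^ 2 := by gcongr
    _ = (8 * C * (W : ℝ) ^ 2 + (W : ℝ) ^ 2) * N * (J / L) ^ 2 := by ring
    _ ≤ (8 * C * (W : ℝ) ^ 2 + (W : ℝ) ^ 2) * (r * X) * (J / L) ^ 2 := by gcongr
    _ = _ := by ring

lemma pri_split (f : ℕ → ℝ) (X : ℕ) (K : ℕ) :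
    ∑ n ∈ Ioc 0 (2 * X), f n = (∑ n ∈ Ioc 0 ⌊(2 * (1 / 2) ^ K : ℝ) * X⌋₊, f n) +
      ∑ k ∈ range K, ∑ n ∈ Ioc ⌊((1 / 2) ^ k : ℝ) * X⌋₊ ⌊2 * (((1 / 2) ^ k : ℝ) * X)⌋₊, f n := by
  induction K with
  | zero =>
    rw [Finset.range_zero, Finset.sum_empty, add_zero, pow_zero, mul_one]
    congr 2
    rw [show (2 : ℝ) * X = ((2 * X : ℕ) : ℝ) by push_cast; ring, Nat.floor_natCast]
  | succ K ih =>
    rw [Finset.sum_range_succ, ih]
    have h1 : (2 * (1 / 2) ^ (K + 1) : ℝ) * X = ((1 / 2) ^ K : ℝ) * X := by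
      rw [pow_succ]; ring
    have h2 : (2 * (1 / 2) ^ K : ℝ) * X = 2 * (((1 / 2) ^ K : ℝ) * X) := by ring
    rw [h1, h2]
    have h3 : ⌊((1 / 2) ^ K : ℝ) * X⌋₊ ≤ ⌊2 * (((1 / 2) ^ K : ℝ) * X)⌋₊ := by
      apply Nat.floor_le_floor
      have : (0 : ℝ) ≤ ((1 / 2) ^ K : ℝ) * X := by positivity
      linarith
    rw [← Finset.sum_Ioc_consecutive f (Nat.zero_le _) h3]
    ring

theorem pri (W : ℕ) (hW : 1 ≤ W) (κ η : ℝ) (hκ : 1 / 3 < κ) (hκ1 : κ < 1) (hη : 0 < η) :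
    ∃ X0 : ℕ, 2 ≤ X0 ∧ ∀ X : ℕ, X0 ≤ X →
    ∑ n ∈ Icc 1 (2 * X), ((((range ⌊(X : ℝ) ^ κ⌋₊).filter (fun j => (n + j * W).Prime)).card : ℝ) -
        (if n.Coprime W then (⌊(X : ℝ) ^ κ⌋₊ : ℝ) * W / (W.totient * Real.log X) else 0)) ^ 2 ≤
      η * X * (⌊(X : ℝ) ^ κ⌋₊ / Real.log X) ^ 2 := by
  obtain ⟨D, hD, hsmall⟩ := pri_small W hW κ hκ hκ1
  obtain ⟨K, hK⟩ : ∃ K : ℕ, (1 / 2 : ℝ) ^ K < η / (4 * D + 2 * η + 1) :=
    exists_pow_lt_of_lt_one (by positivity) (by norm_num)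
  have hK0 : 1 ≤ K := by
    rcases Nat.eq_zero_or_pos K with h | h
    · exfalso
      rw [h, pow_zero, lt_div_iff₀ (by positivity)] at hK
      linarith
    · exact h
  have hKp : (0 : ℝ) < K := by exact_mod_cast hK0
  have hr1 : (2 * (1 / 2) ^ K : ℝ) ≤ 1 := by
    obtain ⟨k, rfl⟩ : ∃ k, K = k + 1 := ⟨K - 1, by omega⟩
    rw [pow_succ]
    have : (1 / 2 : ℝ) ^ k ≤ 1 := pow_le_one₀ (by norm_num) (by norm_num)
    linarith
  have hs := hsmall (2 * (1 / 2) ^ K) (by positivity) hr1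
  have hd : ∀ᶠ X : ℕ in Filter.atTop, ∀ k ∈ range K,
      ∑ n ∈ Ioc ⌊((1 / 2) ^ k : ℝ) * X⌋₊ ⌊2 * (((1 / 2) ^ k : ℝ) * X)⌋₊,
        (prC W ⌊(X : ℝ) ^ κ⌋₊ n -
        (if n.Coprime W then (⌊(X : ℝ) ^ κ⌋₊ : ℝ) * W / (W.totient * Real.log X) else 0)) ^ 2 ≤
      (η / (2 * K)) * X * (⌊(X : ℝ) ^ κ⌋₊ / Real.log X) ^ 2 := by
    rw [Filter.eventually_all_finset]
    intro k _
    exact pri_dy W hW κ (η / (2 * K)) ((1 / 2) ^ k) hκ hκ1 (by positivity) (by positivity)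
      (pow_le_one₀ (by norm_num) (by norm_num))
  obtain ⟨X0, hX0⟩ := (hs.and hd).exists_forall_of_atTop
  refine ⟨max 2 X0, le_max_left _ _, fun X hX => ?_⟩
  obtain ⟨h1, h2⟩ := hX0 X ((le_max_right _ _).trans hX)
  have hIcc : Icc 1 (2 * X) = Ioc 0 (2 * X) := by
    ext n; simp only [Finset.mem_Icc, Finset.mem_Ioc]; omega
  rw [hIcc]
  change ∑ n ∈ Ioc 0 (2 * X), (prC W ⌊(X : ℝ) ^ κ⌋₊ n -
        (if n.Coprime W then (⌊(X : ℝ) ^ κ⌋₊ : ℝ) * W / (W.totient * Real.log X) else 0)) ^ 2 ≤ _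
  rw [pri_split _ X K]
  have h3 : ∑ k ∈ range K,
      ∑ n ∈ Ioc ⌊((1 / 2) ^ k : ℝ) * X⌋₊ ⌊2 * (((1 / 2) ^ k : ℝ) * X)⌋₊,
        (prC W ⌊(X : ℝ) ^ κ⌋₊ n -
        (if n.Coprime W then (⌊(X : ℝ) ^ κ⌋₊ : ℝ) * W / (W.totient * Real.log X) else 0)) ^ 2 ≤
      (η / 2) * X * (⌊(X : ℝ) ^ κ⌋₊ / Real.log X) ^ 2 := by
    refine (Finset.sum_le_sum h2).trans ?_
    rw [Finset.sum_const, card_range, nsmul_eq_mul]
    apply le_of_eq
    field_simp
  have h4 : D * (2 * (1 / 2) ^ K) * X * (⌊(X : ℝ) ^ κ⌋₊ / Real.log X) ^ 2 ≤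
      (η / 2) * X * (⌊(X : ℝ) ^ κ⌋₊ / Real.log X) ^ 2 := by
    have h5 : D * (2 * (1 / 2) ^ K) ≤ η / 2 := by
      rw [lt_div_iff₀ (by positivity)] at hK
      have h6 : (0 : ℝ) ≤ (1 / 2 : ℝ) ^ K := by positivity
      nlinarith
    gcongr
  calc _ ≤ D * (2 * (1 / 2) ^ K) * X * (⌊(X : ℝ) ^ κ⌋₊ / Real.log X) ^ 2 +
        (η / 2) * X * (⌊(X : ℝ) ^ κ⌋₊ / Real.log X) ^ 2 := add_le_add h1 h3
    _ ≤ (η / 2) * X * (⌊(X : ℝ) ^ κ⌋₊ / Real.log X) ^ 2 +
        (η / 2) * X * (⌊(X : ℝ) ^ κ⌋₊ / Real.log X) ^ 2 := by linarith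
    _ = _ := by ring

end Pool.Agent.H43.SI
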