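import Pool.Agent.H43.SI.Ap

/-!
# [H43 SI ADD] Additive short intervals

For a unit `a mod q`, `0 < ε < 1/12`, `η > 0` there is `X0`: for real `X >= X0` and natural `H` with
`X^(1/3+3ε) <= H <= X^(1-ε)`: `Σ_{X<n<=2X} (Σ_{n<m<=n+H, m≡a} Λ(m) - H/φ(q))^2 <= η X H^2`.

PROOF. Let `κ ∈ (0,1/10)` be small (depending on `η`), `δ = κH/X`; for large `X` `δ` is admissible in `ap` for
`X' = X/2, X, 2X` (with `η' = κ^..η` to be chosen). `Th(n) = Σ_{n<m<=n+H, m≡a} Λ(m)`, `S(y) = Sa q a Nm δ y`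
with `Nm >= 24X`. Since `∫ S(y) dy` over an interval `J` equals `Σ_m Λ(m) |{y ∈ J : y < log m <= y+δ}|`:
`(1/δ) ∫_{log n}^{log(n+H)-δ} S <= Th(n) <= (1/δ) ∫_{log n-δ}^{log(n+H)} S`.
Replace `S(y)` by `δe^y/φ(q) + E(y)`: `(1/δ)∫ δ e^y/φ = (upper - lower endpoints exponentiated)/φ`, e.g.
`(n+H)e^(-δ) - n >= H - δ(n+H) >= H - 3κH` and `(n+H) - n e^(-δ) <= H + δn <= H + 2κH`. So
`|Th(n) - H/φ(q)| <= 3κH + (1/δ) ∫_{J_n} |E(y)| dy`, `J_n = [log n - δ, log(n+H)]`, `|J_n| <= 2H/X`, hence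
`(Th(n) - H/φ)^2 <= 18κ^2H^2 + 2 δ^(-2) (2H/X) ∫_{J_n} E^2`. Sum over `n ∈ (X,2X]`: a given `y` lies in `J_n` only
if `e^y - H <= n <= e^(y+δ)`, at most `H + 6δX + 2 <= 3H` values of `n`; `J_n ⊆ [log(X/2), log 4X]`. Total
`<= 36κ^2 H^2 X + 2 δ^(-2)(2H/X)(3H) * 3 * 4 η' δ^2 X^2 <= 36κ^2H^2X + 200 η' H^2 X`. Choose `κ`, then `η'`.
-/

namespace Pool.Agent.H43.SI

open Finset MeasureTheory

/-- sum of `Λ(m)` over `n < m <= n+H`, `m ≡ a` -/
noncomputable def th (q : ℕ) (a : ZMod q) (n H : ℕ) : ℝ :=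
  ∑ m ∈ (Ioc n (n + H)).filter (fun m : ℕ => (m : ZMod q) = a), ArithmeticFunction.vonMangoldt m

/-! ### the indicator of `y < c <= y + δ` -/

private noncomputable def addI (c δ y : ℝ) : ℝ := if y < c ∧ c ≤ y + δ then 1 else 0

private lemma addI_eq (c δ : ℝ) :
    addI c δ = Set.indicator (Set.Ico (c - δ) c) (1 : ℝ → ℝ) := by
  funext y
  unfold addI
  by_cases h : y ∈ Set.Ico (c - δ) c
  · rw [Set.indicator_of_mem h, if_pos ⟨h.2, by linarith [h.1]⟩, Pi.one_apply]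
  · rw [Set.indicator_of_notMem h, if_neg]
    rintro ⟨h1, h2⟩
    exact h ⟨by linarith, h1⟩

private lemma addI_nonneg (c δ y : ℝ) : 0 ≤ addI c δ y := by
  unfold addI
  split_ifs <;> norm_num

private lemma addI_le (c δ y : ℝ) : addI c δ y ≤ 1 := by
  unfold addI
  split_ifs <;> norm_num

private lemma addI_meas (c δ : ℝ) : Measurable (addI c δ) := by
  rw [addI_eq]
  exact measurable_one.indicator measurableSet_Ico

private lemma addI_integral (c δ : ℝ) (hδ : 0 < δ) : ∫ y, addI c δ y = δ := by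
  rw [addI_eq, integral_indicator_one measurableSet_Ico,
    Real.volume_real_Ico_of_le (by linarith)]
  ring

private lemma addI_int (c δ : ℝ) : Integrable (addI c δ) := by
  rw [addI_eq, integrable_indicator_iff measurableSet_Ico]
  have h : IntegrableOn (fun _ : ℝ => (1 : ℝ)) (Set.Ico (c - δ) c) :=
    integrableOn_const (by simp)
  exact h

private lemma addI_full (c δ : ℝ) (hδ : 0 < δ) : ∫ y in (c - δ)..c, addI c δ y = δ := by
  rw [intervalIntegral.integral_of_le (by linarith), integral_Ioc_eq_integral_Ioo]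
  have h1 : ∀ y ∈ Set.Ioo (c - δ) c, addI c δ y = (fun _ : ℝ => (1 : ℝ)) y := by
    intro y hy
    unfold addI
    rw [if_pos ⟨hy.2, by linarith [hy.1]⟩]
  rw [setIntegral_congr_fun measurableSet_Ioo h1]
  simp [hδ.le]

private lemma addI_ge (c δ u v : ℝ) (hδ : 0 < δ) (h1 : u ≤ c - δ) (h2 : c ≤ v) :
    δ ≤ ∫ y in u..v, addI c δ y := by
  have h3 := intervalIntegral.integral_mono_interval (μ := volume) (f := addI c δ) h1
    (show c - δ ≤ c by linarith) h2 (Filter.Eventually.of_forall (addI_nonneg c δ))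
    (addI_int c δ).intervalIntegrable
  rwa [addI_full c δ hδ] at h3

private lemma addI_up (c δ u v : ℝ) (hδ : 0 < δ) (huv : u ≤ v) :
    ∫ y in u..v, addI c δ y ≤ δ := by
  rw [intervalIntegral.integral_of_le huv]
  have h := setIntegral_le_integral (s := Set.Ioc u v) (addI_int c δ)
    (Filter.Eventually.of_forall (addI_nonneg c δ))
  rw [addI_integral c δ hδ] at h
  exact h

private lemma addI_zero (c δ u v : ℝ) (huv : u ≤ v) (h : c ≤ u ∨ v < c - δ) :
    ∫ y in u..v, addI c δ y = 0 := by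
  rw [intervalIntegral.integral_of_le huv]
  apply setIntegral_eq_zero_of_forall_eq_zero
  intro y hy
  unfold addI
  rw [if_neg]
  rintro ⟨h1, h2⟩
  rcases h with h | h
  · linarith [hy.1]
  · linarith [hy.2]

private lemma addI_pos_int (c δ u v : ℝ) (huv : u ≤ v) : 0 ≤ ∫ y in u..v, addI c δ y :=
  intervalIntegral.integral_nonneg huv fun y _ => addI_nonneg c δ y

/-! ### the sums -/

private lemma add_Sa (q : ℕ) (a : ZMod q) (Nm : ℕ) (δ y : ℝ) :
    Sa q a Nm δ y = ∑ m ∈ (Icc 1 Nm).filter (fun m : ℕ => (m : ZMod q) = a),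
      ArithmeticFunction.vonMangoldt m * addI (Real.log m) δ y := by
  unfold Sa addI
  rw [← filter_filter, sum_filter]
  refine sum_congr rfl fun m _ => ?_
  split_ifs <;> simp

private lemma add_Sa_meas (q : ℕ) (a : ZMod q) (Nm : ℕ) (δ : ℝ) :
    Measurable (Sa q a Nm δ) := by
  have h : Sa q a Nm δ = fun y => ∑ m ∈ (Icc 1 Nm).filter (fun m : ℕ => (m : ZMod q) = a),
      ArithmeticFunction.vonMangoldt m * addI (Real.log m) δ y := by
    funext y
    exact add_Sa q a Nm δ y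
  rw [h]
  exact Finset.measurable_sum _ fun m _ => (addI_meas _ _).const_mul _

private lemma add_Sa_int (q : ℕ) (a : ZMod q) (Nm : ℕ) (δ : ℝ) :
    Integrable (Sa q a Nm δ) := by
  have h : Sa q a Nm δ = fun y => ∑ m ∈ (Icc 1 Nm).filter (fun m : ℕ => (m : ZMod q) = a),
      ArithmeticFunction.vonMangoldt m * addI (Real.log m) δ y := by
    funext y
    exact add_Sa q a Nm δ y
  rw [h]
  exact integrable_finsetSum _ fun m _ => (addI_int _ _).const_mul _

private lemma add_Sa_nonneg (q : ℕ) (a : ZMod q) (Nm : ℕ) (δ y : ℝ) : 0 ≤ Sa q a Nm δ y := by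
  rw [add_Sa]
  exact sum_nonneg fun m _ => mul_nonneg ArithmeticFunction.vonMangoldt_nonneg
    (addI_nonneg _ _ _)

private lemma add_Sa_le (q : ℕ) (a : ZMod q) (Nm : ℕ) (δ y : ℝ) :
    Sa q a Nm δ y ≤ ∑ m ∈ (Icc 1 Nm).filter (fun m : ℕ => (m : ZMod q) = a),
      ArithmeticFunction.vonMangoldt m := by
  rw [add_Sa]
  exact sum_le_sum fun m _ => mul_le_of_le_one_right ArithmeticFunction.vonMangoldt_nonneg
    (addI_le _ _ _)

private lemma add_Sa_integral (q : ℕ) (a : ZMod q) (Nm : ℕ) (δ u v : ℝ) :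
    ∫ y in u..v, Sa q a Nm δ y = ∑ m ∈ (Icc 1 Nm).filter (fun m : ℕ => (m : ZMod q) = a),
      ArithmeticFunction.vonMangoldt m * ∫ y in u..v, addI (Real.log m) δ y := by
  have h : Sa q a Nm δ = fun y => ∑ m ∈ (Icc 1 Nm).filter (fun m : ℕ => (m : ZMod q) = a),
      ArithmeticFunction.vonMangoldt m * addI (Real.log m) δ y := by
    funext y
    exact add_Sa q a Nm δ y
  rw [h, intervalIntegral.integral_finsetSum]
  · refine sum_congr rfl fun m _ => ?_
    rw [intervalIntegral.integral_const_mul]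
  · intro m _
    exact ((addI_int _ _).const_mul _).intervalIntegrable

private lemma add_upper (q : ℕ) (a : ZMod q) (Nm : ℕ) (δ : ℝ) (hδ : 0 < δ) (n H : ℕ) (hn : 1 ≤ n)
    (hNm : n + H ≤ Nm) :
    δ * th q a n H ≤ ∫ y in (Real.log n - δ)..(Real.log ((n + H : ℕ) : ℝ)), Sa q a Nm δ y := by
  have hn0 : (0 : ℝ) < n := by exact_mod_cast hn
  have huv : Real.log n ≤ Real.log ((n + H : ℕ) : ℝ) :=
    Real.log_le_log hn0 (by exact_mod_cast Nat.le_add_right n H)
  rw [add_Sa_integral]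
  unfold th
  rw [mul_sum]
  calc ∑ m ∈ (Ioc n (n + H)).filter (fun m : ℕ => (m : ZMod q) = a),
        δ * ArithmeticFunction.vonMangoldt m
      ≤ ∑ m ∈ (Ioc n (n + H)).filter (fun m : ℕ => (m : ZMod q) = a),
        ArithmeticFunction.vonMangoldt m *
          ∫ y in (Real.log n - δ)..(Real.log ((n + H : ℕ) : ℝ)), addI (Real.log m) δ y := by
        refine sum_le_sum fun m hm => ?_
        obtain ⟨h1, h2⟩ := mem_Ioc.1 (mem_filter.1 hm).1
        rw [mul_comm]
        apply mul_le_mul_of_nonneg_left _ ArithmeticFunction.vonMangoldt_nonneg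
        apply addI_ge _ _ _ _ hδ
        · have : Real.log n ≤ Real.log m := Real.log_le_log hn0 (by exact_mod_cast h1.le)
          linarith
        · exact Real.log_le_log (by exact_mod_cast (by omega : 0 < m)) (by exact_mod_cast h2)
    _ ≤ _ := by
        apply sum_le_sum_of_subset_of_nonneg
        · intro m hm
          obtain ⟨h1, h2⟩ := mem_filter.1 hm
          rw [mem_Ioc] at h1
          exact mem_filter.2 ⟨mem_Icc.2 ⟨by omega, by omega⟩, h2⟩
        · intro m _ _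
          exact mul_nonneg ArithmeticFunction.vonMangoldt_nonneg
            (addI_pos_int _ _ _ _ (by linarith))

private lemma add_lower (q : ℕ) (a : ZMod q) (Nm : ℕ) (δ : ℝ) (hδ : 0 < δ) (n H : ℕ) (hn : 1 ≤ n)
    (hNm : n + H ≤ Nm) (huv : Real.log n ≤ Real.log ((n + H : ℕ) : ℝ) - δ) :
    ∫ y in (Real.log n)..(Real.log ((n + H : ℕ) : ℝ) - δ), Sa q a Nm δ y ≤ δ * th q a n H := by
  have hn0 : (0 : ℝ) < n := by exact_mod_cast hn
  rw [add_Sa_integral]
  unfold th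
  rw [mul_sum]
  have hsub : (Ioc n (n + H)).filter (fun m : ℕ => (m : ZMod q) = a) ⊆
      (Icc 1 Nm).filter (fun m : ℕ => (m : ZMod q) = a) := by
    intro m hm
    obtain ⟨h1, h2⟩ := mem_filter.1 hm
    rw [mem_Ioc] at h1
    exact mem_filter.2 ⟨mem_Icc.2 ⟨by omega, by omega⟩, h2⟩
  rw [← sum_subset hsub]
  · refine sum_le_sum fun m hm => ?_
    rw [mul_comm δ]
    exact mul_le_mul_of_nonneg_left (addI_up _ _ _ _ hδ huv)
      ArithmeticFunction.vonMangoldt_nonneg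
  · intro m hm hm2
    obtain ⟨h1, h2⟩ := mem_filter.1 hm
    rw [mem_Icc] at h1
    have h3 : m ≤ n ∨ n + H < m := by
      by_contra hcon
      push Not at hcon
      exact hm2 (mem_filter.2 ⟨mem_Ioc.2 ⟨hcon.1, hcon.2⟩, h2⟩)
    rw [addI_zero _ _ _ _ huv, mul_zero]
    rcases h3 with h3 | h3
    · left
      exact Real.log_le_log (by exact_mod_cast (by omega : 0 < m)) (by exact_mod_cast h3)
    · right
      have : Real.log ((n + H : ℕ) : ℝ) < Real.log m :=
        Real.log_lt_log (by exact_mod_cast (by omega : 0 < n + H)) (by exact_mod_cast h3)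
      linarith

/-! ### the error function -/

private noncomputable def addE (q : ℕ) (a : ZMod q) (Nm : ℕ) (δ y : ℝ) : ℝ :=
  Sa q a Nm δ y - δ * Real.exp y / q.totient

private lemma addE_meas (q : ℕ) (a : ZMod q) (Nm : ℕ) (δ : ℝ) : Measurable (addE q a Nm δ) := by
  unfold addE
  exact (add_Sa_meas q a Nm δ).sub ((Real.measurable_exp.const_mul δ).div_const _)

private lemma add_main_int (q : ℕ) (δ u v : ℝ) :
    IntervalIntegrable (fun y => δ * Real.exp y / (q.totient : ℝ)) volume u v := by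
  apply Continuous.intervalIntegrable
  exact (continuous_const.mul Real.continuous_exp).div_const _

private lemma addE_int (q : ℕ) (a : ZMod q) (Nm : ℕ) (δ u v : ℝ) :
    IntervalIntegrable (addE q a Nm δ) volume u v :=
  (add_Sa_int q a Nm δ).intervalIntegrable.sub (add_main_int q δ u v)

private lemma addE_bound (q : ℕ) (a : ZMod q) (Nm : ℕ) (δ : ℝ) (hδ : 0 < δ) (v y : ℝ)
    (hy : y ≤ v) : |addE q a Nm δ y| ≤
      (∑ m ∈ (Icc 1 Nm).filter (fun m : ℕ => (m : ZMod q) = a),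
        ArithmeticFunction.vonMangoldt m) + δ * Real.exp v / q.totient := by
  unfold addE
  have h1 := add_Sa_nonneg q a Nm δ y
  have h2 := add_Sa_le q a Nm δ y
  have h3 : 0 ≤ δ * Real.exp y / (q.totient : ℝ) := by positivity
  have h4 : δ * Real.exp y / (q.totient : ℝ) ≤ δ * Real.exp v / q.totient := by
    apply div_le_div_of_nonneg_right _ (Nat.cast_nonneg _)
    exact mul_le_mul_of_nonneg_left (Real.exp_le_exp.2 hy) hδ.le
  rw [abs_le]
  constructor <;> linarith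

private lemma addE_sq_int (q : ℕ) (a : ZMod q) (Nm : ℕ) (δ : ℝ) (hδ : 0 < δ) (u v : ℝ)
    (huv : u ≤ v) : IntegrableOn (fun y => addE q a Nm δ y ^ 2) (Set.Ioc u v) volume := by
  have hb : ∀ᵐ y ∂(volume.restrict (Set.Ioc u v)), ‖addE q a Nm δ y ^ 2‖ ≤
      ((∑ m ∈ (Icc 1 Nm).filter
    (fun m : ℕ => (m : ZMod q) = a), ArithmeticFunction.vonMangoldt m) +
      δ * Real.exp v / q.totient) ^ 2 := by
    rw [ae_restrict_iff' measurableSet_Ioc]
    refine Filter.Eventually.of_forall fun y hy => ?_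
    rw [Real.norm_eq_abs, abs_pow]
    exact pow_le_pow_left₀ (abs_nonneg _) (addE_bound q a Nm δ hδ v y hy.2) 2
  exact Measure.integrableOn_of_bounded (by simp)
    ((addE_meas q a Nm δ).pow_const 2).aestronglyMeasurable hb

private lemma addE_sq_ii (q : ℕ) (a : ZMod q) (Nm : ℕ) (δ : ℝ) (hδ : 0 < δ) (u v : ℝ)
    (huv : u ≤ v) : IntervalIntegrable (fun y => addE q a Nm δ y ^ 2) volume u v :=
  (intervalIntegrable_iff_integrableOn_Ioc_of_le huv).2 (addE_sq_int q a Nm δ hδ u v huv)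

/-- Cauchy-Schwarz -/
private lemma add_cs (f : ℝ → ℝ) (u v : ℝ) (huv : u < v) (hf : IntervalIntegrable f volume u v)
    (hf2 : IntervalIntegrable (fun y => f y ^ 2) volume u v) :
    (∫ y in u..v, f y) ^ 2 ≤ (v - u) * ∫ y in u..v, f y ^ 2 := by
  set I := ∫ y in u..v, f y with hI
  set K := ∫ y in u..v, f y ^ 2 with hK
  have hl : 0 < v - u := by linarith
  set t := I / (v - u) with ht
  have h1 : 0 ≤ ∫ y in u..v, (f y - t) ^ 2 :=
    intervalIntegral.integral_nonneg huv.le fun y _ => sq_nonneg _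
  have h2 : ∫ y in u..v, (f y - t) ^ 2 = K - 2 * t * I + t ^ 2 * (v - u) := by
    have e : (fun y => (f y - t) ^ 2) = fun y => (f y ^ 2 - (2 * t) * f y) + t ^ 2 := by
      funext y
      ring
    rw [e, intervalIntegral.integral_add (hf2.sub (hf.const_mul _)) intervalIntegrable_const,
      intervalIntegral.integral_sub hf2 (hf.const_mul _), intervalIntegral.integral_const_mul,
      intervalIntegral.integral_const, smul_eq_mul]
    ring
  rw [h2] at h1
  have h3 : t * (v - u) = I := div_mul_cancel₀ _ hl.ne'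
  have h4 : (v - u) * (K - 2 * t * I + t ^ 2 * (v - u)) = (v - u) * K - I ^ 2 := by
    have e : (v - u) * (K - 2 * t * I + t ^ 2 * (v - u)) =
        (v - u) * K - 2 * (t * (v - u)) * I + (t * (v - u)) ^ 2 := by ring
    rw [e, h3]
    ring
  have h5 := mul_nonneg hl.le h1
  rw [h4] at h5
  linarith

/-- the pointwise estimate -/
private lemma add_point (q : ℕ) [NeZero q] (a : ZMod q) (Nm : ℕ) (X δ κ : ℝ) (hX : 10 ≤ X)
    (hκ0 : 0 < κ) (hκ : κ ≤ 1 / 20) (n H : ℕ) (hH1 : 1 ≤ H) (hHX : (H : ℝ) ≤ X)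
    (hδ : δ = κ * H / X) (hn1 : X < n) (hn2 : (n : ℝ) ≤ 2 * X) (hNm : n + H ≤ Nm) :
    (th q a n H - H / q.totient) ^ 2 ≤ 18 * κ ^ 2 * (H : ℝ) ^ 2 +
      4 * H / (X * δ ^ 2) *
        ∫ y in (Real.log n - δ)..(Real.log ((n + H : ℕ) : ℝ)), addE q a Nm δ y ^ 2 := by
  have hX0 : 0 < X := by linarith
  have hH0 : (0 : ℝ) < H := by exact_mod_cast hH1
  have hn0 : (0 : ℝ) < n := by linarith
  have hn1' : 1 ≤ n := by
    have : (0 : ℝ) < n := hn0
    exact_mod_cast this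
  have hδ0 : 0 < δ := by rw [hδ]; positivity
  have hδX : δ * X = κ * H := by rw [hδ]; field_simp
  have hδκ : δ ≤ κ := by
    rw [hδ, div_le_iff₀ hX0]
    exact mul_le_mul_of_nonneg_left hHX hκ0.le
  set V : ℝ := (q.totient : ℝ) with hV
  have hV1 : 1 ≤ V := by
    have : 0 < q.totient := Nat.totient_pos.2 (Nat.pos_of_ne_zero (NeZero.ne q))
    rw [hV]
    exact_mod_cast this
  set N' : ℝ := ((n + H : ℕ) : ℝ) with hN'
  have hN'e : N' = n + H := by rw [hN']; push_cast; rfl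
  have hN'0 : 0 < N' := by rw [hN'e]; linarith
  have hlog1 : Real.log N' - Real.log n = Real.log (N' / n) :=
    (Real.log_div hN'0.ne' hn0.ne').symm
  -- log(1 + H/n) >= H/(n+H) >= H/(3X) > δ
  have hlow : δ ≤ Real.log N' - Real.log n := by
    rw [hlog1]
    have h1 := Real.one_sub_inv_le_log_of_pos (show 0 < N' / n by positivity)
    have h2 : 1 - (N' / n)⁻¹ = H / N' := by
      rw [inv_div]
      field_simp
      rw [hN'e]
      ring
    rw [h2] at h1
    refine le_trans ?_ h1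
    rw [le_div_iff₀ hN'0]
    have h3 : N' ≤ 3 * X := by rw [hN'e]; linarith
    calc δ * N' ≤ δ * (3 * X) := mul_le_mul_of_nonneg_left h3 hδ0.le
      _ = 3 * κ * H := by rw [← mul_assoc, mul_comm δ 3, mul_assoc, hδX]; ring
      _ ≤ 1 * H := mul_le_mul_of_nonneg_right (by linarith) hH0.le
      _ = H := one_mul _
  have hup : Real.log N' - Real.log n ≤ H / X := by
    rw [hlog1]
    have h1 := Real.log_le_sub_one_of_pos (show 0 < N' / n by positivity)
    have h2 : N' / n - 1 = H / n := by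
      rw [hN'e]
      field_simp
      ring
    rw [h2] at h1
    exact h1.trans (div_le_div_of_nonneg_left hH0.le hX0 hn1.le)
  set u1 := Real.log n - δ with hu1
  set v1 := Real.log N' with hv1
  have huv1 : u1 < v1 := by linarith
  have hA := add_upper q a Nm δ hδ0 n H hn1' hNm
  have hB := add_lower q a Nm δ hδ0 n H hn1' hNm (by linarith)
  rw [← hN', ← hu1, ← hv1] at hA
  rw [← hN', ← hv1] at hB
  have hSE : ∀ u v : ℝ, ∫ y in u..v, Sa q a Nm δ y =
      (∫ y in u..v, addE q a Nm δ y) + δ / V * (Real.exp v - Real.exp u) := by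
    intro u v
    have e : (fun y => Sa q a Nm δ y) = fun y => addE q a Nm δ y + δ * Real.exp y / V := by
      funext y
      unfold addE
      ring
    rw [e, intervalIntegral.integral_add (addE_int q a Nm δ u v) (add_main_int q δ u v)]
    congr 1
    have e2 : (fun y => δ * Real.exp y / V) = fun y => δ / V * Real.exp y := by
      funext y
      ring
    rw [e2, intervalIntegral.integral_const_mul, integral_exp]
  rw [hSE] at hA hB
  set I := ∫ y in u1..v1, |addE q a Nm δ y| with hI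
  have hI0 : 0 ≤ I := intervalIntegral.integral_nonneg huv1.le fun y _ => abs_nonneg _
  have hEa : ∀ u v : ℝ, u ≤ v → |∫ y in u..v, addE q a Nm δ y| ≤
      ∫ y in u..v, |addE q a Nm δ y| := fun u v h =>
    intervalIntegral.abs_integral_le_integral_abs h
  have hIA : ∫ y in u1..v1, addE q a Nm δ y ≤ I := (le_abs_self _).trans (hEa u1 v1 huv1.le)
  have hIB : -I ≤ ∫ y in (Real.log n)..(v1 - δ), addE q a Nm δ y := by
    have h1 := hEa (Real.log n) (v1 - δ) (by linarith)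
    have h2 : ∫ y in (Real.log n)..(v1 - δ), |addE q a Nm δ y| ≤ I := by
      apply intervalIntegral.integral_mono_interval (μ := volume)
        (f := fun y => |addE q a Nm δ y|) (by linarith) (by linarith) (by linarith)
        (Filter.Eventually.of_forall fun y => abs_nonneg _)
      exact (addE_int q a Nm δ u1 v1).abs
    have h3 := neg_abs_le (∫ y in (Real.log n)..(v1 - δ), addE q a Nm δ y)
    linarith
  have hexp1 : Real.exp v1 = n + H := by rw [hv1, Real.exp_log hN'0, hN'e]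
  have hexp2 : Real.exp (Real.log n) = n := Real.exp_log hn0
  have hd := Real.add_one_le_exp (-δ)
  have hexp3 : (n : ℝ) * (1 - δ) ≤ Real.exp u1 := by
    rw [hu1, show Real.log n - δ = Real.log n + (-δ) by ring, Real.exp_add, hexp2]
    exact mul_le_mul_of_nonneg_left (by linarith) hn0.le
  have hexp4 : ((n : ℝ) + H) * (1 - δ) ≤ Real.exp (v1 - δ) := by
    rw [show v1 - δ = v1 + (-δ) by ring, Real.exp_add, hexp1]
    exact mul_le_mul_of_nonneg_left (by linarith) (by linarith)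
  set T := th q a n H with hT
  have hδV : 0 ≤ δ / V := by positivity
  have hδV1 : δ / V ≤ δ := div_le_self hδ0.le hV1
  have hU : δ * (T - H / V) ≤ I + 3 * κ * H * δ := by
    have h1 : δ / V * (Real.exp v1 - Real.exp u1) ≤ δ / V * (H + n * δ) := by
      apply mul_le_mul_of_nonneg_left _ hδV
      rw [hexp1]
      linarith
    have h2 : δ / V * (n * δ) ≤ δ * (2 * X * δ) := by
      apply mul_le_mul hδV1 _ (by positivity) hδ0.le
      exact mul_le_mul_of_nonneg_right hn2 hδ0.le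
    have h3 : δ * (2 * X * δ) ≤ 3 * κ * H * δ := by
      have : δ * (2 * X * δ) = 2 * (δ * X) * δ := by ring
      rw [this, hδX]
      have : 0 ≤ κ * H * δ := by positivity
      nlinarith
    have h4 : δ / V * (H + n * δ) = δ * (H / V) + δ / V * (n * δ) := by ring
    have h5 : δ * (T - H / V) = δ * T - δ * (H / V) := by ring
    rw [h5]
    linarith
  have hL : -(I + 3 * κ * H * δ) ≤ δ * (T - H / V) := by
    have h1 : δ / V * (H - (n + H) * δ) ≤ δ / V * (Real.exp (v1 - δ) - Real.exp (Real.log n)) := by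
      apply mul_le_mul_of_nonneg_left _ hδV
      rw [hexp2]
      linarith
    have h2 : δ / V * ((n + H) * δ) ≤ δ * (3 * X * δ) := by
      apply mul_le_mul hδV1 _ (by positivity) hδ0.le
      exact mul_le_mul_of_nonneg_right (by linarith) hδ0.le
    have h3 : δ * (3 * X * δ) = 3 * κ * H * δ := by
      have : δ * (3 * X * δ) = 3 * (δ * X) * δ := by ring
      rw [this, hδX]
      ring
    have h4 : δ / V * (H - (n + H) * δ) = δ * (H / V) - δ / V * ((n + H) * δ) := by ring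
    have h5 : δ * (T - H / V) = δ * T - δ * (H / V) := by ring
    rw [h5]
    linarith
  have hsq : δ ^ 2 * (T - H / V) ^ 2 ≤ 2 * I ^ 2 + 18 * κ ^ 2 * (H : ℝ) ^ 2 * δ ^ 2 := by
    have h1 : (δ * (T - H / V)) ^ 2 ≤ (I + 3 * κ * H * δ) ^ 2 := sq_le_sq' hL hU
    have h2 : (I + 3 * κ * H * δ) ^ 2 ≤ 2 * I ^ 2 + 2 * (3 * κ * H * δ) ^ 2 := by
      nlinarith [sq_nonneg (I - 3 * κ * H * δ)]
    calc δ ^ 2 * (T - H / V) ^ 2 = (δ * (T - H / V)) ^ 2 := by ring
      _ ≤ 2 * I ^ 2 + 2 * (3 * κ * H * δ) ^ 2 := h1.trans h2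
      _ = _ := by ring
  have hcs : I ^ 2 ≤ (v1 - u1) * ∫ y in u1..v1, addE q a Nm δ y ^ 2 := by
    have h1 := add_cs (fun y => |addE q a Nm δ y|) u1 v1 huv1 (addE_int q a Nm δ u1 v1).abs (by
      have := addE_sq_ii q a Nm δ hδ0 u1 v1 huv1.le
      simpa only [sq_abs] using this)
    simpa only [sq_abs] using h1
  set K := ∫ y in u1..v1, addE q a Nm δ y ^ 2 with hK
  have hK0 : 0 ≤ K := intervalIntegral.integral_nonneg huv1.le fun y _ => sq_nonneg _
  have hlen : v1 - u1 ≤ 2 * H / X := by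
    have h1 : v1 - u1 = (Real.log N' - Real.log n) + δ := by rw [hv1, hu1]; ring
    have h2 : δ ≤ H / X := by
      rw [hδ]
      apply div_le_div_of_nonneg_right _ hX0.le
      calc κ * H ≤ 1 * H := mul_le_mul_of_nonneg_right (by linarith) hH0.le
        _ = H := one_mul _
    rw [h1]
    calc (Real.log N' - Real.log n) + δ ≤ H / X + H / X := add_le_add hup h2
      _ = 2 * H / X := by ring
  have hI2 : I ^ 2 ≤ 2 * H / X * K := hcs.trans (mul_le_mul_of_nonneg_right hlen hK0)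
  have hδ2 : 0 < δ ^ 2 := by positivity
  have hfin : (T - H / V) ^ 2 ≤ (2 * (2 * H / X * K) + 18 * κ ^ 2 * (H : ℝ) ^ 2 * δ ^ 2) / δ ^ 2 := by
    rw [le_div_iff₀ hδ2, mul_comm]
    linarith
  refine hfin.trans (le_of_eq ?_)
  field_simp
  ring

/-! ### counting -/

private lemma add_card (S : Finset ℕ) (α β : ℝ) (h1 : ∀ n ∈ S, α ≤ n) (h2 : ∀ n ∈ S, (n : ℝ) ≤ β)
    (h3 : S.Nonempty) : (S.card : ℝ) ≤ β - α + 1 := by
  have h4 : S ⊆ Icc (S.min' h3) (S.max' h3) := fun n hn =>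
    mem_Icc.2 ⟨S.min'_le n hn, S.le_max' n hn⟩
  have h5 := card_le_card h4
  rw [Nat.card_Icc] at h5
  have h6 : S.min' h3 ≤ S.max' h3 := S.min'_le _ (S.max'_mem h3)
  have h7 : (S.card : ℝ) ≤ S.max' h3 + 1 - S.min' h3 := by
    have : S.card + S.min' h3 ≤ S.max' h3 + 1 := by omega
    have h8 : ((S.card + S.min' h3 : ℕ) : ℝ) ≤ ((S.max' h3 + 1 : ℕ) : ℝ) := by exact_mod_cast this
    push_cast at h8
    linarith
  have h8 := h1 _ (S.min'_mem h3)
  have h9 := h2 _ (S.max'_mem h3)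
  linarith

private lemma add_count (X δ κ : ℝ) (hX : 10 ≤ X)
    (hκ0 : 0 < κ) (hκ : κ ≤ 1 / 20) (H : ℕ) (hH1 : 1 ≤ H) (hHX : (H : ℝ) ≤ X)
    (hδ : δ = κ * H / X) (y : ℝ) :
    (((Ioc ⌊X⌋₊ ⌊2 * X⌋₊).filter (fun n : ℕ => Real.log n - δ < y ∧
      y ≤ Real.log ((n + H : ℕ) : ℝ))).card : ℝ) ≤ 3 * H := by
  have hX0 : 0 < X := by linarith
  have hH0 : (1 : ℝ) ≤ H := by exact_mod_cast hH1
  set S := (Ioc ⌊X⌋₊ ⌊2 * X⌋₊).filter (fun n : ℕ => Real.log n - δ < y ∧
      y ≤ Real.log ((n + H : ℕ) : ℝ)) with hS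
  rcases S.eq_empty_or_nonempty with h0 | h0
  · rw [h0]
    simp
  · have hδ0 : 0 < δ := by rw [hδ]; positivity
    have hδX : δ * X = κ * H := by rw [hδ]; field_simp
    have hδκ : δ ≤ κ := by
      rw [hδ, div_le_iff₀ hX0]
      exact mul_le_mul_of_nonneg_left hHX hκ0.le
    have hmem : ∀ n ∈ S, X < n ∧ (n : ℝ) ≤ 2 * X ∧ Real.log n - δ < y ∧
        y ≤ Real.log ((n + H : ℕ) : ℝ) := by
      intro n hn
      obtain ⟨h1, h2, h3⟩ := mem_filter.1 hn
      rw [mem_Ioc] at h1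
      refine ⟨(Nat.floor_lt hX0.le).1 h1.1, ?_, h2, h3⟩
      exact (Nat.le_floor_iff (by linarith)).1 h1.2
    have h1 : ∀ n ∈ S, Real.exp y - H ≤ n := by
      intro n hn
      obtain ⟨a1, a2, a3, a4⟩ := hmem n hn
      have hpos : (0 : ℝ) < ((n + H : ℕ) : ℝ) := by push_cast; linarith
      have := Real.exp_le_exp.2 a4
      rw [Real.exp_log hpos] at this
      push_cast at this
      linarith
    have h2 : ∀ n ∈ S, (n : ℝ) ≤ Real.exp y * Real.exp δ := by
      intro n hn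
      obtain ⟨a1, a2, a3, a4⟩ := hmem n hn
      have hpos : (0 : ℝ) < n := by linarith
      have := Real.exp_le_exp.2 (show Real.log n ≤ y + δ by linarith)
      rwa [Real.exp_log hpos, Real.exp_add] at this
    have h3 := add_card S _ _ h1 h2 h0
    obtain ⟨n0, hn0⟩ := h0
    have h4 := h1 n0 hn0
    obtain ⟨a1, a2, a3, a4⟩ := hmem n0 hn0
    have h5 : Real.exp y ≤ 3 * X := by linarith
    have h6 : Real.exp δ - 1 ≤ 2 * δ := by
      have h7 := Real.abs_exp_sub_one_le (x := δ) (by rw [abs_of_pos hδ0]; linarith)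
      rw [abs_of_pos hδ0] at h7
      exact (le_abs_self _).trans h7
    have h7 : Real.exp y * (Real.exp δ - 1) ≤ 3 * X * (2 * δ) := by
      apply mul_le_mul h5 h6 _ (by positivity)
      linarith [Real.add_one_le_exp δ]
    have h8 : 3 * X * (2 * δ) = 6 * κ * H := by
      have : 3 * X * (2 * δ) = 6 * (δ * X) := by ring
      rw [this, hδX]
      ring
    have h9 : 6 * κ * H ≤ 1 * H := mul_le_mul_of_nonneg_right (by linarith) (by linarith)
    have h10 : Real.exp y * Real.exp δ - (Real.exp y - H) + 1 =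
        Real.exp y * (Real.exp δ - 1) + H + 1 := by ring
    linarith

/-- the sum over `n` of the local second moments -/
private lemma add_sum (q : ℕ) (a : ZMod q) (Nm : ℕ) (X δ κ : ℝ) (hX : 10 ≤ X)
    (hκ0 : 0 < κ) (hκ : κ ≤ 1 / 20) (H : ℕ) (hH1 : 1 ≤ H) (hHX : (H : ℝ) ≤ X)
    (hδ : δ = κ * H / X) :
    ∑ n ∈ Ioc ⌊X⌋₊ ⌊2 * X⌋₊,
      ∫ y in (Real.log n - δ)..(Real.log ((n + H : ℕ) : ℝ)), addE q a Nm δ y ^ 2 ≤
    3 * H * ∫ y in (Real.log (X / 2))..(Real.log (4 * X)), addE q a Nm δ y ^ 2 := by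
  have hX0 : 0 < X := by linarith
  have hH0 : (1 : ℝ) ≤ H := by exact_mod_cast hH1
  have hδ0 : 0 < δ := by rw [hδ]; positivity
  have hδκ : δ ≤ κ := by
    rw [hδ, div_le_iff₀ hX0]
    exact mul_le_mul_of_nonneg_left hHX hκ0.le
  set L := Real.log (X / 2) with hL
  set U := Real.log (4 * X) with hU
  have hLU : L ≤ U := Real.log_le_log (by linarith) (by linarith)
  set f : ℝ → ℝ := fun y => addE q a Nm δ y ^ 2 with hf
  have hfi : IntegrableOn f (Set.Ioc L U) volume := addE_sq_int q a Nm δ hδ0 L U hLU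
  have hf0 : ∀ y, 0 ≤ f y := fun y => sq_nonneg _
  have hterm : ∀ n ∈ Ioc ⌊X⌋₊ ⌊2 * X⌋₊,
      ∫ y in (Real.log n - δ)..(Real.log ((n + H : ℕ) : ℝ)), f y =
      ∫ y in Set.Ioc L U, Set.indicator (Set.Ioc (Real.log n - δ)
        (Real.log ((n + H : ℕ) : ℝ))) f y := by
    intro n hn
    rw [mem_Ioc] at hn
    have hn1 : X < n := (Nat.floor_lt hX0.le).1 hn.1
    have hn2 : (n : ℝ) ≤ 2 * X := (Nat.le_floor_iff (by linarith)).1 hn.2
    have hn0 : (0 : ℝ) < n := by linarith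
    have hle : Real.log n ≤ Real.log ((n + H : ℕ) : ℝ) :=
      Real.log_le_log hn0 (by exact_mod_cast Nat.le_add_right n H)
    rw [intervalIntegral.integral_of_le (by linarith), setIntegral_indicator measurableSet_Ioc]
    congr 2
    symm
    rw [Set.inter_eq_right]
    apply Set.Ioc_subset_Ioc
    · have h1 : Real.log X ≤ Real.log n := Real.log_le_log hX0 hn1.le
      have h2 : L = Real.log X - Real.log 2 := Real.log_div hX0.ne' (by norm_num)
      have h3 := Real.log_two_gt_d9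
      linarith
    · apply Real.log_le_log
      · push_cast
        linarith
      · push_cast
        linarith
  rw [sum_congr rfl hterm, ← integral_finsetSum]
  · rw [intervalIntegral.integral_of_le hLU, ← integral_const_mul]
    apply setIntegral_mono_on
    · exact integrable_finsetSum _ fun n _ => hfi.indicator measurableSet_Ioc
    · exact hfi.const_mul _
    · exact measurableSet_Ioc
    · intro y _
      have h1 : ∑ n ∈ Ioc ⌊X⌋₊ ⌊2 * X⌋₊, Set.indicator (Set.Ioc (Real.log n - δ)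
          (Real.log ((n + H : ℕ) : ℝ))) f y =
          (((Ioc ⌊X⌋₊ ⌊2 * X⌋₊).filter (fun n : ℕ => Real.log n - δ < y ∧
            y ≤ Real.log ((n + H : ℕ) : ℝ))).card : ℝ) * f y := by
        have h2 : ∀ n ∈ Ioc ⌊X⌋₊ ⌊2 * X⌋₊, Set.indicator (Set.Ioc (Real.log n - δ)
            (Real.log ((n + H : ℕ) : ℝ))) f y =
            if (Real.log n - δ < y ∧ y ≤ Real.log ((n + H : ℕ) : ℝ)) then f y else 0 := by
          intro n _
          by_cases h : Real.log n - δ < y ∧ y ≤ Real.log ((n + H : ℕ) : ℝ)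
          · rw [if_pos h, Set.indicator_of_mem (show y ∈ Set.Ioc _ _ from h)]
          · rw [if_neg h, Set.indicator_of_notMem (show y ∉ Set.Ioc _ _ from h)]
        rw [sum_congr rfl h2, ← sum_filter, sum_const, nsmul_eq_mul]
      rw [h1]
      exact mul_le_mul_of_nonneg_right (add_count X δ κ hX hκ0 hκ H hH1 hHX hδ y) (hf0 y)
  · intro n _
    exact hfi.indicator measurableSet_Ioc

/-! ### the parameters -/

private lemma add_params (ε A1 κ X1 : ℝ) (hε : 0 < ε) (hε1 : ε < 1 / 12) (hA1 : 0 < A1)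
    (hκ0 : 0 < κ) (hκ : κ ≤ 1 / 20) : ∃ X0 : ℝ, 10 ≤ X0 ∧ ∀ (X : ℝ) (H : ℕ), X0 ≤ X →
    X ^ ((1 : ℝ) / 3 + 3 * ε) ≤ H → (H : ℝ) ≤ X ^ (1 - ε) →
    1 ≤ H ∧ (H : ℝ) ≤ X ∧ ∀ X' : ℝ, X / 2 ≤ X' → X' ≤ 2 * X → X1 ≤ X' ∧
      X' ^ (-(2 : ℝ) / 3 + 2 * ε) ≤ κ * H / X ∧ κ * H / X ≤ (Real.log X') ^ (-A1) := by
  have ev1 : ∀ᶠ X : ℝ in Filter.atTop, 2 / κ ≤ X ^ ε :=
    (tendsto_rpow_atTop hε).eventually_ge_atTop _
  have ev2 : ∀ᶠ X : ℝ in Filter.atTop, (Real.log (2 * X)) ^ A1 ≤ (2 * X) ^ ε := by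
    have h1 := (isLittleO_log_rpow_rpow_atTop A1 hε).bound (show (0 : ℝ) < 1 by norm_num)
    have h2 : Filter.Tendsto (fun X : ℝ => 2 * X) Filter.atTop Filter.atTop :=
      Filter.tendsto_id.const_mul_atTop (by norm_num)
    filter_upwards [h2.eventually h1, Filter.eventually_ge_atTop (1 : ℝ)] with X hX hX1
    have hl : 0 ≤ Real.log (2 * X) := Real.log_nonneg (by linarith)
    rw [Real.norm_of_nonneg (Real.rpow_nonneg hl _),
      Real.norm_of_nonneg (Real.rpow_nonneg (by linarith) _), one_mul] at hX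
    exact hX
  obtain ⟨X2, hX2⟩ := Filter.eventually_atTop.1 (ev1.and ev2)
  refine ⟨max 20 (max (2 * X1) X2), (by norm_num : (10 : ℝ) ≤ 20).trans (le_max_left _ _), ?_⟩
  intro X H hX hH1 hH2
  have hX20 : 20 ≤ X := (le_max_left _ _).trans hX
  have hXX1 : 2 * X1 ≤ X := ((le_max_left _ _).trans (le_max_right _ _)).trans hX
  obtain ⟨hk, hlog⟩ := hX2 X (((le_max_right _ _).trans (le_max_right _ _)).trans hX)
  have hX0 : 0 < X := by linarith
  have hX1 : 1 ≤ X := by linarith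
  have hHX : (H : ℝ) ≤ X := by
    refine hH2.trans ?_
    calc X ^ (1 - ε) ≤ X ^ (1 : ℝ) := Real.rpow_le_rpow_of_exponent_le hX1 (by linarith)
      _ = X := Real.rpow_one X
  refine ⟨?_, hHX, ?_⟩
  · have h1 : (1 : ℝ) ≤ X ^ ((1 : ℝ) / 3 + 3 * ε) := Real.one_le_rpow hX1 (by linarith)
    exact_mod_cast h1.trans hH1
  · intro X' hX'1 hX'2
    have hX'0 : 0 < X' := by linarith
    refine ⟨by linarith, ?_, ?_⟩
    · have h1 : X' ^ (-(2 : ℝ) / 3 + 2 * ε) ≤ (X / 2) ^ (-(2 : ℝ) / 3 + 2 * ε) :=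
        Real.rpow_le_rpow_of_nonpos (by linarith) hX'1 (by linarith)
      have h2 : (X / 2) ^ (-(2 : ℝ) / 3 + 2 * ε) ≤ 2 * X ^ (-(2 : ℝ) / 3 + 2 * ε) := by
        rw [Real.div_rpow hX0.le (by norm_num), div_eq_mul_inv, ← Real.rpow_neg (by norm_num),
          mul_comm]
        apply mul_le_mul_of_nonneg_right _ (Real.rpow_nonneg hX0.le _)
        calc (2 : ℝ) ^ (-(-(2 : ℝ) / 3 + 2 * ε)) ≤ 2 ^ (1 : ℝ) :=
              Real.rpow_le_rpow_of_exponent_le (by norm_num) (by linarith)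
          _ = 2 := Real.rpow_one 2
      have h3 : 2 * X ^ (-(2 : ℝ) / 3 + 2 * ε) ≤ κ * X ^ ((1 : ℝ) / 3 + 3 * ε) / X := by
        have e1 : X ^ ((1 : ℝ) / 3 + 3 * ε) / X = X ^ ε * X ^ (-(2 : ℝ) / 3 + 2 * ε) := by
          rw [← Real.rpow_add hX0]
          nth_rewrite 2 [← Real.rpow_one X]
          rw [← Real.rpow_sub hX0]
          congr 1
          ring
        rw [mul_div_assoc, e1, ← mul_assoc]
        apply mul_le_mul_of_nonneg_right _ (Real.rpow_nonneg hX0.le _)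
        rw [div_le_iff₀ hκ0] at hk
        linarith
      have h4 : κ * X ^ ((1 : ℝ) / 3 + 3 * ε) / X ≤ κ * H / X := by
        apply div_le_div_of_nonneg_right _ hX0.le
        exact mul_le_mul_of_nonneg_left hH1 hκ0.le
      linarith
    · have hlX' : 0 < Real.log X' := Real.log_pos (by linarith)
      have hl2X : 0 < Real.log (2 * X) := Real.log_pos (by linarith)
      have h1 : (Real.log (2 * X)) ^ (-A1) ≤ (Real.log X') ^ (-A1) :=
        Real.rpow_le_rpow_of_nonpos hlX' (Real.log_le_log hX'0 hX'2) (by linarith)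
      refine le_trans ?_ h1
      have h2 : κ * H / X ≤ κ * X ^ (1 - ε) / X := by
        apply div_le_div_of_nonneg_right _ hX0.le
        exact mul_le_mul_of_nonneg_left hH2 hκ0.le
      have e1 : X ^ (1 - ε) / X = (X ^ ε)⁻¹ := by
        nth_rewrite 2 [← Real.rpow_one X]
        rw [← Real.rpow_sub hX0, ← Real.rpow_neg hX0.le]
        congr 1
        ring
      refine h2.trans ?_
      rw [mul_div_assoc, e1, Real.rpow_neg hl2X.le]
      have hP : 0 < X ^ ε := Real.rpow_pos_of_pos hX0 _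
      have hQ : 0 < Real.log (2 * X) ^ A1 := Real.rpow_pos_of_pos hl2X _
      rw [← div_eq_mul_inv, ← one_div, div_le_div_iff₀ hP hQ, one_mul]
      have h3 : (2 * X) ^ ε = 2 ^ ε * X ^ ε := Real.mul_rpow (by norm_num) hX0.le
      have h4 : (2 : ℝ) ^ ε ≤ 2 := by
        calc (2 : ℝ) ^ ε ≤ 2 ^ (1 : ℝ) :=
              Real.rpow_le_rpow_of_exponent_le (by norm_num) (by linarith)
          _ = 2 := Real.rpow_one 2
      calc κ * Real.log (2 * X) ^ A1 ≤ κ * (2 ^ ε * X ^ ε) := by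
            rw [← h3]
            exact mul_le_mul_of_nonneg_left hlog hκ0.le
        _ ≤ κ * (2 * X ^ ε) := by gcongr
        _ = (2 * κ) * X ^ ε := by ring
        _ ≤ 1 * X ^ ε := mul_le_mul_of_nonneg_right (by linarith) hP.le
        _ = X ^ ε := one_mul _

theorem add (q : ℕ) [NeZero q] (ε η : ℝ) (hε : 0 < ε) (hε1 : ε < 1 / 12) (hη : 0 < η) :
    ∃ X0 : ℝ, 10 ≤ X0 ∧ ∀ a : ZMod q, IsUnit a → ∀ (X : ℝ) (H : ℕ), X0 ≤ X →
    X ^ ((1 : ℝ) / 3 + 3 * ε) ≤ H → (H : ℝ) ≤ X ^ (1 - ε) →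
    ∑ n ∈ Ioc ⌊X⌋₊ ⌊2 * X⌋₊, (th q a n H - H / q.totient) ^ 2 ≤ η * X * (H : ℝ) ^ 2 := by
  obtain ⟨A1, hA1, hap⟩ := ap q ε hε hε1
  obtain ⟨X1, hX1, hap⟩ := hap (η / 144) (by positivity)
  set κ : ℝ := min (1 / 20) (min 1 η / 9) with hκdef
  have hκ0 : 0 < κ := by
    rw [hκdef]
    positivity
  have hκ : κ ≤ 1 / 20 := min_le_left _ _
  have hκη : 36 * κ ^ 2 ≤ η / 2 := by
    have h1 : κ ≤ min 1 η / 9 := min_le_right _ _
    have h2 : min 1 η ≤ 1 := min_le_left _ _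
    have h3 : min 1 η ≤ η := min_le_right _ _
    have h4 : 0 < min 1 η := lt_min one_pos hη
    have h5 : κ ^ 2 ≤ (min 1 η / 9) ^ 2 := pow_le_pow_left₀ hκ0.le h1 2
    have h6 : (min 1 η / 9) ^ 2 ≤ min 1 η / 81 := by
      rw [div_pow]
      norm_num
      nlinarith
    linarith
  obtain ⟨X0, hX0, hpar⟩ := add_params ε A1 κ X1 hε hε1 hA1 hκ0 hκ
  refine ⟨X0, hX0, fun a ha X H hX hH1 hH2 => ?_⟩
  obtain ⟨hH, hHX, hpar⟩ := hpar X H hX hH1 hH2
  have hX10 : 10 ≤ X := hX0.trans hX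
  have hXp : 0 < X := by linarith
  have hHR : (1 : ℝ) ≤ H := by exact_mod_cast hH
  set δ : ℝ := κ * H / X with hδ
  have hδ0 : 0 < δ := by rw [hδ]; positivity
  obtain ⟨Nm, hNm⟩ := exists_nat_ge (24 * X)
  have hE : ∀ X' : ℝ, X / 2 ≤ X' → X' ≤ 2 * X →
      ∫ y in (Real.log X')..(Real.log (2 * X')), addE q a Nm δ y ^ 2 ≤
        η / 144 * δ ^ 2 * X' ^ 2 := by
    intro X' h1 h2
    obtain ⟨p1, p2, p3⟩ := hpar X' h1 h2
    exact hap a ha X' δ p1 p2 p3 Nm (by linarith)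
  have hE1 := hE (X / 2) le_rfl (by linarith)
  have hE2 := hE X (by linarith) (by linarith)
  have hE3 := hE (2 * X) (by linarith) le_rfl
  rw [show 2 * (X / 2) = X by ring] at hE1
  rw [show 2 * (2 * X) = 4 * X by ring] at hE3
  have hl1 : Real.log (X / 2) ≤ Real.log X := Real.log_le_log (by linarith) (by linarith)
  have hl2 : Real.log X ≤ Real.log (2 * X) := Real.log_le_log hXp (by linarith)
  have hl3 : Real.log (2 * X) ≤ Real.log (4 * X) := Real.log_le_log (by linarith) (by linarith)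
  have hK : ∫ y in (Real.log (X / 2))..(Real.log (4 * X)), addE q a Nm δ y ^ 2 ≤
      6 * (η / 144 * δ ^ 2 * X ^ 2) := by
    have i1 := addE_sq_ii q a Nm δ hδ0 _ _ hl1
    have i2 := addE_sq_ii q a Nm δ hδ0 _ _ hl2
    have i3 := addE_sq_ii q a Nm δ hδ0 _ _ hl3
    rw [← intervalIntegral.integral_add_adjacent_intervals (i1.trans i2) i3,
      ← intervalIntegral.integral_add_adjacent_intervals i1 i2]
    have h0 : 0 ≤ η / 144 * δ ^ 2 * X ^ 2 := by positivity
    have e1 : η / 144 * δ ^ 2 * (X / 2) ^ 2 = 1 / 4 * (η / 144 * δ ^ 2 * X ^ 2) := by ring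
    have e3 : η / 144 * δ ^ 2 * (2 * X) ^ 2 = 4 * (η / 144 * δ ^ 2 * X ^ 2) := by ring
    rw [e1] at hE1
    rw [e3] at hE3
    linarith
  set K := ∫ y in (Real.log (X / 2))..(Real.log (4 * X)), addE q a Nm δ y ^ 2 with hKdef
  have hsum := add_sum q a Nm X δ κ hX10 hκ0 hκ H hH hHX hδ
  rw [← hKdef] at hsum
  have hpt : ∀ n ∈ Ioc ⌊X⌋₊ ⌊2 * X⌋₊, (th q a n H - H / q.totient) ^ 2 ≤
      18 * κ ^ 2 * (H : ℝ) ^ 2 + 4 * H / (X * δ ^ 2) *
        ∫ y in (Real.log n - δ)..(Real.log ((n + H : ℕ) : ℝ)), addE q a Nm δ y ^ 2 := by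
    intro n hn
    rw [mem_Ioc] at hn
    have hn1 : X < n := (Nat.floor_lt hXp.le).1 hn.1
    have hn2 : (n : ℝ) ≤ 2 * X := (Nat.le_floor_iff (by linarith)).1 hn.2
    refine add_point q a Nm X δ κ hX10 hκ0 hκ n H hH hHX hδ hn1 hn2 ?_
    have : ((n + H : ℕ) : ℝ) ≤ Nm := by push_cast; linarith
    exact_mod_cast this
  have hcard : ((Ioc ⌊X⌋₊ ⌊2 * X⌋₊).card : ℝ) ≤ 2 * X := by
    rw [Nat.card_Ioc]
    calc ((⌊2 * X⌋₊ - ⌊X⌋₊ : ℕ) : ℝ) ≤ (⌊2 * X⌋₊ : ℝ) := by exact_mod_cast Nat.sub_le _ _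
      _ ≤ 2 * X := Nat.floor_le (by linarith)
  have hcoef : 0 ≤ 4 * H / (X * δ ^ 2) := by positivity
  calc ∑ n ∈ Ioc ⌊X⌋₊ ⌊2 * X⌋₊, (th q a n H - H / q.totient) ^ 2
      ≤ ∑ n ∈ Ioc ⌊X⌋₊ ⌊2 * X⌋₊, (18 * κ ^ 2 * (H : ℝ) ^ 2 + 4 * H / (X * δ ^ 2) *
        ∫ y in (Real.log n - δ)..(Real.log ((n + H : ℕ) : ℝ)), addE q a Nm δ y ^ 2) :=
        sum_le_sum hpt
    _ = (Ioc ⌊X⌋₊ ⌊2 * X⌋₊).card * (18 * κ ^ 2 * (H : ℝ) ^ 2) + 4 * H / (X * δ ^ 2) *
        ∑ n ∈ Ioc ⌊X⌋₊ ⌊2 * X⌋₊,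
        ∫ y in (Real.log n - δ)..(Real.log ((n + H : ℕ) : ℝ)), addE q a Nm δ y ^ 2 := by
        rw [sum_add_distrib, sum_const, nsmul_eq_mul, mul_sum]
    _ ≤ 2 * X * (18 * κ ^ 2 * (H : ℝ) ^ 2) + 4 * H / (X * δ ^ 2) *
        (3 * H * (6 * (η / 144 * δ ^ 2 * X ^ 2))) := by
        apply add_le_add
        · exact mul_le_mul_of_nonneg_right hcard (by positivity)
        · apply mul_le_mul_of_nonneg_left _ hcoef
          exact hsum.trans (mul_le_mul_of_nonneg_left hK (by positivity))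
    _ = (36 * κ ^ 2) * (X * (H : ℝ) ^ 2) + η / 2 * (X * (H : ℝ) ^ 2) := by
        field_simp
        ring
    _ ≤ η / 2 * (X * (H : ℝ) ^ 2) + η / 2 * (X * (H : ℝ) ^ 2) := by
        have : 0 ≤ X * (H : ℝ) ^ 2 := by positivity
        have := mul_le_mul_of_nonneg_right hκη this
        linarith
    _ = η * X * (H : ℝ) ^ 2 := by ring

end Pool.Agent.H43.SI
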