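import Pool.Agent.H43.LF.Defs

/-!
# Primes in almost all short intervals (H43/SI): definitions and plan

Heath-Brown's identity with `K = 3` writes `Λ χ` as a combination of the box functions `bf χ e`,
`e : Fin 6 → ℕ`: the Dirichlet convolution of six functions supported on the dyadic intervals
`(2^(e_i - 1), 2^(e_i)]` (`{1}` for `e_i = 0`), with coefficients `μ χ` (`i = 0,1,2`), `χ log`
(`i = 3`), `χ` (`i = 4,5`). `bp χ e t` is the value at `1+it` of its Dirichlet series.

* `Mvt`, `Div`, `Mvp`: mean value theorem, divisor sums, mean values of products.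
* `Hb`: the identity; `Poly`: `bf` and `bp`.
* `Pl`, `Par`: Plancherel and the passage from sums over `(e^y, e^(y+δ)]` to `F(1+it)`.
* `Pw`: pointwise bounds for one factor; `Me1`, `Me2`, `Me`: the main estimate for
  `(log X)^A0 <= |t| <= X^(2/3-ε)`; `Freq`: all frequencies; `Si`: the theorem for `Λ χ`.
* `Msum`, `Psi`: prime number theorem with error `x (log x)^(-A)`, fixed modulus.
* `Six`, `Ap`, `Add`, `Pri`: residue classes, additive intervals, primes.
-/

namespace Pool.Agent.H43.SI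

open Finset

/-- the six coefficient functions -/
noncomputable def cf {q : ℕ} (χ : DirichletCharacter ℂ q) (i : Fin 6) (n : ℕ) : ℂ :=
  if (i : ℕ) < 3 then ((ArithmeticFunction.moebius n : ℤ) : ℂ) * χ n
  else if (i : ℕ) = 3 then χ n * ((Real.log n : ℝ) : ℂ) else χ n

/-- the Dirichlet polynomial of one factor at `1+it`: sum over `n ∈ (2^a/2, 2^a]` -/
noncomputable def pol (c : ℕ → ℂ) (a : ℕ) (t : ℝ) : ℂ := LF.ds c (2 ^ a / 2) (2 ^ a) t

/-- the product of the six polynomials -/
noncomputable def bp {q : ℕ} (χ : DirichletCharacter ℂ q) (e : Fin 6 → ℕ) (t : ℝ) : ℂ :=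
  ∏ i, pol (cf χ i) (e i) t

/-- one factor as an arithmetic function -/
noncomputable def af (c : ℕ → ℂ) (a : ℕ) : ArithmeticFunction ℂ :=
  ⟨fun n => if n ∈ Ioc (2 ^ a / 2) (2 ^ a) then c n else 0, by simp⟩

/-- the box function -/
noncomputable def bf {q : ℕ} (χ : DirichletCharacter ℂ q) (e : Fin 6 → ℕ) :
    ArithmeticFunction ℂ :=
  af (cf χ 0) (e 0) * af (cf χ 1) (e 1) * af (cf χ 2) (e 2) * af (cf χ 3) (e 3) *
    af (cf χ 4) (e 4) * af (cf χ 5) (e 5)

/-- sum of `f` over the integers `n <= Nm` with `y < log n <= y + δ` -/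
noncomputable def Sd (f : ℕ → ℂ) (Nm : ℕ) (δ y : ℝ) : ℂ :=
  ∑ n ∈ (Icc 1 Nm).filter (fun n : ℕ => y < Real.log n ∧ Real.log n ≤ y + δ), f n

/-- the weight of the frequency `t` -/
noncomputable def mul (δ δ1 t : ℝ) : ℝ :=
  min 1 (min ((δ1 * (1 + |t|)) ^ 2) ((1 / (δ * (1 + |t|))) ^ 2))

end Pool.Agent.H43.SI
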