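import Pool.Agent.H43.LF.Mu

/-!
# [H43 SI MSUM] Sums of `μ(n) χ(n)`

`‖Σ_{n<=x} μ(n)χ(n)‖ <= C x (log x)^(-A)` for `x >= 2`, all `χ mod q`, `C = C(q,A)`.

PROOF. Let `x >= X0`. `LF.mu_sum` with `t = 0` (`n^(-(1+0·i)) = 1/n`) and `X = x`: for
`N >= exp((log x)^0.97)`, `N <= x`, `N' <= 2N`: `‖Σ_{N<n<=N'} μχ/n‖ <= (log x)^(-A)`. Partial summation with the
increasing factor `n <= 2N`: `‖Σ_{N<n<=N'} μχ‖ <= 4N (log x)^(-A)`. Sum over `N = ⌊x/2^k⌋` as long as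
`x/2^k >= sqrt x` (`sqrt x >= 2 exp((log x)^0.97)`): `Σ 4x 2^(-k)(log x)^(-A) <= 8x(log x)^(-A)`, the remaining
`n <= 2 sqrt x + 2` trivially. (The intervals: `(⌊x/2^(k+1)⌋, ⌊x/2^k⌋]`, `⌊x/2^k⌋ <= 2⌊x/2^(k+1)⌋ + 1`: one extra term.)
For `2 <= x <= X0` enlarge `C`.
-/

namespace Pool.Agent.H43.SI

open Finset

private theorem msum_abel (b : ℕ → ℂ) (N : ℕ) (ε : ℝ) (k : ℕ)
    (hS : ∀ u, u ≤ N + k → ‖∑ n ∈ Ioc N u, b n‖ ≤ ε) :
    ‖∑ n ∈ Ioc N (N + k), (n : ℂ) * b n - ((N + k : ℕ) : ℂ) * ∑ n ∈ Ioc N (N + k), b n‖ ≤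
      k * ε := by
  induction k with
  | zero => simp
  | succ k ih =>
    have ih' := ih (fun u hu => hS u (by omega))
    have e : ∑ n ∈ Ioc N (N + (k + 1)), (n : ℂ) * b n -
        ((N + (k + 1) : ℕ) : ℂ) * ∑ n ∈ Ioc N (N + (k + 1)), b n =
        (∑ n ∈ Ioc N (N + k), (n : ℂ) * b n - ((N + k : ℕ) : ℂ) * ∑ n ∈ Ioc N (N + k), b n) -
        ∑ n ∈ Ioc N (N + k), b n := by
      rw [show N + (k + 1) = (N + k) + 1 by ring, Finset.sum_Ioc_succ_top (by omega),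
        Finset.sum_Ioc_succ_top (by omega)]
      push_cast
      ring
    rw [e]
    refine (norm_sub_le _ _).trans ?_
    have := add_le_add ih' (hS (N + k) (by omega))
    rw [Nat.cast_succ, add_mul, one_mul]
    exact this

private theorem msum_block {q : ℕ} (χ : DirichletCharacter ℂ q) (N N' : ℕ) (ε : ℝ) (hε : 0 ≤ ε)
    (hN' : N' ≤ 2 * N)
    (hS : ∀ u, u ≤ 2 * N →
      ‖LF.ds (fun n => ((ArithmeticFunction.moebius n : ℤ) : ℂ) * χ n) N u 0‖ ≤ ε) :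
    ‖∑ n ∈ Ioc N N', ((ArithmeticFunction.moebius n : ℤ) : ℂ) * χ n‖ ≤ 4 * N * ε := by
  rcases Nat.lt_or_ge N N' with hlt | hge
  swap
  · rw [Finset.Ioc_eq_empty (by omega), Finset.sum_empty, norm_zero]
    positivity
  obtain ⟨k, rfl⟩ : ∃ k, N' = N + k := ⟨N' - N, by omega⟩
  set b : ℕ → ℂ := fun n => ((ArithmeticFunction.moebius n : ℤ) : ℂ) * χ n *
    (n : ℂ) ^ (-(1 + ((0 : ℝ) : ℂ) * Complex.I)) with hb
  have h1 := msum_abel b N ε k (fun u hu => hS u (by omega))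
  have h2 := hS (N + k) hN'
  have h3 : ‖((N + k : ℕ) : ℂ) * ∑ n ∈ Ioc N (N + k), b n‖ ≤ ((N + k : ℕ) : ℝ) * ε := by
    rw [norm_mul, Complex.norm_natCast]
    exact mul_le_mul_of_nonneg_left h2 (Nat.cast_nonneg _)
  have h4 : ∑ n ∈ Ioc N (N + k), ((ArithmeticFunction.moebius n : ℤ) : ℂ) * χ n =
      ∑ n ∈ Ioc N (N + k), (n : ℂ) * b n := by
    refine Finset.sum_congr rfl fun n hn => ?_
    rw [mem_Ioc] at hn
    have hn0 : (n : ℂ) ≠ 0 := by
      have : n ≠ 0 := by omega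
      exact_mod_cast this
    simp only [hb]
    have e : (n : ℂ) ^ (-(1 + ((0 : ℝ) : ℂ) * Complex.I)) = (n : ℂ)⁻¹ := by
      rw [Complex.ofReal_zero, zero_mul, add_zero, Complex.cpow_neg_one]
    rw [e]
    field_simp
  rw [h4]
  have h5 : ∑ n ∈ Ioc N (N + k), (n : ℂ) * b n =
      (∑ n ∈ Ioc N (N + k), (n : ℂ) * b n - ((N + k : ℕ) : ℂ) * ∑ n ∈ Ioc N (N + k), b n) +
      ((N + k : ℕ) : ℂ) * ∑ n ∈ Ioc N (N + k), b n := by ring
  rw [h5]
  refine (norm_add_le _ _).trans ((add_le_add h1 h3).trans ?_)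
  have hk : (k : ℝ) ≤ N := by
    have : k ≤ N := by omega
    exact_mod_cast this
  push_cast
  have := mul_le_mul_of_nonneg_right hk hε
  nlinarith [mul_nonneg (Nat.cast_nonneg (α := ℝ) N) hε]

private theorem msum_triv {q : ℕ} (χ : DirichletCharacter ℂ q) (s : Finset ℕ) :
    ‖∑ n ∈ s, ((ArithmeticFunction.moebius n : ℤ) : ℂ) * χ n‖ ≤ s.card := by
  refine (norm_sum_le _ _).trans ((Finset.sum_le_card_nsmul _ _ (1 : ℝ) fun n _ => ?_).trans ?_)
  · rw [norm_mul]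
    have h1 : ‖((ArithmeticFunction.moebius n : ℤ) : ℂ)‖ ≤ 1 := by
      rw [Complex.norm_intCast]
      exact_mod_cast ArithmeticFunction.abs_moebius_le_one
    have h2 : ‖χ (n : ZMod q)‖ ≤ 1 := DirichletCharacter.norm_le_one χ _
    calc _ ≤ (1 : ℝ) * 1 := mul_le_mul h1 h2 (norm_nonneg _) zero_le_one
      _ = 1 := mul_one _
  · rw [nsmul_eq_mul, mul_one]

private theorem msum_dy {q : ℕ} (χ : DirichletCharacter ℂ q) (x ε E : ℝ) (L0 : ℕ) (hε : 0 ≤ ε)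
    (hE : E ≤ L0) (hEε : 1 ≤ L0 * ε)
    (hS : ∀ (N N' : ℕ), E ≤ N → (N : ℝ) ≤ x → N' ≤ 2 * N →
      ‖LF.ds (fun n => ((ArithmeticFunction.moebius n : ℤ) : ℂ) * χ n) N N' 0‖ ≤ ε) (m : ℕ) :
    (m : ℝ) ≤ x → ‖∑ n ∈ Icc 1 m, ((ArithmeticFunction.moebius n : ℤ) : ℂ) * χ n‖ ≤
      6 * m * ε + (2 * L0 + 1) := by
  induction m using Nat.strong_induction_on with
  | _ m ih =>
    intro hm
    have hm0 : (0 : ℝ) ≤ m := Nat.cast_nonneg m
    by_cases h : m ≤ 2 * L0 + 1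
    · refine (msum_triv χ _).trans ?_
      rw [Nat.card_Icc, Nat.add_sub_cancel]
      have h1 : (m : ℝ) ≤ 2 * L0 + 1 := by exact_mod_cast h
      have h2 : 0 ≤ 6 * m * ε := by positivity
      linarith
    · push Not at h
      set N := m / 2 with hN
      have hN1 : L0 ≤ N := by omega
      have hN2 : N < m := by omega
      have hN3 : 2 * N ≤ m := by omega
      have hN4 : m ≤ 2 * N + 1 := by omega
      have hNx : (N : ℝ) ≤ x := by
        have : (N : ℝ) ≤ m := by exact_mod_cast hN2.le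
        linarith
      have hEN : E ≤ N := hE.trans (by exact_mod_cast hN1)
      have h1 := ih N hN2 hNx
      have h2 := msum_block χ N (2 * N) ε hε le_rfl (fun u hu => hS N u hEN hNx hu)
      have h3 := msum_triv χ (Ioc (2 * N) m)
      have h4 : ((Ioc (2 * N) m).card : ℝ) ≤ 1 := by
        rw [Nat.card_Ioc]
        have : m - 2 * N ≤ 1 := by omega
        exact_mod_cast this
      have e : ∑ n ∈ Icc 1 m, ((ArithmeticFunction.moebius n : ℤ) : ℂ) * χ n =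
          ∑ n ∈ Icc 1 N, ((ArithmeticFunction.moebius n : ℤ) : ℂ) * χ n +
          (∑ n ∈ Ioc N (2 * N), ((ArithmeticFunction.moebius n : ℤ) : ℂ) * χ n +
          ∑ n ∈ Ioc (2 * N) m, ((ArithmeticFunction.moebius n : ℤ) : ℂ) * χ n) := by
        rw [Finset.sum_Ioc_consecutive _ (by omega) hN3]
        have e1 : ∀ k, Icc 1 k = Ioc 0 k := by
          intro k
          ext y
          simp only [mem_Icc, mem_Ioc]
          omega
        rw [e1, e1, Finset.sum_Ioc_consecutive _ (by omega) hN2.le]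
      rw [e]
      refine (norm_add_le _ _).trans ((add_le_add le_rfl (norm_add_le _ _)).trans ?_)
      have h5 : (1 : ℝ) ≤ m * ε := by
        refine hEε.trans (mul_le_mul_of_nonneg_right ?_ hε)
        exact_mod_cast hN1.trans hN2.le
      have h6 : 2 * (N : ℝ) * ε ≤ m * ε :=
        mul_le_mul_of_nonneg_right (by exact_mod_cast hN3) hε
      linarith

theorem msum (q : ℕ) [NeZero q] (A : ℝ) (hA : 0 < A) : ∃ C : ℝ, 0 < C ∧
    ∀ (χ : DirichletCharacter ℂ q) (x : ℝ), 2 ≤ x →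
    ‖∑ n ∈ Icc 1 ⌊x⌋₊, ((ArithmeticFunction.moebius n : ℤ) : ℂ) * χ n‖ ≤
      C * x * (Real.log x) ^ (-A) := by
  obtain ⟨X0, hX0, hmu⟩ := LF.mu_sum q A hA
  -- conditions
  have c1 : ∀ᶠ ℓ : ℝ in Filter.atTop, 2 ≤ ℓ ^ (0.03 : ℝ) :=
    (tendsto_rpow_atTop (by norm_num)).eventually_ge_atTop 2
  have c2 : ∀ᶠ ℓ : ℝ in Filter.atTop, ‖Real.log ℓ‖ ≤ (1 / A) * ‖ℓ ^ (0.97 : ℝ)‖ :=
    (isLittleO_log_rpow_atTop (by norm_num : (0 : ℝ) < 0.97)).bound (by positivity)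
  have c3 : ∀ᶠ ℓ : ℝ in Filter.atTop, (1 : ℝ) ≤ ℓ := Filter.eventually_ge_atTop 1
  obtain ⟨X1, hX1⟩ := Filter.eventually_atTop.1
    (Real.tendsto_log_atTop.eventually (c1.and (c2.and c3)))
  set X2 := max X0 (max X1 2) with hX2
  have hX2' : 2 ≤ X2 := (le_max_right X1 2).trans (le_max_right _ _)
  have hlogX2 : 0 < Real.log X2 := Real.log_pos (by linarith)
  refine ⟨11 + (Real.log X2) ^ A, by positivity, fun χ x hx => ?_⟩
  have hx0 : 0 < x := by linarith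
  have hlx : 0 < Real.log x := Real.log_pos (by linarith)
  have hfl : (⌊x⌋₊ : ℝ) ≤ x := Nat.floor_le hx0.le
  rcases le_or_gt X2 x with h | h
  · -- large x
    have hxX0 : X0 ≤ x := (le_max_left _ _).trans h
    have hxX1 : X1 ≤ x := (le_max_left X1 2).trans ((le_max_right _ _).trans h)
    obtain ⟨d1, d2, d3⟩ := hX1 x hxX1
    set ℓ := Real.log x with hℓ
    set ε := ℓ ^ (-A) with hε
    have hε0 : 0 < ε := Real.rpow_pos_of_pos hlx _
    set E := Real.exp (ℓ ^ (0.97 : ℝ)) with hE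
    set L0 := ⌈E⌉₊ with hL0
    have hE0 : 0 < E := Real.exp_pos _
    have hEL : E ≤ L0 := Nat.le_ceil _
    have hLE : (L0 : ℝ) ≤ E + 1 := (Nat.ceil_lt_add_one hE0.le).le
    have hεexp : ε = Real.exp (-(A * Real.log ℓ)) := by
      rw [hε, Real.rpow_def_of_pos hlx]
      congr 1
      ring
    have hAlog : A * Real.log ℓ ≤ ℓ ^ (0.97 : ℝ) := by
      have h1 : Real.log ℓ ≤ (1 / A) * ℓ ^ (0.97 : ℝ) := by
        have := (le_abs_self (Real.log ℓ)).trans d2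
        rwa [Real.norm_eq_abs, abs_of_nonneg (Real.rpow_nonneg hlx.le _)] at this
      have h2 := mul_le_mul_of_nonneg_left h1 hA.le
      rwa [← mul_assoc, mul_one_div_cancel hA.ne', one_mul] at h2
    have hEε : 1 ≤ L0 * ε := by
      have h1 : 1 ≤ E * ε := by
        rw [hE, hεexp, ← Real.exp_add]
        exact Real.one_le_exp (by linarith)
      exact h1.trans (mul_le_mul_of_nonneg_right hEL hε0.le)
    have hhalf : ℓ ^ (0.97 : ℝ) ≤ ℓ / 2 := by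
      have h1 : ℓ = ℓ ^ (0.97 : ℝ) * ℓ ^ (0.03 : ℝ) := by
        rw [← Real.rpow_add hlx]
        norm_num
      have h2 : ℓ ^ (0.97 : ℝ) * 2 ≤ ℓ := by
        calc ℓ ^ (0.97 : ℝ) * 2 ≤ ℓ ^ (0.97 : ℝ) * ℓ ^ (0.03 : ℝ) :=
              mul_le_mul_of_nonneg_left d1 (Real.rpow_nonneg hlx.le _)
          _ = ℓ := h1.symm
      linarith
    have hEx : E ≤ x * ε := by
      have h1 : x = Real.exp ℓ := (Real.exp_log hx0).symm
      rw [hεexp, h1, ← Real.exp_add, hE]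
      refine Real.exp_le_exp.2 ?_
      linarith
    have hE1 : 1 ≤ E := Real.one_le_exp (Real.rpow_nonneg hlx.le _)
    have h1 := msum_dy χ x ε E L0 hε0.le hEL hEε
      (fun N N' hN hNx hN' => hmu χ x hxX0 N N' 0 hN hNx hN' (by rw [abs_zero]; exact hx0.le))
      ⌊x⌋₊ hfl
    refine h1.trans ?_
    have h2 : 6 * (⌊x⌋₊ : ℝ) * ε ≤ 6 * x * ε := by gcongr
    have h3 : 0 ≤ (Real.log X2) ^ A * x * ε := by positivity
    have h4 : (11 + Real.log X2 ^ A) * x * ε = 6 * x * ε + 5 * (x * ε) +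
        (Real.log X2) ^ A * x * ε := by ring
    rw [h4]
    linarith
  · -- small x
    refine (msum_triv χ _).trans ?_
    rw [Nat.card_Icc, Nat.add_sub_cancel]
    have h1 : (1 : ℝ) ≤ (Real.log X2) ^ A * (Real.log x) ^ (-A) := by
      rw [Real.rpow_neg hlx.le, ← div_eq_mul_inv, ← Real.div_rpow hlogX2.le hlx.le]
      refine Real.one_le_rpow ?_ hA.le
      rw [le_div_iff₀ hlx, one_mul]
      exact Real.log_le_log hx0 h.le
    have h2 : 0 ≤ 11 * x * (Real.log x) ^ (-A) := by positivity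
    have h3 : (11 + Real.log X2 ^ A) * x * (Real.log x) ^ (-A) =
        11 * x * (Real.log x) ^ (-A) + x * ((Real.log X2) ^ A * (Real.log x) ^ (-A)) := by ring
    rw [h3]
    have h4 : x * 1 ≤ x * ((Real.log X2) ^ A * (Real.log x) ^ (-A)) :=
      mul_le_mul_of_nonneg_left h1 hx0.le
    linarith

end Pool.Agent.H43.SI
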